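import Pool.Agent.Lib.H98Z.S3
import Pool.Agent.Lib.H24N.N1

/-!
# H98M, file M0: definitions for 'disconnected <= cut vertex' (see PROOF.md)

`cr cross e f`: 1 if the edges cross, else 0 (in `ZMod 2`). `wk g l`: the sum of `g` over the edges of
the walk `l`; `cy g l`: the sum over the edges of the closed walk `l`. `Geo cross`: the geometric
facts used (they hold for crossing tables of simple drawings).
-/

set_option autoImplicit false
set_option linter.unusedSectionVars false

namespace H98M

open Finset H98P H98Z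

variable {V : Type*} [Fintype V] [DecidableEq V]

/-- crossing number mod 2 of two edges -/
noncomputable def cr (cross : Sym2 V → Sym2 V → Prop) (e f : Sym2 V) : ZMod 2 :=
  @ite _ (cross e f) (Classical.dec _) 1 0

theorem cr_one {cross : Sym2 V → Sym2 V → Prop} {e f : Sym2 V} (h : cross e f) :
    cr cross e f = 1 := by
  unfold cr
  exact if_pos h

theorem cr_zero {cross : Sym2 V → Sym2 V → Prop} {e f : Sym2 V} (h : ¬ cross e f) :
    cr cross e f = 0 := by
  unfold cr
  exact if_neg h

theorem cr_ne_zero {cross : Sym2 V → Sym2 V → Prop} {e f : Sym2 V} (h : cr cross e f ≠ 0) :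
    cross e f := by
  by_contra h1
  exact h (cr_zero h1)

/-- The sum of `g` over the edges of a walk. -/
def wk (g : Sym2 V → ZMod 2) : List V → ZMod 2
  | [] => 0
  | [_] => 0
  | a :: b :: l => g s(a, b) + wk g (b :: l)

/-- The sum of `g` over the edges of a closed walk. -/
def cy (g : Sym2 V → ZMod 2) : List V → ZMod 2
  | [] => 0
  | a :: l => wk g (a :: (l ++ [a]))

/-- The edges of a walk. -/
def we : List V → List (Sym2 V)
  | [] => []
  | [_] => []
  | a :: b :: l => s(a, b) :: we (b :: l)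

/-- The edges of a closed walk. -/
def ce : List V → List (Sym2 V)
  | [] => []
  | a :: l => we (a :: (l ++ [a]))

theorem wk_eq (g : Sym2 V → ZMod 2) : ∀ l : List V, wk g l = ((we l).map g).sum
  | [] => rfl
  | [_] => rfl
  | a :: b :: l => by
    rw [wk, we, List.map_cons, List.sum_cons, wk_eq g (b :: l)]

theorem cy_eq (g : Sym2 V → ZMod 2) : ∀ l : List V, cy g l = ((ce l).map g).sum
  | [] => rfl
  | a :: l => by
    rw [cy, ce, wk_eq]

/-- The geometric facts. -/
structure Geo (cross : Sym2 V → Sym2 V → Prop) : Prop where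
  symm : ∀ e f, cross e f → cross f e
  adj : ∀ a b c, ¬ cross s(a, b) s(a, c)
  /-- a loop crosses nothing -/
  loop : ∀ a e, ¬ cross s(a, a) e
  /-- two free rays -/
  v2 : ∀ W : Finset V, 3 ≤ W.card → ∀ p ∈ W, V2 cross W p
  /-- disjoint triangles cross evenly -/
  tri : ∀ a b c x y z : V, [a, b, c, x, y, z].Nodup →
    (cr cross s(a, b) s(x, y) + cr cross s(a, b) s(y, z) + cr cross s(a, b) s(x, z)) +
    (cr cross s(b, c) s(x, y) + cr cross s(b, c) s(y, z) + cr cross s(b, c) s(x, z)) +
    (cr cross s(a, c) s(x, y) + cr cross s(a, c) s(y, z) + cr cross s(a, c) s(x, z)) = 0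
  /-- the number of crossings of five points is odd -/
  five : ∀ a b c d z : V, [a, b, c, d, z].Nodup →
    cr cross s(a, b) s(c, d) + cr cross s(a, c) s(b, d) + cr cross s(a, d) s(b, c) +
    (cr cross s(a, b) s(c, z) + cr cross s(a, b) s(d, z)) +
    (cr cross s(a, c) s(b, z) + cr cross s(a, c) s(d, z)) +
    (cr cross s(a, d) s(b, z) + cr cross s(a, d) s(c, z)) +
    (cr cross s(b, c) s(a, z) + cr cross s(b, c) s(d, z)) +
    (cr cross s(b, d) s(a, z) + cr cross s(b, d) s(c, z)) +
    (cr cross s(c, d) s(a, z) + cr cross s(c, d) s(b, z)) = 1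
  /-- `h y = 1`: `y` is in the small triangle at `w`, `z` of the crossing of `ww'` and `zz'` -/
  sep : ∀ w w' z z' : V, cross s(w, w') s(z, z') → ∃ h : V → ZMod 2, ∀ y y', y ≠ y' →
    y ≠ w → y ≠ z → y' ≠ w → y' ≠ z → ¬ cross s(y, y') s(w, w') → ¬ cross s(y, y') s(z, z') →
    cr cross s(y, y') s(w, z) = h y + h y'

/-- `F` is disconnected on `W`. -/
def Disc (W : Finset V) (F : Finset (Sym2 V)) : Prop :=
  ∃ C D : Finset V, C.Nonempty ∧ D.Nonempty ∧ Disjoint C D ∧ C ∪ D = W ∧
    ∀ x ∈ C, ∀ y ∈ D, s(x, y) ∉ F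

/-- HYPOTHESIS on cut vertices: `F` plane, connected on `W`, `F - b` disconnected on `W - b`. -/
def HC (cross : Sym2 V → Sym2 V → Prop) : Prop :=
  ∀ (W : Finset V) (F : Finset (Sym2 V)) (b : V), F ⊆ LW W → Plane cross F → b ∈ W →
    ¬ Disc W F → Disc (W.erase b) (F.filter fun e => b ∉ e) → Acy cross (Un cross W F)

/-- The conclusion on `W`: all disconnected plane sets. -/
def HD (cross : Sym2 V → Sym2 V → Prop) (W : Finset V) : Prop :=
  ∀ F : Finset (Sym2 V), F ⊆ LW W → Plane cross F → Disc W F → Acy cross (Un cross W F)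

end H98M
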