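import Pool.Agent.Lib.H98M.MF

/-!
# H98M, file ME: it is enough to treat the bridging edges of one separation at the cut vertex

`HE`: for every connected plane `F` with a cut vertex `v` there is a separation `(A, B)` of `W - v` (no edges of
`F` between `A` and `B`) for which the complex of the plane sets of edges between `A` and `B` which miss `F` is
acyclic. `hc_of_he`: then `HC`. `perfect_of_he`: then plane perfect matchings.
-/

set_option autoImplicit false
set_option linter.unusedSectionVars false

namespace H98M

open Finset H98P H98Z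

variable {V : Type*} [Fintype V] [DecidableEq V]

/-- HYPOTHESIS on the bridging edges. -/
def HE (cross : Sym2 V → Sym2 V → Prop) : Prop :=
  ∀ (W : Finset V) (F : Finset (Sym2 V)) (v : V), F ⊆ LW W → Plane cross F → v ∈ W →
    ¬ Disc W F → Disc (W.erase v) (F.filter fun e => v ∉ e) →
    ∃ A B : Finset V, A.Nonempty ∧ B.Nonempty ∧ Disjoint A B ∧ A ∪ B = W.erase v ∧
      (∀ x ∈ A, ∀ y ∈ B, s(x, y) ∉ F) ∧ Acy cross (Miss cross (br A B) F)

/-- More edges keep the vertex set connected. -/
theorem not_disc_mono {W : Finset V} {F F' : Finset (Sym2 V)} (h : ¬ Disc W F) (hF : F ⊆ F') :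
    ¬ Disc W F' := by
  rintro ⟨C, D, h1, h2, h3, h4, h5⟩
  exact h ⟨C, D, h1, h2, h3, h4, fun x hx y hy h6 => h5 x hx y hy (hF h6)⟩

theorem hc_of_he {cross : Sym2 V → Sym2 V → Prop} (hG : Geo cross) (hE : HE cross) : HC cross := by
  intro W F0 v hF0 hp0 hv hc0 hd0
  have main : ∀ (k : ℕ) (F : Finset (Sym2 V)), (LW W).card - F.card = k → F ⊆ LW W →
      Plane cross F → ¬ Disc W F → Disc (W.erase v) (F.filter fun e => v ∉ e) →
      Acy cross (Un cross W F) := by
    intro k
    induction k using Nat.strong_induction_on with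
    | _ k ih =>
      intro F hk hF hp hc hd
      obtain ⟨A, B, hA, hB, hAB, hABW, hs, hacy⟩ := hE W F v hF hp hv hc hd
      have hvA : v ∉ A := fun h => by
        have h1 : v ∈ W.erase v := by rw [← hABW]; exact mem_union_left _ h
        exact (mem_erase.1 h1).1 rfl
      have hvB : v ∉ B := fun h => by
        have h1 : v ∈ W.erase v := by rw [← hABW]; exact mem_union_right _ h
        exact (mem_erase.1 h1).1 rfl
      have hAW : A ⊆ W := fun x hx => by
        have h1 : x ∈ W.erase v := by rw [← hABW]; exact mem_union_left _ hx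
        exact (mem_erase.1 h1).2
      have hBW : B ⊆ W := fun x hx => by
        have h1 : x ∈ W.erase v := by rw [← hABW]; exact mem_union_right _ hx
        exact (mem_erase.1 h1).2
      -- larger sets with the same separation
      have hbig : ∀ F' : Finset (Sym2 V), F ⊆ F' → F.card < F'.card → F' ⊆ LW W → Plane cross F' →
          (∀ x ∈ A, ∀ y ∈ B, s(x, y) ∉ F') → Acy cross (Un cross W F') := by
        intro F' h1 h2 h3 h4 h5
        have h6 := card_le_card h3
        refine ih _ (by omega) F' rfl h3 h4 (not_disc_mono hc h1) ⟨A, B, hA, hB, hAB, hABW, ?_⟩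
        exact fun x hx y hy h => h5 x hx y hy (mem_filter.1 h).1
      -- the bridging edges for larger sets
      have hbr : ∀ (j : ℕ) (F' : Finset (Sym2 V)), (LW W).card - F'.card = j → F ⊆ F' →
          F.card < F'.card → F' ⊆ LW W → Plane cross F' → (∀ x ∈ A, ∀ y ∈ B, s(x, y) ∉ F') →
          Acy cross (Miss cross (br A B) F') := by
        intro j
        induction j using Nat.strong_induction_on with
        | _ j ihj =>
          intro F' hj h1 h2 h3 h4 h5
          have hsub : Miss cross (br A B) F' ⊆ Un cross W F' := by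
            intro e he
            rw [mem_miss, mem_br] at he
            obtain ⟨⟨a, ha, b, hb, rfl⟩, h6⟩ := he
            exact mem_un.2 ⟨mem_LW.2 ⟨hAW ha, hBW hb, fun h => disjoint_left.1 hAB ha (h ▸ hb)⟩, h6,
              h5 a ha b hb⟩
          have hU : Miss cross (br A B) F' ∪ (Un cross W F' \ Miss cross (br A B) F') =
              Un cross W F' := by
            rw [union_sdiff_self_eq_union]
            exact union_eq_right.2 hsub
          have hM := hbig F' h1 h2 h3 h4 h5
          rw [← hU] at hM
          refine split_mp hG.symm disjoint_sdiff (fun Y hY hYn hYp => ?_) hM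
          have hYU : ∀ e ∈ Y, e ∈ Un cross W F' ∧ e ∉ Miss cross (br A B) F' :=
            fun e he => mem_sdiff.1 (hY he)
          have hdis : Disjoint F' Y :=
            disjoint_left.2 fun e he hY' => (mem_un.1 (hYU e hY').1).2.2 he
          have hsubW : F' ∪ Y ⊆ LW W := union_subset h3 fun e he => (mem_un.1 (hYU e he).1).1
          have hc1 : (F' ∪ Y).card = F'.card + Y.card := card_union_of_disjoint hdis
          have hc2 := card_le_card hsubW
          have hc3 := card_pos.2 hYn
          rw [miss_miss]
          refine ihj _ (by omega) (F' ∪ Y) rfl (h1.trans subset_union_left) (by omega) hsubW ?_ ?_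
          · exact plane_un hG.symm h4 hYp fun e he f hf h =>
              (mem_un.1 (hYU f hf).1).2.1 e he (hG.symm _ _ h)
          · intro x hx y hy h
            rcases mem_union.1 h with h | h
            · exact h5 x hx y hy h
            · exact (hYU _ h).2 (mem_miss.2 ⟨mem_br.2 ⟨x, hx, y, hy, rfl⟩,
                (mem_un.1 (hYU _ h).1).2.1⟩)
      -- the set `F` itself
      have hsub : Miss cross (br A B) F ⊆ Un cross W F := by
        intro e he
        rw [mem_miss, mem_br] at he
        obtain ⟨⟨a, ha, b, hb, rfl⟩, h6⟩ := he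
        exact mem_un.2 ⟨mem_LW.2 ⟨hAW ha, hBW hb, fun h => disjoint_left.1 hAB ha (h ▸ hb)⟩, h6,
          hs a ha b hb⟩
      have hU : Miss cross (br A B) F ∪ (Un cross W F \ Miss cross (br A B) F) = Un cross W F := by
        rw [union_sdiff_self_eq_union]
        exact union_eq_right.2 hsub
      rw [← hU]
      refine split_mpr hG.symm disjoint_sdiff (fun Y hY hYn hYp => ?_) hacy
      have hYU : ∀ e ∈ Y, e ∈ Un cross W F ∧ e ∉ Miss cross (br A B) F :=
        fun e he => mem_sdiff.1 (hY he)
      have hdis : Disjoint F Y :=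
        disjoint_left.2 fun e he hY' => (mem_un.1 (hYU e hY').1).2.2 he
      have hsubW : F ∪ Y ⊆ LW W := union_subset hF fun e he => (mem_un.1 (hYU e he).1).1
      have hc1 : (F ∪ Y).card = F.card + Y.card := card_union_of_disjoint hdis
      have hc3 := card_pos.2 hYn
      rw [miss_miss]
      refine hbr _ (F ∪ Y) rfl subset_union_left (by omega) hsubW ?_ ?_
      · exact plane_un hG.symm hp hYp fun e he f hf h =>
          (mem_un.1 (hYU f hf).1).2.1 e he (hG.symm _ _ h)
      · intro x hx y hy h
        rcases mem_union.1 h with h | h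
        · exact hs x hx y hy h
        · exact (hYU _ h).2 (mem_miss.2 ⟨mem_br.2 ⟨x, hx, y, hy, rfl⟩,
            (mem_un.1 (hYU _ h).1).2.1⟩)
  exact main _ F0 rfl hF0 hp0 hc0 hd0

/-- PERFECT MATCHINGS from `HE`. -/
theorem perfect_of_he {cross : Sym2 V → Sym2 V → Prop} (hG : Geo cross) (hE : HE cross)
    {A B : Finset V} (hAB : Disjoint A B) (h : A.card = B.card) :
    ∃ f : A ≃ B, ∀ a a' : A, ¬ cross s(a.1, (f a).1) s(a'.1, (f a').1) := by
  refine perfect_of_hz hG.symm hG.adj (fun W => ?_) hAB h
  refine hz_of_hm hG.symm hG.adj (fun hW p hp => hG.v2 W hW p hp) ?_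
  intro F C hF hp hCW hCn hne h1 _ _
  refine hd_of_hc hG (hc_of_he hG hE) W F hF hp ⟨C, W \ C, hCn, ?_, disjoint_sdiff, ?_, h1⟩
  · rw [sdiff_nonempty]
    exact fun h => hne (subset_antisymm hCW h)
  · rw [union_sdiff_self_eq_union]
    exact union_eq_right.2 hCW

end H98M
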