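import Pool.Agent.Lib.H63L.GC1
import Pool.Agent.Lib.H63L.GC2
import Pool.Agent.Lib.H63L.GC3
import Pool.Agent.Lib.H63L.GC4

/-!
# H98M, file MTg: SEPa, six points (generated resolution proofs, generator of helper63)
-/

set_option linter.unusedVariables false
set_option autoImplicit false

namespace H53P

section

variable {V : Type} {T : Table V}

theorem bMTz5_20112_16528 : ∀ b0 b1 b2 b3 b5 b6 b8 b12 b13 : Bool,
    ok5 b0 b1 b2 b3 true b5 b6 true b8 false false false b12 b13 true = true → False := by
  decide +kernel

theorem MTz5_20112_16528 {p0 p1 p2 p3 p4 : V} (h : T.Ok5 p0 p1 p2 p3 p4)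
    (n4 : T.X p0 p2 p1 p4 = true) (n7 : T.X p0 p3 p1 p4 = true) (n9 : T.X p0 p2 p3 p4 = false) (n10 : T.X p0 p3 p2 p4 = false) (n11 : T.X p0 p4 p2 p3 = false) (n14 : T.X p1 p4 p2 p3 = true) : False := by
  have h2 := h
  unfold Table.Ok5 at h2
  rw [n4, n7, n9, n10, n11, n14] at h2
  exact bMTz5_20112_16528 _ _ _ _ _ _ _ _ _ h2

theorem bMTz5_21073_593 : ∀ b1 b2 b3 b5 b7 b8 b10 b11 b13 : Bool,
    ok5 true b1 b2 b3 true b5 true b7 b8 true b10 b11 false b13 false = true → False := by
  decide +kernel

theorem MTz5_21073_593 {p0 p1 p2 p3 p4 : V} (h : T.Ok5 p0 p1 p2 p3 p4)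
    (n0 : T.X p0 p1 p2 p3 = true) (n4 : T.X p0 p2 p1 p4 = true) (n6 : T.X p0 p1 p3 p4 = true) (n9 : T.X p0 p2 p3 p4 = true) (n12 : T.X p1 p2 p3 p4 = false) (n14 : T.X p1 p4 p2 p3 = false) : False := by
  have h2 := h
  unfold Table.Ok5 at h2
  rw [n0, n4, n6, n9, n12, n14] at h2
  exact bMTz5_21073_593 _ _ _ _ _ _ _ _ _ h2

theorem bMTz5_22625_2145 : ∀ b1 b2 b3 b4 b7 b8 b9 b10 b13 : Bool,
    ok5 true b1 b2 b3 b4 true true b7 b8 b9 b10 true false b13 false = true → False := by
  decide +kernel

theorem MTz5_22625_2145 {p0 p1 p2 p3 p4 : V} (h : T.Ok5 p0 p1 p2 p3 p4)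
    (n0 : T.X p0 p1 p2 p3 = true) (n5 : T.X p0 p4 p1 p2 = true) (n6 : T.X p0 p1 p3 p4 = true) (n11 : T.X p0 p4 p2 p3 = true) (n12 : T.X p1 p2 p3 p4 = false) (n14 : T.X p1 p4 p2 p3 = false) : False := by
  have h2 := h
  unfold Table.Ok5 at h2
  rw [n0, n5, n6, n11, n12, n14] at h2
  exact bMTz5_22625_2145 _ _ _ _ _ _ _ _ _ h2

theorem bMTz5_4914_4866 : ∀ b0 b2 b3 b6 b7 b10 b11 b13 b14 : Bool,
    ok5 b0 true b2 b3 false false b6 b7 true true b10 b11 true b13 b14 = true → False := by
  decide +kernel

theorem MTz5_4914_4866 {p0 p1 p2 p3 p4 : V} (h : T.Ok5 p0 p1 p2 p3 p4)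
    (n1 : T.X p0 p2 p1 p3 = true) (n4 : T.X p0 p2 p1 p4 = false) (n5 : T.X p0 p4 p1 p2 = false) (n8 : T.X p0 p4 p1 p3 = true) (n9 : T.X p0 p2 p3 p4 = true) (n12 : T.X p1 p2 p3 p4 = true) : False := by
  have h2 := h
  unfold Table.Ok5 at h2
  rw [n1, n4, n5, n8, n9, n12] at h2
  exact bMTz5_4914_4866 _ _ _ _ _ _ _ _ _ h2

theorem bMTz5_5_5 : ∀ b1 b3 b4 b5 b6 b7 b8 b9 b10 b11 b12 b13 b14 : Bool,
    ok5 true b1 true b3 b4 b5 b6 b7 b8 b9 b10 b11 b12 b13 b14 = true → False := by
  decide +kernel

theorem MTz5_5_5 {p0 p1 p2 p3 p4 : V} (h : T.Ok5 p0 p1 p2 p3 p4)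
    (n0 : T.X p0 p1 p2 p3 = true) (n2 : T.X p0 p3 p1 p2 = true) : False := by
  have h2 := h
  unfold Table.Ok5 at h2
  rw [n0, n2] at h2
  exact bMTz5_5_5 _ _ _ _ _ _ _ _ _ _ _ _ _ h2

theorem bMTzA1_18577_16528 : ∀ b1 b2 b3 b5 b6 b8 b9 b10 b12 b13 : Bool,
    ok5a false b1 b2 b3 true b5 b6 true b8 b9 b10 false b12 b13 true = true → False := by
  decide +kernel

theorem MTzA1_18577_16528 {p0 p1 p2 p3 p4 : V} (h : T.Ok5a p0 p1 p2 p3 p4)
    (n0 : T.X p0 p1 p2 p3 = false) (n4 : T.X p0 p2 p1 p4 = true) (n7 : T.X p0 p3 p1 p4 = true) (n11 : T.X p0 p4 p2 p3 = false) (n14 : T.X p1 p4 p2 p3 = true) : False := by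
  have h2 := h
  unfold Table.Ok5a at h2
  rw [n0, n4, n7, n11, n14] at h2
  exact bMTzA1_18577_16528 _ _ _ _ _ _ _ _ _ _ h2

end

variable {V : Type} (T : Table V)

include T

theorem MT_sepa_1111 {p a z b y x : V} (hN : [p, a, z, b, y, x].Nodup) (h0 : T.X p a z b = true)
    (h1 : T.X y x p a = false) (h2 : T.X y x z b = false) (h3 : T.X y x p z = true)
    (h4 : T.X y a p z = false → T.X y a z b = false → T.X y a b p = false → False)
    (h5 : T.X y a p z = true → T.X y a z b = true → T.X y a b p = false → False)
    (h6 : T.X y a p z = true → T.X y a z b = false → T.X y a b p = true → False)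
    (h7 : T.X y a p z = false → T.X y a z b = true → T.X y a b p = true → False)
    (h8 : T.X y b p z = false → T.X y b z a = false → T.X y b a p = false → False)
    (h9 : T.X y b p z = true → T.X y b z a = true → T.X y b a p = false → False)
    (h10 : T.X y b p z = true → T.X y b z a = false → T.X y b a p = true → False)
    (h11 : T.X y b p z = false → T.X y b z a = true → T.X y b a p = true → False)
    (h12 : T.X x a p z = false → T.X x a z b = false → T.X x a b p = false → False)
    (h13 : T.X x a p z = true → T.X x a z b = true → T.X x a b p = false → False)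
    (h14 : T.X x a p z = true → T.X x a z b = false → T.X x a b p = true → False)
    (h15 : T.X x a p z = false → T.X x a z b = true → T.X x a b p = true → False)
    (h16 : T.X x b p z = false → T.X x b z a = false → T.X x b a p = false → False)
    (h17 : T.X x b p z = true → T.X x b z a = true → T.X x b a p = false → False)
    (h18 : T.X x b p z = true → T.X x b z a = false → T.X x b a p = true → False)
    (h19 : T.X x b p z = false → T.X x b z a = true → T.X x b a p = true → False) : False := by
  have k0 : T.Ok5 p a z b y := T.n5 hN (.cons_cons _ (.cons_cons _ (.cons_cons _ (.cons_cons _ (.cons_cons _ (List.nil_sublist _))))))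
  have k1 : T.Ok5 p a z b x := T.n5 hN (.cons_cons _ (.cons_cons _ (.cons_cons _ (.cons_cons _ (.cons _ (.cons_cons _ (List.nil_sublist _)))))))
  have k2 : T.Ok5 p a z y x := T.n5 hN (.cons_cons _ (.cons_cons _ (.cons_cons _ (.cons _ (.cons_cons _ (.cons_cons _ (List.nil_sublist _)))))))
  have k3 : T.Ok5 p a b y x := T.n5 hN (.cons_cons _ (.cons_cons _ (.cons _ (.cons_cons _ (.cons_cons _ (.cons_cons _ (List.nil_sublist _)))))))
  have k4 : T.Ok5 p z b y x := T.n5 hN (.cons_cons _ (.cons _ (.cons_cons _ (.cons_cons _ (.cons_cons _ (.cons_cons _ (List.nil_sublist _)))))))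
  have k5 : T.Ok5 a z b y x := T.n5 hN (.cons _ (.cons_cons _ (.cons_cons _ (.cons_cons _ (.cons_cons _ (.cons_cons _ (List.nil_sublist _)))))))
  have sp0 : T.Sp5 p a z b y x := T.sp5 hN (.cons_cons _ (.cons_cons _ (.cons_cons _ (.cons_cons _ (.cons_cons _ (.cons_cons _ (List.nil_sublist _)))))))
  have g1 := T.q01 p a z b
  have g2 := T.q02 p a z b
  have g4 := T.q01 p a z y
  have g5 := T.q02 p a z y
  have g6 := T.q12 p a z y
  have g7 := T.q01 p a z x
  have g9 := T.q12 p a z x
  have g10 := T.q01 p a b y
  have g13 := T.q01 p a b x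
  have g22 := T.q01 p z b x
  have g23 := T.q02 p z b x
  have g24 := T.q12 p z b x
  have g25 := T.q01 p z y x
  have g26 := T.q02 p z y x
  have g28 := T.q01 p b y x
  have g29 := T.q02 p b y x
  have g32 := T.q02 a z b y
  have g33 := T.q12 a z b y
  have g35 := T.q02 a z b x
  have g37 := T.q01 a z y x
  have g38 := T.q02 a z y x
  have g39 := T.q12 a z y x
  have g41 := T.q02 a b y x
  have g46 := T.ae1 k0
  have g57 := fun ha : T.alt p a b z y = true => zA1_16420_16416 (T.okA1 k0 ha)
  have g69 := fun ha : T.alt p a b z y = true => zA1_4704_512 (T.okA1 k0 ha)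
  have g71 := fun ha : T.alt p a b z y = true => zA1_4676_64 (T.okA1 k0 ha)
  have g84 := fun ha : T.alt p a b z y = true => zA1_16401_17 (T.okA1 k0 ha)
  have g95 := fun ha : T.alt p a b z y = true => zA1_584_520 (T.okA1 k0 ha)
  have g100 := fun ha : T.alt p a b z y = true => zA1_18560_2176 (T.okA1 k0 ha)
  have g143 := fun ha : T.alt p a z b y = true => zA0_16513_129 (T.okA0 k0 ha)
  have g146 := fun ha : T.alt p a z b y = true => zA0_294_256 (T.okA0 k0 ha)
  have g159 := fun ha : T.alt p a z b y = true => zA0_18448_2064 (T.okA0 k0 ha)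
  have g161 := fun ha : T.alt p a z b y = true => zA0_18577_18433 (T.okA0 k0 ha)
  have g198 := fun ha : T.alt p a y z b = true => zA2_16401_17 (T.okA2 k0 ha)
  have g200 := fun ha : T.alt p a y z b = true => zA2_16513_129 (T.okA2 k0 ha)
  have g206 := fun ha : T.alt p a y z b = true => zA2_18577_16385 (T.okA2 k0 ha)
  have g215 := fun ha : T.alt p a y z b = true => zA2_150_144 (T.okA2 k0 ha)
  have g227 := T.ae1 k1
  have g228 := T.ae01 k1
  have g229 := T.ae02 k1
  have g242 := fun ha : T.alt p a b z x = true => zA1_9482_0 (T.okA1 k1 ha)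
  have g250 := fun ha : T.alt p a b z x = true => zA1_4704_512 (T.okA1 k1 ha)
  have g252 := fun ha : T.alt p a b z x = true => zA1_4676_64 (T.okA1 k1 ha)
  have g265 := fun ha : T.alt p a b z x = true => zA1_16401_17 (T.okA1 k1 ha)
  have g268 := fun ha : T.alt p a b z x = true => zA1_294_32 (T.okA1 k1 ha)
  have g276 := fun ha : T.alt p a b z x = true => zA1_584_520 (T.okA1 k1 ha)
  have g279 := fun ha : T.alt p a b z x = true => zA1_2305_257 (T.okA1 k1 ha)
  have g314 := fun ha : T.alt p a z b x = true => zA0_18449_1 (T.okA0 k1 ha)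
  have g327 := fun ha : T.alt p a z b x = true => zA0_294_256 (T.okA0 k1 ha)
  have g338 := fun ha : T.alt p a z b x = true => zA0_2081_33 (T.okA0 k1 ha)
  have g340 := fun ha : T.alt p a z b x = true => zA0_18448_2064 (T.okA0 k1 ha)
  have g342 := fun ha : T.alt p a z b x = true => zA0_18577_18433 (T.okA0 k1 ha)
  have g379 := fun ha : T.alt p a x z b = true => zA2_16401_17 (T.okA2 k1 ha)
  have g381 := fun ha : T.alt p a x z b = true => zA2_16513_129 (T.okA2 k1 ha)
  have g387 := fun ha : T.alt p a x z b = true => zA2_18577_16385 (T.okA2 k1 ha)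
  have g396 := fun ha : T.alt p a x z b = true => zA2_150_144 (T.okA2 k1 ha)
  have g408 := T.ae1 k2
  have g409 := T.ae01 k2
  have g423 := fun ha : T.alt p a y z x = true => zA1_9482_0 (T.okA1 k2 ha)
  have g431 := fun ha : T.alt p a y z x = true => zA1_4704_512 (T.okA1 k2 ha)
  have g432 := fun ha : T.alt p a y z x = true => zA1_16529_128 (T.okA1 k2 ha)
  have g440 := fun ha : T.alt p a y z x = true => zA1_8450_258 (T.okA1 k2 ha)
  have g457 := fun ha : T.alt p a y z x = true => zA1_584_520 (T.okA1 k2 ha)
  have g519 := fun ha : T.alt p a z y x = true => zA0_2081_33 (T.okA0 k2 ha)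
  have g549 := fun ha : T.alt p a x z y = true => zA2_4676_512 (T.okA2 k2 ha)
  have g558 := fun ha : T.alt p a x z y = true => zA2_16528_144 (T.okA2 k2 ha)
  have g575 := fun ha : T.alt p a x z y = true => zA2_577_513 (T.okA2 k2 ha)
  have g589 := T.ae1 k3
  have g604 := fun ha : T.alt p a y b x = true => zA1_9482_0 (T.okA1 k3 ha)
  have g612 := fun ha : T.alt p a y b x = true => zA1_4704_512 (T.okA1 k3 ha)
  have g619 := fun ha : T.alt p a y b x = true => zA1_18577_16384 (T.okA1 k3 ha)
  have g638 := fun ha : T.alt p a y b x = true => zA1_584_520 (T.okA1 k3 ha)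
  have g641 := fun ha : T.alt p a y b x = true => zA1_2305_257 (T.okA1 k3 ha)
  have g692 := fun ha : T.alt p a b y x = true => zA0_1608_8 (T.okA0 k3 ha)
  have g722 := fun ha : T.alt p a x b y = true => zA2_18577_0 (T.okA2 k3 ha)
  have g730 := fun ha : T.alt p a x b y = true => zA2_4676_512 (T.okA2 k3 ha)
  have g756 := fun ha : T.alt p a x b y = true => zA2_577_513 (T.okA2 k3 ha)
  have g770 := T.ae1 k4
  have g795 := fun ha : T.alt p z y b x = true => zA1_4676_64 (T.okA1 k4 ha)
  have g823 := fun ha : T.alt p z y b x = true => zA1_4192_96 (T.okA1 k4 ha)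
  have g863 := fun ha : T.alt p z b y x = true => zA0_4164_68 (T.okA0 k4 ha)
  have g865 := fun ha : T.alt p z b y x = true => zA0_4192_96 (T.okA0 k4 ha)
  have g913 := fun ha : T.alt p z x b y = true => zA2_4704_64 (T.okA2 k4 ha)
  have g927 := fun ha : T.alt p z x b y = true => zA2_4640_544 (T.okA2 k4 ha)
  have g941 := fun ha : T.alt p z x b y = true => zA2_4164_68 (T.okA2 k4 ha)
  have g997 := z5_18596_160 k0
  have g998 := z5_18706_16640 k0
  have g1001 := z5_8778_520 k0
  have g1005 := z5_6241_4097 k0
  have g1021 := z5_10505_8193 k0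
  have g1047 := z5_2193_2193 k0
  have g1069 := z5_16985_16961 k0
  have g1136 := z5_17545_129 k1
  have g1156 := z5_16977_513 k1
  have g1166 := z5_5196_4104 k1
  have g1175 := z5_6241_4097 k1
  have g1185 := z5_18489_18433 k1
  have g1191 := z5_10505_8193 k1
  have g1198 := z5_4756_4224 k1
  have g1216 := z5_4617_4617 k1
  have g1217 := z5_2193_2193 k1
  have g1239 := z5_16985_16961 k1
  have g1320 := z5_10505_257 k2
  have g1322 := z5_16977_16896 k2
  have g1326 := z5_16977_513 k2
  have g1341 := z5_8778_520 k2
  have g1342 := z5_8778_8704 k2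
  have g1512 := z5_8778_8704 k3
  have g1669 := z5_6241_2112 k4
  have g1690 := z5_5196_1088 k4
  have g1823 := z5_4898_544 k5
  have g1838 := z5_6241_96 k5
  have g1875 := z5_4756_516 k5
  have g1971 := zsp_73_73 sp0
  have g1972 := zsp_73_1 sp0
  have g1977 := zsp_530_512 sp0
  have g1985 := zsp_2336_2048 sp0
  have g1986 := zsp_2336_256 sp0
  have g1988 := zsp_4132_4 sp0
  have g1989 := zsp_4132_4096 sp0
  have g1990 := zsp_4132_32 sp0
  have g1994 := zsp_8450_256 sp0
  have g1996 := zsp_16528_16 sp0
  have g2000 := zsp_18433_1 sp0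
  have g2008 := zsp_4672_64 sp0
  have g2011 : T.X p a z b = true := h0
  have g2012 : T.X p a y x = false := ((T.xs4 y x p a).symm.trans h1)
  have g2013 : T.X z b y x = false := ((T.xs4 y x z b).symm.trans h2)
  have g2014 : T.X p z y x = true := ((T.xs4 y x p z).symm.trans h3)
  have g2015 := fun (n0 : T.X p z a y = false) (n1 : T.X a y z b = false) (n2 : T.X p b a y = false) => h4 ((T.xs6 y a p z).trans n0) ((T.xs1 y a z b).trans n1) ((T.xs7 y a b p).trans n2)
  have g2016 := fun (n0 : T.X p z a y = true) (n1 : T.X a y z b = true) (n2 : T.X p b a y = false) => h5 ((T.xs6 y a p z).trans n0) ((T.xs1 y a z b).trans n1) ((T.xs7 y a b p).trans n2)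
  have g2017 := fun (n0 : T.X p z a y = true) (n1 : T.X a y z b = false) (n2 : T.X p b a y = true) => h6 ((T.xs6 y a p z).trans n0) ((T.xs1 y a z b).trans n1) ((T.xs7 y a b p).trans n2)
  have g2018 := fun (n0 : T.X p z a y = false) (n1 : T.X a y z b = true) (n2 : T.X p b a y = true) => h7 ((T.xs6 y a p z).trans n0) ((T.xs1 y a z b).trans n1) ((T.xs7 y a b p).trans n2)
  have g2019 := fun (n0 : T.X p z b y = false) (n1 : T.X a z b y = false) (n2 : T.X p a b y = false) => h8 ((T.xs6 y b p z).trans n0) ((T.xs7 y b z a).trans n1) ((T.xs7 y b a p).trans n2)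
  have g2021 := fun (n0 : T.X p z b y = true) (n1 : T.X a z b y = false) (n2 : T.X p a b y = true) => h10 ((T.xs6 y b p z).trans n0) ((T.xs7 y b z a).trans n1) ((T.xs7 y b a p).trans n2)
  have g2023 := fun (n0 : T.X p z a x = false) (n1 : T.X a x z b = false) (n2 : T.X p b a x = false) => h12 ((T.xs6 x a p z).trans n0) ((T.xs1 x a z b).trans n1) ((T.xs7 x a b p).trans n2)
  have g2024 := fun (n0 : T.X p z a x = true) (n1 : T.X a x z b = true) (n2 : T.X p b a x = false) => h13 ((T.xs6 x a p z).trans n0) ((T.xs1 x a z b).trans n1) ((T.xs7 x a b p).trans n2)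
  have g2025 := fun (n0 : T.X p z a x = true) (n1 : T.X a x z b = false) (n2 : T.X p b a x = true) => h14 ((T.xs6 x a p z).trans n0) ((T.xs1 x a z b).trans n1) ((T.xs7 x a b p).trans n2)
  have g2026 := fun (n0 : T.X p z a x = false) (n1 : T.X a x z b = true) (n2 : T.X p b a x = true) => h15 ((T.xs6 x a p z).trans n0) ((T.xs1 x a z b).trans n1) ((T.xs7 x a b p).trans n2)
  have g2027 := fun (n0 : T.X p z b x = false) (n1 : T.X a z b x = false) (n2 : T.X p a b x = false) => h16 ((T.xs6 x b p z).trans n0) ((T.xs7 x b z a).trans n1) ((T.xs7 x b a p).trans n2)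
  have g2029 := fun (n0 : T.X p z b x = true) (n1 : T.X a z b x = false) (n2 : T.X p a b x = true) => h18 ((T.xs6 x b p z).trans n0) ((T.xs7 x b z a).trans n1) ((T.xs7 x b a p).trans n2)
  have g2030 := fun (n0 : T.X p z b x = false) (n1 : T.X a z b x = true) (n2 : T.X p a b x = true) => h19 ((T.xs6 x b p z).trans n0) ((T.xs7 x b z a).trans n1) ((T.xs7 x b a p).trans n2)
  have s2031 := fun (n0 : T.X p z a b = true) => g1 g2011 n0
  have w2031 := bf s2031
  have s2032 := fun (n0 : T.X p b a z = true) => g2 g2011 n0
  have w2032 := bf s2032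
  have s2033 := fun (n0 : T.X p y z x = true) => g25 g2014 n0
  have w2033 := bf s2033
  have s2034 := fun (n0 : T.X p x z y = true) => g26 g2014 n0
  have w2034 := bf s2034
  have s2035 : T.X p a z x = true → T.X p a z y = true → False := fun n0 n1 => by
    have u0 := bf fun t => g4 n1 t
    have u1 := bf fun t => g7 n0 t
    have u2 := bt fun t => g1341 u0 n0 g2012 g2014 t
    have u3 := bt fun t => g1326 n1 u1 g2012 g2014 t
    exact g39 u2 u3
  have s2036 : T.X p a b x = true → T.alt p a z b x = false → T.X p z a x = false → T.X p a z y = true → False := fun n0 n1 n2 n3 => by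
    have u0 := bf fun t => g575 t n3 g2012 g2014
    have u1 := bf fun t => s2035 t n3
    have u2 := bf fun t => g4 n3 t
    have u3 := bf fun t => g1342 u2 u1 g2012 g2014 t
    have u4 := bf fun t => g1320 n3 u1 t w2034 u3
    have u5 := bf fun t => g423 t u2 u1 u4 w2033 u3
    have u6 := bt fun t => g408 t u5 u0
    have u7 := bf fun t => g519 u6 n3 t w2034
    have u8 := bf fun t => g13 n0 t
    have u9 := bt fun t => g2023 n2 t u8
    have u10 := bf fun t => g35 t u9
    have u11 := bf fun t => g1185 g2011 u1 n2 u7 t u9
    have u12 := bf fun t => g1239 g2011 u1 n2 n0 t u9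
    have u13 := bf fun t => g387 t g2011 n2 u8 u11 u9
    have u14 := bf fun t => g252 t w2032 n0 u12 u10
    exact g227 n1 u14 u13
  have s2037 : T.X p b a x = false → T.alt p a z b x = false → T.X p z a x = false → T.X p a z y = true → False := fun n0 n1 n2 n3 => by
    have u0 := bf fun t => s2036 t n1 n2 n3
    have u1 := bf fun t => g575 t n3 g2012 g2014
    have u2 := bf fun t => s2035 t n3
    have u3 := bf fun t => g4 n3 t
    have u4 := bf fun t => g1342 u3 u2 g2012 g2014 t
    have u5 := bf fun t => g1320 n3 u2 t w2034 u4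
    have u6 := bf fun t => g423 t u3 u2 u5 w2033 u4
    have u7 := bt fun t => g408 t u6 u1
    have u8 := bf fun t => g519 u7 n3 t w2034
    have u9 := bt fun t => g2023 n2 t n0
    have u10 := bf fun t => g35 t u9
    have u11 := bf fun t => g1185 g2011 u2 n2 u8 t u9
    have u12 := bt fun t => g2027 t u10 u0
    have u13 := bf fun t => g387 t g2011 n2 n0 u11 u9
    have u14 := bf fun t => g250 t u8 u0 u12 u10
    exact g227 n1 u14 u13
  have s2038 : T.alt p a z b x = false → T.X p z a x = false → T.X p a z y = true → False := fun n0 n1 n2 => by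
    have u0 := bf fun t => s2036 t n0 n1 n2
    have u1 := bt fun t => s2037 t n0 n1 n2
    have u2 := bf fun t => g2026 n1 t u1
    have u3 := bf fun t => g1156 g2011 n1 u0 t u2
    have u4 := bf fun t => g1198 w2032 n1 u1 u3 t
    exact g2027 u3 u4 u0
  have s2039 : T.X p b a y = false → T.X p y z b = false → T.alt p a y z b = true → T.X p z a y = false → False := fun n0 n1 n2 n3 => by
    have u0 := bt fun t => g2015 n3 t n0
    exact g206 n2 g2011 n3 n0 n1 u0
  have s2040 : T.X p y z b = false → T.alt p a y z b = true → T.X p z a y = false → False := fun n0 n1 n2 => by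
    have u0 := bt fun t => s2039 t n0 n1 n2
    have u1 := bt fun t => g200 n1 g2011 u0 t
    exact g2018 n2 u1 u0
  have s2041 : T.alt p a y z b = true → T.alt p a x z b = false → T.X p z a y = false → False := fun n0 n1 n2 => by
    have u0 := bt fun t => g1988 n0 n1 t
    have u1 := bf fun t => g863 u0 t g2014 g2013
    exact s2040 u1 n0 n2
  have s2042 : T.X p a b y = true → T.X a z b y = false → T.alt p a b z y = true → False := fun n0 n1 n2 => by
    have u0 := bf fun t => g2021 t n1 n0
    exact g71 n2 w2032 n0 u0 n1
  have s2043 : T.X a y z b = true → T.alt p a b z y = true → T.X p a z y = true → False := fun n0 n1 n2 => by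
    have u0 := bf fun t => g32 t n0
    have u1 := bf fun t => g33 t n0
    have u2 := bf fun t => s2042 t u0 n1
    have u3 := bf fun t => g1001 w2031 n2 u2 t u1
    exact g2019 u3 u0 u2
  have s2044 : T.alt p a b z y = true → T.X p a z y = true → False := fun n0 n1 => by
    have u0 := bf fun t => g5 n1 t
    have u1 := bf fun t => g4 n1 t
    have u2 := bf fun t => s2043 t n0 n1
    have u3 := bt fun t => g2015 u1 u2 t
    have u4 := bf fun t => g10 t u3
    have u5 := bf fun t => g100 n0 u3 t u2
    have u6 := bf fun t => g95 n0 n1 u4 t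
    have u7 := bf fun t => g1005 g2011 u0 u4 u5 t
    exact g2019 u6 u7 u4
  have s2045 : T.X p a b x = false → T.X a z b x = false → T.X p x a z = false → T.alt p a b z x = true → False := fun n0 n1 n2 n3 => by
    have u0 := bf fun t => g250 n3 n2 n0 t n1
    exact g2027 u0 n1 n0
  have s2046 : T.alt p a b z x = true → T.X p z a x = true → T.X p x a z = false → False := fun n0 n1 n2 => by
    have u0 := bt fun t => g265 n0 g2011 n1 t
    have u1 := bf fun t => g35 t u0
    have u2 := bt fun t => g2024 n1 u0 t
    have u3 := bf fun t => g13 t u2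
    exact s2045 u3 u1 n2 n0
  have s2047 : T.alt p a x z b = true → T.X p z a x = true → False := fun n0 n1 => by
    have u0 := bt fun t => g379 n0 g2011 n1 t
    have u1 := bf fun t => g396 n0 w2031 w2032 n1 t
    exact g2024 n1 u0 u1
  have s2048 : T.alt p a z b x = false → T.X p a z y = true → False := fun n0 n1 => by
    have u0 := bf fun t => g575 t n1 g2012 g2014
    have u1 := bf fun t => s2035 t n1
    have u2 := bf fun t => g4 n1 t
    have u3 := bf fun t => g1342 u2 u1 g2012 g2014 t
    have u4 := bf fun t => g1320 n1 u1 t w2034 u3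
    have u5 := bf fun t => g423 t u2 u1 u4 w2033 u3
    have u6 := bt fun t => g408 t u5 u0
    have u7 := bf fun t => g519 u6 n1 t w2034
    have u8 := bt fun t => s2038 n0 t n1
    have u9 := bf fun t => s2046 t u8 u7
    have u10 := bt fun t => g227 n0 u9 t
    exact s2047 u10 u8
  have s2049 : T.X p a z y = true → False := fun n0 => by
    have u0 := bf fun t => g4 n0 t
    have u1 := bf fun t => g575 t n0 g2012 g2014
    have u2 := bf fun t => s2035 t n0
    have u3 := bf fun t => g1342 u0 u2 g2012 g2014 t
    have u4 := bf fun t => g1320 n0 u2 t w2034 u3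
    have u5 := bf fun t => g423 t u0 u2 u4 w2033 u3
    have u6 := bt fun t => g408 t u5 u1
    have u7 := bf fun t => s2044 t n0
    have u8 := bt fun t => s2048 t n0
    have u9 := bf fun t => g229 u8 t
    have u10 := bf fun t => g1971 t u8 u6
    have u11 := bf fun t => s2041 t u9 u0
    exact g46 u10 u7 u11
  have w2049 := bf s2049
  have s2050 : T.X p a b y = false → T.X a z b y = false → T.X p y a z = false → T.alt p a b z y = true → False := fun n0 n1 n2 n3 => by
    have u0 := bf fun t => g69 n3 n2 n0 t n1
    exact g2019 u0 n1 n0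
  have s2051 : T.X a y z b = true → T.alt p a b z y = true → False := fun n0 n1 => by
    have u0 := bf fun t => g32 t n0
    have u1 := bf fun t => g57 n1 w2032 t n0
    have u2 := bf fun t => s2042 t u0 n1
    exact s2050 u2 u0 u1 n1
  have s2052 : T.X p b a y = true → T.alt p a b z y = true → False := fun n0 n1 => by
    have u0 := bf fun t => s2051 t n1
    have u1 := bf fun t => g10 t n0
    have u2 := bf fun t => g100 n1 n0 t u0
    have u3 := bf fun t => g997 w2032 t n0 u2 u0
    have u4 := bf fun t => g1005 g2011 u3 u1 u2 t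
    exact s2050 u1 u4 u3 n1
  have s2053 : T.alt p a b z y = true → False := fun n0 => by
    have u0 := bf fun t => s2051 t n0
    have u1 := bf fun t => s2052 t n0
    have u2 := bf fun t => g84 n0 g2011 t u0
    exact g2015 u2 u0 u1
  have w2053 := bf s2053
  have s2054 : T.X p z a y = true → T.alt p a y z b = true → False := fun n0 n1 => by
    have u0 := bt fun t => g198 n1 g2011 n0 t
    have u1 := bf fun t => g215 n1 w2031 w2032 n0 t
    exact g2016 n0 u0 u1
  have s2055 : T.alt p a y z b = true → T.alt p a x z b = false → False := fun n0 n1 => by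
    have u0 := bt fun t => s2041 n0 n1 t
    exact s2054 u0 n0
  have s2056 : T.alt p a x z y = true → T.X p a b y = true → T.X p y z b = false → T.alt p a x z b = false → False := fun n0 n1 n2 n3 => by
    have u0 := bt fun t => g1994 w2053 n0 t
    have u1 := bt fun t => g1986 n3 n0 t
    have u2 := bt fun t => g795 u0 n2 g2014 t g2013
    exact g756 u1 n1 g2012 u2
  have s2057 : T.X a x z b = false → T.X p z a x = false → T.X p b z x = false → T.X p a z x = false → False := fun n0 n1 n2 n3 => by
    have u0 := bt fun t => g2023 n1 n0 t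
    exact g1136 g2011 n3 u0 n2 n0
  have s2058 : T.X p x z b = true → T.X a x z b = true → T.X p z a x = false → T.alt p a z b x = true → False := fun n0 n1 n2 n3 => by
    have u0 := bt fun t => g342 n3 g2011 n2 t n0 n1
    exact g2026 n2 n1 u0
  have s2059 : T.X p z a x = false → T.X p x z b = true → T.X p a z x = false → T.alt p a z b x = true → False := fun n0 n1 n2 n3 => by
    have u0 := bf fun t => g24 t n1
    have u1 := bt fun t => s2057 t n0 u0 n2
    exact s2058 n1 u1 n0 n3
  have s2060 : T.X p x z b = true → T.X p a z x = false → T.alt p a z b x = true → False := fun n0 n1 n2 => by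
    have u0 := bt fun t => s2059 t n0 n1 n2
    have u1 := bf fun t => g1217 g2011 u0 t n0
    have u2 := bt fun t => g340 n2 u0 n0 t
    exact g2024 u0 u2 u1
  have s2061 : T.X p a b y = true → T.X p b a y = false → T.X p z a y = false → T.alt p a z b x = true → T.alt p a x z b = false → False := fun n0 n1 n2 n3 n4 => by
    have u0 := bt fun t => g2015 n2 t n1
    have u1 := bf fun t => s2055 t n4
    have u2 := bt fun t => g46 t w2053 u1
    have u3 := bf fun t => g161 u2 g2011 n2 n1 t u0
    have u4 := bf fun t => g1971 u2 n3 t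
    have u5 := bf fun t => g228 n3 t
    have u6 := bf fun t => g1977 w2053 u5 t
    have u7 := bf fun t => g1069 g2011 w2049 n2 n0 t u0
    have u8 := bf fun t => s2056 t n0 u3 n4
    have u9 := bf fun t => g1985 n4 u8 t
    have u10 := bt fun t => g408 u4 t u8
    have u11 := bt fun t => g589 u6 t u9
    have u12 := bf fun t => g457 u10 t g2012 g2014
    have u13 := bf fun t => g1342 n2 u12 g2012 g2014 t
    have u14 := bt fun t => g423 u10 n2 u12 t w2033 u13
    have u15 := bt fun t => g641 u11 n0 u14 t
    have u16 := bt fun t => g1669 u7 t g2014 u15 g2013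
    exact s2060 u16 u12 n3
  have s2062 : T.alt p a x z y = true → T.X p z a x = false → T.X p y a b = false → T.X a b z y = false → T.X p y z b = false → T.alt p a z b x = true → T.alt p a x z b = false → False := fun n0 n1 n2 n3 n4 n5 n6 => by
    have u0 := bf fun t => g1322 w2049 n1 g2012 g2014 t
    have u1 := bt fun t => g1994 w2053 n0 t
    have u2 := bt fun t => g1986 n6 n0 t
    have u3 := bf fun t => g823 u1 t g2014 g2013
    have u4 := bt fun t => g795 u1 n4 g2014 t g2013
    have u5 := bt fun t => g314 n5 g2011 n1 u3 t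
    have u6 := bt fun t => g730 u2 n2 g2012 u4 t
    exact g1823 n3 u5 u0 u6 g2013
  have s2063 : T.X p z a x = false → T.X p a b y = false → T.X p y a b = false → T.X a b z y = false → T.X a z b y = false → T.X p y z b = false → T.alt p a z b x = true → T.alt p a x z b = false → False := fun n0 n1 n2 n3 n4 n5 n6 n7 => by
    have u0 := bf fun t => s2055 t n7
    have u1 := bt fun t => g46 t w2053 u0
    have u2 := bf fun t => g1971 u1 n6 t
    have u3 := bf fun t => g228 n6 t
    have u4 := bf fun t => g1977 w2053 u3 t
    have u5 := bf fun t => g1322 w2049 n0 g2012 g2014 t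
    have u6 := bf fun t => s2062 t n0 n2 n3 n5 n6 n7
    have u7 := bf fun t => g1985 n7 u6 t
    have u8 := bt fun t => g408 u2 t u6
    have u9 := bt fun t => g2000 u1 u7 t
    have u10 := bt fun t => g589 u4 t u7
    have u11 := bf fun t => g457 u8 t g2012 g2014
    have u12 := bf fun t => g432 u8 w2049 n0 t u5
    have u13 := bf fun t => s2060 t u11 n6
    have u14 := bt fun t => g913 u9 u13 g2014 t g2013
    have u15 := bf fun t => g338 n6 g2011 t u13
    have u16 := bt fun t => g314 n6 g2011 n0 u13 t
    have u17 := bf fun t => g29 u14 t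
    have u18 := bt fun t => g431 u8 u15 g2012 g2014 t
    have u19 := bf fun t => g2026 n0 u16 t
    have u20 := bt fun t => g1838 n4 u16 u18 t g2013
    exact g619 u10 n1 u19 u12 u17 u20
  have s2064 : T.alt p a x z y = true → T.X a b y x = false → T.X p y a b = false → T.X p y z b = false → T.alt p a x z b = false → False := fun n0 n1 n2 n3 n4 => by
    have u0 := bt fun t => g1994 w2053 n0 t
    have u1 := bt fun t => g1986 n4 n0 t
    have u2 := bt fun t => g795 u0 n3 g2014 t g2013
    exact g730 u1 n2 g2012 u2 n1
  have s2065 : T.X p b a y = false → T.X p z a y = false → T.alt p a z b x = true → T.alt p a x z b = false → False := fun n0 n1 n2 n3 => by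
    have u0 := bf fun t => g228 n2 t
    have u1 := bf fun t => g1977 w2053 u0 t
    have u2 := bf fun t => s2055 t n3
    have u3 := bt fun t => g46 t w2053 u2
    have u4 := bt fun t => g2015 n1 t n0
    have u5 := bf fun t => g161 u3 g2011 n1 n0 t u4
    have u6 := bf fun t => g32 t u4
    have u7 := bf fun t => g33 t u4
    have u8 := bf fun t => g998 w2031 n1 t u5 u4
    have u9 := bf fun t => s2061 t n0 n1 n2 n3
    have u10 := bt fun t => s2063 t u9 u8 u7 u6 u5 n2 n3
    have u11 := bf fun t => g7 t u10
    have u12 := bf fun t => g9 u10 t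
    have u13 := bf fun t => g1342 n1 u11 g2012 g2014 t
    have u14 := bf fun t => s2060 t u11 n2
    have u15 := bf fun t => g327 n2 w2031 w2032 u12 t
    have u16 := bf fun t => g1191 g2011 u11 u15 u14 t
    have u17 := bf fun t => g1875 u4 u16 u13 t g2013
    have u18 := bf fun t => s2064 t u17 u8 u5 n3
    have u19 := bf fun t => g1985 n3 u18 t
    have u20 := bt fun t => g2000 u3 u19 t
    have u21 := bt fun t => g589 u1 t u19
    have u22 := bt fun t => g913 u20 u14 g2014 t g2013
    exact g612 u21 u15 g2012 u22 u17
  have s2066 : T.X p z a y = false → T.alt p a z b x = true → T.alt p a x z b = false → False := fun n0 n1 n2 => by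
    have u0 := bf fun t => s2055 t n2
    have u1 := bt fun t => g46 t w2053 u0
    have u2 := bt fun t => s2065 t n0 n1 n2
    have u3 := bt fun t => g143 u1 g2011 u2 t
    exact g2018 n0 u3 u2
  have s2067 : T.alt p a x z y = false → T.X a y z b = true → T.alt p a z b x = true → T.alt p a x z b = false → False := fun n0 n1 n2 n3 => by
    have u0 := bt fun t => s2066 t n2 n3
    have u1 := bt fun t => g2016 u0 n1 t
    have u2 := bf fun t => g1047 g2011 u0 u1 t
    have u3 := bf fun t => g32 t n1
    have u4 := bf fun t => g33 t n1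
    have u5 := bf fun t => s2055 t n3
    have u6 := bt fun t => g46 t w2053 u5
    have u7 := bf fun t => g6 u0 t
    have u8 := bf fun t => g146 u6 w2031 w2032 u7 t
    have u9 := bf fun t => g10 t u1
    have u10 := bt fun t => s2063 t u9 u8 u4 u3 u2 n2 n3
    have u11 := bf fun t => g7 t u10
    have u12 := bf fun t => s2060 t u11 n2
    have u13 := bf fun t => g9 u10 t
    have u14 := bf fun t => g327 n2 w2031 w2032 u13 t
    have u15 := bf fun t => g1191 g2011 u11 u14 u12 t
    have u16 := bf fun t => g1971 u6 n2 t
    have u17 := bf fun t => g228 n2 t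
    have u18 := bf fun t => g1977 w2053 u17 t
    have u19 := bf fun t => g1985 n3 n0 t
    have u20 := bt fun t => g408 u16 t n0
    have u21 := bt fun t => g2000 u6 u19 t
    have u22 := bt fun t => g589 u18 t u19
    have u23 := bt fun t => g431 u20 u13 g2012 g2014 t
    have u24 := bt fun t => g913 u21 u12 g2014 t g2013
    have u25 := bf fun t => g37 u23 t
    have u26 := bt fun t => g612 u22 u14 g2012 u24 t
    exact g1875 n1 u15 u25 u26 g2013
  have s2068 : T.X a y z b = true → T.alt p a z b x = true → T.alt p a x z b = false → False := fun n0 n1 n2 => by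
    have u0 := bf fun t => s2055 t n2
    have u1 := bt fun t => g46 t w2053 u0
    have u2 := bt fun t => s2066 t n1 n2
    have u3 := bf fun t => g6 u2 t
    have u4 := bf fun t => g146 u1 w2031 w2032 u3 t
    have u5 := bf fun t => g32 t n0
    have u6 := bf fun t => g33 t n0
    have u7 := bt fun t => g2016 u2 n0 t
    have u8 := bf fun t => g10 t u7
    have u9 := bf fun t => g1047 g2011 u2 u7 t
    have u10 := bt fun t => s2063 t u8 u4 u6 u5 u9 n1 n2
    have u11 := bf fun t => g7 t u10
    have u12 := bf fun t => g9 u10 t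
    have u13 := bf fun t => s2060 t u11 n1
    have u14 := bf fun t => g327 n1 w2031 w2032 u12 t
    have u15 := bf fun t => g1191 g2011 u11 u14 u13 t
    have u16 := bt fun t => s2067 t n0 n1 n2
    have u17 := bt fun t => g549 u16 u3 g2012 g2014 t
    have u18 := bt fun t => s2064 u16 t u4 u9 n2
    have u19 := bf fun t => g37 u17 t
    exact g1875 n0 u15 u19 u18 g2013
  have s2069 : T.alt p a x z y = false → T.alt p a z b x = true → T.alt p a x z b = false → False := fun n0 n1 n2 => by
    have u0 := bt fun t => s2066 t n1 n2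
    have u1 := bf fun t => s2068 t n1 n2
    have u2 := bf fun t => g2017 u0 u1 t
    have u3 := bf fun t => s2055 t n2
    have u4 := bt fun t => g46 t w2053 u3
    have u5 := bf fun t => g1971 u4 n1 t
    have u6 := bf fun t => g228 n1 t
    have u7 := bf fun t => g1977 w2053 u6 t
    have u8 := bf fun t => g1985 n2 n0 t
    have u9 := bt fun t => g408 u5 t n0
    have u10 := bt fun t => g2000 u4 u8 t
    have u11 := bt fun t => g589 u7 t u8
    have u12 := bf fun t => g457 u9 t g2012 g2014
    have u13 := bf fun t => s2060 t u12 n1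
    have u14 := bf fun t => g338 n1 g2011 t u13
    have u15 := bt fun t => g913 u10 u13 g2014 t g2013
    have u16 := bt fun t => g431 u9 u14 g2012 g2014 t
    have u17 := bf fun t => g28 u15 t
    have u18 := bf fun t => g638 u11 t g2012 u15
    have u19 := bf fun t => g37 u16 t
    have u20 := bf fun t => g1512 u2 u18 g2012 u15 t
    have u21 := bf fun t => g440 u9 u0 t u19
    exact g604 u11 u2 u18 u21 u17 u20
  have s2070 : T.alt p a z b x = true → T.alt p a x z b = false → False := fun n0 n1 => by
    have u0 := bf fun t => s2055 t n1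
    have u1 := bt fun t => g46 t w2053 u0
    have u2 := bt fun t => s2066 t n0 n1
    have u3 := bf fun t => g6 u2 t
    have u4 := bf fun t => g146 u1 w2031 w2032 u3 t
    have u5 := bf fun t => s2068 t n0 n1
    have u6 := bf fun t => g159 u1 u2 t u5
    have u7 := bf fun t => g1021 g2011 w2049 u4 u6 t
    have u8 := bt fun t => s2069 t n0 n1
    have u9 := bt fun t => g1994 w2053 u8 t
    have u10 := bt fun t => g1986 n1 u8 t
    have u11 := bt fun t => g549 u8 u3 g2012 g2014 t
    have u12 := bf fun t => s2056 u8 t u6 n1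
    have u13 := bt fun t => s2062 u8 t u4 u7 u6 n0 n1
    have u14 := bt fun t => s2064 u8 t u4 u6 n1
    have u15 := bt fun t => g795 u9 u6 g2014 t g2013
    have u16 := bf fun t => g38 u11 t
    have u17 := bf fun t => g41 u14 t
    have u18 := bf fun t => g1823 u7 t u16 u14 g2013
    have u19 := bf fun t => g29 u15 t
    have u20 := bf fun t => g558 u8 u13 t u16
    have u21 := bf fun t => g2025 u13 u18 t
    exact g722 u10 u12 u21 u20 u19 u17
  have s2071 : T.X a z b x = false → T.X p z b x = false → T.X p x a z = false → T.alt p a b z x = true → False := fun n0 n1 n2 n3 => by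
    have u0 := bt fun t => s2045 t n0 n2 n3
    exact g252 n3 w2032 u0 n1 n0
  have s2072 : T.X p z b x = false → T.X p x z b = false → T.alt p a b z x = true → False := fun n0 n1 n2 => by
    have u0 := bf fun t => g279 n2 g2011 t n1
    have u1 := bf fun t => g268 n2 w2031 w2032 t u0
    have u2 := bt fun t => s2071 t n0 u1 n2
    have u3 := bf fun t => g2030 n0 u2 t
    exact g1175 g2011 u1 u3 n1 u2
  have s2073 : T.X p a z x = false → T.X p x z b = false → T.alt p a b z x = true → False := fun n0 n1 n2 => by
    have u0 := bt fun t => s2072 t n1 n2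
    have u1 := bf fun t => g22 u0 t
    have u2 := bf fun t => g279 n2 g2011 t n1
    have u3 := bf fun t => g1191 g2011 n0 u2 n1 t
    exact g242 n2 w2031 n0 u2 u1 u3
  have s2074 : T.X p a z x = true → T.X p z b x = true → T.alt p a b z x = true → False := fun n0 n1 n2 => by
    have u0 := bt fun t => g276 n2 n0 t n1
    have u1 := bf fun t => g1216 g2011 n0 n1 t
    exact g2029 n1 u1 u0
  have s2075 : T.X p x z b = false → T.alt p a b z x = true → False := fun n0 n1 => by
    have u0 := bt fun t => s2072 t n0 n1
    have u1 := bt fun t => s2073 t n0 n1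
    exact s2074 u1 u0 n1
  have s2076 : T.alt p a x z b = false → False := fun n0 => by
    have u0 := bf fun t => s2055 t n0
    have u1 := bt fun t => g46 t w2053 u0
    have u2 := bf fun t => g1989 u0 n0 t
    have u3 := bf fun t => s2070 t n0
    have u4 := bt fun t => g1972 u1 u3 t
    have u5 := bt fun t => g227 u3 t n0
    have u6 := bf fun t => g409 u4 t
    have u7 := bt fun t => g2008 u4 t u2
    have u8 := bt fun t => g1996 u5 u6 t
    have u9 := bf fun t => g941 u8 t g2014 g2013
    have u10 := bt fun t => s2075 t u5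
    have u11 := bf fun t => g23 t u10
    have u12 := bf fun t => g24 t u10
    have u13 := bf fun t => g927 u8 u10 t g2013
    have u14 := bf fun t => g1690 u9 u11 g2014 t g2013
    have u15 := bf fun t => g692 u7 t g2012 u13 u14
    have u16 := bt fun t => g2027 u11 t u15
    have u17 := bf fun t => g35 u16 t
    have u18 := bf fun t => g1166 w2032 t u15 u12 u16
    have u19 := bf fun t => g265 u5 g2011 t u17
    exact s2057 u17 u19 u12 u18
  have w2076 := bt s2076
  have s2079 := fun (n0 : T.X p z a x = true) => s2047 w2076 n0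
  have w2079 := bf s2079
  have s2083 : T.X a x z b = true → T.X p x z b = false → False := fun n0 n1 => by
    have u0 := bf fun t => g2026 w2079 n0 t
    exact g387 w2076 g2011 w2079 u0 n1 n0
  have s2085 : T.X p x z b = true → False := fun n0 => by
    have u0 := bf fun t => g823 t n0 g2014 g2013
    have u1 := bf fun t => g865 t n0 g2014 g2013
    have u2 := bt fun t => g1990 t w2076 u1
    have u3 := bt fun t => g770 u1 u0 t
    have u4 := bf fun t => s2054 t u2
    have u5 := bt fun t => s2040 t u2 u4
    exact g941 u3 u5 g2014 g2013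
  have w2085 := bf s2085
  have s2086 := fun (n0 : T.X a x z b = true) => s2083 n0 w2085
  have w2086 := bf s2086
  have s2087 := fun (n0 : T.X p b a x = true) => g381 w2076 g2011 n0 w2086
  have w2087 := bf s2087
  exact g2023 w2079 w2086 w2087

theorem MT_sepa_1110 {p a z b y x : V} (hN : [p, a, z, b, y, x].Nodup) (h0 : T.X p a z b = true)
    (h1 : T.X y x p a = false) (h2 : T.X y x z b = false) (h3 : T.X y x p z = false)
    (h4 : T.X y a p z = false → T.X y a z b = false → T.X y a b p = false → False)
    (h5 : T.X y a p z = true → T.X y a z b = true → T.X y a b p = false → False)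
    (h6 : T.X y a p z = true → T.X y a z b = false → T.X y a b p = true → False)
    (h7 : T.X y a p z = false → T.X y a z b = true → T.X y a b p = true → False)
    (h8 : T.X y b p z = false → T.X y b z a = false → T.X y b a p = false → False)
    (h9 : T.X y b p z = true → T.X y b z a = true → T.X y b a p = false → False)
    (h10 : T.X y b p z = true → T.X y b z a = false → T.X y b a p = true → False)
    (h11 : T.X y b p z = false → T.X y b z a = true → T.X y b a p = true → False)
    (h12 : T.X x a p z = false → T.X x a z b = false → T.X x a b p = false → False)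
    (h13 : T.X x a p z = true → T.X x a z b = true → T.X x a b p = false → False)
    (h14 : T.X x a p z = true → T.X x a z b = false → T.X x a b p = true → False)
    (h15 : T.X x a p z = false → T.X x a z b = true → T.X x a b p = true → False)
    (h16 : T.X x b p z = true → T.X x b z a = false → T.X x b a p = false → False)
    (h17 : T.X x b p z = false → T.X x b z a = true → T.X x b a p = false → False)
    (h18 : T.X x b p z = false → T.X x b z a = false → T.X x b a p = true → False)
    (h19 : T.X x b p z = true → T.X x b z a = true → T.X x b a p = true → False) : False := by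
  have k0 : T.Ok5 p a z b y := T.n5 hN (.cons_cons _ (.cons_cons _ (.cons_cons _ (.cons_cons _ (.cons_cons _ (List.nil_sublist _))))))
  have k1 : T.Ok5 p a z b x := T.n5 hN (.cons_cons _ (.cons_cons _ (.cons_cons _ (.cons_cons _ (.cons _ (.cons_cons _ (List.nil_sublist _)))))))
  have k2 : T.Ok5 p a z y x := T.n5 hN (.cons_cons _ (.cons_cons _ (.cons_cons _ (.cons _ (.cons_cons _ (.cons_cons _ (List.nil_sublist _)))))))
  have k3 : T.Ok5 p a b y x := T.n5 hN (.cons_cons _ (.cons_cons _ (.cons _ (.cons_cons _ (.cons_cons _ (.cons_cons _ (List.nil_sublist _)))))))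
  have k4 : T.Ok5 p z b y x := T.n5 hN (.cons_cons _ (.cons _ (.cons_cons _ (.cons_cons _ (.cons_cons _ (.cons_cons _ (List.nil_sublist _)))))))
  have k5 : T.Ok5 a z b y x := T.n5 hN (.cons _ (.cons_cons _ (.cons_cons _ (.cons_cons _ (.cons_cons _ (.cons_cons _ (List.nil_sublist _)))))))
  have sp0 : T.Sp5 p a z b y x := T.sp5 hN (.cons_cons _ (.cons_cons _ (.cons_cons _ (.cons_cons _ (.cons_cons _ (.cons_cons _ (List.nil_sublist _)))))))
  have g1 := T.q01 p a z b
  have g2 := T.q02 p a z b
  have g5 := T.q02 p a z y
  have g6 := T.q12 p a z y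
  have g9 := T.q12 p a z x
  have g10 := T.q01 p a b y
  have g11 := T.q02 p a b y
  have g13 := T.q01 p a b x
  have g19 := T.q01 p z b y
  have g20 := T.q02 p z b y
  have g21 := T.q12 p z b y
  have g23 := T.q02 p z b x
  have g24 := T.q12 p z b x
  have g29 := T.q02 p b y x
  have g32 := T.q02 a z b y
  have g33 := T.q12 a z b y
  have g35 := T.q02 a z b x
  have g36 := T.q12 a z b x
  have g37 := T.q01 a z y x
  have g38 := T.q02 a z y x
  have g41 := T.q02 a b y x
  have g42 := T.q12 a b y x
  have g46 := T.ae1 k0
  have g57 := fun ha : T.alt p a b z y = true => zA1_16420_16416 (T.okA1 k0 ha)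
  have g69 := fun ha : T.alt p a b z y = true => zA1_4704_512 (T.okA1 k0 ha)
  have g71 := fun ha : T.alt p a b z y = true => zA1_4676_64 (T.okA1 k0 ha)
  have g84 := fun ha : T.alt p a b z y = true => zA1_16401_17 (T.okA1 k0 ha)
  have g100 := fun ha : T.alt p a b z y = true => zA1_18560_2176 (T.okA1 k0 ha)
  have g141 := fun ha : T.alt p a z b y = true => zA0_4192_96 (T.okA0 k0 ha)
  have g143 := fun ha : T.alt p a z b y = true => zA0_16513_129 (T.okA0 k0 ha)
  have g159 := fun ha : T.alt p a z b y = true => zA0_18448_2064 (T.okA0 k0 ha)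
  have g161 := fun ha : T.alt p a z b y = true => zA0_18577_18433 (T.okA0 k0 ha)
  have g189 := fun ha : T.alt p a y z b = true => zA2_4704_64 (T.okA2 k0 ha)
  have g197 := fun ha : T.alt p a y z b = true => zA2_18433_2049 (T.okA2 k0 ha)
  have g198 := fun ha : T.alt p a y z b = true => zA2_16401_17 (T.okA2 k0 ha)
  have g213 := fun ha : T.alt p a y z b = true => zA2_577_513 (T.okA2 k0 ha)
  have g227 := T.ae1 k1
  have g255 := fun ha : T.alt p a b z x = true => zA1_18561_1 (T.okA1 k1 ha)
  have g265 := fun ha : T.alt p a b z x = true => zA1_16401_17 (T.okA1 k1 ha)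
  have g268 := fun ha : T.alt p a b z x = true => zA1_294_32 (T.okA1 k1 ha)
  have g274 := fun ha : T.alt p a b z x = true => zA1_1176_128 (T.okA1 k1 ha)
  have g279 := fun ha : T.alt p a b z x = true => zA1_2305_257 (T.okA1 k1 ha)
  have g301 := fun ha : T.alt p a z b x = true => zA0_4708_0 (T.okA0 k1 ha)
  have g314 := fun ha : T.alt p a z b x = true => zA0_18449_1 (T.okA0 k1 ha)
  have g319 := fun ha : T.alt p a z b x = true => zA0_4672_576 (T.okA0 k1 ha)
  have g324 := fun ha : T.alt p a z b x = true => zA0_16513_129 (T.okA0 k1 ha)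
  have g338 := fun ha : T.alt p a z b x = true => zA0_2081_33 (T.okA0 k1 ha)
  have g372 := fun ha : T.alt p a x z b = true => zA2_4196_32 (T.okA2 k1 ha)
  have g373 := fun ha : T.alt p a x z b = true => zA2_9480_8 (T.okA2 k1 ha)
  have g378 := fun ha : T.alt p a x z b = true => zA2_18433_2049 (T.okA2 k1 ha)
  have g379 := fun ha : T.alt p a x z b = true => zA2_16401_17 (T.okA2 k1 ha)
  have g381 := fun ha : T.alt p a x z b = true => zA2_16513_129 (T.okA2 k1 ha)
  have g391 := fun ha : T.alt p a x z b = true => zA2_2089_2049 (T.okA2 k1 ha)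
  have g408 := T.ae1 k2
  have g434 := fun ha : T.alt p a y z x = true => zA1_4708_4096 (T.okA1 k2 ha)
  have g435 := fun ha : T.alt p a y z x = true => zA1_4196_4 (T.okA1 k2 ha)
  have g482 := fun ha : T.alt p a z y x = true => zA0_4708_0 (T.okA0 k2 ha)
  have g511 := fun ha : T.alt p a z y x = true => zA0_1608_8 (T.okA0 k2 ha)
  have g512 := fun ha : T.alt p a z y x = true => zA0_4708_4128 (T.okA0 k2 ha)
  have g548 := fun ha : T.alt p a x z y = true => zA2_4644_4 (T.okA2 k2 ha)
  have g552 := fun ha : T.alt p a x z y = true => zA2_4708_4096 (T.okA2 k2 ha)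
  have g591 := T.ae02 k3
  have g592 := T.ae12 k3
  have g663 := fun ha : T.alt p a b y x = true => zA0_4708_0 (T.okA0 k3 ha)
  have g689 := fun ha : T.alt p a b y x = true => zA0_294_256 (T.okA0 k3 ha)
  have g730 := fun ha : T.alt p a x b y = true => zA2_4676_512 (T.okA2 k3 ha)
  have g734 := fun ha : T.alt p a x b y = true => zA2_4196_32 (T.okA2 k3 ha)
  have g740 := fun ha : T.alt p a x b y = true => zA2_18433_2049 (T.okA2 k3 ha)
  have g753 := fun ha : T.alt p a x b y = true => zA2_2089_2049 (T.okA2 k3 ha)
  have g756 := fun ha : T.alt p a x b y = true => zA2_577_513 (T.okA2 k3 ha)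
  have g770 := T.ae1 k4
  have g772 := T.ae02 k4
  have g773 := T.ae12 k4
  have g784 := fun ha : T.alt p z y b x = true => zA1_2307_2048 (T.okA1 k4 ha)
  have g792 := fun ha : T.alt p z y b x = true => zA1_4644_32 (T.okA1 k4 ha)
  have g793 := fun ha : T.alt p z y b x = true => zA1_4704_512 (T.okA1 k4 ha)
  have g797 := fun ha : T.alt p z y b x = true => zA1_4196_4 (T.okA1 k4 ha)
  have g844 := fun ha : T.alt p z b y x = true => zA0_4708_0 (T.okA0 k4 ha)
  have g861 := fun ha : T.alt p z b y x = true => zA0_4132_36 (T.okA0 k4 ha)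
  have g864 := fun ha : T.alt p z b y x = true => zA0_4612_516 (T.okA0 k4 ha)
  have g885 := fun ha : T.alt p z b y x = true => zA0_18577_18433 (T.okA0 k4 ha)
  have g910 := fun ha : T.alt p z x b y = true => zA2_4644_4 (T.okA2 k4 ha)
  have g911 := fun ha : T.alt p z x b y = true => zA2_4676_512 (T.okA2 k4 ha)
  have g915 := fun ha : T.alt p z x b y = true => zA2_4196_32 (T.okA2 k4 ha)
  have g922 := fun ha : T.alt p z x b y = true => zA2_16401_17 (T.okA2 k4 ha)
  have g924 := fun ha : T.alt p z x b y = true => zA2_16513_129 (T.okA2 k4 ha)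
  have g966 := z5_17545_129 k0
  have g974 := z5_4898_768 k0
  have g986 := z5_16977_513 k0
  have g992 := z5_6241_33 k0
  have g994 := z5_16977_17 k0
  have g997 := z5_18596_160 k0
  have g1005 := z5_6241_4097 k0
  have g1028 := z5_4756_4224 k0
  have g1030 := z5_18596_16416 k0
  have g1046 := z5_4617_4617 k0
  have g1084 := MTz5_22625_2145 k0
  have g1162 := z5_6241_33 k1
  have g1167 := z5_18596_160 k1
  have g1175 := z5_6241_4097 k1
  have g1196 := z5_4756_4112 k1
  have g1200 := z5_18596_16416 k1
  have g1312 := z5_4898_4098 k2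
  have g1315 := z5_4898_4352 k2
  have g1323 := z5_5196_5120 k2
  have g1330 := z5_6241_6144 k2
  have g1346 := z5_8778_10 k2
  have g1504 := z5_16977_17 k3
  have g1531 := z5_10505_8193 k3
  have g1672 := z5_6241_33 k4
  have g1823 := z5_4898_544 k5
  have g1829 := z5_5196_68 k5
  have g1838 := z5_6241_96 k5
  have g1839 := z5_6241_2112 k5
  have g1879 := z5_18596_16388 k5
  have g1906 := z5_612_612 k5
  have g1934 := MTz5_22625_2145 k5
  have g1972 := zsp_73_1 sp0
  have g1973 := zsp_73_64 sp0
  have g1978 := zsp_530_16 sp0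
  have g1980 := zsp_1156_4 sp0
  have g1984 := zsp_2336_32 sp0
  have g1985 := zsp_2336_2048 sp0
  have g1986 := zsp_2336_256 sp0
  have g1988 := zsp_4132_4 sp0
  have g1989 := zsp_4132_4096 sp0
  have g1990 := zsp_4132_32 sp0
  have g1993 := zsp_8450_8192 sp0
  have g1994 := zsp_8450_256 sp0
  have g1996 := zsp_16528_16 sp0
  have g1997 := zsp_16528_16384 sp0
  have g2000 := zsp_18433_1 sp0
  have g2001 := zsp_18433_16384 sp0
  have g2002 := zsp_18433_2048 sp0
  have g2005 := zsp_9224_8192 sp0
  have g2009 := zsp_4672_4096 sp0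
  have g2011 : T.X p a z b = true := h0
  have g2012 : T.X p a y x = false := ((T.xs4 y x p a).symm.trans h1)
  have g2013 : T.X z b y x = false := ((T.xs4 y x z b).symm.trans h2)
  have g2014 : T.X p z y x = false := ((T.xs4 y x p z).symm.trans h3)
  have g2015 := fun (n0 : T.X p z a y = false) (n1 : T.X a y z b = false) (n2 : T.X p b a y = false) => h4 ((T.xs6 y a p z).trans n0) ((T.xs1 y a z b).trans n1) ((T.xs7 y a b p).trans n2)
  have g2016 := fun (n0 : T.X p z a y = true) (n1 : T.X a y z b = true) (n2 : T.X p b a y = false) => h5 ((T.xs6 y a p z).trans n0) ((T.xs1 y a z b).trans n1) ((T.xs7 y a b p).trans n2)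
  have g2019 := fun (n0 : T.X p z b y = false) (n1 : T.X a z b y = false) (n2 : T.X p a b y = false) => h8 ((T.xs6 y b p z).trans n0) ((T.xs7 y b z a).trans n1) ((T.xs7 y b a p).trans n2)
  have g2020 := fun (n0 : T.X p z b y = true) (n1 : T.X a z b y = true) (n2 : T.X p a b y = false) => h9 ((T.xs6 y b p z).trans n0) ((T.xs7 y b z a).trans n1) ((T.xs7 y b a p).trans n2)
  have g2021 := fun (n0 : T.X p z b y = true) (n1 : T.X a z b y = false) (n2 : T.X p a b y = true) => h10 ((T.xs6 y b p z).trans n0) ((T.xs7 y b z a).trans n1) ((T.xs7 y b a p).trans n2)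
  have g2022 := fun (n0 : T.X p z b y = false) (n1 : T.X a z b y = true) (n2 : T.X p a b y = true) => h11 ((T.xs6 y b p z).trans n0) ((T.xs7 y b z a).trans n1) ((T.xs7 y b a p).trans n2)
  have g2023 := fun (n0 : T.X p z a x = false) (n1 : T.X a x z b = false) (n2 : T.X p b a x = false) => h12 ((T.xs6 x a p z).trans n0) ((T.xs1 x a z b).trans n1) ((T.xs7 x a b p).trans n2)
  have g2026 := fun (n0 : T.X p z a x = false) (n1 : T.X a x z b = true) (n2 : T.X p b a x = true) => h15 ((T.xs6 x a p z).trans n0) ((T.xs1 x a z b).trans n1) ((T.xs7 x a b p).trans n2)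
  have g2027 := fun (n0 : T.X p z b x = true) (n1 : T.X a z b x = false) (n2 : T.X p a b x = false) => h16 ((T.xs6 x b p z).trans n0) ((T.xs7 x b z a).trans n1) ((T.xs7 x b a p).trans n2)
  have g2029 := fun (n0 : T.X p z b x = false) (n1 : T.X a z b x = false) (n2 : T.X p a b x = true) => h18 ((T.xs6 x b p z).trans n0) ((T.xs7 x b z a).trans n1) ((T.xs7 x b a p).trans n2)
  have g2030 := fun (n0 : T.X p z b x = true) (n1 : T.X a z b x = true) (n2 : T.X p a b x = true) => h19 ((T.xs6 x b p z).trans n0) ((T.xs7 x b z a).trans n1) ((T.xs7 x b a p).trans n2)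
  have s2031 := fun (n0 : T.X p z a b = true) => g1 g2011 n0
  have w2031 := bf s2031
  have s2032 := fun (n0 : T.X p b a z = true) => g2 g2011 n0
  have w2032 := bf s2032
  have s2034 : T.X p z b y = true → T.X p y a z = false → T.X a z b y = false → T.alt p a b z y = true → False := fun n0 n1 n2 n3 => by
    have u0 := bf fun t => g2021 n0 n2 t
    exact g69 n3 n1 u0 n0 n2
  have s2035 : T.X p y a z = false → T.X a z b y = false → T.alt p a b z y = true → False := fun n0 n1 n2 => by
    have u0 := bf fun t => s2034 t n0 n1 n2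
    have u1 := bt fun t => g2019 u0 n1 t
    exact g71 n2 w2032 u1 u0 n1
  have s2037 : T.X a y z b = false → T.alt p a b z y = true → False := fun n0 n1 => by
    have u0 := bf fun t => g84 n1 g2011 t n0
    have u1 := bt fun t => g2015 u0 n0 t
    have u2 := bf fun t => g10 t u1
    have u3 := bf fun t => g100 n1 u1 t n0
    have u4 := bf fun t => g997 w2032 t u1 u3 n0
    have u5 := bf fun t => g1005 g2011 u4 u2 u3 t
    exact s2035 u4 u5 n1
  have s2038 : T.alt p a b z y = true → False := fun n0 => by
    have u0 := bt fun t => s2037 t n0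
    have u1 := bf fun t => g32 t u0
    have u2 := bf fun t => g57 n0 w2032 t u0
    exact s2035 u2 u1 n0
  have w2038 := bf s2038
  have s2041 : T.X p a b x = false → T.X a z y x = false → T.X a z b x = false → T.alt p a z b y = true → T.X p x z b = false → T.X p y a z = false → False := fun n0 n1 n2 n3 n4 n5 => by
    have u0 := bf fun t => g1162 g2011 t n0 n4 n2
    have u1 := bf fun t => g2027 t n2 n0
    have u2 := bf fun t => g301 t w2032 u0 n0 u1 n2
    have u3 := bf fun t => g482 t n5 u0 g2012 g2014 n1
    exact g1972 n3 u2 u3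
  have s2043 : T.X a z b x = false → T.alt p a z b x = true → T.X a z y x = false → T.alt p a z b y = true → T.X p x z b = false → T.X p y a z = false → False := fun n0 n1 n2 n3 n4 n5 => by
    have u0 := bt fun t => s2041 t n2 n0 n3 n4 n5
    have u1 := bt fun t => g2029 t n0 u0
    exact g319 n1 u0 u1 n0
  have s2044 : T.X p x a z = false → T.X a z y x = false → T.X a x z b = false → T.alt p a z b y = true → T.X p x z b = false → T.X p y a z = false → False := fun n0 n1 n2 n3 n4 n5 => by
    have u0 := bf fun t => g482 t n5 n0 g2012 g2014 n1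
    have u1 := bt fun t => g1972 n3 t u0
    have u2 := bt fun t => g314 u1 g2011 t n4 n2
    have u3 := bf fun t => g324 u1 g2011 t n2
    have u4 := bt fun t => s2043 t u1 n1 n3 n4 n5
    have u5 := bt fun t => g1175 g2011 n0 t n4 u4
    have u6 := bt fun t => g1196 w2032 u2 u3 t u4
    exact g2030 u6 u4 u5
  have s2045 : T.X p x a z = true → T.X a x z b = false → T.X p x z b = false → False := fun n0 n1 n2 => by
    have u0 := bf fun t => g9 t n0
    have u1 := bf fun t => g1167 w2032 n0 t n2 n1
    exact g2023 u0 n1 u1
  have s2049 : T.X a x z b = true → T.X a z y x = false → T.alt p a z b y = true → T.X p x z b = false → T.X p y a z = false → False := fun n0 n1 n2 n3 n4 => by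
    have u0 := bf fun t => g35 t n0
    have u1 := bt fun t => s2041 t n1 u0 n2 n3 n4
    have u2 := bf fun t => s2043 u0 t n1 n2 n3 n4
    have u3 := bf fun t => g13 u1 t
    have u4 := bt fun t => g1972 n2 u2 t
    have u5 := bf fun t => g1200 w2032 t u3 n3 n0
    exact g482 u4 n4 u5 g2012 g2014 n1
  have s2050 : T.X a z y x = false → T.alt p a z b y = true → T.X p y a z = false → T.X p x z b = false → False := fun n0 n1 n2 n3 => by
    have u0 := bf fun t => s2049 t n0 n1 n3 n2
    have u1 := bf fun t => s2045 t u0 n3
    exact s2044 u1 n0 u0 n1 n3 n2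
  have s2051 : T.X a x z b = false → T.X a y z b = true → T.X p a b y = false → T.X p y a z = false → T.X a z b y = false → T.alt p z x b y = true → False := fun n0 n1 n2 n3 n4 n5 => by
    have u0 := bt fun t => g2019 t n4 n2
    have u1 := bf fun t => g20 u0 t
    have u2 := bf fun t => g915 n5 u1 t g2014 g2013
    have u3 := bf fun t => g213 t g2011 n2 u0
    have u4 := bt fun t => g46 t w2038 u3
    have u5 := bt fun t => s2050 t u4 n3 u2
    have u6 := bf fun t => g37 u5 t
    have u7 := bf fun t => g773 t n5
    have u8 := bf fun t => g1994 w2038 t u7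
    have u9 := bf fun t => s2045 t n0 u2
    have u10 := bf fun t => g1839 n4 n0 u5 t g2013
    have u11 := bf fun t => g434 t n3 u9 g2012 g2014 u5
    have u12 := bf fun t => g1879 n1 n0 u6 u10 t
    have u13 := bt fun t => g408 t u11 u8
    have u14 := bt fun t => g1997 t u11 n5
    have u15 := bf fun t => g922 n5 u0 t u12
    have u16 := bf fun t => g924 n5 u0 t u12
    have u17 := bf fun t => g511 u13 t g2012 g2014 u16
    have u18 := bf fun t => g265 u14 g2011 t n0
    have u19 := bt fun t => g255 u14 g2011 t u2 n0
    exact g274 u14 u17 u18 u19 u15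
  have s2052 : T.X a y z b = true → T.X p a b y = false → T.X p y a z = false → T.X a z b y = false → T.alt p z x b y = true → False := fun n0 n1 n2 n3 n4 => by
    have u0 := bt fun t => g2019 t n3 n1
    have u1 := bf fun t => g20 u0 t
    have u2 := bf fun t => g915 n4 u1 t g2014 g2013
    have u3 := bf fun t => g213 t g2011 n1 u0
    have u4 := bt fun t => g46 t w2038 u3
    have u5 := bt fun t => s2050 t u4 n2 u2
    have u6 := bt fun t => s2051 t n0 n1 n2 n3 n4
    have u7 := bf fun t => g35 t u6
    have u8 := bt fun t => g1838 n3 u6 u5 t g2013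
    have u9 := bt fun t => g1829 n0 u7 u5 t g2013
    exact g42 u9 u8
  have s2053 : T.alt p a b z x = false → T.X a z y x = true → T.alt p a x z b = false → T.X p x z b = false → T.X p y a z = false → T.alt p z x b y = true → False := fun n0 n1 n2 n3 n4 n5 => by
    have u0 := bt fun t => g227 t n0 n2
    have u1 := bt fun t => g1997 n0 t n5
    have u2 := bf fun t => g338 u0 g2011 t n3
    exact g434 u1 n4 u2 g2012 g2014 n1
  have s2054 : T.X p a b y = false → T.X p y a z = false → T.X a z b y = false → T.alt p z x b y = true → False := fun n0 n1 n2 n3 => by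
    have u0 := bf fun t => g772 t n3
    have u1 := bt fun t => g2019 t n2 n0
    have u2 := bf fun t => g20 u1 t
    have u3 := bf fun t => g213 t g2011 n0 u1
    have u4 := bf fun t => g974 w2031 n1 t u1 n2
    have u5 := bf fun t => g915 n3 u2 t g2014 g2013
    have u6 := bf fun t => g1990 u3 t u0
    have u7 := bt fun t => g46 t w2038 u3
    have u8 := bt fun t => s2050 t u7 n1 u5
    have u9 := bf fun t => s2052 t n0 n1 n2 n3
    have u10 := bt fun t => g986 g2011 t n0 u1 u9
    have u11 := bf fun t => g143 u7 g2011 t u9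
    have u12 := bt fun t => s2053 t u8 u6 u5 n1 n3
    have u13 := bt fun t => g1978 w2038 u12 t
    have u14 := bf fun t => g279 u12 g2011 t u5
    have u15 := bf fun t => g268 u12 w2031 w2032 t u14
    have u16 := bf fun t => g689 u13 u11 u4 u14 t
    exact g1312 u10 u15 u16 g2014 u8
  have s2055 : T.X p x z b = false → T.X a z y x = true → T.alt p a z b y = true → T.alt p a x z b = false → T.X p a b y = true → T.X p y a z = false → T.alt p z x b y = true → False := fun n0 n1 n2 n3 n4 n5 n6 => by
    have u0 := bf fun t => g38 n1 t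
    have u1 := bf fun t => g11 n4 t
    have u2 := bf fun t => g10 n4 t
    have u3 := bt fun t => s2053 t n1 n3 n0 n5 n6
    have u4 := bt fun t => g1978 w2038 u3 t
    have u5 := bf fun t => g279 u3 g2011 t n0
    have u6 := bf fun t => g268 u3 w2031 w2032 t u5
    have u7 := bf fun t => g689 u4 u2 u1 u5 t
    have u8 := bf fun t => g1312 t u6 u7 g2014 n1
    have u9 := bt fun t => g2015 u8 t u2
    have u10 := bf fun t => g33 t u9
    have u11 := bf fun t => g161 n2 g2011 u8 u2 t u9
    have u12 := bf fun t => g911 n6 u11 g2014 t g2013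
    have u13 := bt fun t => g663 u4 u1 u5 g2012 u12 t
    have u14 := bf fun t => g41 u13 t
    have u15 := bf fun t => g1823 u10 t u0 u13 g2013
    have u16 := bf fun t => g1504 n4 t g2012 u12 u14
    exact g255 u3 g2011 u16 n0 u15
  have s2056 : T.X p z a y = false → T.X p y z b = true → T.alt p a z b y = true → T.X p b a y = false → False := fun n0 n1 n2 n3 => by
    have u0 := bt fun t => g2015 n0 t n3
    exact g161 n2 g2011 n0 n3 n1 u0
  have s2057 : T.X p y z b = true → T.X p b a y = false → T.alt p a z b y = true → False := fun n0 n1 n2 => by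
    have u0 := bt fun t => s2056 t n0 n2 n1
    have u1 := bt fun t => g159 n2 u0 n0 t
    exact g2016 u0 u1 n1
  have s2058 : T.X p y a z = false → T.X a z b y = false → T.alt p z x b y = true → False := fun n0 n1 n2 => by
    have u0 := bf fun t => g772 t n2
    have u1 := bt fun t => s2054 t n0 n1 n2
    have u2 := bf fun t => g10 u1 t
    have u3 := bf fun t => g2021 t n1 u1
    have u4 := bf fun t => g189 t n0 u1 u3 n1
    have u5 := bf fun t => g1990 u4 t u0
    have u6 := bt fun t => g46 t w2038 u4
    have u7 := bf fun t => s2057 t u2 u6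
    have u8 := bf fun t => g915 n2 u7 t g2014 g2013
    have u9 := bt fun t => s2050 t u6 n0 u8
    exact s2055 u8 u9 u6 u5 u1 n0 n2
  have s2059 : T.X p y z b = false → T.X p y a z = true → T.X a z b y = false → False := fun n0 n1 n2 => by
    have u0 := bf fun t => g6 t n1
    have u1 := bt fun t => g992 g2011 n1 t n0 n2
    have u2 := bf fun t => g10 u1 t
    have u3 := bf fun t => g1030 w2032 n1 u2 n0 t
    exact g2015 u0 u3 u2
  have s2060 : T.X a z b y = false → T.alt p z x b y = true → False := fun n0 n1 => by
    have u0 := bf fun t => g773 t n1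
    have u1 := bf fun t => g1994 w2038 t u0
    have u2 := bt fun t => s2058 t n0 n1
    have u3 := bt fun t => s2059 t u2 n0
    have u4 := bf fun t => g20 t u3
    have u5 := bt fun t => g2019 u4 n0 t
    have u6 := bf fun t => g11 u5 t
    have u7 := bf fun t => g141 t u2 u5 n0
    have u8 := bt fun t => g1084 g2011 u2 u5 u3 n0 t
    have u9 := bt fun t => g2001 u7 t n1
    have u10 := bt fun t => g46 u7 w2038 t
    have u11 := bf fun t => g592 t u9
    have u12 := bt fun t => g1985 t u1 u9
    have u13 := bf fun t => g756 u9 u5 g2012 t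
    have u14 := bt fun t => g1980 u10 t u11
    have u15 := bt fun t => g910 n1 u3 t u13 g2013
    have u16 := bf fun t => g23 t u15
    have u17 := bf fun t => g24 t u15
    have u18 := bt fun t => g378 u12 g2011 u15 t
    have u19 := bf fun t => g35 t u18
    have u20 := bf fun t => g36 t u18
    have u21 := bf fun t => g2029 u16 u19 t
    have u22 := bf fun t => g372 u12 w2032 t u21 u19
    have u23 := bt fun t => g435 u14 u2 u22 g2012 t
    have u24 := bt fun t => g391 u12 g2011 t u22 u15
    have u25 := bf fun t => g1906 u8 u18 u23 t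
    have u26 := bt fun t => g373 u12 u24 t u17 u20
    exact g734 u9 u6 u26 g2012 u25
  have s2061 : T.X p z b y = false → T.X a z b y = true → False := fun n0 n1 => by
    have u0 := bf fun t => g32 n1 t
    have u1 := bf fun t => g2022 n0 n1 t
    have u2 := bf fun t => g994 g2011 t u1 n0 u0
    have u3 := bt fun t => g2015 u2 u0 t
    exact g1028 w2032 u2 u3 n0 n1
  have s2062 : T.alt p z x b y = true → False := fun n0 => by
    have u0 := bf fun t => g772 t n0
    have u1 := bt fun t => s2060 t n0
    have u2 := bf fun t => g32 u1 t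
    have u3 := bt fun t => s2061 t u1
    have u4 := bf fun t => g19 u3 t
    have u5 := bf fun t => g20 u3 t
    have u6 := bf fun t => g1046 g2011 t u3 u1
    have u7 := bt fun t => g2020 u3 u1 t
    have u8 := bf fun t => g915 n0 u5 t g2014 g2013
    have u9 := bf fun t => g966 g2011 u6 t u4 u2
    have u10 := bt fun t => g2015 t u2 u9
    have u11 := bf fun t => g6 u10 t
    have u12 := bf fun t => g198 t g2011 u10 u2
    have u13 := bf fun t => g1990 u12 t u0
    have u14 := bt fun t => g46 t w2038 u12
    have u15 := bt fun t => s2050 t u14 u11 u8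
    exact s2055 u8 u15 u14 u13 u7 u11 n0
  have w2062 := bf s2062
  have s2063 : T.X p x z b = false → T.X a z y x = true → T.X p b y x = false → T.alt p a y b x = false → T.X p y a z = false → T.X p y z b = false → False := fun n0 n1 n2 n3 n4 n5 => by
    have u0 := bf fun t => g844 t n5 n0 g2014 n2 g2013
    have u1 := bt fun t => g770 u0 t w2062
    have u2 := bt fun t => g1993 w2038 t u1
    have u3 := bt fun t => g2005 t n3 u1
    have u4 := bt fun t => g552 u2 n4 t g2012 g2014 n1
    exact g338 u3 g2011 u4 n0
  have s2064 : T.X a z y x = true → T.X a z b y = true → T.X p a b y = true → T.X p y z b = false → False := fun n0 n1 n2 n3 => by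
    have u0 := bf fun t => g32 n1 t
    have u1 := bf fun t => g10 n2 t
    have u2 := bt fun t => g2015 t u0 u1
    have u3 := bf fun t => g198 t g2011 u2 u0
    have u4 := bt fun t => g46 t w2038 u3
    have u5 := bt fun t => g2000 u4 t w2062
    have u6 := bf fun t => g756 u5 n2 g2012 t
    have u7 := bf fun t => g592 t u5
    have u8 := bf fun t => g6 u2 t
    have u9 := bt fun t => s2061 t n1
    have u10 := bf fun t => g37 n0 t
    have u11 := bf fun t => g1346 u2 t g2012 g2014 u10
    have u12 := bf fun t => g1323 u8 u11 g2012 t n0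
    have u13 := bt fun t => s2063 t n0 u6 u7 u8 n3
    have u14 := bf fun t => g24 t u13
    have u15 := bt fun t => g1672 u9 u13 g2014 t g2013
    have u16 := bf fun t => g792 t n3 u13 u6 g2013
    have u17 := bt fun t => g740 u5 n2 u15 t
    have u18 := bt fun t => g770 t u16 w2062
    have u19 := bf fun t => g885 u18 u9 u14 u12 u15 t
    have u20 := bt fun t => g1989 u3 t u18
    have u21 := bf fun t => g1934 n1 t n0 u17 g2013 u19
    exact g378 u20 g2011 u13 u21
  have s2065 : T.X a z b y = true → T.X p a b y = true → T.X p y z b = false → False := fun n0 n1 n2 => by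
    have u0 := bf fun t => g11 n1 t
    have u1 := bf fun t => g10 n1 t
    have u2 := bf fun t => g32 n0 t
    have u3 := bt fun t => s2061 t n0
    have u4 := bt fun t => g2015 t u2 u1
    have u5 := bf fun t => g6 u4 t
    have u6 := bf fun t => g198 t g2011 u4 u2
    have u7 := bt fun t => g46 t w2038 u6
    have u8 := bt fun t => g2000 u7 t w2062
    have u9 := bf fun t => g756 u8 n1 g2012 t
    have u10 := bf fun t => s2064 t n0 n1 n2
    have u11 := bt fun t => s2050 u10 u7 u5 t
    have u12 := bf fun t => g23 t u11
    have u13 := bt fun t => g1672 u3 u11 g2014 t g2013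
    have u14 := bf fun t => g792 t n2 u11 u9 g2013
    have u15 := bt fun t => g740 u8 n1 u13 t
    have u16 := bt fun t => g770 t u14 w2062
    have u17 := bf fun t => g41 t u15
    have u18 := bt fun t => g1989 u6 t u16
    have u19 := bf fun t => g734 u8 u0 t g2012 u17
    have u20 := bt fun t => g378 u18 g2011 u11 t
    have u21 := bt fun t => g753 u8 n1 t u19 u13
    have u22 := bf fun t => g35 t u20
    exact g2029 u12 u22 u21
  have s2066 : T.X a z y x = false → T.X p a b y = true → T.X p y z b = false → False := fun n0 n1 n2 => by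
    have u0 := bf fun t => s2065 t n1 n2
    have u1 := bf fun t => s2059 n2 t u0
    have u2 := bf fun t => g2021 t u0 n1
    have u3 := bf fun t => g189 t u1 n1 u2 u0
    have u4 := bt fun t => g46 t w2038 u3
    have u5 := bt fun t => g2000 u4 t w2062
    have u6 := bf fun t => g756 u5 n1 g2012 t
    have u7 := bf fun t => g591 t u5
    have u8 := bt fun t => s2050 n0 u4 u1 t
    have u9 := bf fun t => g23 t u8
    have u10 := bf fun t => g792 t n2 u8 u6 g2013
    have u11 := bt fun t => g770 t u10 w2062
    have u12 := bt fun t => g1989 u3 t u11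
    have u13 := bt fun t => g2009 t u7 u11
    have u14 := bt fun t => g378 u12 g2011 u8 t
    have u15 := bt fun t => g482 u13 u1 t g2012 g2014 n0
    have u16 := bf fun t => g35 t u14
    have u17 := bt fun t => g372 u12 w2032 u15 t u16
    exact g2029 u9 u16 u17
  have s2067 : T.X p a b y = true → T.X p y z b = false → False := fun n0 n1 => by
    have u0 := bf fun t => g11 n0 t
    have u1 := bf fun t => s2065 t n0 n1
    have u2 := bf fun t => s2059 n1 t u1
    have u3 := bf fun t => g2021 t u1 n0
    have u4 := bf fun t => g189 t u2 n0 u3 u1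
    have u5 := bt fun t => g46 t w2038 u4
    have u6 := bt fun t => g2000 u5 t w2062
    have u7 := bf fun t => g591 t u6
    have u8 := bf fun t => g592 t u6
    have u9 := bf fun t => g756 u6 n0 g2012 t
    have u10 := bt fun t => s2066 t n0 n1
    have u11 := bt fun t => s2063 t u10 u9 u8 u2 n1
    have u12 := bf fun t => g24 t u11
    have u13 := bf fun t => g792 t n1 u11 u9 g2013
    have u14 := bt fun t => g770 t u13 w2062
    have u15 := bt fun t => g1989 u4 t u14
    have u16 := bt fun t => g2009 t u7 u14
    have u17 := bt fun t => g378 u15 g2011 u11 t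
    have u18 := bf fun t => g512 u16 u2 t g2012 g2014 u10
    have u19 := bf fun t => g36 t u17
    have u20 := bt fun t => g1838 u1 u17 u10 t g2013
    have u21 := bt fun t => g391 u15 g2011 t u18 u11
    have u22 := bf fun t => g41 t u20
    have u23 := bt fun t => g373 u15 u21 t u12 u19
    exact g734 u6 u0 u23 g2012 u22
  have s2068 : T.X p x z b = true → T.X a z y x = true → T.X p y a z = false → T.X p y z b = false → False := fun n0 n1 n2 n3 => by
    have u0 := bf fun t => s2067 t n3
    have u1 := bf fun t => g1005 g2011 n2 u0 n3 t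
    have u2 := bt fun t => g2019 t u1 u0
    have u3 := bf fun t => g213 t g2011 u0 u2
    have u4 := bt fun t => g46 t w2038 u3
    have u5 := bt fun t => g2000 u4 t w2062
    have u6 := bf fun t => g591 t u5
    have u7 := bf fun t => g974 w2031 n2 t u2 u1
    have u8 := bf fun t => g24 t n0
    have u9 := bt fun t => g1672 u2 n0 g2014 t g2013
    have u10 := bf fun t => g29 t u9
    have u11 := bf fun t => g792 t n3 n0 u10 g2013
    have u12 := bt fun t => g770 t u11 w2062
    have u13 := bt fun t => g1989 u3 t u12
    have u14 := bt fun t => g2009 t u6 u12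
    have u15 := bt fun t => g378 u13 g2011 n0 t
    have u16 := bf fun t => g512 u14 n2 t g2012 g2014 n1
    have u17 := bf fun t => g36 t u15
    have u18 := bt fun t => g1838 u1 u15 n1 t g2013
    have u19 := bt fun t => g391 u13 g2011 t u16 n0
    have u20 := bf fun t => g41 t u18
    have u21 := bt fun t => g373 u13 u19 t u8 u17
    exact g734 u5 u7 u21 g2012 u20
  have s2069 : T.X a x z b = false → T.alt p a x z b = true → False := fun n0 n1 => by
    have u0 := bf fun t => g379 n1 g2011 t n0
    have u1 := bf fun t => g381 n1 g2011 t n0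
    exact g2023 u0 n0 u1
  have s2070 : T.X a z y x = true → T.X p y a z = false → T.X p y z b = false → False := fun n0 n1 n2 => by
    have u0 := bf fun t => s2067 t n2
    have u1 := bf fun t => g1005 g2011 n1 u0 n2 t
    have u2 := bt fun t => g2019 t u1 u0
    have u3 := bf fun t => g213 t g2011 u0 u2
    have u4 := bt fun t => g46 t w2038 u3
    have u5 := bt fun t => g2000 u4 t w2062
    have u6 := bf fun t => g592 t u5
    have u7 := bf fun t => g974 w2031 n1 t u2 u1
    have u8 := bf fun t => s2068 t n0 n1 n2
    have u9 := bt fun t => s2063 u8 n0 t u6 n1 n2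
    have u10 := bt fun t => g730 u5 u7 g2012 u9 t
    have u11 := bf fun t => g793 t u8 g2014 u9 g2013
    have u12 := bf fun t => g41 u10 t
    have u13 := bt fun t => g770 t u11 w2062
    have u14 := bf fun t => g1838 u1 t n0 u12 g2013
    have u15 := bt fun t => g1989 u3 t u13
    exact s2069 u14 u15
  have s2071 : T.X p y a z = false → T.X p y z b = false → T.X p a b y = false → False := fun n0 n1 n2 => by
    have u0 := bf fun t => g1005 g2011 n0 n2 n1 t
    have u1 := bt fun t => g2019 t u0 n2
    have u2 := bf fun t => g213 t g2011 n2 u1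
    have u3 := bt fun t => g46 t w2038 u2
    have u4 := bt fun t => g2000 u3 t w2062
    have u5 := bf fun t => g591 t u4
    have u6 := bf fun t => s2070 t n0 n1
    have u7 := bt fun t => s2050 u6 u3 n0 t
    have u8 := bf fun t => g23 t u7
    have u9 := bt fun t => g1672 u1 u7 g2014 t g2013
    have u10 := bf fun t => g29 t u9
    have u11 := bf fun t => g792 t n1 u7 u10 g2013
    have u12 := bt fun t => g770 t u11 w2062
    have u13 := bt fun t => g1989 u2 t u12
    have u14 := bt fun t => g2009 t u5 u12
    have u15 := bt fun t => g378 u13 g2011 u7 t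
    have u16 := bt fun t => g482 u14 n0 t g2012 g2014 u6
    have u17 := bf fun t => g35 t u15
    have u18 := bt fun t => g372 u13 w2032 u16 t u17
    exact g2029 u8 u17 u18
  have s2072 : T.X p y z b = false → T.X p a b y = false → False := fun n0 n1 => by
    have u0 := bt fun t => s2071 t n0 n1
    have u1 := bt fun t => s2059 n0 u0 t
    have u2 := bt fun t => s2061 t u1
    exact g2020 u2 u1 n1
  have s2073 : T.X p y z b = false → False := fun n0 => by
    have u0 := bf fun t => s2067 t n0
    exact s2072 n0 u0
  have w2073 := bt s2073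
  have s2074 := fun (n0 : T.X p z b y = true) => g20 n0 w2073
  have w2074 := bf s2074
  have s2075 := fun (n0 : T.X p b z y = true) => g21 n0 w2073
  have w2075 := bf s2075
  have s2076 := fun (n0 : T.X a z b y = true) => s2061 w2074 n0
  have w2076 := bf s2076
  have s2077 := fun (n0 : T.X p a b y = false) => g2019 w2074 w2076 n0
  have w2077 := bt s2077
  have s2078 := fun (n0 : T.X p b a y = true) => g10 w2077 n0
  have w2078 := bf s2078
  have s2080 := fun (n0 : T.alt p a z b y = true) => s2057 w2073 w2078 n0
  have w2080 := bf s2080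
  have s2081 := fun (n0 : T.alt p a x b y = true) => g2002 w2080 n0 w2062
  have w2081 := bf s2081
  have s2082 := fun (n0 : T.alt p a y z b = false) => g46 w2080 w2038 n0
  have w2082 := bt s2082
  have s2083 := fun (n0 : T.X p y a z = false) => g189 w2082 n0 w2077 w2074 w2076
  have w2083 := bt s2083
  have s2084 := fun (n0 : T.X a y z b = false) => g197 w2082 g2011 w2073 n0
  have w2084 := bt s2084
  have s2085 := fun (n0 : T.X p a z y = true) => g5 n0 w2083
  have w2085 := bf s2085
  have s2086 := fun (n0 : T.X p z a y = true) => g6 n0 w2083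
  have w2086 := bf s2086
  have s2088 : T.alt p a x z b = true → False := fun n0 => by
    have u0 := bt fun t => g1984 n0 t w2081
    have u1 := bt fun t => s2069 t n0
    have u2 := bt fun t => g1994 w2038 u0 t
    have u3 := bf fun t => g35 t u1
    have u4 := bt fun t => g797 u2 w2073 t g2014 g2013
    have u5 := bf fun t => g23 t u4
    have u6 := bf fun t => g2029 u5 u3 t
    have u7 := bf fun t => g372 n0 w2032 t u6 u3
    have u8 := bt fun t => g548 u0 w2083 u7 g2014 t
    have u9 := bf fun t => g1330 w2085 u7 g2012 t u8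
    have u10 := bf fun t => g1315 w2086 u7 t g2014 u8
    have u11 := bt fun t => g1829 w2084 u3 u8 t g2013
    have u12 := bf fun t => g784 u2 w2074 w2075 u9 t
    exact g1531 w2077 u6 u10 u12 u11
  have w2088 := bf s2088
  have s2089 := fun (n0 : T.alt p a x z y = true) => g1986 w2088 n0 w2081
  have w2089 := bf s2089
  have s2090 := fun (n0 : T.alt p z b y x = false) => g1988 w2082 w2088 n0
  have w2090 := bt s2090
  have s2092 := fun (n0 : T.X p x z b = true) => g861 w2090 w2073 n0 g2013
  have w2092 := bf s2092
  have s2093 := fun (n0 : T.X p b y x = true) => g864 w2090 w2073 n0 g2013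
  have w2093 := bf s2093
  have s2094 : T.X a z y x = true → T.X a x z b = true → False := fun n0 n1 => by
    have u0 := bf fun t => g35 t n1
    have u1 := bt fun t => g1838 w2076 n1 n0 t g2013
    have u2 := bt fun t => g1829 w2084 u0 n0 t g2013
    exact g42 u2 u1
  have s2095 : T.X p a b x = false → T.X p x a z = false → T.X a z b x = false → T.alt p a z b x = true → False := fun n0 n1 n2 n3 => by
    have u0 := bt fun t => g301 n3 w2032 n1 n0 t n2
    exact g2027 u0 n2 n0
  have s2096 : T.X p x a z = false → T.alt p a z b x = true → T.X a z b x = false → False := fun n0 n1 n2 => by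
    have u0 := bt fun t => s2095 t n0 n2 n1
    have u1 := bt fun t => g2029 t n2 u0
    exact g319 n1 u0 u1 n2
  have s2097 : T.X p x a z = false → T.X a x z b = true → False := fun n0 n1 => by
    have u0 := bf fun t => s2094 t n1
    have u1 := bf fun t => g35 t n1
    have u2 := bf fun t => g435 t w2083 n0 g2012 u0
    have u3 := bf fun t => g1996 t u2 w2062
    have u4 := bt fun t => g227 t u3 w2088
    exact s2096 n0 u4 u1
  have s2098 : T.X a x z b = true → False := fun n0 => by
    have u0 := bt fun t => s2097 t n0
    have u1 := bf fun t => g9 t u0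
    have u2 := bt fun t => g1200 w2032 u0 t w2092 n0
    exact g2026 u1 n0 u2
  have w2098 := bf s2098
  have s2099 := fun (n0 : T.X p x a z = true) => s2045 n0 w2098 w2092
  have w2099 := bf s2099
  have s2100 : T.alt p a z b x = false → False := fun n0 => by
    have u0 := bf fun t => g1973 w2080 n0 t
    have u1 := bt fun t => g227 n0 t w2088
    have u2 := bt fun t => g408 u0 t w2089
    have u3 := bt fun t => g255 u1 g2011 t w2092 w2098
    have u4 := bt fun t => g435 u2 w2083 w2099 g2012 t
    have u5 := bt fun t => g1504 w2077 u3 g2012 w2093 t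
    exact g1839 w2076 w2098 u4 u5 g2013
  have w2100 := bt s2100
  have s2105 := fun (n0 : T.X a z b x = false) => s2096 w2099 w2100 n0
  have w2105 := bt s2105
  have s2106 := fun (n0 : T.X p z a x = false) => g314 w2100 g2011 n0 w2092 w2098
  have w2106 := bt s2106
  have s2107 := fun (n0 : T.X p b a x = true) => g324 w2100 g2011 n0 w2098
  have w2107 := bf s2107
  have s2114 := fun (n0 : T.X p a b x = false) => g1175 g2011 w2099 n0 w2092 w2105
  have w2114 := bt s2114
  have s2118 := fun (n0 : T.X p z b x = false) => g1196 w2032 w2106 w2107 n0 w2105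
  have w2118 := bt s2118
  exact g2030 w2118 w2105 w2114

theorem MT_sepa_1101 {p a z b y x : V} (hN : [p, a, z, b, y, x].Nodup) (h0 : T.X p a z b = true)
    (h1 : T.X y x p a = false) (h2 : T.X y x z b = false) (h3 : T.X y x p z = false)
    (h4 : T.X y a p z = false → T.X y a z b = false → T.X y a b p = false → False)
    (h5 : T.X y a p z = true → T.X y a z b = true → T.X y a b p = false → False)
    (h6 : T.X y a p z = true → T.X y a z b = false → T.X y a b p = true → False)
    (h7 : T.X y a p z = false → T.X y a z b = true → T.X y a b p = true → False)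
    (h8 : T.X y b p z = false → T.X y b z a = false → T.X y b a p = false → False)
    (h9 : T.X y b p z = true → T.X y b z a = true → T.X y b a p = false → False)
    (h10 : T.X y b p z = true → T.X y b z a = false → T.X y b a p = true → False)
    (h11 : T.X y b p z = false → T.X y b z a = true → T.X y b a p = true → False)
    (h12 : T.X x a p z = true → T.X x a z b = false → T.X x a b p = false → False)
    (h13 : T.X x a p z = false → T.X x a z b = true → T.X x a b p = false → False)
    (h14 : T.X x a p z = false → T.X x a z b = false → T.X x a b p = true → False)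
    (h15 : T.X x a p z = true → T.X x a z b = true → T.X x a b p = true → False)
    (h16 : T.X x b p z = false → T.X x b z a = false → T.X x b a p = false → False)
    (h17 : T.X x b p z = true → T.X x b z a = true → T.X x b a p = false → False)
    (h18 : T.X x b p z = true → T.X x b z a = false → T.X x b a p = true → False)
    (h19 : T.X x b p z = false → T.X x b z a = true → T.X x b a p = true → False) : False := by
  have k0 : T.Ok5 p a z b y := T.n5 hN (.cons_cons _ (.cons_cons _ (.cons_cons _ (.cons_cons _ (.cons_cons _ (List.nil_sublist _))))))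
  have k1 : T.Ok5 p a z b x := T.n5 hN (.cons_cons _ (.cons_cons _ (.cons_cons _ (.cons_cons _ (.cons _ (.cons_cons _ (List.nil_sublist _)))))))
  have k2 : T.Ok5 p a z y x := T.n5 hN (.cons_cons _ (.cons_cons _ (.cons_cons _ (.cons _ (.cons_cons _ (.cons_cons _ (List.nil_sublist _)))))))
  have k3 : T.Ok5 p a b y x := T.n5 hN (.cons_cons _ (.cons_cons _ (.cons _ (.cons_cons _ (.cons_cons _ (.cons_cons _ (List.nil_sublist _)))))))
  have k4 : T.Ok5 p z b y x := T.n5 hN (.cons_cons _ (.cons _ (.cons_cons _ (.cons_cons _ (.cons_cons _ (.cons_cons _ (List.nil_sublist _)))))))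
  have k5 : T.Ok5 a z b y x := T.n5 hN (.cons _ (.cons_cons _ (.cons_cons _ (.cons_cons _ (.cons_cons _ (.cons_cons _ (List.nil_sublist _)))))))
  have sp0 : T.Sp5 p a z b y x := T.sp5 hN (.cons_cons _ (.cons_cons _ (.cons_cons _ (.cons_cons _ (.cons_cons _ (.cons_cons _ (List.nil_sublist _)))))))
  have g1 := T.q01 p a z b
  have g2 := T.q02 p a z b
  have g9 := T.q12 p a z x
  have g10 := T.q01 p a b y
  have g13 := T.q01 p a b x
  have g19 := T.q01 p z b y
  have g20 := T.q02 p z b y
  have g21 := T.q12 p z b y
  have g23 := T.q02 p z b x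
  have g24 := T.q12 p z b x
  have g28 := T.q01 p b y x
  have g29 := T.q02 p b y x
  have g32 := T.q02 a z b y
  have g33 := T.q12 a z b y
  have g35 := T.q02 a z b x
  have g41 := T.q02 a b y x
  have g46 := T.ae1 k0
  have g69 := fun ha : T.alt p a b z y = true => zA1_4704_512 (T.okA1 k0 ha)
  have g71 := fun ha : T.alt p a b z y = true => zA1_4676_64 (T.okA1 k0 ha)
  have g74 := fun ha : T.alt p a b z y = true => zA1_18561_1 (T.okA1 k0 ha)
  have g84 := fun ha : T.alt p a b z y = true => zA1_16401_17 (T.okA1 k0 ha)
  have g87 := fun ha : T.alt p a b z y = true => zA1_294_32 (T.okA1 k0 ha)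
  have g98 := fun ha : T.alt p a b z y = true => zA1_2305_257 (T.okA1 k0 ha)
  have g100 := fun ha : T.alt p a b z y = true => zA1_18560_2176 (T.okA1 k0 ha)
  have g120 := fun ha : T.alt p a z b y = true => zA0_4708_0 (T.okA0 k0 ha)
  have g130 := fun ha : T.alt p a z b y = true => zA0_9226_8 (T.okA0 k0 ha)
  have g141 := fun ha : T.alt p a z b y = true => zA0_4192_96 (T.okA0 k0 ha)
  have g143 := fun ha : T.alt p a z b y = true => zA0_16513_129 (T.okA0 k0 ha)
  have g146 := fun ha : T.alt p a z b y = true => zA0_294_256 (T.okA0 k0 ha)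
  have g157 := fun ha : T.alt p a z b y = true => zA0_2081_33 (T.okA0 k0 ha)
  have g159 := fun ha : T.alt p a z b y = true => zA0_18448_2064 (T.okA0 k0 ha)
  have g197 := fun ha : T.alt p a y z b = true => zA2_18433_2049 (T.okA2 k0 ha)
  have g198 := fun ha : T.alt p a y z b = true => zA2_16401_17 (T.okA2 k0 ha)
  have g200 := fun ha : T.alt p a y z b = true => zA2_16513_129 (T.okA2 k0 ha)
  have g206 := fun ha : T.alt p a y z b = true => zA2_18577_16385 (T.okA2 k0 ha)
  have g213 := fun ha : T.alt p a y z b = true => zA2_577_513 (T.okA2 k0 ha)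
  have g227 := T.ae1 k1
  have g238 := fun ha : T.alt p a b z x = true => zA1_16420_16416 (T.okA1 k1 ha)
  have g250 := fun ha : T.alt p a b z x = true => zA1_4704_512 (T.okA1 k1 ha)
  have g252 := fun ha : T.alt p a b z x = true => zA1_4676_64 (T.okA1 k1 ha)
  have g255 := fun ha : T.alt p a b z x = true => zA1_18561_1 (T.okA1 k1 ha)
  have g265 := fun ha : T.alt p a b z x = true => zA1_16401_17 (T.okA1 k1 ha)
  have g314 := fun ha : T.alt p a z b x = true => zA0_18449_1 (T.okA0 k1 ha)
  have g324 := fun ha : T.alt p a z b x = true => zA0_16513_129 (T.okA0 k1 ha)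
  have g341 := fun ha : T.alt p a z b x = true => zA0_18577_16401 (T.okA0 k1 ha)
  have g370 := fun ha : T.alt p a x z b = true => zA2_4704_64 (T.okA2 k1 ha)
  have g371 := fun ha : T.alt p a x z b = true => zA2_4708_4096 (T.okA2 k1 ha)
  have g378 := fun ha : T.alt p a x z b = true => zA2_18433_2049 (T.okA2 k1 ha)
  have g381 := fun ha : T.alt p a x z b = true => zA2_16513_129 (T.okA2 k1 ha)
  have g394 := fun ha : T.alt p a x z b = true => zA2_577_513 (T.okA2 k1 ha)
  have g408 := T.ae1 k2
  have g411 := T.ae12 k2
  have g591 := T.ae02 k3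
  have g592 := T.ae12 k3
  have g722 := fun ha : T.alt p a x b y = true => zA2_18577_0 (T.okA2 k3 ha)
  have g730 := fun ha : T.alt p a x b y = true => zA2_4676_512 (T.okA2 k3 ha)
  have g756 := fun ha : T.alt p a x b y = true => zA2_577_513 (T.okA2 k3 ha)
  have g770 := T.ae1 k4
  have g772 := T.ae02 k4
  have g773 := T.ae12 k4
  have g781 := fun ha : T.alt p z y b x = true => zA1_16420_16416 (T.okA1 k4 ha)
  have g792 := fun ha : T.alt p z y b x = true => zA1_4644_32 (T.okA1 k4 ha)
  have g797 := fun ha : T.alt p z y b x = true => zA1_4196_4 (T.okA1 k4 ha)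
  have g844 := fun ha : T.alt p z b y x = true => zA0_4708_0 (T.okA0 k4 ha)
  have g861 := fun ha : T.alt p z b y x = true => zA0_4132_36 (T.okA0 k4 ha)
  have g870 := fun ha : T.alt p z b y x = true => zA0_294_256 (T.okA0 k4 ha)
  have g910 := fun ha : T.alt p z x b y = true => zA2_4644_4 (T.okA2 k4 ha)
  have g915 := fun ha : T.alt p z x b y = true => zA2_4196_32 (T.okA2 k4 ha)
  have g1005 := z5_6241_4097 k0
  have g1015 := z5_18489_18433 k0
  have g1080 := z5_19025_16465 k0
  have g1197 := z5_4756_640 k1
  have g1337 := z5_18596_160 k2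
  have g1506 := z5_5196_4104 k3
  have g1666 := z5_16977_513 k4
  have g1682 := z5_8778_8704 k4
  have g1831 := z5_10505_264 k5
  have g1982 := zsp_1156_128 sp0
  have g1984 := zsp_2336_32 sp0
  have g1985 := zsp_2336_2048 sp0
  have g1987 := zsp_4132_4132 sp0
  have g1988 := zsp_4132_4 sp0
  have g1989 := zsp_4132_4096 sp0
  have g1990 := zsp_4132_32 sp0
  have g1994 := zsp_8450_256 sp0
  have g1997 := zsp_16528_16384 sp0
  have g2000 := zsp_18433_1 sp0
  have g2001 := zsp_18433_16384 sp0
  have g2008 := zsp_4672_64 sp0
  have g2011 : T.X p a z b = true := h0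
  have g2012 : T.X p a y x = false := ((T.xs4 y x p a).symm.trans h1)
  have g2013 : T.X z b y x = false := ((T.xs4 y x z b).symm.trans h2)
  have g2014 : T.X p z y x = false := ((T.xs4 y x p z).symm.trans h3)
  have g2015 := fun (n0 : T.X p z a y = false) (n1 : T.X a y z b = false) (n2 : T.X p b a y = false) => h4 ((T.xs6 y a p z).trans n0) ((T.xs1 y a z b).trans n1) ((T.xs7 y a b p).trans n2)
  have g2016 := fun (n0 : T.X p z a y = true) (n1 : T.X a y z b = true) (n2 : T.X p b a y = false) => h5 ((T.xs6 y a p z).trans n0) ((T.xs1 y a z b).trans n1) ((T.xs7 y a b p).trans n2)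
  have g2019 := fun (n0 : T.X p z b y = false) (n1 : T.X a z b y = false) (n2 : T.X p a b y = false) => h8 ((T.xs6 y b p z).trans n0) ((T.xs7 y b z a).trans n1) ((T.xs7 y b a p).trans n2)
  have g2021 := fun (n0 : T.X p z b y = true) (n1 : T.X a z b y = false) (n2 : T.X p a b y = true) => h10 ((T.xs6 y b p z).trans n0) ((T.xs7 y b z a).trans n1) ((T.xs7 y b a p).trans n2)
  have g2023 := fun (n0 : T.X p z a x = true) (n1 : T.X a x z b = false) (n2 : T.X p b a x = false) => h12 ((T.xs6 x a p z).trans n0) ((T.xs1 x a z b).trans n1) ((T.xs7 x a b p).trans n2)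
  have g2024 := fun (n0 : T.X p z a x = false) (n1 : T.X a x z b = true) (n2 : T.X p b a x = false) => h13 ((T.xs6 x a p z).trans n0) ((T.xs1 x a z b).trans n1) ((T.xs7 x a b p).trans n2)
  have g2025 := fun (n0 : T.X p z a x = false) (n1 : T.X a x z b = false) (n2 : T.X p b a x = true) => h14 ((T.xs6 x a p z).trans n0) ((T.xs1 x a z b).trans n1) ((T.xs7 x a b p).trans n2)
  have g2026 := fun (n0 : T.X p z a x = true) (n1 : T.X a x z b = true) (n2 : T.X p b a x = true) => h15 ((T.xs6 x a p z).trans n0) ((T.xs1 x a z b).trans n1) ((T.xs7 x a b p).trans n2)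
  have g2027 := fun (n0 : T.X p z b x = false) (n1 : T.X a z b x = false) (n2 : T.X p a b x = false) => h16 ((T.xs6 x b p z).trans n0) ((T.xs7 x b z a).trans n1) ((T.xs7 x b a p).trans n2)
  have g2029 := fun (n0 : T.X p z b x = true) (n1 : T.X a z b x = false) (n2 : T.X p a b x = true) => h18 ((T.xs6 x b p z).trans n0) ((T.xs7 x b z a).trans n1) ((T.xs7 x b a p).trans n2)
  have s2031 := fun (n0 : T.X p z a b = true) => g1 g2011 n0
  have w2031 := bf s2031
  have s2032 := fun (n0 : T.X p b a z = true) => g2 g2011 n0
  have w2032 := bf s2032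
  have s2033 : T.X p z b x = false → T.X a z b x = false → T.alt p a b z x = true → False := fun n0 n1 n2 => by
    have u0 := bt fun t => g2027 n0 n1 t
    exact g252 n2 w2032 u0 n0 n1
  have s2034 : T.X a x z b = true → T.alt p a b z x = true → False := fun n0 n1 => by
    have u0 := bf fun t => g35 t n0
    have u1 := bf fun t => g238 n1 w2032 t n0
    have u2 := bt fun t => s2033 t u0 n1
    have u3 := bf fun t => g2029 u2 u0 t
    exact g250 n1 u1 u3 u2 u0
  have s2035 : T.X a y z b = false → T.X p y z b = true → T.alt p a b z y = true → False := fun n0 n1 n2 => by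
    have u0 := bf fun t => g84 n2 g2011 t n0
    have u1 := bt fun t => g2015 u0 n0 t
    exact g100 n2 u1 n1 n0
  have s2037 : T.alt p a x z y = true → T.alt p z x b y = true → False := fun n0 n1 => by
    have u0 := bf fun t => g773 t n1
    have u1 := bf fun t => g411 t n0
    have u2 := bt fun t => g1994 t n0 u0
    have u3 := bt fun t => g1997 t u1 n1
    have u4 := bf fun t => s2034 t u3
    have u5 := bf fun t => g265 u3 g2011 t u4
    have u6 := bf fun t => g2025 u5 u4 t
    have u7 := bt fun t => g255 u3 g2011 u6 t u4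
    have u8 := bt fun t => g915 n1 t u7 g2014 g2013
    have u9 := bf fun t => g20 t u8
    have u10 := bt fun t => s2035 t u8 u2
    have u11 := bf fun t => g32 t u10
    have u12 := bt fun t => g2019 u9 u11 t
    exact g71 u2 w2032 u12 u9 u11
  have s2038 : T.X p x z b = true → T.alt p a x z b = true → False := fun n0 n1 => by
    have u0 := bf fun t => g23 t n0
    have u1 := bt fun t => g378 n1 g2011 n0 t
    have u2 := bf fun t => g35 t u1
    have u3 := bt fun t => g2027 u0 u2 t
    have u4 := bf fun t => g13 u3 t
    have u5 := bt fun t => g370 n1 t u3 u0 u2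
    have u6 := bt fun t => g2024 t u1 u4
    exact g9 u6 u5
  have s2039 : T.X p y z b = true → T.X a z b y = false → T.alt p a x b y = true → T.alt p z x b y = true → False := fun n0 n1 n2 n3 => by
    have u0 := bf fun t => s2037 t n3
    have u1 := bt fun t => g1985 t u0 n2
    have u2 := bf fun t => s2038 t u1
    have u3 := bf fun t => g20 t n0
    have u4 := bt fun t => g910 n3 n0 u2 t g2013
    have u5 := bt fun t => g2019 u3 n1 t
    exact g756 n2 u5 g2012 u4
  have s2040 : T.X p z b y = false → T.X p y z b = false → T.X a y z b = true → T.alt p a y z b = true → False := fun n0 n1 n2 n3 => by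
    have u0 := bf fun t => g32 t n2
    have u1 := bt fun t => g2019 n0 u0 t
    have u2 := bf fun t => g10 u1 t
    have u3 := bf fun t => g1080 g2011 t u1 n0 n1 n2
    exact g206 n3 g2011 u3 u2 n1 n2
  have s2041 : T.X a y z b = true → T.alt p a x b y = true → T.alt p z x b y = true → False := fun n0 n1 n2 => by
    have u0 := bf fun t => g592 t n1
    have u1 := bf fun t => g772 t n2
    have u2 := bf fun t => g591 t n1
    have u3 := bf fun t => g2008 t u2 u1
    have u4 := bf fun t => s2037 t n2
    have u5 := bt fun t => g408 u3 t u4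
    have u6 := bt fun t => g1982 t u5 u0
    have u7 := bf fun t => g32 t n0
    have u8 := bf fun t => s2039 t u7 n1 n2
    have u9 := bt fun t => s2040 t u8 n0 u6
    have u10 := bf fun t => g2021 u9 u7 t
    exact g213 u6 g2011 u10 u9
  have s2042 : T.X a y z b = false → T.alt p a y z b = true → False := fun n0 n1 => by
    have u0 := bf fun t => g198 n1 g2011 t n0
    have u1 := bf fun t => g200 n1 g2011 t n0
    exact g2015 u0 n0 u1
  have s2043 : T.alt p a x b y = true → T.alt p z x b y = true → False := fun n0 n1 => by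
    have u0 := bf fun t => s2037 t n1
    have u1 := bf fun t => g772 t n1
    have u2 := bf fun t => g591 t n0
    have u3 := bf fun t => g592 t n0
    have u4 := bf fun t => g2008 t u2 u1
    have u5 := bt fun t => g408 u4 t u0
    have u6 := bt fun t => g1982 t u5 u3
    have u7 := bf fun t => s2041 t n0 n1
    exact s2042 u7 u6
  have s2044 : T.X p b a x = false → T.X a x z b = true → T.alt p a z b x = true → T.X p x z b = false → False := fun n0 n1 n2 n3 => by
    have u0 := bf fun t => g341 n2 g2011 t n0 n3 n1
    exact g2024 u0 n1 n0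
  have s2045 : T.X a x z b = true → T.alt p a z b x = true → T.X p x z b = false → False := fun n0 n1 n2 => by
    have u0 := bf fun t => g35 t n0
    have u1 := bt fun t => s2044 t n0 n1 n2
    have u2 := bf fun t => g13 t u1
    have u3 := bf fun t => g2026 t n0 u1
    have u4 := bt fun t => g2027 t u0 u2
    exact g1197 w2032 u3 u1 u4 u0
  have s2046 : T.X a x z b = false → T.alt p a z b x = true → T.X p x z b = false → False := fun n0 n1 n2 => by
    have u0 := bt fun t => g314 n1 g2011 t n2 n0
    have u1 := bf fun t => g324 n1 g2011 t n0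
    exact g2023 u0 n0 u1
  have s2047 : T.alt p a z b x = true → T.X p x z b = false → False := fun n0 n1 => by
    have u0 := bf fun t => s2045 t n0 n1
    exact s2046 u0 n0 n1
  have s2048 : T.alt p a b z x = true → T.X a x z b = false → T.X p x z b = false → False := fun n0 n1 n2 => by
    have u0 := bt fun t => g255 n0 g2011 t n2 n1
    have u1 := bf fun t => g265 n0 g2011 t n1
    exact g2025 u1 n1 u0
  have s2049 : T.X p x z b = false → T.alt p a x z b = false → False := fun n0 n1 => by
    have u0 := bf fun t => s2047 t n0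
    have u1 := bt fun t => g227 u0 t n1
    have u2 := bf fun t => s2034 t u1
    exact s2048 u1 u2 n0
  have s2050 : T.X a y z b = false → T.alt p z x b y = true → False := fun n0 n1 => by
    have u0 := bf fun t => s2043 t n1
    have u1 := bf fun t => s2037 t n1
    have u2 := bf fun t => g1984 t u1 u0
    have u3 := bt fun t => s2049 t u2
    have u4 := bt fun t => g915 n1 t u3 g2014 g2013
    have u5 := bt fun t => g2001 t u0 n1
    have u6 := bf fun t => g143 u5 g2011 t n0
    have u7 := bf fun t => g159 u5 t u4 n0
    exact g2015 u7 n0 u6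
  have s2051 : T.alt p z x b y = true → False := fun n0 => by
    have u0 := bf fun t => s2037 t n0
    have u1 := bf fun t => s2043 t n0
    have u2 := bf fun t => g1984 t u0 u1
    have u3 := bt fun t => g2001 t u1 n0
    have u4 := bt fun t => s2049 t u2
    have u5 := bt fun t => g915 n0 t u4 g2014 g2013
    have u6 := bf fun t => g20 t u5
    have u7 := bf fun t => g21 t u5
    have u8 := bt fun t => s2050 t n0
    have u9 := bf fun t => g32 t u8
    have u10 := bf fun t => g33 t u8
    have u11 := bt fun t => g2019 u6 u9 t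
    have u12 := bf fun t => g130 u3 w2031 t u7 u10
    have u13 := bf fun t => g10 u11 t
    have u14 := bf fun t => g141 u3 t u11 u9
    have u15 := bt fun t => g1015 g2011 u12 t u14 u5 u8
    exact g2016 u15 u8 u13
  have w2051 := bf s2051
  have s2052 : T.X a y z b = true → T.alt p a z b y = true → T.X p y z b = true → False := fun n0 n1 n2 => by
    have u0 := bf fun t => g21 t n2
    have u1 := bf fun t => g20 t n2
    have u2 := bf fun t => g32 t n0
    have u3 := bf fun t => g33 t n0
    have u4 := bt fun t => g2019 u1 u2 t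
    have u5 := bf fun t => g130 n1 w2031 t u0 u3
    have u6 := bf fun t => g10 u4 t
    have u7 := bf fun t => g141 n1 t u4 u2
    have u8 := bt fun t => g1015 g2011 u5 t u7 n2 n0
    exact g2016 u8 n0 u6
  have s2053 : T.alt p a z b y = true → T.X p y z b = true → False := fun n0 n1 => by
    have u0 := bf fun t => s2052 t n0 n1
    have u1 := bf fun t => g143 n0 g2011 t u0
    have u2 := bf fun t => g159 n0 t n1 u0
    exact g2015 u2 u0 u1
  have s2054 : T.X a y z b = false → T.X p y z b = true → False := fun n0 n1 => by
    have u0 := bf fun t => s2053 t n1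
    have u1 := bf fun t => g197 t g2011 n1 n0
    have u2 := bf fun t => s2035 n0 n1 t
    exact g46 u0 u2 u1
  have s2055 : T.X p x z b = true → T.X p y z b = true → False := fun n0 n1 => by
    have u0 := bf fun t => s2053 t n1
    have u1 := bt fun t => s2054 t n1
    have u2 := bf fun t => g32 t u1
    have u3 := bf fun t => g20 t n1
    have u4 := bt fun t => g2019 u3 u2 t
    have u5 := bf fun t => g71 t w2032 u4 u3 u2
    have u6 := bt fun t => g46 u0 u5 t
    have u7 := bf fun t => g861 t n1 n0 g2013
    have u8 := bf fun t => s2038 n0 t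
    exact g1988 u6 u8 u7
  have s2056 : T.X p y z b = true → False := fun n0 => by
    have u0 := bf fun t => g20 t n0
    have u1 := bf fun t => s2053 t n0
    have u2 := bt fun t => s2054 t n0
    have u3 := bf fun t => g32 t u2
    have u4 := bt fun t => g2019 u0 u3 t
    have u5 := bf fun t => g71 t w2032 u4 u0 u3
    have u6 := bt fun t => g46 u1 u5 t
    have u7 := bf fun t => s2055 t n0
    have u8 := bt fun t => s2049 u7 t
    have u9 := bf fun t => g797 t n0 u7 g2014 g2013
    have u10 := bf fun t => g1987 u6 u8 t
    exact g770 u10 u9 w2051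
  have w2056 := bf s2056
  have s2057 : T.alt p a y z b = true → False := fun n0 => by
    have u0 := bt fun t => s2042 t n0
    have u1 := bf fun t => g32 t u0
    have u2 := bt fun t => s2040 t w2056 u0 n0
    have u3 := bf fun t => g2021 u2 u1 t
    exact g213 n0 g2011 u3 u2
  have w2057 := bf s2057
  have s2058 : T.X p z b y = true → T.X a z b y = false → T.alt p a b z y = true → False := fun n0 n1 n2 => by
    have u0 := bf fun t => g98 n2 g2011 t w2056
    have u1 := bf fun t => g87 n2 w2031 w2032 t u0
    have u2 := bf fun t => g2021 n0 n1 t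
    exact g69 n2 u1 u2 n0 n1
  have s2059 : T.X p z b y = false → T.X a z b y = false → T.alt p a b z y = true → False := fun n0 n1 n2 => by
    have u0 := bf fun t => g71 n2 w2032 t n0 n1
    exact g2019 n0 n1 u0
  have s2060 : T.X a z b y = false → T.alt p a b z y = true → False := fun n0 n1 => by
    have u0 := bf fun t => s2058 t n0 n1
    exact s2059 u0 n0 n1
  have s2061 : T.X p y a b = false → T.alt p a b z y = true → False := fun n0 n1 => by
    have u0 := bf fun t => g87 n1 w2031 w2032 t n0
    have u1 := bt fun t => s2060 t n1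
    have u2 := bf fun t => g32 u1 t
    have u3 := bt fun t => g1005 g2011 u0 t w2056 u1
    have u4 := bt fun t => g74 n1 g2011 t w2056 u2
    exact g10 u3 u4
  have s2062 : T.alt p a b z y = true → False := fun n0 => by
    have u0 := bf fun t => g98 n0 g2011 t w2056
    exact s2061 u0 n0
  have w2062 := bf s2062
  have s2063 := fun (n0 : T.alt p a z b y = false) => g46 n0 w2062 w2057
  have w2063 := bt s2063
  have s2064 := fun (n0 : T.alt p a x b y = false) => g2000 w2063 n0 w2051
  have w2064 := bt s2064
  have s2065 := fun (n0 : T.X p y a z = true) => g157 w2063 g2011 n0 w2056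
  have w2065 := bf s2065
  have s2066 := fun (n0 : T.X p y a b = true) => g146 w2063 w2031 w2032 w2065 n0
  have w2066 := bf s2066
  have s2067 : T.X p x z b = false → False := fun n0 => by
    have u0 := bt fun t => s2049 n0 t
    have u1 := bt fun t => g1990 w2057 u0 t
    have u2 := bt fun t => g844 u1 w2056 n0 g2014 t g2013
    have u3 := bf fun t => g28 u2 t
    have u4 := bf fun t => g29 u2 t
    have u5 := bf fun t => g756 w2064 t g2012 u2
    have u6 := bf fun t => g1005 g2011 w2065 u5 w2056 t
    have u7 := bt fun t => g730 w2064 w2066 g2012 u2 t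
    have u8 := bt fun t => g120 w2063 w2032 w2065 u5 t u6
    have u9 := bf fun t => g41 u7 t
    have u10 := bf fun t => g1506 w2066 t g2012 u3 u7
    have u11 := bf fun t => g19 u8 t
    have u12 := bf fun t => g394 u0 g2011 u10 t
    have u13 := bf fun t => g870 u1 u11 w2056 n0 t
    have u14 := bf fun t => g1682 u11 u12 g2014 u2 t
    have u15 := bt fun t => g2027 u12 t u10
    have u16 := bf fun t => g1831 u6 u15 t u9 u14
    have u17 := bf fun t => g35 u15 t
    have u18 := bt fun t => g371 u0 w2032 t u10 u12 u15
    have u19 := bf fun t => g1337 w2065 u18 t u13 u16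
    have u20 := bf fun t => g381 u0 g2011 t u17
    exact g722 w2064 u5 u20 u19 u4 u9
  have w2067 := bt s2067
  have s2071 := fun (n0 : T.X p b z x = true) => g24 n0 w2067
  have w2071 := bf s2071
  have s2072 := fun (n0 : T.alt p a x z b = true) => s2038 w2067 n0
  have w2072 := bf s2072
  have s2075 := fun (n0 : T.alt p z b y x = true) => g1989 w2057 w2072 n0
  have w2075 := bf s2075
  have s2078 := fun (n0 : T.alt p z y b x = false) => g770 w2075 n0 w2051
  have w2078 := bt s2078
  have s2080 := fun (n0 : T.X z x b y = true) => g781 w2078 w2056 w2067 n0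
  have w2080 := bf s2080
  have s2081 := fun (n0 : T.X p b y x = false) => g792 w2078 w2056 w2067 n0 g2013
  have w2081 := bt s2081
  have s2084 := fun (n0 : T.X p a b y = true) => g756 w2064 n0 g2012 w2081
  have w2084 := bf s2084
  have s2087 := fun (n0 : T.X p z b y = true) => g1666 n0 w2071 g2014 w2081 w2080
  have w2087 := bf s2087
  have s2088 := fun (n0 : T.X a z b y = true) => g1005 g2011 w2065 w2084 w2056 n0
  have w2088 := bf s2088
  exact g2019 w2087 w2088 w2084

theorem MT_sepa_1100 {p a z b y x : V} (hN : [p, a, z, b, y, x].Nodup) (h0 : T.X p a z b = true)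
    (h1 : T.X y x p a = false) (h2 : T.X y x z b = false) (h3 : T.X y x p z = false)
    (h4 : T.X y a p z = false → T.X y a z b = false → T.X y a b p = false → False)
    (h5 : T.X y a p z = true → T.X y a z b = true → T.X y a b p = false → False)
    (h6 : T.X y a p z = true → T.X y a z b = false → T.X y a b p = true → False)
    (h7 : T.X y a p z = false → T.X y a z b = true → T.X y a b p = true → False)
    (h8 : T.X y b p z = false → T.X y b z a = false → T.X y b a p = false → False)
    (h9 : T.X y b p z = true → T.X y b z a = true → T.X y b a p = false → False)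
    (h10 : T.X y b p z = true → T.X y b z a = false → T.X y b a p = true → False)
    (h11 : T.X y b p z = false → T.X y b z a = true → T.X y b a p = true → False)
    (h12 : T.X x a p z = true → T.X x a z b = false → T.X x a b p = false → False)
    (h13 : T.X x a p z = false → T.X x a z b = true → T.X x a b p = false → False)
    (h14 : T.X x a p z = false → T.X x a z b = false → T.X x a b p = true → False)
    (h15 : T.X x a p z = true → T.X x a z b = true → T.X x a b p = true → False)
    (h16 : T.X x b p z = true → T.X x b z a = false → T.X x b a p = false → False)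
    (h17 : T.X x b p z = false → T.X x b z a = true → T.X x b a p = false → False)
    (h18 : T.X x b p z = false → T.X x b z a = false → T.X x b a p = true → False)
    (h19 : T.X x b p z = true → T.X x b z a = true → T.X x b a p = true → False) : False := by
  have k0 : T.Ok5 p a z b y := T.n5 hN (.cons_cons _ (.cons_cons _ (.cons_cons _ (.cons_cons _ (.cons_cons _ (List.nil_sublist _))))))
  have k1 : T.Ok5 p a z b x := T.n5 hN (.cons_cons _ (.cons_cons _ (.cons_cons _ (.cons_cons _ (.cons _ (.cons_cons _ (List.nil_sublist _)))))))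
  have k2 : T.Ok5 p a z y x := T.n5 hN (.cons_cons _ (.cons_cons _ (.cons_cons _ (.cons _ (.cons_cons _ (.cons_cons _ (List.nil_sublist _)))))))
  have k3 : T.Ok5 p a b y x := T.n5 hN (.cons_cons _ (.cons_cons _ (.cons _ (.cons_cons _ (.cons_cons _ (.cons_cons _ (List.nil_sublist _)))))))
  have k4 : T.Ok5 p z b y x := T.n5 hN (.cons_cons _ (.cons _ (.cons_cons _ (.cons_cons _ (.cons_cons _ (.cons_cons _ (List.nil_sublist _)))))))
  have k5 : T.Ok5 a z b y x := T.n5 hN (.cons _ (.cons_cons _ (.cons_cons _ (.cons_cons _ (.cons_cons _ (.cons_cons _ (List.nil_sublist _)))))))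
  have sp0 : T.Sp5 p a z b y x := T.sp5 hN (.cons_cons _ (.cons_cons _ (.cons_cons _ (.cons_cons _ (.cons_cons _ (.cons_cons _ (List.nil_sublist _)))))))
  have g1 := T.q01 p a z b
  have g2 := T.q02 p a z b
  have g6 := T.q12 p a z y
  have g7 := T.q01 p a z x
  have g10 := T.q01 p a b y
  have g11 := T.q02 p a b y
  have g13 := T.q01 p a b x
  have g20 := T.q02 p z b y
  have g23 := T.q02 p z b x
  have g24 := T.q12 p z b x
  have g28 := T.q01 p b y x
  have g29 := T.q02 p b y x
  have g32 := T.q02 a z b y
  have g35 := T.q02 a z b x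
  have g36 := T.q12 a z b x
  have g40 := T.q01 a b y x
  have g42 := T.q12 a b y x
  have g46 := T.ae1 k0
  have g57 := fun ha : T.alt p a b z y = true => zA1_16420_16416 (T.okA1 k0 ha)
  have g69 := fun ha : T.alt p a b z y = true => zA1_4704_512 (T.okA1 k0 ha)
  have g71 := fun ha : T.alt p a b z y = true => zA1_4676_64 (T.okA1 k0 ha)
  have g84 := fun ha : T.alt p a b z y = true => zA1_16401_17 (T.okA1 k0 ha)
  have g100 := fun ha : T.alt p a b z y = true => zA1_18560_2176 (T.okA1 k0 ha)
  have g133 := fun ha : T.alt p a z b y = true => zA0_18449_1 (T.okA0 k0 ha)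
  have g143 := fun ha : T.alt p a z b y = true => zA0_16513_129 (T.okA0 k0 ha)
  have g146 := fun ha : T.alt p a z b y = true => zA0_294_256 (T.okA0 k0 ha)
  have g157 := fun ha : T.alt p a z b y = true => zA0_2081_33 (T.okA0 k0 ha)
  have g159 := fun ha : T.alt p a z b y = true => zA0_18448_2064 (T.okA0 k0 ha)
  have g161 := fun ha : T.alt p a z b y = true => zA0_18577_18433 (T.okA0 k0 ha)
  have g189 := fun ha : T.alt p a y z b = true => zA2_4704_64 (T.okA2 k0 ha)
  have g198 := fun ha : T.alt p a y z b = true => zA2_16401_17 (T.okA2 k0 ha)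
  have g200 := fun ha : T.alt p a y z b = true => zA2_16513_129 (T.okA2 k0 ha)
  have g206 := fun ha : T.alt p a y z b = true => zA2_18577_16385 (T.okA2 k0 ha)
  have g215 := fun ha : T.alt p a y z b = true => zA2_150_144 (T.okA2 k0 ha)
  have g227 := T.ae1 k1
  have g229 := T.ae02 k1
  have g242 := fun ha : T.alt p a b z x = true => zA1_9482_0 (T.okA1 k1 ha)
  have g255 := fun ha : T.alt p a b z x = true => zA1_18561_1 (T.okA1 k1 ha)
  have g265 := fun ha : T.alt p a b z x = true => zA1_16401_17 (T.okA1 k1 ha)
  have g282 := fun ha : T.alt p a b z x = true => zA1_18577_16513 (T.okA1 k1 ha)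
  have g301 := fun ha : T.alt p a z b x = true => zA0_4708_0 (T.okA0 k1 ha)
  have g314 := fun ha : T.alt p a z b x = true => zA0_18449_1 (T.okA0 k1 ha)
  have g319 := fun ha : T.alt p a z b x = true => zA0_4672_576 (T.okA0 k1 ha)
  have g324 := fun ha : T.alt p a z b x = true => zA0_16513_129 (T.okA0 k1 ha)
  have g341 := fun ha : T.alt p a z b x = true => zA0_18577_16401 (T.okA0 k1 ha)
  have g372 := fun ha : T.alt p a x z b = true => zA2_4196_32 (T.okA2 k1 ha)
  have g373 := fun ha : T.alt p a x z b = true => zA2_9480_8 (T.okA2 k1 ha)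
  have g378 := fun ha : T.alt p a x z b = true => zA2_18433_2049 (T.okA2 k1 ha)
  have g391 := fun ha : T.alt p a x z b = true => zA2_2089_2049 (T.okA2 k1 ha)
  have g394 := fun ha : T.alt p a x z b = true => zA2_577_513 (T.okA2 k1 ha)
  have g397 := fun ha : T.alt p a x z b = true => zA2_1160_136 (T.okA2 k1 ha)
  have g435 := fun ha : T.alt p a y z x = true => zA1_4196_4 (T.okA1 k2 ha)
  have g482 := fun ha : T.alt p a z y x = true => zA0_4708_0 (T.okA0 k2 ha)
  have g548 := fun ha : T.alt p a x z y = true => zA2_4644_4 (T.okA2 k2 ha)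
  have g592 := T.ae12 k3
  have g630 := fun ha : T.alt p a y b x = true => zA1_294_32 (T.okA1 k3 ha)
  have g730 := fun ha : T.alt p a x b y = true => zA2_4676_512 (T.okA2 k3 ha)
  have g754 := fun ha : T.alt p a x b y = true => zA2_2307_256 (T.okA2 k3 ha)
  have g756 := fun ha : T.alt p a x b y = true => zA2_577_513 (T.okA2 k3 ha)
  have g770 := T.ae1 k4
  have g772 := T.ae02 k4
  have g773 := T.ae12 k4
  have g781 := fun ha : T.alt p z y b x = true => zA1_16420_16416 (T.okA1 k4 ha)
  have g792 := fun ha : T.alt p z y b x = true => zA1_4644_32 (T.okA1 k4 ha)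
  have g797 := fun ha : T.alt p z y b x = true => zA1_4196_4 (T.okA1 k4 ha)
  have g844 := fun ha : T.alt p z b y x = true => zA0_4708_0 (T.okA0 k4 ha)
  have g861 := fun ha : T.alt p z b y x = true => zA0_4132_36 (T.okA0 k4 ha)
  have g910 := fun ha : T.alt p z x b y = true => zA2_4644_4 (T.okA2 k4 ha)
  have g915 := fun ha : T.alt p z x b y = true => zA2_4196_32 (T.okA2 k4 ha)
  have g937 := fun ha : T.alt p z x b y = true => zA2_577_513 (T.okA2 k4 ha)
  have g997 := z5_18596_160 k0
  have g1005 := z5_6241_4097 k0
  have g1047 := z5_2193_2193 k0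
  have g1150 := z5_10505_257 k1
  have g1162 := z5_6241_33 k1
  have g1173 := z5_9362_1040 k1
  have g1200 := z5_18596_16416 k1
  have g1312 := z5_4898_4098 k2
  have g1315 := z5_4898_4352 k2
  have g1506 := z5_5196_4104 k3
  have g1516 := z5_8778_10 k3
  have g1666 := z5_16977_513 k4
  have g1829 := z5_5196_68 k5
  have g1838 := z5_6241_96 k5
  have g1972 := zsp_73_1 sp0
  have g1980 := zsp_1156_4 sp0
  have g1984 := zsp_2336_32 sp0
  have g1987 := zsp_4132_4132 sp0
  have g1988 := zsp_4132_4 sp0
  have g1989 := zsp_4132_4096 sp0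
  have g1990 := zsp_4132_32 sp0
  have g1993 := zsp_8450_8192 sp0
  have g1994 := zsp_8450_256 sp0
  have g1999 := zsp_18433_18433 sp0
  have g2000 := zsp_18433_1 sp0
  have g2001 := zsp_18433_16384 sp0
  have g2005 := zsp_9224_8192 sp0
  have g2011 : T.X p a z b = true := h0
  have g2012 : T.X p a y x = false := ((T.xs4 y x p a).symm.trans h1)
  have g2013 : T.X z b y x = false := ((T.xs4 y x z b).symm.trans h2)
  have g2014 : T.X p z y x = false := ((T.xs4 y x p z).symm.trans h3)
  have g2015 := fun (n0 : T.X p z a y = false) (n1 : T.X a y z b = false) (n2 : T.X p b a y = false) => h4 ((T.xs6 y a p z).trans n0) ((T.xs1 y a z b).trans n1) ((T.xs7 y a b p).trans n2)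
  have g2016 := fun (n0 : T.X p z a y = true) (n1 : T.X a y z b = true) (n2 : T.X p b a y = false) => h5 ((T.xs6 y a p z).trans n0) ((T.xs1 y a z b).trans n1) ((T.xs7 y a b p).trans n2)
  have g2018 := fun (n0 : T.X p z a y = false) (n1 : T.X a y z b = true) (n2 : T.X p b a y = true) => h7 ((T.xs6 y a p z).trans n0) ((T.xs1 y a z b).trans n1) ((T.xs7 y a b p).trans n2)
  have g2019 := fun (n0 : T.X p z b y = false) (n1 : T.X a z b y = false) (n2 : T.X p a b y = false) => h8 ((T.xs6 y b p z).trans n0) ((T.xs7 y b z a).trans n1) ((T.xs7 y b a p).trans n2)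
  have g2021 := fun (n0 : T.X p z b y = true) (n1 : T.X a z b y = false) (n2 : T.X p a b y = true) => h10 ((T.xs6 y b p z).trans n0) ((T.xs7 y b z a).trans n1) ((T.xs7 y b a p).trans n2)
  have g2023 := fun (n0 : T.X p z a x = true) (n1 : T.X a x z b = false) (n2 : T.X p b a x = false) => h12 ((T.xs6 x a p z).trans n0) ((T.xs1 x a z b).trans n1) ((T.xs7 x a b p).trans n2)
  have g2024 := fun (n0 : T.X p z a x = false) (n1 : T.X a x z b = true) (n2 : T.X p b a x = false) => h13 ((T.xs6 x a p z).trans n0) ((T.xs1 x a z b).trans n1) ((T.xs7 x a b p).trans n2)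
  have g2025 := fun (n0 : T.X p z a x = false) (n1 : T.X a x z b = false) (n2 : T.X p b a x = true) => h14 ((T.xs6 x a p z).trans n0) ((T.xs1 x a z b).trans n1) ((T.xs7 x a b p).trans n2)
  have g2026 := fun (n0 : T.X p z a x = true) (n1 : T.X a x z b = true) (n2 : T.X p b a x = true) => h15 ((T.xs6 x a p z).trans n0) ((T.xs1 x a z b).trans n1) ((T.xs7 x a b p).trans n2)
  have g2027 := fun (n0 : T.X p z b x = true) (n1 : T.X a z b x = false) (n2 : T.X p a b x = false) => h16 ((T.xs6 x b p z).trans n0) ((T.xs7 x b z a).trans n1) ((T.xs7 x b a p).trans n2)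
  have g2028 := fun (n0 : T.X p z b x = false) (n1 : T.X a z b x = true) (n2 : T.X p a b x = false) => h17 ((T.xs6 x b p z).trans n0) ((T.xs7 x b z a).trans n1) ((T.xs7 x b a p).trans n2)
  have g2029 := fun (n0 : T.X p z b x = false) (n1 : T.X a z b x = false) (n2 : T.X p a b x = true) => h18 ((T.xs6 x b p z).trans n0) ((T.xs7 x b z a).trans n1) ((T.xs7 x b a p).trans n2)
  have s2031 := fun (n0 : T.X p z a b = true) => g1 g2011 n0
  have w2031 := bf s2031
  have s2032 := fun (n0 : T.X p b a z = true) => g2 g2011 n0
  have w2032 := bf s2032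
  have s2034 : T.X p z b y = true → T.X p y a z = false → T.X a z b y = false → T.alt p a b z y = true → False := fun n0 n1 n2 n3 => by
    have u0 := bf fun t => g2021 n0 n2 t
    exact g69 n3 n1 u0 n0 n2
  have s2035 : T.X p y a z = false → T.X a z b y = false → T.alt p a b z y = true → False := fun n0 n1 n2 => by
    have u0 := bf fun t => s2034 t n0 n1 n2
    have u1 := bt fun t => g2019 u0 n1 t
    exact g71 n2 w2032 u1 u0 n1
  have s2038 : T.X a y z b = false → T.X p y z b = true → T.alt p a b z y = true → False := fun n0 n1 n2 => by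
    have u0 := bf fun t => g84 n2 g2011 t n0
    have u1 := bt fun t => g2015 u0 n0 t
    exact g100 n2 u1 n1 n0
  have s2039 : T.X a y z b = true → T.alt p a b z y = true → False := fun n0 n1 => by
    have u0 := bf fun t => g32 t n0
    have u1 := bf fun t => g57 n1 w2032 t n0
    exact s2035 u1 u0 n1
  have s2040 : T.X a y z b = false → T.alt p a b z y = true → False := fun n0 n1 => by
    have u0 := bf fun t => g84 n1 g2011 t n0
    have u1 := bt fun t => g2015 u0 n0 t
    have u2 := bf fun t => s2038 n0 t n1
    have u3 := bf fun t => g10 t u1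
    have u4 := bf fun t => g997 w2032 t u1 u2 n0
    have u5 := bf fun t => g1005 g2011 u4 u3 u2 t
    exact s2035 u4 u5 n1
  have s2041 : T.alt p a b z y = true → False := fun n0 => by
    have u0 := bf fun t => s2039 t n0
    exact s2040 u0 n0
  have w2041 := bf s2041
  have s2042 : T.X a y z b = false → T.alt p a y z b = true → False := fun n0 n1 => by
    have u0 := bf fun t => g198 n1 g2011 t n0
    have u1 := bf fun t => g200 n1 g2011 t n0
    exact g2015 u0 n0 u1
  have s2043 : T.X p y z b = true → T.alt p a x b y = true → T.alt p z x b y = true → False := fun n0 n1 n2 => by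
    have u0 := bf fun t => g1999 t n1 n2
    have u1 := bt fun t => g46 u0 w2041 t
    have u2 := bt fun t => s2042 t u1
    have u3 := bf fun t => g32 t u2
    have u4 := bf fun t => g772 t n2
    have u5 := bt fun t => g1988 u1 t u4
    have u6 := bf fun t => g592 t n1
    have u7 := bt fun t => g1980 u1 t u6
    have u8 := bf fun t => g20 t n0
    have u9 := bt fun t => g2019 u8 u3 t
    have u10 := bt fun t => g189 u1 t u9 u8 u3
    have u11 := bf fun t => g756 n1 u9 g2012 t
    have u12 := bt fun t => g910 n2 n0 t u11 g2013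
    have u13 := bf fun t => g23 t u12
    have u14 := bt fun t => g378 u5 g2011 u12 t
    have u15 := bf fun t => g35 t u14
    have u16 := bf fun t => g2029 u13 u15 t
    have u17 := bf fun t => g372 u5 w2032 t u16 u15
    have u18 := bt fun t => g435 u7 u10 u17 g2012 t
    have u19 := bt fun t => g1829 u2 u15 u18 t g2013
    have u20 := bt fun t => g1838 u3 u14 u18 t g2013
    exact g42 u19 u20
  have s2044 : T.X p b a y = false → T.X p y z b = false → T.alt p a y z b = true → False := fun n0 n1 n2 => by
    have u0 := bt fun t => s2042 t n2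
    have u1 := bf fun t => g2016 t u0 n0
    exact g206 n2 g2011 u1 n0 n1 u0
  have s2045 : T.alt p a x b y = true → T.alt p z x b y = true → False := fun n0 n1 => by
    have u0 := bf fun t => g1999 t n0 n1
    have u1 := bt fun t => g46 u0 w2041 t
    have u2 := bt fun t => s2042 t u1
    have u3 := bf fun t => s2043 t n0 n1
    have u4 := bt fun t => s2044 t u3 u1
    have u5 := bt fun t => g2018 t u2 u4
    exact g215 u1 w2031 w2032 u5 u4
  have s2046 : T.X a y b x = false → T.X a z b x = false → T.X p x z b = false → T.X p b y x = false → T.X p b a y = true → T.X a y z b = true → T.alt p a z b y = true → False := fun n0 n1 n2 n3 n4 n5 n6 => by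
    have u0 := bt fun t => g2018 t n5 n4
    have u1 := bf fun t => g6 u0 t
    have u2 := bf fun t => g1829 n5 n1 t n0 g2013
    have u3 := bf fun t => g1516 n4 t g2012 n3 n0
    have u4 := bf fun t => g2027 t n1 u3
    have u5 := bf fun t => g1162 g2011 t u3 n2 n1
    have u6 := bf fun t => g301 t w2032 u5 u3 u4 n1
    have u7 := bf fun t => g482 t u1 u5 g2012 g2014 u2
    exact g1972 n6 u6 u7
  have s2047 : T.X p z b x = false → T.alt p a z b x = true → T.X p x a z = false → T.X a z b x = false → False := fun n0 n1 n2 n3 => by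
    have u0 := bf fun t => g2029 n0 n3 t
    exact g301 n1 w2032 n2 u0 n0 n3
  have s2048 : T.alt p a z b x = true → T.X p x a z = false → T.X a z b x = false → False := fun n0 n1 n2 => by
    have u0 := bt fun t => s2047 t n0 n1 n2
    have u1 := bt fun t => g2027 u0 n2 t
    exact g319 n0 u1 u0 n2
  have s2049 : T.X p x a z = false → T.X a z y x = false → T.X a z b x = false → T.X p y a z = false → T.alt p a z b y = true → False := fun n0 n1 n2 n3 n4 => by
    have u0 := bf fun t => g482 t n3 n0 g2012 g2014 n1
    have u1 := bt fun t => g1972 n4 t u0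
    exact s2048 u1 n0 n2
  have s2050 : T.X a x z b = true → T.X p x z b = false → T.X p b y x = false → T.X p b a y = true → T.X a y z b = true → T.alt p a z b y = true → False := fun n0 n1 n2 n3 n4 n5 => by
    have u0 := bt fun t => g2018 t n4 n3
    have u1 := bf fun t => g6 u0 t
    have u2 := bf fun t => g32 t n4
    have u3 := bf fun t => g35 t n0
    have u4 := bt fun t => s2046 t u3 n1 n2 n3 n4 n5
    have u5 := bf fun t => g42 u4 t
    have u6 := bf fun t => g1838 u2 n0 t u5 g2013
    have u7 := bt fun t => s2049 t u6 u3 u1 n5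
    have u8 := bt fun t => g1162 g2011 u7 t n1 u3
    have u9 := bt fun t => g1200 w2032 u7 t n1 n0
    exact g13 u8 u9
  have s2052 : T.X p b a x = false → T.X a x z b = false → T.X p x z b = false → T.alt p a x z b = false → False := fun n0 n1 n2 n3 => by
    have u0 := bf fun t => g2023 t n1 n0
    have u1 := bf fun t => g255 t g2011 n0 n2 n1
    have u2 := bf fun t => g314 t g2011 u0 n2 n1
    exact g227 u2 u1 n3
  have s2053 : T.X a x z b = false → T.X p x z b = false → T.alt p a x z b = false → False := fun n0 n1 n2 => by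
    have u0 := bt fun t => s2052 t n0 n1 n2
    have u1 := bf fun t => g324 t g2011 u0 n0
    have u2 := bt fun t => g2025 t n0 u0
    have u3 := bt fun t => g227 u1 t n2
    exact g265 u3 g2011 u2 n0
  have s2054 : T.X p b a y = true → T.X a y z b = true → T.alt p z x b y = true → False := fun n0 n1 n2 => by
    have u0 := bf fun t => g32 t n1
    have u1 := bf fun t => s2045 t n2
    have u2 := bt fun t => g2001 t u1 n2
    have u3 := bf fun t => g773 t n2
    have u4 := bf fun t => g1994 w2041 t u3
    have u5 := bf fun t => g1984 t u4 u1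
    have u6 := bf fun t => g10 t n0
    have u7 := bt fun t => g2018 t n1 n0
    have u8 := bt fun t => g2019 t u0 u6
    have u9 := bf fun t => g1047 g2011 u7 n0 t
    have u10 := bf fun t => g937 n2 u8 g2014 t
    have u11 := bf fun t => g915 n2 u9 t g2014 g2013
    have u12 := bf fun t => s2050 t u11 u10 n0 n1 u2
    exact s2053 u12 u11 u5
  have s2055 : T.X p b a x = true → T.X p x z b = false → T.alt p a x z b = false → False := fun n0 n1 n2 => by
    have u0 := bt fun t => s2053 t n1 n2
    have u1 := bf fun t => g35 t u0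
    have u2 := bf fun t => g13 t n0
    have u3 := bf fun t => g2026 t u0 n0
    have u4 := bf fun t => g1162 g2011 t u2 n1 u1
    have u5 := bf fun t => g282 t g2011 u3 n0 n1 u0
    have u6 := bf fun t => s2048 t u4 u1
    exact g227 u6 u5 n2
  have s2056 : T.X p x z b = false → T.alt p a x z b = false → False := fun n0 n1 => by
    have u0 := bt fun t => s2053 t n0 n1
    have u1 := bf fun t => g36 t u0
    have u2 := bf fun t => s2055 t n0 n1
    have u3 := bt fun t => g2024 t u0 u2
    have u4 := bf fun t => g7 t u3
    have u5 := bf fun t => g1173 w2031 u3 u2 t u1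
    have u6 := bf fun t => g341 t g2011 u3 u2 n0 u0
    have u7 := bf fun t => g1150 g2011 u4 t n0 u1
    have u8 := bt fun t => g227 u6 t n1
    exact g242 u8 w2031 u4 u7 u5 u1
  have s2057 : T.X a y z b = true → T.X p b a y = false → T.X p y z b = true → T.alt p a z b y = true → False := fun n0 n1 n2 n3 => by
    have u0 := bt fun t => g161 n3 g2011 t n1 n2 n0
    exact g2016 u0 n0 n1
  have s2058 : T.X p b a y = false → T.alt p a z b y = true → T.X p y z b = true → False := fun n0 n1 n2 => by
    have u0 := bf fun t => s2057 t n0 n2 n1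
    have u1 := bt fun t => g2015 t u0 n0
    exact g159 n1 u1 n2 u0
  have s2059 : T.alt p z x b y = true → False := fun n0 => by
    have u0 := bf fun t => g773 t n0
    have u1 := bf fun t => g1994 w2041 t u0
    have u2 := bf fun t => s2045 t n0
    have u3 := bf fun t => g1984 t u1 u2
    have u4 := bt fun t => g2001 t u2 n0
    have u5 := bt fun t => s2056 t u3
    have u6 := bt fun t => g915 n0 t u5 g2014 g2013
    have u7 := bt fun t => s2058 t u4 u6
    have u8 := bt fun t => g143 u4 g2011 u7 t
    exact s2054 u7 u8 n0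
  have w2059 := bf s2059
  have s2060 : T.X p y z b = true → T.alt p a y z b = true → T.X p x z b = true → False := fun n0 n1 n2 => by
    have u0 := bt fun t => s2042 t n1
    have u1 := bf fun t => g32 t u0
    have u2 := bf fun t => g24 t n2
    have u3 := bf fun t => g23 t n2
    have u4 := bf fun t => g20 t n0
    have u5 := bf fun t => g861 t n0 n2 g2013
    have u6 := bt fun t => g2019 u4 u1 t
    have u7 := bt fun t => g770 u5 t w2059
    have u8 := bt fun t => g1988 n1 t u5
    have u9 := bf fun t => g10 u6 t
    have u10 := bf fun t => g11 u6 t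
    have u11 := bt fun t => g189 n1 t u6 u4 u1
    have u12 := bt fun t => g1993 w2041 t u7
    have u13 := bf fun t => g229 t u8
    have u14 := bt fun t => g378 u8 g2011 n2 t
    have u15 := bf fun t => g2016 t u0 u9
    have u16 := bt fun t => g2005 u13 t u7
    have u17 := bf fun t => g35 t u14
    have u18 := bf fun t => g36 t u14
    have u19 := bf fun t => g2029 u3 u17 t
    have u20 := bf fun t => g372 u8 w2032 t u19 u17
    have u21 := bt fun t => g548 u12 u11 u20 g2014 t
    have u22 := bt fun t => g391 u8 g2011 t u20 n2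
    have u23 := bf fun t => g1315 u15 u20 t g2014 u21
    have u24 := bt fun t => g373 u8 u22 t u2 u18
    exact g630 u16 u9 u10 u24 u23
  have s2061 : T.alt p a y z b = true → T.X p x z b = true → False := fun n0 n1 => by
    have u0 := bt fun t => s2042 t n0
    have u1 := bf fun t => s2060 t n0 n1
    have u2 := bt fun t => s2044 t u1 n0
    have u3 := bt fun t => g2018 t u0 u2
    exact g215 n0 w2031 w2032 u3 u2
  have s2065 : T.alt p z y b x = true → T.X a z b y = false → T.X p y z b = false → T.X p x z b = true → False := fun n0 n1 n2 n3 => by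
    have u0 := bf fun t => s2061 t n3
    have u1 := bt fun t => g46 t w2041 u0
    have u2 := bt fun t => g2000 u1 t w2059
    have u3 := bf fun t => g24 t n3
    have u4 := bf fun t => g781 n0 n2 n3 t
    have u5 := bt fun t => g792 n0 n2 n3 t g2013
    have u6 := bf fun t => g756 u2 t g2012 u5
    have u7 := bf fun t => g1666 t u3 g2014 u5 u4
    exact g2019 u7 n1 u6
  have s2066 : T.alt p a x z b = true → T.X p x z b = true → False := fun n0 n1 => by
    have u0 := bf fun t => g24 t n1
    have u1 := bf fun t => g23 t n1
    have u2 := bt fun t => g378 n0 g2011 n1 t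
    have u3 := bf fun t => g35 t u2
    have u4 := bf fun t => g2029 u1 u3 t
    have u5 := bf fun t => g372 n0 w2032 t u4 u3
    have u6 := bt fun t => g391 n0 g2011 t u5 n1
    have u7 := bf fun t => g7 u6 t
    have u8 := bf fun t => g397 n0 u6 t u0
    exact g2024 u7 u2 u8
  have s2067 : T.X p y z b = false → T.X p x z b = true → False := fun n0 n1 => by
    have u0 := bf fun t => s2061 t n1
    have u1 := bf fun t => s2066 t n1
    have u2 := bf fun t => g1989 u0 u1 t
    have u3 := bt fun t => g770 u2 t w2059
    have u4 := bt fun t => g46 t w2041 u0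
    have u5 := bt fun t => g2000 u4 t w2059
    have u6 := bf fun t => g157 u4 g2011 t n0
    have u7 := bt fun t => g792 u3 n0 n1 t g2013
    have u8 := bt fun t => s2065 u3 t n0 n1
    have u9 := bf fun t => g756 u5 t g2012 u7
    exact g1005 g2011 u6 u9 n0 u8
  have s2068 : T.X p y z b = true → T.alt p a z b y = true → False := fun n0 n1 => by
    have u0 := bt fun t => s2058 t n1 n0
    have u1 := bt fun t => g143 n1 g2011 u0 t
    have u2 := bt fun t => g2018 t u1 u0
    exact g1047 g2011 u2 u0 n0
  have s2069 : T.X p x z b = true → False := fun n0 => by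
    have u0 := bf fun t => s2061 t n0
    have u1 := bt fun t => g46 t w2041 u0
    have u2 := bt fun t => s2067 t n0
    exact s2068 u2 u1
  have w2069 := bf s2069
  have s2070 := fun (n0 : T.alt p a x z b = false) => s2056 w2069 n0
  have w2070 := bt s2070
  have s2075 : T.X p y z b = true → False := fun n0 => by
    have u0 := bf fun t => g797 t n0 w2069 g2014 g2013
    have u1 := bf fun t => s2068 n0 t
    have u2 := bt fun t => g770 t u0 w2059
    have u3 := bt fun t => g46 u1 w2041 t
    exact g1987 u3 w2070 u2
  have w2075 := bf s2075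
  have s2076 : T.alt p a y z b = true → False := fun n0 => by
    have u0 := bt fun t => s2042 t n0
    have u1 := bt fun t => s2044 t w2075 n0
    have u2 := bt fun t => g2018 t u0 u1
    exact g215 n0 w2031 w2032 u2 u1
  have w2076 := bf s2076
  have s2077 := fun (n0 : T.alt p a z b y = false) => g46 n0 w2041 w2076
  have w2077 := bt s2077
  have s2078 := fun (n0 : T.alt p z b y x = false) => g1990 w2076 w2070 n0
  have w2078 := bt s2078
  have s2080 := fun (n0 : T.alt p a x b y = false) => g2000 w2077 n0 w2059
  have w2080 := bt s2080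
  have s2082 := fun (n0 : T.X p y a z = true) => g157 w2077 g2011 n0 w2075
  have w2082 := bf s2082
  have s2084 := fun (n0 : T.X p b y x = false) => g844 w2078 w2075 w2069 g2014 n0 g2013
  have w2084 := bt s2084
  have s2086 := fun (n0 : T.X p y a b = true) => g146 w2077 w2031 w2032 w2082 n0
  have w2086 := bf s2086
  have s2087 := fun (n0 : T.X p y b x = true) => g28 w2084 n0
  have w2087 := bf s2087
  have s2088 := fun (n0 : T.X p x b y = true) => g29 w2084 n0
  have w2088 := bf s2088
  have s2089 := fun (n0 : T.X p a b y = true) => g756 w2080 n0 g2012 w2084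
  have w2089 := bf s2089
  have s2090 := fun (n0 : T.X a b y x = false) => g730 w2080 w2086 g2012 w2084 n0
  have w2090 := bt s2090
  have s2092 := fun (n0 : T.X a y b x = true) => g40 w2090 n0
  have w2092 := bf s2092
  have s2094 := fun (n0 : T.X p a b x = true) => g1506 w2086 n0 g2012 w2087 w2090
  have w2094 := bf s2094
  have s2096 := fun (n0 : T.X p z b x = true) => g394 w2070 g2011 w2094 n0
  have w2096 := bf s2096
  have s2097 := fun (n0 : T.X a z b x = true) => g2028 w2096 n0 w2094
  have w2097 := bf s2097
  have s2098 := fun (n0 : T.X p x a z = true) => g372 w2070 w2032 n0 w2094 w2097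
  have w2098 := bf s2098
  have s2100 := fun (n0 : T.X a z y x = false) => s2049 w2098 n0 w2097 w2082 w2077
  have w2100 := bt s2100
  have s2105 := fun (n0 : T.X a y z b = true) => g1829 n0 w2097 w2100 w2092 g2013
  have w2105 := bf s2105
  have s2108 := fun (n0 : T.X p z a y = false) => g133 w2077 g2011 n0 w2075 w2105
  have w2108 := bt s2108
  have s2109 := fun (n0 : T.X p b a y = true) => g143 w2077 g2011 n0 w2105
  have w2109 := bf s2109
  have s2113 := fun (n0 : T.X p x a y = false) => g1312 w2108 w2098 n0 g2014 w2100
  have w2113 := bt s2113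
  exact g754 w2080 w2089 w2109 w2113 w2088

theorem MT_sepa_1011 {p a z b y x : V} (hN : [p, a, z, b, y, x].Nodup) (h0 : T.X p a z b = true)
    (h1 : T.X y x p a = false) (h2 : T.X y x z b = false) (h3 : T.X y x p z = false)
    (h4 : T.X y a p z = false → T.X y a z b = false → T.X y a b p = false → False)
    (h5 : T.X y a p z = true → T.X y a z b = true → T.X y a b p = false → False)
    (h6 : T.X y a p z = true → T.X y a z b = false → T.X y a b p = true → False)
    (h7 : T.X y a p z = false → T.X y a z b = true → T.X y a b p = true → False)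
    (h8 : T.X y b p z = true → T.X y b z a = false → T.X y b a p = false → False)
    (h9 : T.X y b p z = false → T.X y b z a = true → T.X y b a p = false → False)
    (h10 : T.X y b p z = false → T.X y b z a = false → T.X y b a p = true → False)
    (h11 : T.X y b p z = true → T.X y b z a = true → T.X y b a p = true → False)
    (h12 : T.X x a p z = false → T.X x a z b = false → T.X x a b p = false → False)
    (h13 : T.X x a p z = true → T.X x a z b = true → T.X x a b p = false → False)
    (h14 : T.X x a p z = true → T.X x a z b = false → T.X x a b p = true → False)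
    (h15 : T.X x a p z = false → T.X x a z b = true → T.X x a b p = true → False)
    (h16 : T.X x b p z = false → T.X x b z a = false → T.X x b a p = false → False)
    (h17 : T.X x b p z = true → T.X x b z a = true → T.X x b a p = false → False)
    (h18 : T.X x b p z = true → T.X x b z a = false → T.X x b a p = true → False)
    (h19 : T.X x b p z = false → T.X x b z a = true → T.X x b a p = true → False) : False := by
  have k0 : T.Ok5 p a z b y := T.n5 hN (.cons_cons _ (.cons_cons _ (.cons_cons _ (.cons_cons _ (.cons_cons _ (List.nil_sublist _))))))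
  have k1 : T.Ok5 p a z b x := T.n5 hN (.cons_cons _ (.cons_cons _ (.cons_cons _ (.cons_cons _ (.cons _ (.cons_cons _ (List.nil_sublist _)))))))
  have k2 : T.Ok5 p a z y x := T.n5 hN (.cons_cons _ (.cons_cons _ (.cons_cons _ (.cons _ (.cons_cons _ (.cons_cons _ (List.nil_sublist _)))))))
  have k3 : T.Ok5 p a b y x := T.n5 hN (.cons_cons _ (.cons_cons _ (.cons _ (.cons_cons _ (.cons_cons _ (.cons_cons _ (List.nil_sublist _)))))))
  have k4 : T.Ok5 p z b y x := T.n5 hN (.cons_cons _ (.cons _ (.cons_cons _ (.cons_cons _ (.cons_cons _ (.cons_cons _ (List.nil_sublist _)))))))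
  have k5 : T.Ok5 a z b y x := T.n5 hN (.cons _ (.cons_cons _ (.cons_cons _ (.cons_cons _ (.cons_cons _ (.cons_cons _ (List.nil_sublist _)))))))
  have sp0 : T.Sp5 p a z b y x := T.sp5 hN (.cons_cons _ (.cons_cons _ (.cons_cons _ (.cons_cons _ (.cons_cons _ (.cons_cons _ (List.nil_sublist _)))))))
  have g1 := T.q01 p a z b
  have g2 := T.q02 p a z b
  have g7 := T.q01 p a z x
  have g9 := T.q12 p a z x
  have g10 := T.q01 p a b y
  have g12 := T.q12 p a b y
  have g13 := T.q01 p a b x
  have g14 := T.q02 p a b x
  have g15 := T.q12 p a b x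
  have g18 := T.q12 p a y x
  have g20 := T.q02 p z b y
  have g21 := T.q12 p z b y
  have g23 := T.q02 p z b x
  have g28 := T.q01 p b y x
  have g29 := T.q02 p b y x
  have g30 := T.q12 p b y x
  have g32 := T.q02 a z b y
  have g33 := T.q12 a z b y
  have g35 := T.q02 a z b x
  have g40 := T.q01 a b y x
  have g41 := T.q02 a b y x
  have g46 := T.ae1 k0
  have g49 := T.ae12 k0
  have g74 := fun ha : T.alt p a b z y = true => zA1_18561_1 (T.okA1 k0 ha)
  have g87 := fun ha : T.alt p a b z y = true => zA1_294_32 (T.okA1 k0 ha)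
  have g98 := fun ha : T.alt p a b z y = true => zA1_2305_257 (T.okA1 k0 ha)
  have g120 := fun ha : T.alt p a z b y = true => zA0_4708_0 (T.okA0 k0 ha)
  have g138 := fun ha : T.alt p a z b y = true => zA0_4672_576 (T.okA0 k0 ha)
  have g147 := fun ha : T.alt p a z b y = true => zA0_4708_4160 (T.okA0 k0 ha)
  have g157 := fun ha : T.alt p a z b y = true => zA0_2081_33 (T.okA0 k0 ha)
  have g191 := fun ha : T.alt p a y z b = true => zA2_4196_32 (T.okA2 k0 ha)
  have g192 := fun ha : T.alt p a y z b = true => zA2_9480_8 (T.okA2 k0 ha)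
  have g197 := fun ha : T.alt p a y z b = true => zA2_18433_2049 (T.okA2 k0 ha)
  have g200 := fun ha : T.alt p a y z b = true => zA2_16513_129 (T.okA2 k0 ha)
  have g210 := fun ha : T.alt p a y z b = true => zA2_2089_2049 (T.okA2 k0 ha)
  have g213 := fun ha : T.alt p a y z b = true => zA2_577_513 (T.okA2 k0 ha)
  have g215 := fun ha : T.alt p a y z b = true => zA2_150_144 (T.okA2 k0 ha)
  have g227 := T.ae1 k1
  have g238 := fun ha : T.alt p a b z x = true => zA1_16420_16416 (T.okA1 k1 ha)
  have g250 := fun ha : T.alt p a b z x = true => zA1_4704_512 (T.okA1 k1 ha)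
  have g252 := fun ha : T.alt p a b z x = true => zA1_4676_64 (T.okA1 k1 ha)
  have g265 := fun ha : T.alt p a b z x = true => zA1_16401_17 (T.okA1 k1 ha)
  have g281 := fun ha : T.alt p a b z x = true => zA1_18560_2176 (T.okA1 k1 ha)
  have g309 := fun ha : T.alt p a z b x = true => zA0_9480_1024 (T.okA0 k1 ha)
  have g324 := fun ha : T.alt p a z b x = true => zA0_16513_129 (T.okA0 k1 ha)
  have g340 := fun ha : T.alt p a z b x = true => zA0_18448_2064 (T.okA0 k1 ha)
  have g342 := fun ha : T.alt p a z b x = true => zA0_18577_18433 (T.okA0 k1 ha)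
  have g370 := fun ha : T.alt p a x z b = true => zA2_4704_64 (T.okA2 k1 ha)
  have g379 := fun ha : T.alt p a x z b = true => zA2_16401_17 (T.okA2 k1 ha)
  have g381 := fun ha : T.alt p a x z b = true => zA2_16513_129 (T.okA2 k1 ha)
  have g387 := fun ha : T.alt p a x z b = true => zA2_18577_16385 (T.okA2 k1 ha)
  have g396 := fun ha : T.alt p a x z b = true => zA2_150_144 (T.okA2 k1 ha)
  have g409 := T.ae01 k2
  have g419 := fun ha : T.alt p a y z x = true => zA1_16420_16416 (T.okA1 k2 ha)
  have g458 := fun ha : T.alt p a y z x = true => zA1_1168_1040 (T.okA1 k2 ha)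
  have g482 := fun ha : T.alt p a z y x = true => zA0_4708_0 (T.okA0 k2 ha)
  have g514 := fun ha : T.alt p a z y x = true => zA0_720_16 (T.okA0 k2 ha)
  have g553 := fun ha : T.alt p a x z y = true => zA2_4196_32 (T.okA2 k2 ha)
  have g574 := fun ha : T.alt p a x z y = true => zA2_164_160 (T.okA2 k2 ha)
  have g589 := T.ae1 k3
  have g590 := T.ae01 k3
  have g592 := T.ae12 k3
  have g604 := fun ha : T.alt p a y b x = true => zA1_9482_0 (T.okA1 k3 ha)
  have g612 := fun ha : T.alt p a y b x = true => zA1_4704_512 (T.okA1 k3 ha)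
  have g613 := fun ha : T.alt p a y b x = true => zA1_16529_128 (T.okA1 k3 ha)
  have g616 := fun ha : T.alt p a y b x = true => zA1_4196_4 (T.okA1 k3 ha)
  have g636 := fun ha : T.alt p a y b x = true => zA1_1176_128 (T.okA1 k3 ha)
  have g638 := fun ha : T.alt p a y b x = true => zA1_584_520 (T.okA1 k3 ha)
  have g639 := fun ha : T.alt p a y b x = true => zA1_1168_1040 (T.okA1 k3 ha)
  have g646 := fun ha : T.alt p a y b x = true => MTzA1_18577_16528 (T.okA1 k3 ha)
  have g662 := fun ha : T.alt p a b y x = true => zA0_2085_2048 (T.okA0 k3 ha)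
  have g663 := fun ha : T.alt p a b y x = true => zA0_4708_0 (T.okA0 k3 ha)
  have g678 := fun ha : T.alt p a b y x = true => zA0_18577_16384 (T.okA0 k3 ha)
  have g698 := fun ha : T.alt p a b y x = true => zA0_656_640 (T.okA0 k3 ha)
  have g729 := fun ha : T.alt p a x b y = true => zA2_4644_4 (T.okA2 k3 ha)
  have g770 := T.ae1 k4
  have g772 := T.ae02 k4
  have g773 := T.ae12 k4
  have g792 := fun ha : T.alt p z y b x = true => zA1_4644_32 (T.okA1 k4 ha)
  have g793 := fun ha : T.alt p z y b x = true => zA1_4704_512 (T.okA1 k4 ha)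
  have g797 := fun ha : T.alt p z y b x = true => zA1_4196_4 (T.okA1 k4 ha)
  have g844 := fun ha : T.alt p z b y x = true => zA0_4708_0 (T.okA0 k4 ha)
  have g861 := fun ha : T.alt p z b y x = true => zA0_4132_36 (T.okA0 k4 ha)
  have g866 := fun ha : T.alt p z b y x = true => zA0_4640_544 (T.okA0 k4 ha)
  have g899 := fun ha : T.alt p z x b y = true => zA2_8228_8196 (T.okA2 k4 ha)
  have g910 := fun ha : T.alt p z x b y = true => zA2_4644_4 (T.okA2 k4 ha)
  have g915 := fun ha : T.alt p z x b y = true => zA2_4196_32 (T.okA2 k4 ha)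
  have g927 := fun ha : T.alt p z x b y = true => zA2_4640_544 (T.okA2 k4 ha)
  have g929 := fun ha : T.alt p z x b y = true => zA2_180_4 (T.okA2 k4 ha)
  have g992 := z5_6241_33 k0
  have g1005 := z5_6241_4097 k0
  have g1156 := z5_16977_513 k1
  have g1167 := z5_18596_160 k1
  have g1168 := z5_18706_16640 k1
  have g1175 := z5_6241_4097 k1
  have g1179 := z5_18706_272 k1
  have g1191 := z5_10505_8193 k1
  have g1200 := z5_18596_16416 k1
  have g1217 := z5_2193_2193 k1
  have g1312 := z5_4898_4098 k2
  have g1368 := z5_4756_4224 k2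
  have g1482 := z5_4898_4098 k3
  have g1515 := z5_6241_4097 k3
  have g1538 := z5_4756_4224 k3
  have g1681 := z5_8778_520 k4
  have g1704 := z5_5196_12 k4
  have g1823 := z5_4898_544 k5
  have g1829 := z5_5196_68 k5
  have g1838 := z5_6241_96 k5
  have g1839 := z5_6241_2112 k5
  have g1906 := z5_612_612 k5
  have g1972 := zsp_73_1 sp0
  have g1973 := zsp_73_64 sp0
  have g1974 := zsp_73_8 sp0
  have g1976 := zsp_530_2 sp0
  have g1977 := zsp_530_512 sp0
  have g1981 := zsp_1156_1024 sp0
  have g1984 := zsp_2336_32 sp0
  have g1989 := zsp_4132_4096 sp0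
  have g1990 := zsp_4132_32 sp0
  have g1993 := zsp_8450_8192 sp0
  have g1997 := zsp_16528_16384 sp0
  have g1998 := zsp_16528_128 sp0
  have g2001 := zsp_18433_16384 sp0
  have g2002 := zsp_18433_2048 sp0
  have g2004 := zsp_9224_8 sp0
  have g2005 := zsp_9224_8192 sp0
  have g2006 := zsp_9224_1024 sp0
  have g2008 := zsp_4672_64 sp0
  have g2009 := zsp_4672_4096 sp0
  have g2010 := zsp_4672_512 sp0
  have g2011 : T.X p a z b = true := h0
  have g2012 : T.X p a y x = false := ((T.xs4 y x p a).symm.trans h1)
  have g2013 : T.X z b y x = false := ((T.xs4 y x z b).symm.trans h2)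
  have g2014 : T.X p z y x = false := ((T.xs4 y x p z).symm.trans h3)
  have g2015 := fun (n0 : T.X p z a y = false) (n1 : T.X a y z b = false) (n2 : T.X p b a y = false) => h4 ((T.xs6 y a p z).trans n0) ((T.xs1 y a z b).trans n1) ((T.xs7 y a b p).trans n2)
  have g2018 := fun (n0 : T.X p z a y = false) (n1 : T.X a y z b = true) (n2 : T.X p b a y = true) => h7 ((T.xs6 y a p z).trans n0) ((T.xs1 y a z b).trans n1) ((T.xs7 y a b p).trans n2)
  have g2019 := fun (n0 : T.X p z b y = true) (n1 : T.X a z b y = false) (n2 : T.X p a b y = false) => h8 ((T.xs6 y b p z).trans n0) ((T.xs7 y b z a).trans n1) ((T.xs7 y b a p).trans n2)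
  have g2020 := fun (n0 : T.X p z b y = false) (n1 : T.X a z b y = true) (n2 : T.X p a b y = false) => h9 ((T.xs6 y b p z).trans n0) ((T.xs7 y b z a).trans n1) ((T.xs7 y b a p).trans n2)
  have g2021 := fun (n0 : T.X p z b y = false) (n1 : T.X a z b y = false) (n2 : T.X p a b y = true) => h10 ((T.xs6 y b p z).trans n0) ((T.xs7 y b z a).trans n1) ((T.xs7 y b a p).trans n2)
  have g2022 := fun (n0 : T.X p z b y = true) (n1 : T.X a z b y = true) (n2 : T.X p a b y = true) => h11 ((T.xs6 y b p z).trans n0) ((T.xs7 y b z a).trans n1) ((T.xs7 y b a p).trans n2)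
  have g2023 := fun (n0 : T.X p z a x = false) (n1 : T.X a x z b = false) (n2 : T.X p b a x = false) => h12 ((T.xs6 x a p z).trans n0) ((T.xs1 x a z b).trans n1) ((T.xs7 x a b p).trans n2)
  have g2024 := fun (n0 : T.X p z a x = true) (n1 : T.X a x z b = true) (n2 : T.X p b a x = false) => h13 ((T.xs6 x a p z).trans n0) ((T.xs1 x a z b).trans n1) ((T.xs7 x a b p).trans n2)
  have g2026 := fun (n0 : T.X p z a x = false) (n1 : T.X a x z b = true) (n2 : T.X p b a x = true) => h15 ((T.xs6 x a p z).trans n0) ((T.xs1 x a z b).trans n1) ((T.xs7 x a b p).trans n2)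
  have g2027 := fun (n0 : T.X p z b x = false) (n1 : T.X a z b x = false) (n2 : T.X p a b x = false) => h16 ((T.xs6 x b p z).trans n0) ((T.xs7 x b z a).trans n1) ((T.xs7 x b a p).trans n2)
  have g2029 := fun (n0 : T.X p z b x = true) (n1 : T.X a z b x = false) (n2 : T.X p a b x = true) => h18 ((T.xs6 x b p z).trans n0) ((T.xs7 x b z a).trans n1) ((T.xs7 x b a p).trans n2)
  have s2031 := fun (n0 : T.X p z a b = true) => g1 g2011 n0
  have w2031 := bf s2031
  have s2032 := fun (n0 : T.X p b a z = true) => g2 g2011 n0
  have w2032 := bf s2032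
  have s2033 : T.X p z b x = false → T.X a z b x = false → T.alt p a b z x = true → False := fun n0 n1 n2 => by
    have u0 := bt fun t => g2027 n0 n1 t
    exact g252 n2 w2032 u0 n0 n1
  have s2034 : T.X a x z b = true → T.alt p a b z x = true → False := fun n0 n1 => by
    have u0 := bf fun t => g35 t n0
    have u1 := bf fun t => g238 n1 w2032 t n0
    have u2 := bt fun t => s2033 t u0 n1
    have u3 := bf fun t => g2029 u2 u0 t
    exact g250 n1 u1 u3 u2 u0
  have s2035 : T.X a x z b = false → T.alt p a b z x = true → False := fun n0 n1 => by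
    have u0 := bf fun t => g265 n1 g2011 t n0
    have u1 := bt fun t => g2023 u0 n0 t
    have u2 := bf fun t => g13 t u1
    have u3 := bf fun t => g281 n1 u1 t n0
    have u4 := bf fun t => g1167 w2032 t u1 u3 n0
    have u5 := bf fun t => g1156 g2011 u0 u2 t n0
    have u6 := bf fun t => g1175 g2011 u4 u2 u3 t
    exact g2027 u5 u6 u2
  have s2036 : T.alt p a b z x = true → False := fun n0 => by
    have u0 := bf fun t => s2034 t n0
    exact s2035 u0 n0
  have w2036 := bf s2036
  have s2037 : T.X a x z b = false → T.alt p a x z b = true → False := fun n0 n1 => by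
    have u0 := bf fun t => g379 n1 g2011 t n0
    have u1 := bf fun t => g381 n1 g2011 t n0
    exact g2023 u0 n0 u1
  have s2038 : T.X p x z b = true → T.alt p a x b y = true → T.alt p z x b y = true → False := fun n0 n1 n2 => by
    have u0 := bf fun t => g773 t n2
    have u1 := bf fun t => g592 t n1
    have u2 := bf fun t => g2004 t u1 u0
    have u3 := bt fun t => g227 u2 w2036 t
    have u4 := bt fun t => s2037 t u3
    have u5 := bf fun t => g35 t u4
    have u6 := bf fun t => g772 t n2
    have u7 := bt fun t => g1990 t u3 u6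
    have u8 := bt fun t => g1997 w2036 t n2
    have u9 := bf fun t => g23 t n0
    have u10 := bt fun t => g915 n2 t n0 g2014 g2013
    have u11 := bf fun t => g927 n2 n0 t g2013
    have u12 := bt fun t => g2027 u9 u5 t
    have u13 := bf fun t => g20 t u10
    have u14 := bf fun t => g21 t u10
    have u15 := bt fun t => g197 u7 g2011 u10 t
    have u16 := bf fun t => g14 u12 t
    have u17 := bt fun t => g370 u3 t u12 u9 u5
    have u18 := bf fun t => g32 t u15
    have u19 := bf fun t => g33 t u15
    have u20 := bf fun t => g2021 u13 u18 t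
    have u21 := bf fun t => g191 u7 w2032 t u20 u18
    have u22 := bf fun t => g419 u8 u21 u17 t
    have u23 := bt fun t => g210 u7 g2011 t u21 u10
    have u24 := bf fun t => g1823 u19 u4 u22 t g2013
    have u25 := bt fun t => g192 u7 u23 t u14 u19
    exact g729 n1 u25 u16 u11 u24
  have s2039 : T.X p b a x = false → T.X p x z b = false → T.alt p a x z b = true → False := fun n0 n1 n2 => by
    have u0 := bt fun t => s2037 t n2
    have u1 := bf fun t => g2024 t u0 n0
    exact g387 n2 g2011 u1 n0 n1 u0
  have s2040 : T.alt p a x b y = true → T.alt p z x b y = true → False := fun n0 n1 => by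
    have u0 := bf fun t => g773 t n1
    have u1 := bf fun t => g592 t n0
    have u2 := bf fun t => g2004 t u1 u0
    have u3 := bt fun t => g227 u2 w2036 t
    have u4 := bt fun t => s2037 t u3
    have u5 := bf fun t => s2038 t n0 n1
    have u6 := bt fun t => s2039 t u5 u3
    have u7 := bt fun t => g2026 t u4 u6
    exact g396 u3 w2031 w2032 u7 u6
  have s2041 : T.X p z b y = false → T.X a z b y = false → T.alt p a z b y = true → T.X p y a z = false → False := fun n0 n1 n2 n3 => by
    have u0 := bt fun t => g120 n2 w2032 n3 t n0 n1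
    exact g2021 n0 n1 u0
  have s2042 : T.X a z b y = false → T.X p y a z = false → T.alt p a z b y = true → False := fun n0 n1 n2 => by
    have u0 := bt fun t => s2041 t n0 n2 n1
    have u1 := bt fun t => g2019 u0 n0 t
    exact g138 n2 u1 u0 n0
  have s2043 : T.X p a b y = true → T.X a z b y = true → T.X p y a z = false → T.alt p a z b y = true → False := fun n0 n1 n2 n3 => by
    have u0 := bt fun t => g147 n3 w2032 n2 n0 t n1
    exact g2022 u0 n1 n0
  have s2044 : T.X p y z b = false → T.alt p a z b y = true → False := fun n0 n1 => by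
    have u0 := bf fun t => g157 n1 g2011 t n0
    have u1 := bt fun t => s2042 t u0 n1
    have u2 := bt fun t => g1005 g2011 u0 t n0 u1
    exact s2043 u2 u1 u0 n1
  have s2045 : T.X p b a x = true → T.X a x z b = true → T.alt p z x b y = true → False := fun n0 n1 n2 => by
    have u0 := bf fun t => g35 t n1
    have u1 := bf fun t => s2040 t n2
    have u2 := bt fun t => g2001 t u1 n2
    have u3 := bt fun t => s2044 t u2
    have u4 := bf fun t => g21 t u3
    have u5 := bf fun t => g13 t n0
    have u6 := bt fun t => g2026 t n1 n0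
    have u7 := bt fun t => g2027 t u0 u5
    have u8 := bf fun t => g1217 g2011 u6 n0 t
    have u9 := bf fun t => g899 n2 u3 u8 t
    have u10 := bt fun t => g910 n2 u3 u8 t g2013
    exact g1681 u4 u7 g2014 u10 u9
  have s2046 : T.X a x z b = true → T.alt p z x b y = true → False := fun n0 n1 => by
    have u0 := bf fun t => s2040 t n1
    have u1 := bt fun t => g2001 t u0 n1
    have u2 := bt fun t => s2044 t u1
    have u3 := bf fun t => g21 t u2
    have u4 := bf fun t => g772 t n1
    have u5 := bt fun t => g1997 w2036 t n1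
    have u6 := bf fun t => g409 t u5
    have u7 := bf fun t => g2010 u6 t u4
    have u8 := bt fun t => g589 u7 t u0
    have u9 := bt fun t => g1972 u1 t u6
    have u10 := bf fun t => g35 t n0
    have u11 := bf fun t => s2045 t n0 n1
    have u12 := bf fun t => g2024 t n0 u11
    have u13 := bf fun t => g342 u9 g2011 u12 u11 t n0
    have u14 := bf fun t => g899 n1 u2 u13 t
    have u15 := bt fun t => g910 n1 u2 u13 t g2013
    have u16 := bf fun t => g1681 u3 t g2014 u15 u14
    have u17 := bf fun t => g638 u8 t g2012 u15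
    exact g2027 u16 u10 u17
  have s2047 : T.alt p z x b y = true → False := fun n0 => by
    have u0 := bf fun t => g772 t n0
    have u1 := bt fun t => g1997 w2036 t n0
    have u2 := bf fun t => s2040 t n0
    have u3 := bf fun t => g409 t u1
    have u4 := bt fun t => g2001 t u2 n0
    have u5 := bf fun t => g2010 u3 t u0
    have u6 := bt fun t => g1972 u4 t u3
    have u7 := bt fun t => g589 u5 t u2
    have u8 := bt fun t => s2044 t u4
    have u9 := bf fun t => s2046 t n0
    have u10 := bf fun t => g324 u6 g2011 t u9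
    have u11 := bt fun t => g2023 t u9 u10
    have u12 := bf fun t => g7 t u11
    have u13 := bf fun t => g340 u6 u11 t u9
    have u14 := bf fun t => g1179 w2031 u11 t u13 u9
    have u15 := bf fun t => g1191 g2011 u12 u14 u13 t
    have u16 := bf fun t => g309 u6 u12 u14 t u15
    have u17 := bt fun t => g910 n0 u8 u13 t g2013
    have u18 := bt fun t => g929 n0 u8 u16 u13 t
    have u19 := bf fun t => g28 u17 t
    have u20 := bf fun t => g638 u7 t g2012 u17
    have u21 := bt fun t => g458 u1 u11 t u18
    exact g636 u7 u20 u10 u21 u19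
  have w2047 := bf s2047
  have s2048 := fun (n0 : T.alt p a y z x = true) => g1998 w2036 n0 w2047
  have w2048 := bf s2048
  have s2049 : T.X a x z b = false → T.X p y z b = true → False := fun n0 n1 => by
    have u0 := bf fun t => g20 t n1
    have u1 := bf fun t => s2037 n0 t
    have u2 := bt fun t => g227 t w2036 u1
    have u3 := bf fun t => g324 u2 g2011 t n0
    have u4 := bt fun t => g2023 t n0 u3
    have u5 := bf fun t => g9 u4 t
    have u6 := bf fun t => g340 u2 u4 t n0
    have u7 := bf fun t => g797 t n1 u6 g2014 g2013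
    have u8 := bt fun t => g770 t u7 w2047
    have u9 := bt fun t => g2004 u2 t u7
    have u10 := bt fun t => g1989 t u1 u8
    have u11 := bf fun t => g590 t u9
    have u12 := bt fun t => g197 u10 g2011 n1 t
    have u13 := bt fun t => g2009 t u11 u8
    have u14 := bf fun t => g32 t u12
    have u15 := bt fun t => g514 u13 u4 g2012 t g2014
    have u16 := bf fun t => g2021 u0 u14 t
    have u17 := bt fun t => g613 u9 u16 u3 u15 t
    have u18 := bf fun t => g191 u10 w2032 t u16 u14
    have u19 := bf fun t => g1839 u14 n0 t u17 g2013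
    exact g482 u13 u18 u5 g2012 g2014 u19
  have s2050 : T.X p x z b = false → T.X p b a x = false → T.X p y z b = true → False := fun n0 n1 n2 => by
    have u0 := bt fun t => s2049 t n2
    have u1 := bf fun t => g2024 t u0 n1
    have u2 := bf fun t => g21 t n2
    have u3 := bf fun t => g20 t n2
    have u4 := bf fun t => s2039 n1 n0 t
    have u5 := bf fun t => g1200 w2032 t n1 n0 u0
    have u6 := bf fun t => g797 t n2 n0 g2014 g2013
    have u7 := bf fun t => g1168 w2031 u1 t n0 u0
    have u8 := bt fun t => g227 t w2036 u4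
    have u9 := bt fun t => g770 t u6 w2047
    have u10 := bt fun t => g2004 u8 t u6
    have u11 := bt fun t => g1989 t u4 u9
    have u12 := bf fun t => g590 t u10
    have u13 := bt fun t => g197 u11 g2011 n2 t
    have u14 := bt fun t => g2009 t u12 u9
    have u15 := bf fun t => g32 t u13
    have u16 := bf fun t => g33 t u13
    have u17 := bf fun t => g2021 u3 u15 t
    have u18 := bf fun t => g191 u11 w2032 t u17 u15
    have u19 := bt fun t => g210 u11 g2011 t u18 n2
    have u20 := bt fun t => g482 u14 u18 u5 g2012 g2014 t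
    have u21 := bt fun t => g192 u11 u19 t u2 u16
    have u22 := bf fun t => g1906 u13 u0 u20 t
    exact g616 u10 u21 u7 g2012 u22
  have s2051 : T.X p b a x = false → T.X p y z b = true → False := fun n0 n1 => by
    have u0 := bt fun t => s2049 t n1
    have u1 := bf fun t => g35 t u0
    have u2 := bf fun t => g21 t n1
    have u3 := bf fun t => g20 t n1
    have u4 := bf fun t => g2024 t u0 n0
    have u5 := bt fun t => s2050 t n0 n1
    have u6 := bf fun t => g23 t u5
    have u7 := bf fun t => g342 t g2011 u4 n0 u5 u0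
    have u8 := bf fun t => g861 t n1 u5 g2013
    have u9 := bt fun t => g2027 u6 u1 t
    have u10 := bt fun t => g227 u7 w2036 t
    have u11 := bt fun t => g770 u8 t w2047
    have u12 := bf fun t => g14 u9 t
    have u13 := bt fun t => g370 u10 t u9 u6 u1
    have u14 := bt fun t => g1990 t u10 u8
    have u15 := bt fun t => g2005 u7 t u11
    have u16 := bf fun t => g49 t u14
    have u17 := bt fun t => g197 u14 g2011 n1 t
    have u18 := bt fun t => g1993 u16 t u11
    have u19 := bf fun t => g32 t u17
    have u20 := bf fun t => g33 t u17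
    have u21 := bf fun t => g2021 u3 u19 t
    have u22 := bf fun t => g191 u14 w2032 t u21 u19
    have u23 := bt fun t => g210 u14 g2011 t u22 n1
    have u24 := bt fun t => g553 u18 u22 u13 g2012 t
    have u25 := bt fun t => g192 u14 u23 t u2 u20
    have u26 := bf fun t => g1906 u17 u0 u24 t
    exact g616 u15 u25 u12 g2012 u26
  have s2052 : T.X p y z b = true → False := fun n0 => by
    have u0 := bf fun t => g20 t n0
    have u1 := bt fun t => s2049 t n0
    have u2 := bf fun t => g35 t u1
    have u3 := bt fun t => s2051 t n0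
    have u4 := bf fun t => g13 t u3
    have u5 := bt fun t => g2026 t u1 u3
    have u6 := bt fun t => g2027 t u2 u4
    have u7 := bf fun t => g9 u5 t
    have u8 := bf fun t => g396 t w2031 w2032 u5 u3
    have u9 := bf fun t => g1217 g2011 u5 u3 t
    have u10 := bt fun t => g1704 n0 u6 g2014 t g2013
    have u11 := bt fun t => g227 t w2036 u8
    have u12 := bf fun t => g797 t n0 u9 g2014 g2013
    have u13 := bf fun t => g30 u10 t
    have u14 := bt fun t => g770 t u12 w2047
    have u15 := bt fun t => g2004 u11 t u12
    have u16 := bt fun t => g1989 t u8 u14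
    have u17 := bf fun t => g590 t u15
    have u18 := bt fun t => g639 u15 u3 t u10
    have u19 := bt fun t => g197 u16 g2011 n0 t
    have u20 := bt fun t => g2009 t u17 u14
    have u21 := bf fun t => g32 t u19
    have u22 := bf fun t => g2021 u0 u21 t
    have u23 := bf fun t => g191 u16 w2032 t u22 u21
    have u24 := bf fun t => g646 u15 u22 u3 u18 u13 t
    have u25 := bt fun t => g482 u20 u23 u7 g2012 g2014 t
    exact g1838 u21 u1 u25 u24 g2013
  have w2052 := bf s2052
  have s2053 := fun (n0 : T.alt p a z b y = true) => s2044 w2052 n0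
  have w2053 := bf s2053
  have s2054 := fun (n0 : T.alt p a x b y = true) => g2002 w2053 n0 w2047
  have w2054 := bf s2054
  have s2055 : T.X p b a y = true → T.alt p a y z b = true → False := fun n0 n1 => by
    have u0 := bt fun t => g200 n1 g2011 n0 t
    have u1 := bt fun t => g2018 t u0 n0
    exact g215 n1 w2031 w2032 u1 n0
  have s2056 : T.alt p a y b x = true → T.X p x a y = false → T.alt p a z y x = true → T.X p x z b = false → T.X p x a b = false → T.X p a b x = false → False := fun n0 n1 n2 n3 n4 n5 => by
    have u0 := bf fun t => g590 t n0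
    have u1 := bt fun t => g1981 t w2048 n0
    have u2 := bt fun t => g2008 n2 u0 t
    have u3 := bt fun t => g844 u2 w2052 n3 g2014 t g2013
    have u4 := bf fun t => g28 u3 t
    have u5 := bt fun t => g612 n0 n4 g2012 u3 t
    have u6 := bf fun t => g40 u5 t
    have u7 := bt fun t => g604 n0 t n5 n1 u4 u6
    exact s2055 u7 u1
  have s2057 : T.X p b a x = true → T.X a x z b = true → False := fun n0 n1 => by
    have u0 := bf fun t => g35 t n1
    have u1 := bf fun t => g13 t n0
    have u2 := bf fun t => g15 n0 t
    have u3 := bt fun t => g2026 t n1 n0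
    have u4 := bf fun t => g9 u3 t
    have u5 := bf fun t => g396 t w2031 w2032 u3 n0
    have u6 := bf fun t => g1217 g2011 u3 n0 t
    have u7 := bt fun t => g227 t w2036 u5
    have u8 := bt fun t => g1974 w2053 u7 t
    have u9 := bt fun t => g514 u8 u3 g2012 t g2014
    have u10 := bf fun t => g18 u9 t
    have u11 := bf fun t => s2056 t u10 u8 u6 u2 u1
    have u12 := bt fun t => g589 t u11 w2054
    have u13 := bt fun t => g2004 u7 u11 t
    have u14 := bt fun t => g1977 t w2036 u12
    have u15 := bf fun t => g793 u13 u6 g2014 t g2013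
    have u16 := bf fun t => g98 u14 g2011 t w2052
    have u17 := bf fun t => g87 u14 w2031 w2032 t u16
    have u18 := bt fun t => g663 u12 u16 u2 g2012 u15 t
    have u19 := bt fun t => g482 u8 u17 u4 g2012 g2014 t
    have u20 := bf fun t => g40 u18 t
    have u21 := bf fun t => g1482 t u2 u10 u15 u18
    have u22 := bf fun t => g1829 t u0 u19 u20 g2013
    have u23 := bf fun t => g1312 t u4 u10 g2014 u19
    exact g2015 u23 u22 u21
  have s2058 : T.alt p a y b x = false → T.X p x z b = false → T.X p b a y = false → T.X a x z b = true → False := fun n0 n1 n2 n3 => by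
    have u0 := bf fun t => s2057 t n3
    have u1 := bf fun t => s2039 u0 n1 t
    have u2 := bt fun t => g227 t w2036 u1
    have u3 := bt fun t => g1974 w2053 u2 t
    have u4 := bf fun t => g2024 t n3 u0
    have u5 := bf fun t => g1168 w2031 u4 t n1 n3
    have u6 := bf fun t => g1200 w2032 t u0 n1 n3
    have u7 := bt fun t => g589 t n0 w2054
    have u8 := bt fun t => g2004 u2 n0 t
    have u9 := bt fun t => g1977 t w2036 u7
    have u10 := bf fun t => g793 u8 n1 g2014 t g2013
    have u11 := bf fun t => g98 u9 g2011 t w2052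
    have u12 := bt fun t => g74 u9 g2011 n2 w2052 t
    have u13 := bf fun t => g87 u9 w2031 w2032 t u11
    have u14 := bt fun t => g663 u7 u11 u5 g2012 u10 t
    have u15 := bf fun t => g1906 u12 n3 t u14
    exact g482 u3 u13 u6 g2012 g2014 u15
  have s2059 : T.X p x z b = false → T.X p b a y = false → T.X a x z b = true → False := fun n0 n1 n2 => by
    have u0 := bf fun t => s2057 t n2
    have u1 := bf fun t => g2024 t n2 u0
    have u2 := bf fun t => s2039 u0 n0 t
    have u3 := bf fun t => g1200 w2032 t u0 n0 n2
    have u4 := bf fun t => g1168 w2031 u1 t n0 n2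
    have u5 := bt fun t => g227 t w2036 u2
    have u6 := bt fun t => g1974 w2053 u5 t
    have u7 := bt fun t => s2058 t n0 n1 n2
    have u8 := bf fun t => g590 t u7
    have u9 := bt fun t => g1981 t w2048 u7
    have u10 := bt fun t => g2008 u6 u8 t
    have u11 := bt fun t => g844 u10 w2052 n0 g2014 t g2013
    have u12 := bf fun t => g29 u11 t
    have u13 := bt fun t => g612 u7 u4 g2012 u11 t
    have u14 := bf fun t => g1515 t u4 g2012 u12 u13
    have u15 := bf fun t => g41 u13 t
    have u16 := bf fun t => g213 u9 g2011 u14 t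
    have u17 := bf fun t => g2020 u16 t u14
    have u18 := bf fun t => g992 g2011 t u14 w2052 u17
    have u19 := bf fun t => g1838 u17 n2 t u15 g2013
    exact g482 u6 u18 u3 g2012 g2014 u19
  have s2060 : T.alt p a y b x = true → T.X p a b x = true → T.alt p a z b x = false → T.X p x z b = true → False := fun n0 n1 n2 n3 => by
    have u0 := bt fun t => g2006 n2 n0 t
    have u1 := bf fun t => g638 n0 n1 g2012 t
    exact g792 u0 w2052 n3 u1 g2013
  have s2061 : T.X p b a y = false → T.X a x z b = true → False := fun n0 n1 => by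
    have u0 := bf fun t => s2057 t n1
    have u1 := bf fun t => g2024 t n1 u0
    have u2 := bf fun t => g35 t n1
    have u3 := bt fun t => s2059 t n0 n1
    have u4 := bf fun t => g23 t u3
    have u5 := bf fun t => g342 t g2011 u1 u0 u3 n1
    have u6 := bt fun t => g2027 u4 u2 t
    have u7 := bt fun t => g227 u5 w2036 t
    have u8 := bf fun t => g1973 w2053 u5 t
    have u9 := bf fun t => g14 u6 t
    have u10 := bt fun t => g370 u7 t u6 u4 u2
    have u11 := bt fun t => g1984 u7 t w2054
    have u12 := bf fun t => s2060 t u6 u5 u3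
    have u13 := bt fun t => g589 t u12 w2054
    have u14 := bt fun t => g2010 u8 u13 t
    have u15 := bt fun t => g1977 t w2036 u13
    have u16 := bf fun t => g866 u14 u3 t g2013
    have u17 := bf fun t => g98 u15 g2011 t w2052
    have u18 := bt fun t => g74 u15 g2011 n0 w2052 t
    have u19 := bf fun t => g87 u15 w2031 w2032 t u17
    have u20 := bt fun t => g663 u13 u17 u9 g2012 u16 t
    have u21 := bf fun t => g1906 u18 n1 t u20
    exact g553 u11 u19 u10 g2012 u21
  have s2062 : T.X p x z b = true → T.X a x z b = true → False := fun n0 n1 => by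
    have u0 := bt fun t => s2061 t n1
    have u1 := bf fun t => g10 t u0
    have u2 := bf fun t => g12 u0 t
    have u3 := bf fun t => s2055 u0 t
    have u4 := bt fun t => g46 w2053 t u3
    have u5 := bf fun t => g87 u4 w2031 w2032 t u2
    have u6 := bf fun t => g1005 g2011 u5 u1 w2052 t
    have u7 := bt fun t => g1976 u4 w2036 t
    have u8 := bf fun t => s2057 t n1
    have u9 := bf fun t => g2024 t n1 u8
    have u10 := bf fun t => g35 t n1
    have u11 := bf fun t => g23 t n0
    have u12 := bf fun t => g342 t g2011 u9 u8 n0 n1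
    have u13 := bt fun t => g2027 u11 u10 t
    have u14 := bt fun t => g227 u12 w2036 t
    have u15 := bf fun t => g14 u13 t
    have u16 := bt fun t => g370 u14 t u13 u11 u10
    have u17 := bt fun t => g1984 u14 t w2054
    have u18 := bf fun t => g662 u7 u1 u2 u15 t
    have u19 := bt fun t => g553 u17 u5 u16 g2012 t
    have u20 := bf fun t => g574 u17 u5 u16 t
    have u21 := bt fun t => g1838 u6 n1 u19 t g2013
    exact g678 u7 u1 u8 u20 u18 u21
  have s2063 : T.X p b a x = false → T.X a x z b = true → False := fun n0 n1 => by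
    have u0 := bf fun t => g2024 t n1 n0
    have u1 := bt fun t => s2061 t n1
    have u2 := bf fun t => g10 t u1
    have u3 := bf fun t => g12 u1 t
    have u4 := bf fun t => s2055 u1 t
    have u5 := bt fun t => g46 w2053 t u4
    have u6 := bt fun t => g1976 u5 w2036 t
    have u7 := bf fun t => g87 u5 w2031 w2032 t u3
    have u8 := bf fun t => g1005 g2011 u7 u2 w2052 t
    have u9 := bf fun t => s2062 t n1
    have u10 := bf fun t => s2039 n0 u9 t
    have u11 := bf fun t => g1200 w2032 t n0 u9 n1
    have u12 := bf fun t => g1168 w2031 u0 t u9 n1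
    have u13 := bt fun t => g227 t w2036 u10
    have u14 := bf fun t => g662 u6 u2 u3 u12 t
    have u15 := bt fun t => g1974 w2053 u13 t
    have u16 := bt fun t => g482 u15 u7 u11 g2012 g2014 t
    have u17 := bf fun t => g1368 u7 u0 t g2014 u16
    have u18 := bt fun t => g1838 u8 n1 u16 t g2013
    exact g678 u6 u2 n0 u17 u14 u18
  have s2064 : T.X a x z b = true → False := fun n0 => by
    have u0 := bf fun t => s2057 t n0
    exact s2063 u0 n0
  have w2064 := bf s2064
  have s2065 := fun (n0 : T.alt p a x z b = true) => s2037 w2064 n0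
  have w2065 := bf s2065
  have s2066 := fun (n0 : T.alt p a z b x = false) => g227 n0 w2036 w2065
  have w2066 := bt s2066
  have s2068 := fun (n0 : T.X p b a x = true) => g324 w2066 g2011 n0 w2064
  have w2068 := bf s2068
  have s2069 := fun (n0 : T.alt p a z y x = false) => g1974 w2053 w2066 n0
  have w2069 := bt s2069
  have s2070 := fun (n0 : T.X p z a x = false) => g2023 n0 w2064 w2068
  have w2070 := bt s2070
  have s2072 := fun (n0 : T.X p y a x = false) => g514 w2069 w2070 g2012 n0 g2014
  have w2072 := bt s2072
  have s2074 := fun (n0 : T.X p x z b = true) => g340 w2066 w2070 n0 w2064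
  have w2074 := bf s2074
  have s2075 := fun (n0 : T.X p x a b = true) => g1179 w2031 w2070 n0 w2074 w2064
  have w2075 := bf s2075
  have s2078 := fun (n0 : T.X p x a y = true) => g18 w2072 n0
  have w2078 := bf s2078
  have s2079 : T.X p b y x = false → T.alt p a b y x = true → T.X p y a b = false → False := fun n0 n1 n2 => by
    have u0 := bt fun t => g663 n1 n2 w2075 g2012 n0 t
    exact g1538 n2 w2068 w2072 n0 u0
  have s2080 : T.alt p a b y x = true → False := fun n0 => by
    have u0 := bt fun t => g1977 t w2036 n0
    have u1 := bf fun t => g698 n0 w2068 w2072 t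
    have u2 := bf fun t => g98 u0 g2011 t w2052
    exact s2079 u1 n0 u2
  have w2080 := bf s2080
  have s2081 := fun (n0 : T.alt p a y b x = false) => g589 w2080 n0 w2054
  have w2081 := bt s2081
  have s2082 := fun (n0 : T.alt p z b y x = false) => g2008 w2069 w2080 n0
  have w2082 := bt s2082
  have s2086 := fun (n0 : T.X p a b x = false) => s2056 w2081 w2078 w2069 w2074 w2075 n0
  have w2086 := bt s2086
  have s2087 := fun (n0 : T.X p b y x = false) => g844 w2082 w2052 w2074 g2014 n0 g2013
  have w2087 := bt s2087
  exact g638 w2081 w2086 g2012 w2087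

theorem MT_sepa_1010 {p a z b y x : V} (hN : [p, a, z, b, y, x].Nodup) (h0 : T.X p a z b = true)
    (h1 : T.X y x p a = false) (h2 : T.X y x z b = false) (h3 : T.X y x p z = true)
    (h4 : T.X y a p z = false → T.X y a z b = false → T.X y a b p = false → False)
    (h5 : T.X y a p z = true → T.X y a z b = true → T.X y a b p = false → False)
    (h6 : T.X y a p z = true → T.X y a z b = false → T.X y a b p = true → False)
    (h7 : T.X y a p z = false → T.X y a z b = true → T.X y a b p = true → False)
    (h8 : T.X y b p z = true → T.X y b z a = false → T.X y b a p = false → False)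
    (h9 : T.X y b p z = false → T.X y b z a = true → T.X y b a p = false → False)
    (h10 : T.X y b p z = false → T.X y b z a = false → T.X y b a p = true → False)
    (h11 : T.X y b p z = true → T.X y b z a = true → T.X y b a p = true → False)
    (h12 : T.X x a p z = false → T.X x a z b = false → T.X x a b p = false → False)
    (h13 : T.X x a p z = true → T.X x a z b = true → T.X x a b p = false → False)
    (h14 : T.X x a p z = true → T.X x a z b = false → T.X x a b p = true → False)
    (h15 : T.X x a p z = false → T.X x a z b = true → T.X x a b p = true → False)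
    (h16 : T.X x b p z = true → T.X x b z a = false → T.X x b a p = false → False)
    (h17 : T.X x b p z = false → T.X x b z a = true → T.X x b a p = false → False)
    (h18 : T.X x b p z = false → T.X x b z a = false → T.X x b a p = true → False)
    (h19 : T.X x b p z = true → T.X x b z a = true → T.X x b a p = true → False) : False := by
  have k0 : T.Ok5 p a z b y := T.n5 hN (.cons_cons _ (.cons_cons _ (.cons_cons _ (.cons_cons _ (.cons_cons _ (List.nil_sublist _))))))
  have k1 : T.Ok5 p a z b x := T.n5 hN (.cons_cons _ (.cons_cons _ (.cons_cons _ (.cons_cons _ (.cons _ (.cons_cons _ (List.nil_sublist _)))))))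
  have k2 : T.Ok5 p a z y x := T.n5 hN (.cons_cons _ (.cons_cons _ (.cons_cons _ (.cons _ (.cons_cons _ (.cons_cons _ (List.nil_sublist _)))))))
  have k3 : T.Ok5 p a b y x := T.n5 hN (.cons_cons _ (.cons_cons _ (.cons _ (.cons_cons _ (.cons_cons _ (.cons_cons _ (List.nil_sublist _)))))))
  have k4 : T.Ok5 p z b y x := T.n5 hN (.cons_cons _ (.cons _ (.cons_cons _ (.cons_cons _ (.cons_cons _ (.cons_cons _ (List.nil_sublist _)))))))
  have k5 : T.Ok5 a z b y x := T.n5 hN (.cons _ (.cons_cons _ (.cons_cons _ (.cons_cons _ (.cons_cons _ (.cons_cons _ (List.nil_sublist _)))))))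
  have sp0 : T.Sp5 p a z b y x := T.sp5 hN (.cons_cons _ (.cons_cons _ (.cons_cons _ (.cons_cons _ (.cons_cons _ (.cons_cons _ (List.nil_sublist _)))))))
  have g1 := T.q01 p a z b
  have g2 := T.q02 p a z b
  have g4 := T.q01 p a z y
  have g5 := T.q02 p a z y
  have g7 := T.q01 p a z x
  have g8 := T.q02 p a z x
  have g9 := T.q12 p a z x
  have g10 := T.q01 p a b y
  have g11 := T.q02 p a b y
  have g13 := T.q01 p a b x
  have g19 := T.q01 p z b y
  have g20 := T.q02 p z b y
  have g21 := T.q12 p z b y
  have g22 := T.q01 p z b x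
  have g23 := T.q02 p z b x
  have g25 := T.q01 p z y x
  have g26 := T.q02 p z y x
  have g28 := T.q01 p b y x
  have g29 := T.q02 p b y x
  have g32 := T.q02 a z b y
  have g33 := T.q12 a z b y
  have g35 := T.q02 a z b x
  have g37 := T.q01 a z y x
  have g38 := T.q02 a z y x
  have g39 := T.q12 a z y x
  have g40 := T.q01 a b y x
  have g41 := T.q02 a b y x
  have g42 := T.q12 a b y x
  have g45 := T.q12 z b y x
  have g46 := T.ae1 k0
  have g47 := T.ae01 k0
  have g61 := fun ha : T.alt p a b z y = true => zA1_9482_0 (T.okA1 k0 ha)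
  have g74 := fun ha : T.alt p a b z y = true => zA1_18561_1 (T.okA1 k0 ha)
  have g84 := fun ha : T.alt p a b z y = true => zA1_16401_17 (T.okA1 k0 ha)
  have g87 := fun ha : T.alt p a b z y = true => zA1_294_32 (T.okA1 k0 ha)
  have g90 := fun ha : T.alt p a b z y = true => zA1_1608_64 (T.okA1 k0 ha)
  have g98 := fun ha : T.alt p a b z y = true => zA1_2305_257 (T.okA1 k0 ha)
  have g120 := fun ha : T.alt p a z b y = true => zA0_4708_0 (T.okA0 k0 ha)
  have g130 := fun ha : T.alt p a z b y = true => zA0_9226_8 (T.okA0 k0 ha)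
  have g133 := fun ha : T.alt p a z b y = true => zA0_18449_1 (T.okA0 k0 ha)
  have g138 := fun ha : T.alt p a z b y = true => zA0_4672_576 (T.okA0 k0 ha)
  have g147 := fun ha : T.alt p a z b y = true => zA0_4708_4160 (T.okA0 k0 ha)
  have g157 := fun ha : T.alt p a z b y = true => zA0_2081_33 (T.okA0 k0 ha)
  have g191 := fun ha : T.alt p a y z b = true => zA2_4196_32 (T.okA2 k0 ha)
  have g198 := fun ha : T.alt p a y z b = true => zA2_16401_17 (T.okA2 k0 ha)
  have g200 := fun ha : T.alt p a y z b = true => zA2_16513_129 (T.okA2 k0 ha)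
  have g206 := fun ha : T.alt p a y z b = true => zA2_18577_16385 (T.okA2 k0 ha)
  have g210 := fun ha : T.alt p a y z b = true => zA2_2089_2049 (T.okA2 k0 ha)
  have g213 := fun ha : T.alt p a y z b = true => zA2_577_513 (T.okA2 k0 ha)
  have g215 := fun ha : T.alt p a y z b = true => zA2_150_144 (T.okA2 k0 ha)
  have g224 := fun ha : T.alt p a y z b = true => zA2_4708_4192 (T.okA2 k0 ha)
  have g227 := T.ae1 k1
  have g242 := fun ha : T.alt p a b z x = true => zA1_9482_0 (T.okA1 k1 ha)
  have g265 := fun ha : T.alt p a b z x = true => zA1_16401_17 (T.okA1 k1 ha)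
  have g279 := fun ha : T.alt p a b z x = true => zA1_2305_257 (T.okA1 k1 ha)
  have g288 := fun ha : T.alt p a b z x = true => zA1_4708_4640 (T.okA1 k1 ha)
  have g301 := fun ha : T.alt p a z b x = true => zA0_4708_0 (T.okA0 k1 ha)
  have g319 := fun ha : T.alt p a z b x = true => zA0_4672_576 (T.okA0 k1 ha)
  have g328 := fun ha : T.alt p a z b x = true => zA0_4708_4160 (T.okA0 k1 ha)
  have g329 := fun ha : T.alt p a z b x = true => zA0_4708_4608 (T.okA0 k1 ha)
  have g338 := fun ha : T.alt p a z b x = true => zA0_2081_33 (T.okA0 k1 ha)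
  have g379 := fun ha : T.alt p a x z b = true => zA2_16401_17 (T.okA2 k1 ha)
  have g387 := fun ha : T.alt p a x z b = true => zA2_18577_16385 (T.okA2 k1 ha)
  have g408 := T.ae1 k2
  have g410 := T.ae02 k2
  have g411 := T.ae12 k2
  have g423 := fun ha : T.alt p a y z x = true => zA1_9482_0 (T.okA1 k2 ha)
  have g431 := fun ha : T.alt p a y z x = true => zA1_4704_512 (T.okA1 k2 ha)
  have g432 := fun ha : T.alt p a y z x = true => zA1_16529_128 (T.okA1 k2 ha)
  have g457 := fun ha : T.alt p a y z x = true => zA1_584_520 (T.okA1 k2 ha)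
  have g519 := fun ha : T.alt p a z y x = true => zA0_2081_33 (T.okA0 k2 ha)
  have g541 := fun ha : T.alt p a x z y = true => zA2_18577_0 (T.okA2 k2 ha)
  have g546 := fun ha : T.alt p a x z y = true => zA2_9474_2 (T.okA2 k2 ha)
  have g549 := fun ha : T.alt p a x z y = true => zA2_4676_512 (T.okA2 k2 ha)
  have g573 := fun ha : T.alt p a x z y = true => zA2_2307_256 (T.okA2 k2 ha)
  have g575 := fun ha : T.alt p a x z y = true => zA2_577_513 (T.okA2 k2 ha)
  have g589 := T.ae1 k3
  have g590 := T.ae01 k3
  have g609 := fun ha : T.alt p a y b x = true => zA1_18576_16 (T.okA1 k3 ha)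
  have g612 := fun ha : T.alt p a y b x = true => zA1_4704_512 (T.okA1 k3 ha)
  have g675 := fun ha : T.alt p a b y x = true => zA0_8458_2 (T.okA0 k3 ha)
  have g727 := fun ha : T.alt p a x b y = true => zA2_9474_2 (T.okA2 k3 ha)
  have g770 := T.ae1 k4
  have g771 := T.ae01 k4
  have g795 := fun ha : T.alt p z y b x = true => zA1_4676_64 (T.okA1 k4 ha)
  have g820 := fun ha : T.alt p z y b x = true => zA1_1168_1040 (T.okA1 k4 ha)
  have g823 := fun ha : T.alt p z y b x = true => zA1_4192_96 (T.okA1 k4 ha)
  have g863 := fun ha : T.alt p z b y x = true => zA0_4164_68 (T.okA0 k4 ha)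
  have g903 := fun ha : T.alt p z x b y = true => zA2_18577_0 (T.okA2 k4 ha)
  have g913 := fun ha : T.alt p z x b y = true => zA2_4704_64 (T.okA2 k4 ha)
  have g916 := fun ha : T.alt p z x b y = true => zA2_9480_8 (T.okA2 k4 ha)
  have g941 := fun ha : T.alt p z x b y = true => zA2_4164_68 (T.okA2 k4 ha)
  have g980 := z5_10505_257 k0
  have g992 := z5_6241_33 k0
  have g1002 := z5_8778_8704 k0
  have g1005 := z5_6241_4097 k0
  have g1008 := z5_9362_8320 k0
  have g1010 := z5_5196_1088 k0
  have g1021 := z5_10505_8193 k0
  have g1071 := z5_6249_6209 k0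
  have g1137 := z5_17545_1025 k1
  have g1156 := z5_16977_513 k1
  have g1162 := z5_6241_33 k1
  have g1164 := z5_16977_17 k1
  have g1175 := z5_6241_4097 k1
  have g1191 := z5_10505_8193 k1
  have g1228 := z5_18504_18504 k1
  have g1239 := z5_16985_16961 k1
  have g1308 := z5_17545_136 k2
  have g1320 := z5_10505_257 k2
  have g1322 := z5_16977_16896 k2
  have g1326 := z5_16977_513 k2
  have g1337 := z5_18596_160 k2
  have g1341 := z5_8778_520 k2
  have g1342 := z5_8778_8704 k2
  have g1434 := MTz5_4914_4866 k2
  have g1512 := z5_8778_8704 k3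
  have g1659 := z5_5196_68 k4
  have g1687 := z5_8778_66 k4
  have g1690 := z5_5196_1088 k4
  have g1806 := MTz5_5_5 k5
  have g1823 := z5_4898_544 k5
  have g1829 := z5_5196_68 k5
  have g1838 := z5_6241_96 k5
  have g1845 := z5_8778_8256 k5
  have g1860 := z5_5196_1088 k5
  have g1972 := zsp_73_1 sp0
  have g1973 := zsp_73_64 sp0
  have g1976 := zsp_530_2 sp0
  have g1981 := zsp_1156_1024 sp0
  have g1982 := zsp_1156_128 sp0
  have g1990 := zsp_4132_32 sp0
  have g1992 := zsp_8450_2 sp0
  have g1993 := zsp_8450_8192 sp0
  have g1996 := zsp_16528_16 sp0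
  have g2005 := zsp_9224_8192 sp0
  have g2010 := zsp_4672_512 sp0
  have g2011 : T.X p a z b = true := h0
  have g2012 : T.X p a y x = false := ((T.xs4 y x p a).symm.trans h1)
  have g2013 : T.X z b y x = false := ((T.xs4 y x z b).symm.trans h2)
  have g2014 : T.X p z y x = true := ((T.xs4 y x p z).symm.trans h3)
  have g2015 := fun (n0 : T.X p z a y = false) (n1 : T.X a y z b = false) (n2 : T.X p b a y = false) => h4 ((T.xs6 y a p z).trans n0) ((T.xs1 y a z b).trans n1) ((T.xs7 y a b p).trans n2)
  have g2016 := fun (n0 : T.X p z a y = true) (n1 : T.X a y z b = true) (n2 : T.X p b a y = false) => h5 ((T.xs6 y a p z).trans n0) ((T.xs1 y a z b).trans n1) ((T.xs7 y a b p).trans n2)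
  have g2018 := fun (n0 : T.X p z a y = false) (n1 : T.X a y z b = true) (n2 : T.X p b a y = true) => h7 ((T.xs6 y a p z).trans n0) ((T.xs1 y a z b).trans n1) ((T.xs7 y a b p).trans n2)
  have g2019 := fun (n0 : T.X p z b y = true) (n1 : T.X a z b y = false) (n2 : T.X p a b y = false) => h8 ((T.xs6 y b p z).trans n0) ((T.xs7 y b z a).trans n1) ((T.xs7 y b a p).trans n2)
  have g2020 := fun (n0 : T.X p z b y = false) (n1 : T.X a z b y = true) (n2 : T.X p a b y = false) => h9 ((T.xs6 y b p z).trans n0) ((T.xs7 y b z a).trans n1) ((T.xs7 y b a p).trans n2)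
  have g2021 := fun (n0 : T.X p z b y = false) (n1 : T.X a z b y = false) (n2 : T.X p a b y = true) => h10 ((T.xs6 y b p z).trans n0) ((T.xs7 y b z a).trans n1) ((T.xs7 y b a p).trans n2)
  have g2022 := fun (n0 : T.X p z b y = true) (n1 : T.X a z b y = true) (n2 : T.X p a b y = true) => h11 ((T.xs6 y b p z).trans n0) ((T.xs7 y b z a).trans n1) ((T.xs7 y b a p).trans n2)
  have g2023 := fun (n0 : T.X p z a x = false) (n1 : T.X a x z b = false) (n2 : T.X p b a x = false) => h12 ((T.xs6 x a p z).trans n0) ((T.xs1 x a z b).trans n1) ((T.xs7 x a b p).trans n2)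
  have g2024 := fun (n0 : T.X p z a x = true) (n1 : T.X a x z b = true) (n2 : T.X p b a x = false) => h13 ((T.xs6 x a p z).trans n0) ((T.xs1 x a z b).trans n1) ((T.xs7 x a b p).trans n2)
  have g2027 := fun (n0 : T.X p z b x = true) (n1 : T.X a z b x = false) (n2 : T.X p a b x = false) => h16 ((T.xs6 x b p z).trans n0) ((T.xs7 x b z a).trans n1) ((T.xs7 x b a p).trans n2)
  have g2028 := fun (n0 : T.X p z b x = false) (n1 : T.X a z b x = true) (n2 : T.X p a b x = false) => h17 ((T.xs6 x b p z).trans n0) ((T.xs7 x b z a).trans n1) ((T.xs7 x b a p).trans n2)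
  have g2029 := fun (n0 : T.X p z b x = false) (n1 : T.X a z b x = false) (n2 : T.X p a b x = true) => h18 ((T.xs6 x b p z).trans n0) ((T.xs7 x b z a).trans n1) ((T.xs7 x b a p).trans n2)
  have g2030 := fun (n0 : T.X p z b x = true) (n1 : T.X a z b x = true) (n2 : T.X p a b x = true) => h19 ((T.xs6 x b p z).trans n0) ((T.xs7 x b z a).trans n1) ((T.xs7 x b a p).trans n2)
  have s2031 := fun (n0 : T.X p z a b = true) => g1 g2011 n0
  have w2031 := bf s2031
  have s2032 := fun (n0 : T.X p b a z = true) => g2 g2011 n0
  have w2032 := bf s2032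
  have s2033 := fun (n0 : T.X p y z x = true) => g25 g2014 n0
  have w2033 := bf s2033
  have s2034 := fun (n0 : T.X p x z y = true) => g26 g2014 n0
  have w2034 := bf s2034
  have s2035 : T.X p a z x = true → T.X p a z y = true → False := fun n0 n1 => by
    have u0 := bf fun t => g4 n1 t
    have u1 := bf fun t => g7 n0 t
    have u2 := bt fun t => g1341 u0 n0 g2012 g2014 t
    have u3 := bt fun t => g1326 n1 u1 g2012 g2014 t
    exact g39 u2 u3
  have s2037 : T.X p a b x = true → T.X p z a x = false → T.X p a z x = false → False := fun n0 n1 n2 => by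
    have u0 := bf fun t => g13 n0 t
    have u1 := bt fun t => g2023 n1 t u0
    have u2 := bf fun t => g35 t u1
    have u3 := bf fun t => g1239 g2011 n2 n1 n0 t u1
    exact g2029 u3 u2 n0
  have s2038 : T.X p z b x = false → T.alt p a z b x = true → T.X p a b x = false → T.X p x a z = false → False := fun n0 n1 n2 n3 => by
    have u0 := bf fun t => g2028 n0 t n2
    exact g301 n1 w2032 n3 n2 n0 u0
  have s2039 : T.alt p a z b x = true → T.X p a b x = false → T.X p x a z = false → False := fun n0 n1 n2 => by
    have u0 := bt fun t => s2038 t n0 n1 n2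
    have u1 := bt fun t => g2027 u0 t n1
    exact g329 n0 w2032 n2 n1 u0 u1
  have s2042 : T.X p b z y = false → T.X a b z y = true → T.X p z a y = false → False := fun n0 n1 n2 => by
    have u0 := bf fun t => g1008 w2031 n2 t n0 n1
    have u1 := bf fun t => g33 n1 t
    exact g2015 n2 u1 u0
  have s2043 : T.X p b z y = false → T.alt p a z b y = true → T.X p a z y = true → False := fun n0 n1 n2 => by
    have u0 := bf fun t => g4 n2 t
    have u1 := bt fun t => g130 n1 w2031 n2 n0 t
    exact s2042 n0 u1 u0
  have s2044 : T.alt p a z b y = true → T.X p a z y = true → False := fun n0 n1 => by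
    have u0 := bf fun t => g5 n1 t
    have u1 := bf fun t => g4 n1 t
    have u2 := bt fun t => s2043 t n0 n1
    have u3 := bf fun t => g19 t u2
    have u4 := bf fun t => g21 u2 t
    have u5 := bt fun t => g133 n0 g2011 u1 u4 t
    have u6 := bf fun t => g32 t u5
    have u7 := bf fun t => g2021 u3 u6 t
    exact g120 n0 w2032 u0 u7 u3 u6
  have s2045 : T.X p z b x = false → T.X p a b x = true → T.X p x a z = false → T.alt p a z b x = true → False := fun n0 n1 n2 n3 => by
    have u0 := bf fun t => g328 n3 w2032 n2 n1 n0 t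
    exact g2029 n0 u0 n1
  have s2046 : T.X p a b x = true → T.alt p a z b x = true → T.X p x a z = false → False := fun n0 n1 n2 => by
    have u0 := bt fun t => s2045 t n0 n2 n1
    have u1 := bf fun t => g2030 u0 t n0
    exact g319 n1 n0 u0 u1
  have s2047 : T.alt p a z b x = true → T.X p x a z = false → False := fun n0 n1 => by
    have u0 := bt fun t => s2039 n0 t n1
    exact s2046 u0 n0 n1
  have s2048 : T.alt p a z y x = true → T.X p a z y = true → False := fun n0 n1 => by
    have u0 := bf fun t => g519 n0 n1 t w2034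
    have u1 := bf fun t => s2044 t n1
    have u2 := bt fun t => g1973 u1 t n0
    exact s2047 u2 u0
  have s2049 : T.X p a z y = true → False := fun n0 => by
    have u0 := bf fun t => g4 n0 t
    have u1 := bf fun t => g575 t n0 g2012 g2014
    have u2 := bf fun t => s2035 t n0
    have u3 := bf fun t => g1342 u0 u2 g2012 g2014 t
    have u4 := bf fun t => g1320 n0 u2 t w2034 u3
    have u5 := bf fun t => g423 t u0 u2 u4 w2033 u3
    have u6 := bt fun t => g408 t u5 u1
    exact s2048 u6 n0
  have w2049 := bf s2049
  have s2050 : T.X p z a x = true → T.X p b a x = false → T.alt p a z b x = false → False := fun n0 n1 n2 => by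
    have u0 := bf fun t => g2024 n0 t n1
    have u1 := bf fun t => g265 t g2011 n0 u0
    have u2 := bf fun t => g379 t g2011 n0 u0
    exact g227 n2 u1 u2
  have s2052 : T.X p a b y = false → T.X p z b y = true → T.X p y a z = false → T.X p y z b = false → False := fun n0 n1 n2 n3 => by
    have u0 := bf fun t => g1005 g2011 n2 n0 n3 t
    exact g2019 n1 u0 n0
  have s2053 : T.X p a b y = true → T.X p z b y = true → T.alt p a z b y = true → False := fun n0 n1 n2 => by
    have u0 := bt fun t => g138 n2 n0 n1 t
    exact g2022 n1 u0 n0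
  have s2054 : T.X p a b x = true → T.alt p a z b x = false → False := fun n0 n1 => by
    have u0 := bf fun t => g13 n0 t
    have u1 := bf fun t => s2050 t u0 n1
    have u2 := bf fun t => g1322 w2049 u1 g2012 g2014 t
    have u3 := bt fun t => s2037 n0 u1 t
    have u4 := bt fun t => g2023 u1 t u0
    have u5 := bf fun t => g457 t u3 g2012 g2014
    have u6 := bf fun t => g1308 w2049 u3 t w2033 u2
    have u7 := bf fun t => g1228 u3 n0 t u4
    have u8 := bf fun t => g35 t u4
    have u9 := bf fun t => g541 t w2049 u1 u6 w2034 u2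
    have u10 := bf fun t => g387 t g2011 u1 u0 u7 u4
    have u11 := bt fun t => g2029 t u8 n0
    have u12 := bt fun t => g408 t u5 u9
    have u13 := bt fun t => g227 n1 t u10
    have u14 := bf fun t => g22 u11 t
    have u15 := bt fun t => g1973 t n1 u12
    have u16 := bt fun t => g1996 u13 u5 t
    have u17 := bf fun t => g941 u16 t g2014 g2013
    have u18 := bt fun t => g913 u16 u7 g2014 t g2013
    have u19 := bf fun t => g157 u15 g2011 t u17
    have u20 := bf fun t => g28 u18 t
    have u21 := bf fun t => g29 u18 t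
    have u22 := bt fun t => g916 u16 u11 w2034 u20 t
    have u23 := bf fun t => g45 u22 t
    have u24 := bt fun t => g903 u16 t u14 w2033 u21 u23
    have u25 := bt fun t => s2052 t u24 u19 u17
    exact s2053 u25 u24 u15
  have s2055 : T.X p z b x = true → T.X p x a z = false → False := fun n0 n1 => by
    have u0 := bf fun t => s2047 t n1
    have u1 := bf fun t => s2054 t u0
    have u2 := bf fun t => g23 n0 t
    have u3 := bt fun t => g2027 n0 t u1
    exact g1175 g2011 n1 u1 u2 u3
  have s2056 : T.X p z b y = true → T.X p a b y = false → T.alt p a z b y = true → False := fun n0 n1 n2 => by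
    have u0 := bf fun t => g20 n0 t
    have u1 := bt fun t => s2052 n1 n0 t u0
    exact g157 n2 g2011 u1 u0
  have s2057 : T.X p y z b = true → T.alt p z y b x = false → False := fun n0 n1 => by
    have u0 := bf fun t => g863 t n0 g2014 g2013
    have u1 := bf fun t => g941 t n0 g2014 g2013
    exact g770 u0 n1 u1
  have s2058 : T.X p a b y = false → T.X p y z b = false → T.alt p a z b y = true → False := fun n0 n1 n2 => by
    have u0 := bf fun t => g157 n2 g2011 t n1
    have u1 := bf fun t => s2056 t n0 n2
    have u2 := bf fun t => g1005 g2011 u0 n0 n1 t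
    exact g120 n2 w2032 u0 n0 u1 u2
  have s2059 : T.X p a b y = true → T.X p z b y = false → T.X p y a z = false → T.alt p a z b y = true → False := fun n0 n1 n2 n3 => by
    have u0 := bf fun t => g147 n3 w2032 n2 n0 n1 t
    exact g2021 n1 u0 n0
  have s2060 : T.X p y z b = false → T.alt p a z b y = true → False := fun n0 n1 => by
    have u0 := bf fun t => g157 n1 g2011 t n0
    have u1 := bt fun t => s2058 t n0 n1
    have u2 := bf fun t => s2053 u1 t n1
    exact s2059 u1 u2 u0 n1
  have s2061 : T.alt p a z b y = true → T.alt p a z b x = false → False := fun n0 n1 => by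
    have u0 := bf fun t => g47 n0 t
    have u1 := bt fun t => g1972 n0 n1 t
    have u2 := bf fun t => g410 u1 t
    have u3 := bf fun t => g1993 u0 u2 t
    have u4 := bf fun t => s2057 t u3
    exact s2060 u4 n0
  have s2062 : T.X p z b y = true → T.X p a b y = false → T.alt p a z b y = false → False := fun n0 n1 n2 => by
    have u0 := bf fun t => g20 n0 t
    have u1 := bf fun t => g213 t g2011 n1 n0
    have u2 := bf fun t => g1002 w2031 w2049 n1 n0 t
    have u3 := bt fun t => s2052 n1 n0 t u0
    have u4 := bt fun t => g46 n2 t u1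
    have u5 := bf fun t => g980 g2011 w2049 t u0 u2
    exact g87 u4 w2031 w2032 u3 u5
  have s2063 : T.X p z a y = true → T.alt p a y z b = true → False := fun n0 n1 => by
    have u0 := bt fun t => g198 n1 g2011 n0 t
    have u1 := bf fun t => g215 n1 w2031 w2032 n0 t
    exact g2016 n0 u0 u1
  have s2064 : T.X a y z b = true → T.alt p a y z b = true → T.X p y z b = false → False := fun n0 n1 n2 => by
    have u0 := bf fun t => s2063 t n1
    have u1 := bf fun t => g2018 u0 n0 t
    exact g206 n1 g2011 u0 u1 n2 n0
  have s2065 : T.alt p a y z b = true → T.X p y z b = false → False := fun n0 n1 => by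
    have u0 := bf fun t => s2063 t n0
    have u1 := bf fun t => s2064 t n0 n1
    have u2 := bf fun t => g200 n0 g2011 t u1
    exact g2015 u0 u1 u2
  have s2066 : T.alt p a x z y = false → T.X p y z b = false → T.X p x a z = false → False := fun n0 n1 n2 => by
    have u0 := bf fun t => s2047 t n2
    have u1 := bf fun t => s2061 t u0
    have u2 := bf fun t => s2065 t n1
    have u3 := bt fun t => g46 u1 t u2
    have u4 := bf fun t => g98 u3 g2011 t n1
    have u5 := bf fun t => g1021 g2011 w2049 u4 n1 t
    have u6 := bf fun t => g1973 u1 u0 t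
    have u7 := bt fun t => g408 u6 t n0
    have u8 := bf fun t => g457 u7 t g2012 g2014
    have u9 := bt fun t => g431 u7 n2 g2012 g2014 t
    have u10 := bf fun t => g38 u9 t
    have u11 := bt fun t => g1982 u2 u7 t
    have u12 := bt fun t => g1992 u3 n0 t
    have u13 := bf fun t => g590 t u11
    have u14 := bt fun t => g795 u12 n1 g2014 t g2013
    have u15 := bf fun t => g823 u12 t g2014 g2013
    have u16 := bt fun t => g1976 u3 t u13
    have u17 := bf fun t => g29 u14 t
    have u18 := bf fun t => g279 u16 g2011 t u15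
    have u19 := bf fun t => g1191 g2011 u8 u18 u15 t
    have u20 := bt fun t => g612 u11 u18 g2012 u14 t
    have u21 := bt fun t => g242 u16 w2031 u8 u18 t u19
    have u22 := bf fun t => g41 u20 t
    have u23 := bf fun t => g1823 u5 t u10 u20 g2013
    have u24 := bt fun t => g1137 g2011 u8 t u21 u23
    have u25 := bf fun t => g265 u16 g2011 t u23
    have u26 := bt fun t => g609 u11 u24 t u17 u22
    exact g432 u7 w2049 u25 u26 u10
  have s2067 : T.X p z a y = true → T.X a z y x = true → T.alt p a x z y = true → T.alt p a b z y = true → T.X a z b y = false → T.X p x a z = false → False := fun n0 n1 n2 n3 n4 n5 => by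
    have u0 := bf fun t => g37 n1 t
    have u1 := bf fun t => s2047 t n5
    have u2 := bf fun t => s2054 t u1
    have u3 := bf fun t => s2055 t n5
    have u4 := bf fun t => g2028 u3 t u2
    have u5 := bt fun t => g546 n2 n0 t w2033 u0
    have u6 := bt fun t => g84 n3 g2011 n0 t
    have u7 := bt fun t => g1434 n0 t n5 u5 g2014 n1
    have u8 := bt fun t => g1829 u6 u4 n1 t g2013
    have u9 := bt fun t => g1164 g2011 u7 u2 u3 t
    have u10 := bf fun t => g42 u8 t
    exact g1838 n4 u9 n1 u10 g2013
  have s2068 : T.X a y z b = true → T.X p z a y = false → T.X a z y x = true → T.X p b z y = true → T.X a b z y = false → T.X p x a z = false → False := fun n0 n1 n2 n3 n4 n5 => by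
    have u0 := bf fun t => s2047 t n5
    have u1 := bf fun t => s2054 t u0
    have u2 := bf fun t => s2055 t n5
    have u3 := bf fun t => g2028 u2 t u1
    have u4 := bf fun t => g2018 n1 n0 t
    have u5 := bt fun t => g1829 n0 u3 n2 t g2013
    have u6 := bf fun t => g40 t u5
    have u7 := bf fun t => g1512 u4 u1 g2012 t u5
    have u8 := bf fun t => g1845 n4 u3 n2 u6 t
    exact g1687 n3 u2 g2014 u7 u8
  have s2069 : T.X p y z b = false → T.X p a b y = false → T.X p x a z = false → False := fun n0 n1 n2 => by
    have u0 := bf fun t => s2047 t n2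
    have u1 := bf fun t => s2061 t u0
    have u2 := bf fun t => s2062 t n1 u1
    have u3 := bf fun t => g2020 u2 t n1
    have u4 := bf fun t => s2054 t u0
    have u5 := bf fun t => s2055 t n2
    have u6 := bf fun t => g2028 u5 t u4
    have u7 := bf fun t => g1690 n0 u5 g2014 t g2013
    have u8 := bf fun t => g992 g2011 t n1 n0 u3
    have u9 := bf fun t => s2065 t n0
    have u10 := bt fun t => g46 u1 t u9
    have u11 := bf fun t => g98 u10 g2011 t n0
    have u12 := bf fun t => g1021 g2011 w2049 u11 n0 t
    have u13 := bt fun t => g61 u10 w2031 w2049 u11 t u12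
    have u14 := bt fun t => s2066 t n0 n2
    have u15 := bf fun t => g411 t u14
    have u16 := bt fun t => g549 u14 u8 g2012 g2014 t
    have u17 := bf fun t => g1981 u9 u15 t
    have u18 := bf fun t => s2067 t u16 u14 u10 u3 n2
    have u19 := bf fun t => g573 u14 w2049 u18 t w2034
    have u20 := bf fun t => s2068 t u18 u16 u13 u12 n2
    have u21 := bf fun t => g1860 u20 u6 u16 t g2013
    have u22 := bt fun t => g74 u10 g2011 t n0 u20
    have u23 := bf fun t => g675 t u22 u4 u19 u21
    have u24 := bf fun t => g727 t u22 u19 u7 u21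
    exact g589 u23 u17 u24
  have s2070 : T.alt p a y z b = true → T.X p y z b = true → T.X a z b y = false → T.X p a b y = false → False := fun n0 n1 n2 n3 => by
    have u0 := bt fun t => g210 n0 g2011 w2049 t n1
    exact g191 n0 w2032 u0 n3 n2
  have s2071 : T.X p a b y = false → T.X p x a z = false → False := fun n0 n1 => by
    have u0 := bf fun t => s2047 t n1
    have u1 := bf fun t => s2061 t u0
    have u2 := bf fun t => g1973 u1 u0 t
    have u3 := bf fun t => s2055 t n1
    have u4 := bf fun t => s2062 t n0 u1
    have u5 := bf fun t => g2020 u4 t n0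
    have u6 := bt fun t => s2069 t n0 n1
    have u7 := bf fun t => g863 t u6 g2014 g2013
    have u8 := bt fun t => g1659 u6 u3 g2014 t g2013
    have u9 := bt fun t => s2057 u6 t
    have u10 := bf fun t => g2010 u2 t u7
    have u11 := bf fun t => g820 u9 t w2033 u8
    have u12 := bf fun t => g823 u9 t g2014 g2013
    have u13 := bt fun t => g2005 u0 t u9
    have u14 := bf fun t => s2070 t u6 u5 n0
    have u15 := bt fun t => g46 u1 t u14
    have u16 := bt fun t => g1981 u14 t u13
    have u17 := bt fun t => g1976 u15 t u10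
    have u18 := bf fun t => g457 u16 t g2012 g2014
    have u19 := bf fun t => g279 u17 g2011 t u12
    have u20 := bf fun t => g1191 g2011 u18 u19 u12 t
    exact g242 u17 w2031 u18 u19 u11 u20
  have s2072 : T.X p y z b = false → T.X p x a z = false → False := fun n0 n1 => by
    have u0 := bt fun t => s2071 t n1
    have u1 := bf fun t => g11 u0 t
    have u2 := bf fun t => g10 u0 t
    have u3 := bf fun t => s2047 t n1
    have u4 := bf fun t => s2061 t u3
    have u5 := bf fun t => s2065 t n0
    have u6 := bf fun t => g1021 g2011 w2049 u1 n0 t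
    have u7 := bt fun t => g46 u4 t u5
    have u8 := bt fun t => g61 u7 w2031 w2049 u1 t u6
    have u9 := bt fun t => g74 u7 g2011 u2 n0 t
    have u10 := bt fun t => g1010 w2032 w2049 u0 u8 t
    exact g1806 u10 u9
  have s2073 : T.X p x a z = false → False := fun n0 => by
    have u0 := bf fun t => s2047 t n0
    have u1 := bf fun t => s2061 t u0
    have u2 := bt fun t => s2071 t n0
    have u3 := bt fun t => s2072 t n0
    have u4 := bf fun t => g20 t u3
    have u5 := bf fun t => g21 t u3
    have u6 := bf fun t => g90 t w2049 u2 u4 u5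
    have u7 := bt fun t => g2021 u4 t u2
    have u8 := bt fun t => g46 u1 u6 t
    have u9 := bt fun t => g1071 g2011 w2049 t u2 u3 u7
    exact g224 u8 w2032 u9 u2 u4 u7
  have w2073 := bt s2073
  have s2074 := fun (n0 : T.X p a z x = true) => g8 n0 w2073
  have w2074 := bf s2074
  have s2075 := fun (n0 : T.X p z a x = true) => g9 n0 w2073
  have w2075 := bf s2075
  have s2076 := fun (n0 : T.X a x z y = true) => g1322 w2049 w2075 g2012 g2014 n0
  have w2076 := bf s2076
  have s2077 := fun (n0 : T.X p a b x = true) => s2037 n0 w2075 w2074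
  have w2077 := bf s2077
  have s2078 : T.alt p a z b y = true → False := fun n0 => by
    have u0 := bt fun t => s2060 t n0
    have u1 := bt fun t => s2061 n0 t
    have u2 := bt fun t => s2057 u0 t
    have u3 := bt fun t => g338 u1 g2011 w2073 t
    exact g823 u2 u3 g2014 g2013
  have w2078 := bf s2078
  have s2079 : T.X p y z b = false → False := fun n0 => by
    have u0 := bf fun t => s2065 t n0
    have u1 := bt fun t => g46 w2078 t u0
    have u2 := bf fun t => g98 u1 g2011 t n0
    have u3 := bf fun t => g87 u1 w2031 w2032 t u2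
    have u4 := bf fun t => g1337 u3 w2073 t w2034 w2076
    have u5 := bf fun t => g541 t w2049 w2075 u4 w2034 w2076
    have u6 := bt fun t => g1992 u1 u5 t
    have u7 := bf fun t => g771 t u6
    have u8 := bf fun t => g823 u6 t g2014 g2013
    have u9 := bf fun t => g1990 u0 t u7
    have u10 := bt fun t => g1162 g2011 w2073 w2077 u8 t
    have u11 := bf fun t => g338 t g2011 w2073 u8
    have u12 := bt fun t => g227 u11 t u9
    have u13 := bt fun t => g2028 t u10 w2077
    exact g288 u12 w2032 w2073 w2077 u13 u10
  have w2079 := bt s2079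
  have s2084 := fun (n0 : T.alt p z y b x = false) => s2057 w2079 n0
  have w2084 := bt s2084
  have s2088 := fun (n0 : T.X p x z b = true) => g823 w2084 n0 g2014 g2013
  have w2088 := bf s2088
  have s2091 := fun (n0 : T.X a z b x = false) => g1162 g2011 w2073 w2077 w2088 n0
  have w2091 := bt s2091
  have s2094 := fun (n0 : T.X a x z b = true) => g35 w2091 n0
  have w2094 := bf s2094
  have s2095 := fun (n0 : T.X p z b x = false) => g2028 n0 w2091 w2077
  have w2095 := bt s2095
  exact g1156 g2011 w2075 w2077 w2095 w2094

theorem MT_sepa_1001 {p a z b y x : V} (hN : [p, a, z, b, y, x].Nodup) (h0 : T.X p a z b = true)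
    (h1 : T.X y x p a = false) (h2 : T.X y x z b = false) (h3 : T.X y x p z = true)
    (h4 : T.X y a p z = false → T.X y a z b = false → T.X y a b p = false → False)
    (h5 : T.X y a p z = true → T.X y a z b = true → T.X y a b p = false → False)
    (h6 : T.X y a p z = true → T.X y a z b = false → T.X y a b p = true → False)
    (h7 : T.X y a p z = false → T.X y a z b = true → T.X y a b p = true → False)
    (h8 : T.X y b p z = true → T.X y b z a = false → T.X y b a p = false → False)
    (h9 : T.X y b p z = false → T.X y b z a = true → T.X y b a p = false → False)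
    (h10 : T.X y b p z = false → T.X y b z a = false → T.X y b a p = true → False)
    (h11 : T.X y b p z = true → T.X y b z a = true → T.X y b a p = true → False)
    (h12 : T.X x a p z = true → T.X x a z b = false → T.X x a b p = false → False)
    (h13 : T.X x a p z = false → T.X x a z b = true → T.X x a b p = false → False)
    (h14 : T.X x a p z = false → T.X x a z b = false → T.X x a b p = true → False)
    (h15 : T.X x a p z = true → T.X x a z b = true → T.X x a b p = true → False)
    (h16 : T.X x b p z = false → T.X x b z a = false → T.X x b a p = false → False)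
    (h17 : T.X x b p z = true → T.X x b z a = true → T.X x b a p = false → False)
    (h18 : T.X x b p z = true → T.X x b z a = false → T.X x b a p = true → False)
    (h19 : T.X x b p z = false → T.X x b z a = true → T.X x b a p = true → False) : False := by
  have k0 : T.Ok5 p a z b y := T.n5 hN (.cons_cons _ (.cons_cons _ (.cons_cons _ (.cons_cons _ (.cons_cons _ (List.nil_sublist _))))))
  have k1 : T.Ok5 p a z b x := T.n5 hN (.cons_cons _ (.cons_cons _ (.cons_cons _ (.cons_cons _ (.cons _ (.cons_cons _ (List.nil_sublist _)))))))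
  have k2 : T.Ok5 p a z y x := T.n5 hN (.cons_cons _ (.cons_cons _ (.cons_cons _ (.cons _ (.cons_cons _ (.cons_cons _ (List.nil_sublist _)))))))
  have k3 : T.Ok5 p a b y x := T.n5 hN (.cons_cons _ (.cons_cons _ (.cons _ (.cons_cons _ (.cons_cons _ (.cons_cons _ (List.nil_sublist _)))))))
  have k4 : T.Ok5 p z b y x := T.n5 hN (.cons_cons _ (.cons _ (.cons_cons _ (.cons_cons _ (.cons_cons _ (.cons_cons _ (List.nil_sublist _)))))))
  have k5 : T.Ok5 a z b y x := T.n5 hN (.cons _ (.cons_cons _ (.cons_cons _ (.cons_cons _ (.cons_cons _ (.cons_cons _ (List.nil_sublist _)))))))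
  have sp0 : T.Sp5 p a z b y x := T.sp5 hN (.cons_cons _ (.cons_cons _ (.cons_cons _ (.cons_cons _ (.cons_cons _ (.cons_cons _ (List.nil_sublist _)))))))
  have g1 := T.q01 p a z b
  have g2 := T.q02 p a z b
  have g6 := T.q12 p a z y
  have g10 := T.q01 p a b y
  have g13 := T.q01 p a b x
  have g19 := T.q01 p z b y
  have g20 := T.q02 p z b y
  have g22 := T.q01 p z b x
  have g25 := T.q01 p z y x
  have g26 := T.q02 p z y x
  have g28 := T.q01 p b y x
  have g32 := T.q02 a z b y
  have g34 := T.q01 a z b x
  have g37 := T.q01 a z y x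
  have g40 := T.q01 a b y x
  have g46 := T.ae1 k0
  have g61 := fun ha : T.alt p a b z y = true => zA1_9482_0 (T.okA1 k0 ha)
  have g74 := fun ha : T.alt p a b z y = true => zA1_18561_1 (T.okA1 k0 ha)
  have g84 := fun ha : T.alt p a b z y = true => zA1_16401_17 (T.okA1 k0 ha)
  have g87 := fun ha : T.alt p a b z y = true => zA1_294_32 (T.okA1 k0 ha)
  have g98 := fun ha : T.alt p a b z y = true => zA1_2305_257 (T.okA1 k0 ha)
  have g100 := fun ha : T.alt p a b z y = true => zA1_18560_2176 (T.okA1 k0 ha)
  have g102 := fun ha : T.alt p a b z y = true => zA1_18577_18433 (T.okA1 k0 ha)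
  have g116 := fun ha : T.alt p a z b y = true => zA0_16642_16640 (T.okA0 k0 ha)
  have g120 := fun ha : T.alt p a z b y = true => zA0_4708_0 (T.okA0 k0 ha)
  have g138 := fun ha : T.alt p a z b y = true => zA0_4672_576 (T.okA0 k0 ha)
  have g143 := fun ha : T.alt p a z b y = true => zA0_16513_129 (T.okA0 k0 ha)
  have g147 := fun ha : T.alt p a z b y = true => zA0_4708_4160 (T.okA0 k0 ha)
  have g157 := fun ha : T.alt p a z b y = true => zA0_2081_33 (T.okA0 k0 ha)
  have g159 := fun ha : T.alt p a z b y = true => zA0_18448_2064 (T.okA0 k0 ha)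
  have g198 := fun ha : T.alt p a y z b = true => zA2_16401_17 (T.okA2 k0 ha)
  have g200 := fun ha : T.alt p a y z b = true => zA2_16513_129 (T.okA2 k0 ha)
  have g206 := fun ha : T.alt p a y z b = true => zA2_18577_16385 (T.okA2 k0 ha)
  have g215 := fun ha : T.alt p a y z b = true => zA2_150_144 (T.okA2 k0 ha)
  have g227 := T.ae1 k1
  have g242 := fun ha : T.alt p a b z x = true => zA1_9482_0 (T.okA1 k1 ha)
  have g268 := fun ha : T.alt p a b z x = true => zA1_294_32 (T.okA1 k1 ha)
  have g279 := fun ha : T.alt p a b z x = true => zA1_2305_257 (T.okA1 k1 ha)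
  have g314 := fun ha : T.alt p a z b x = true => zA0_18449_1 (T.okA0 k1 ha)
  have g324 := fun ha : T.alt p a z b x = true => zA0_16513_129 (T.okA0 k1 ha)
  have g327 := fun ha : T.alt p a z b x = true => zA0_294_256 (T.okA0 k1 ha)
  have g336 := fun ha : T.alt p a z b x = true => zA0_656_640 (T.okA0 k1 ha)
  have g338 := fun ha : T.alt p a z b x = true => zA0_2081_33 (T.okA0 k1 ha)
  have g341 := fun ha : T.alt p a z b x = true => zA0_18577_16401 (T.okA0 k1 ha)
  have g408 := T.ae1 k2
  have g410 := T.ae02 k2
  have g411 := T.ae12 k2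
  have g423 := fun ha : T.alt p a y z x = true => zA1_9482_0 (T.okA1 k2 ha)
  have g431 := fun ha : T.alt p a y z x = true => zA1_4704_512 (T.okA1 k2 ha)
  have g457 := fun ha : T.alt p a y z x = true => zA1_584_520 (T.okA1 k2 ha)
  have g508 := fun ha : T.alt p a z y x = true => zA0_294_256 (T.okA0 k2 ha)
  have g517 := fun ha : T.alt p a z y x = true => zA0_656_640 (T.okA0 k2 ha)
  have g549 := fun ha : T.alt p a x z y = true => zA2_4676_512 (T.okA2 k2 ha)
  have g573 := fun ha : T.alt p a x z y = true => zA2_2307_256 (T.okA2 k2 ha)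
  have g575 := fun ha : T.alt p a x z y = true => zA2_577_513 (T.okA2 k2 ha)
  have g589 := T.ae1 k3
  have g612 := fun ha : T.alt p a y b x = true => zA1_4704_512 (T.okA1 k3 ha)
  have g621 := fun ha : T.alt p a y b x = true => zA1_8450_258 (T.okA1 k3 ha)
  have g663 := fun ha : T.alt p a b y x = true => zA0_4708_0 (T.okA0 k3 ha)
  have g691 := fun ha : T.alt p a b y x = true => zA0_4708_4608 (T.okA0 k3 ha)
  have g696 := fun ha : T.alt p a b y x = true => zA0_290_34 (T.okA0 k3 ha)
  have g730 := fun ha : T.alt p a x b y = true => zA2_4676_512 (T.okA2 k3 ha)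
  have g770 := T.ae1 k4
  have g771 := T.ae01 k4
  have g772 := T.ae02 k4
  have g773 := T.ae12 k4
  have g795 := fun ha : T.alt p z y b x = true => zA1_4676_64 (T.okA1 k4 ha)
  have g823 := fun ha : T.alt p z y b x = true => zA1_4192_96 (T.okA1 k4 ha)
  have g862 := fun ha : T.alt p z b y x = true => zA0_4672_576 (T.okA0 k4 ha)
  have g863 := fun ha : T.alt p z b y x = true => zA0_4164_68 (T.okA0 k4 ha)
  have g865 := fun ha : T.alt p z b y x = true => zA0_4192_96 (T.okA0 k4 ha)
  have g932 := fun ha : T.alt p z x b y = true => zA2_2625_64 (T.okA2 k4 ha)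
  have g938 := fun ha : T.alt p z x b y = true => zA2_2306_2050 (T.okA2 k4 ha)
  have g941 := fun ha : T.alt p z x b y = true => zA2_4164_68 (T.okA2 k4 ha)
  have g994 := z5_16977_17 k0
  have g1005 := z5_6241_4097 k0
  have g1015 := z5_18489_18433 k0
  have g1021 := z5_10505_8193 k0
  have g1026 := z5_4756_4112 k0
  have g1037 := z5_18881_18433 k0
  have g1047 := z5_2193_2193 k0
  have g1048 := z5_16673_16673 k0
  have g1150 := z5_10505_257 k1
  have g1153 := z5_5196_5120 k1
  have g1175 := z5_6241_4097 k1
  have g1191 := z5_10505_8193 k1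
  have g1336 := z5_5196_4104 k2
  have g1342 := z5_8778_8704 k2
  have g1482 := z5_4898_4098 k3
  have g1506 := z5_5196_4104 k3
  have g1528 := z5_978_530 k3
  have g1668 := z5_6241_96 k4
  have g1827 := z5_4756_20 k5
  have g1829 := z5_5196_68 k5
  have g1875 := z5_4756_516 k5
  have g1973 := zsp_73_64 sp0
  have g1974 := zsp_73_8 sp0
  have g1981 := zsp_1156_1024 sp0
  have g1982 := zsp_1156_128 sp0
  have g1985 := zsp_2336_2048 sp0
  have g1990 := zsp_4132_32 sp0
  have g1991 := zsp_8450_8450 sp0
  have g1992 := zsp_8450_2 sp0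
  have g1993 := zsp_8450_8192 sp0
  have g1994 := zsp_8450_256 sp0
  have g1997 := zsp_16528_16384 sp0
  have g1998 := zsp_16528_128 sp0
  have g2001 := zsp_18433_16384 sp0
  have g2002 := zsp_18433_2048 sp0
  have g2005 := zsp_9224_8192 sp0
  have g2008 := zsp_4672_64 sp0
  have g2009 := zsp_4672_4096 sp0
  have g2011 : T.X p a z b = true := h0
  have g2012 : T.X p a y x = false := ((T.xs4 y x p a).symm.trans h1)
  have g2013 : T.X z b y x = false := ((T.xs4 y x z b).symm.trans h2)
  have g2014 : T.X p z y x = true := ((T.xs4 y x p z).symm.trans h3)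
  have g2015 := fun (n0 : T.X p z a y = false) (n1 : T.X a y z b = false) (n2 : T.X p b a y = false) => h4 ((T.xs6 y a p z).trans n0) ((T.xs1 y a z b).trans n1) ((T.xs7 y a b p).trans n2)
  have g2016 := fun (n0 : T.X p z a y = true) (n1 : T.X a y z b = true) (n2 : T.X p b a y = false) => h5 ((T.xs6 y a p z).trans n0) ((T.xs1 y a z b).trans n1) ((T.xs7 y a b p).trans n2)
  have g2018 := fun (n0 : T.X p z a y = false) (n1 : T.X a y z b = true) (n2 : T.X p b a y = true) => h7 ((T.xs6 y a p z).trans n0) ((T.xs1 y a z b).trans n1) ((T.xs7 y a b p).trans n2)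
  have g2019 := fun (n0 : T.X p z b y = true) (n1 : T.X a z b y = false) (n2 : T.X p a b y = false) => h8 ((T.xs6 y b p z).trans n0) ((T.xs7 y b z a).trans n1) ((T.xs7 y b a p).trans n2)
  have g2020 := fun (n0 : T.X p z b y = false) (n1 : T.X a z b y = true) (n2 : T.X p a b y = false) => h9 ((T.xs6 y b p z).trans n0) ((T.xs7 y b z a).trans n1) ((T.xs7 y b a p).trans n2)
  have g2021 := fun (n0 : T.X p z b y = false) (n1 : T.X a z b y = false) (n2 : T.X p a b y = true) => h10 ((T.xs6 y b p z).trans n0) ((T.xs7 y b z a).trans n1) ((T.xs7 y b a p).trans n2)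
  have g2022 := fun (n0 : T.X p z b y = true) (n1 : T.X a z b y = true) (n2 : T.X p a b y = true) => h11 ((T.xs6 y b p z).trans n0) ((T.xs7 y b z a).trans n1) ((T.xs7 y b a p).trans n2)
  have g2023 := fun (n0 : T.X p z a x = true) (n1 : T.X a x z b = false) (n2 : T.X p b a x = false) => h12 ((T.xs6 x a p z).trans n0) ((T.xs1 x a z b).trans n1) ((T.xs7 x a b p).trans n2)
  have g2024 := fun (n0 : T.X p z a x = false) (n1 : T.X a x z b = true) (n2 : T.X p b a x = false) => h13 ((T.xs6 x a p z).trans n0) ((T.xs1 x a z b).trans n1) ((T.xs7 x a b p).trans n2)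
  have g2026 := fun (n0 : T.X p z a x = true) (n1 : T.X a x z b = true) (n2 : T.X p b a x = true) => h15 ((T.xs6 x a p z).trans n0) ((T.xs1 x a z b).trans n1) ((T.xs7 x a b p).trans n2)
  have g2027 := fun (n0 : T.X p z b x = false) (n1 : T.X a z b x = false) (n2 : T.X p a b x = false) => h16 ((T.xs6 x b p z).trans n0) ((T.xs7 x b z a).trans n1) ((T.xs7 x b a p).trans n2)
  have s2031 := fun (n0 : T.X p z a b = true) => g1 g2011 n0
  have w2031 := bf s2031
  have s2032 := fun (n0 : T.X p b a z = true) => g2 g2011 n0
  have w2032 := bf s2032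
  have s2033 := fun (n0 : T.X p y z x = true) => g25 g2014 n0
  have w2033 := bf s2033
  have s2034 := fun (n0 : T.X p x z y = true) => g26 g2014 n0
  have w2034 := bf s2034
  have s2035 : T.alt p a x z y = true → T.alt p a x b y = true → T.alt p z x b y = true → False := fun n0 n1 n2 => by
    have u0 := bf fun t => g941 n2 t g2014 g2013
    have u1 := bf fun t => g773 t n2
    have u2 := bf fun t => g411 t n0
    have u3 := bf fun t => g575 n0 t g2012 g2014
    have u4 := bt fun t => g1994 t n0 u1
    have u5 := bt fun t => g1997 t u2 n2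
    have u6 := bf fun t => g98 u4 g2011 t u0
    have u7 := bf fun t => g1021 g2011 u3 u6 u0 t
    have u8 := bt fun t => g61 u4 w2031 u3 u6 t u7
    have u9 := bf fun t => g87 u4 w2031 w2032 t u6
    have u10 := bf fun t => g19 t u8
    have u11 := bf fun t => g938 n2 u8 w2034 t
    have u12 := bt fun t => g549 n0 u9 g2012 g2014 t
    have u13 := bf fun t => g1668 u10 t g2014 u11 g2013
    have u14 := bt fun t => g932 n2 u10 g2014 t u11
    have u15 := bf fun t => g1336 u9 t g2012 w2033 u12
    have u16 := bf fun t => g279 u5 g2011 t u13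
    have u17 := bf fun t => g28 u14 t
    have u18 := bt fun t => g730 n1 u6 g2012 u14 t
    have u19 := bf fun t => g1191 g2011 u15 u16 u13 t
    have u20 := bt fun t => g242 u5 w2031 u15 u16 t u19
    have u21 := bf fun t => g1506 u6 t g2012 u17 u18
    have u22 := bf fun t => g22 t u20
    have u23 := bf fun t => g1153 w2032 u15 u21 u20 t
    exact g2027 u22 u23 u21
  have s2036 : T.X a y z b = false → T.alt p a y z b = true → False := fun n0 n1 => by
    have u0 := bf fun t => g198 n1 g2011 t n0
    have u1 := bf fun t => g200 n1 g2011 t n0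
    exact g2015 u0 n0 u1
  have s2037 : T.X a z y x = true → T.X a b y x = true → T.X a y z b = true → False := fun n0 n1 n2 => by
    have u0 := bf fun t => g40 n1 t
    have u1 := bf fun t => g37 n0 t
    have u2 := bt fun t => g1829 n2 t n0 u0 g2013
    have u3 := bt fun t => g1875 n2 t u1 n1 g2013
    exact g34 u2 u3
  have s2038 : T.X p b a y = false → T.alt p a y z b = true → T.X a y z b = true → T.X p y z b = false → False := fun n0 n1 n2 n3 => by
    have u0 := bt fun t => g206 n1 g2011 t n0 n3 n2
    exact g2016 u0 n2 n0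
  have s2039 : T.alt p a y z b = true → T.X a y z b = true → T.X p y z b = false → False := fun n0 n1 n2 => by
    have u0 := bt fun t => s2038 t n0 n1 n2
    have u1 := bt fun t => g2018 t n1 u0
    exact g215 n0 w2031 w2032 u1 u0
  have s2040 : T.alt p a y z b = true → T.X p y z b = false → False := fun n0 n1 => by
    have u0 := bt fun t => s2036 t n0
    exact s2039 n0 u0 n1
  have s2041 : T.X p a b y = false → T.X p y a z = false → T.alt p a z b y = true → T.X a z b y = false → False := fun n0 n1 n2 n3 => by
    have u0 := bf fun t => g2019 t n3 n0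
    exact g120 n2 w2032 n1 n0 u0 n3
  have s2042 : T.X p a b y = true → T.alt p a z b y = true → T.X a z b y = false → False := fun n0 n1 n2 => by
    have u0 := bf fun t => g138 n1 n0 t n2
    exact g2021 u0 n2 n0
  have s2043 : T.X p y a z = false → T.alt p a z b y = true → T.X a z b y = false → False := fun n0 n1 n2 => by
    have u0 := bt fun t => s2041 t n0 n1 n2
    exact s2042 u0 n1 n2
  have s2044 : T.alt p a z b y = true → T.X a z b y = false → T.X p y z b = false → False := fun n0 n1 n2 => by
    have u0 := bf fun t => g157 n0 g2011 t n2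
    exact s2043 u0 n0 n1
  have s2045 : T.alt p a x b y = true → T.alt p z x b y = true → False := fun n0 n1 => by
    have u0 := bf fun t => g772 t n1
    have u1 := bf fun t => g941 n1 t g2014 g2013
    have u2 := bf fun t => s2040 t u1
    have u3 := bf fun t => g1990 u2 t u0
    have u4 := bf fun t => s2035 t n0 n1
    exact g1985 u3 u4 n0
  have s2046 : T.X p a b y = true → T.X a z b y = true → T.alt p a z b y = true → T.X p y a z = false → False := fun n0 n1 n2 n3 => by
    have u0 := bt fun t => g147 n2 w2032 n3 n0 t n1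
    exact g2022 u0 n1 n0
  have s2047 : T.alt p a z b y = true → T.X p y z b = false → False := fun n0 n1 => by
    have u0 := bf fun t => g157 n0 g2011 t n1
    have u1 := bt fun t => s2044 n0 t n1
    have u2 := bt fun t => g1005 g2011 u0 t n1 u1
    exact s2046 u2 u1 n0 u0
  have s2048 : T.alt p z x b y = true → False := fun n0 => by
    have u0 := bf fun t => g941 n0 t g2014 g2013
    have u1 := bf fun t => s2045 t n0
    have u2 := bt fun t => g2001 t u1 n0
    exact s2047 u2 u0
  have w2048 := bf s2048
  have s2049 : T.X a y z b = false → T.alt p a z b y = true → False := fun n0 n1 => by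
    have u0 := bt fun t => s2047 n1 t
    have u1 := bf fun t => g143 n1 g2011 t n0
    have u2 := bf fun t => g159 n1 t u0 n0
    exact g2015 u2 n0 u1
  have s2050 : T.alt p a z b y = true → False := fun n0 => by
    have u0 := bt fun t => s2047 n0 t
    have u1 := bt fun t => s2049 t n0
    have u2 := bf fun t => g32 t u1
    have u3 := bf fun t => g116 n0 w2031 t u1
    have u4 := bf fun t => s2042 t n0 u2
    have u5 := bt fun t => s2043 t n0 u2
    have u6 := bt fun t => g1037 g2011 u4 t u3 u0 u1
    have u7 := bf fun t => g6 t u5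
    exact g2018 u7 u1 u6
  have w2050 := bf s2050
  have s2051 := fun (n0 : T.alt p a x b y = true) => g2002 w2050 n0 w2048
  have w2051 := bf s2051
  have s2052 : T.X p b a y = true → T.X a y z b = true → T.X p y z b = true → False := fun n0 n1 n2 => by
    have u0 := bf fun t => g1047 g2011 t n0 n2
    exact g2018 u0 n1 n0
  have s2053 : T.X a y z b = true → T.X p a b y = false → T.X p y z b = true → False := fun n0 n1 n2 => by
    have u0 := bf fun t => g863 t n2 g2014 g2013
    have u1 := bt fun t => g770 u0 t w2048
    have u2 := bf fun t => s2052 t n0 n2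
    have u3 := bf fun t => g2016 t n0 u2
    have u4 := bt fun t => g1037 g2011 n1 u2 t n2 n0
    have u5 := bf fun t => g102 t g2011 u3 u2 n2 n0
    have u6 := bf fun t => g1048 g2011 t u4 n0
    have u7 := bt fun t => g1993 u5 t u1
    have u8 := bt fun t => g1015 g2011 t u3 u6 n2 n0
    exact g575 u7 u8 g2012 g2014
  have s2054 : T.X p y z b = true → T.X a z b y = false → False := fun n0 n1 => by
    have u0 := bf fun t => g20 t n0
    have u1 := bf fun t => g2021 u0 n1 t
    have u2 := bf fun t => s2053 t u1 n0
    have u3 := bf fun t => s2036 u2 t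
    have u4 := bf fun t => g994 g2011 t u1 u0 u2
    have u5 := bt fun t => g46 w2050 t u3
    have u6 := bt fun t => g2015 u4 u2 t
    exact g100 u5 u6 n0 u2
  have s2055 : T.alt p a x z y = true → T.X a y z b = false → T.X p y z b = false → False := fun n0 n1 n2 => by
    have u0 := bf fun t => s2040 t n2
    have u1 := bt fun t => g46 w2050 t u0
    have u2 := bf fun t => g84 u1 g2011 t n1
    have u3 := bt fun t => g74 u1 g2011 t n2 n1
    have u4 := bf fun t => g98 u1 g2011 t n2
    have u5 := bf fun t => g411 t n0
    have u6 := bf fun t => g575 n0 t g2012 g2014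
    have u7 := bf fun t => g1991 u1 n0 t
    have u8 := bf fun t => g573 n0 u6 u2 t w2034
    have u9 := bf fun t => g1981 u0 u5 t
    have u10 := bt fun t => g770 t u7 w2048
    have u11 := bt fun t => g589 t u9 w2051
    have u12 := bf fun t => g862 u10 g2014 t g2013
    have u13 := bf fun t => g696 u11 u3 t u8
    have u14 := bt fun t => g663 u11 u4 u13 g2012 u12 t
    exact g1482 u3 u13 u8 u12 u14
  have s2056 : T.alt p a z y x = true → T.X a b y x = true → T.X p x z b = false → T.X p b y x = true → T.alt p z b y x = false → T.X p y a b = false → False := fun n0 n1 n2 n3 n4 n5 => by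
    have u0 := bt fun t => g1973 w2050 t n0
    have u1 := bt fun t => g2008 n0 t n4
    have u2 := bf fun t => g338 u0 g2011 t n2
    have u3 := bt fun t => g691 u1 n5 t g2012 n3 n1
    exact g327 u0 w2031 w2032 u2 u3
  have s2057 : T.X a b y x = true → T.X p b y x = true → T.alt p z y b x = true → T.alt p a x z y = false → T.X p z a y = false → T.X p b a y = true → T.X p y a b = false → False := fun n0 n1 n2 n3 n4 n5 n6 => by
    have u0 := bf fun t => g823 n2 t g2014 g2013
    have u1 := bf fun t => g771 t n2
    have u2 := bf fun t => g40 n0 t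
    have u3 := bf fun t => s2056 t n0 u0 n1 u1 n6
    have u4 := bf fun t => g1974 w2050 t u3
    have u5 := bt fun t => g408 u3 t n3
    have u6 := bt fun t => g2005 u4 t n2
    have u7 := bf fun t => g457 u5 t g2012 g2014
    have u8 := bf fun t => g621 u6 n5 t u2
    have u9 := bf fun t => g1342 n4 u7 g2012 g2014 t
    exact g423 u5 n4 u7 u8 w2033 u9
  have s2058 : T.alt p a y z x = true → T.X a b y x = false → T.X p x z b = false → T.X p b y x = true → T.alt p a y z b = false → False := fun n0 n1 n2 n3 n4 => by
    have u0 := bt fun t => g1982 n4 n0 t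
    have u1 := bt fun t => g1998 t n0 w2048
    have u2 := bt fun t => g612 u0 t g2012 n3 n1
    exact g279 u1 g2011 u2 n2
  have s2059 : T.X p z a x = false → T.X p b a x = false → T.alt p a z b x = true → T.X p x z b = false → False := fun n0 n1 n2 n3 => by
    have u0 := bt fun t => g314 n2 g2011 n0 n3 t
    exact g2024 n0 u0 n1
  have s2060 : T.X p b a x = false → T.X p x z b = false → T.alt p a z b x = true → False := fun n0 n1 n2 => by
    have u0 := bt fun t => s2059 t n0 n2 n1
    have u1 := bt fun t => g2023 u0 t n0
    exact g341 n2 g2011 u0 n0 n1 u1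
  have s2061 : T.X a y z b = false → T.X p y z b = false → False := fun n0 n1 => by
    have u0 := bf fun t => s2040 t n1
    have u1 := bt fun t => g46 w2050 t u0
    have u2 := bf fun t => g98 u1 g2011 t n1
    have u3 := bf fun t => g87 u1 w2031 w2032 t u2
    have u4 := bt fun t => g74 u1 g2011 t n1 n0
    have u5 := bf fun t => g84 u1 g2011 t n0
    have u6 := bf fun t => s2055 t n0 n1
    have u7 := bt fun t => g1992 u1 u6 t
    have u8 := bt fun t => g795 u7 n1 g2014 t g2013
    have u9 := bf fun t => g823 u7 t g2014 g2013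
    have u10 := bf fun t => s2057 t u8 u7 u6 u5 u4 u2
    have u11 := bf fun t => s2058 t u10 u9 u8 u0
    have u12 := bt fun t => g408 t u11 u6
    have u13 := bt fun t => g1973 w2050 t u12
    have u14 := bf fun t => g338 u13 g2011 t u9
    have u15 := bf fun t => g508 u12 u5 u3 u14 t
    have u16 := bt fun t => s2060 t u9 u13
    have u17 := bt fun t => g1528 u4 u16 g2012 t u15 u8
    have u18 := bt fun t => g324 u13 g2011 u16 t
    have u19 := bt fun t => g517 u12 t u17 g2014
    exact g2026 u19 u18 u16
  have s2062 : T.alt p a z b x = true → T.X p x z b = false → False := fun n0 n1 => by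
    have u0 := bf fun t => g338 n0 g2011 t n1
    have u1 := bt fun t => s2060 t n1 n0
    have u2 := bf fun t => g13 t u1
    have u3 := bt fun t => g324 n0 g2011 u1 t
    have u4 := bf fun t => g1175 g2011 u0 u2 n1 t
    have u5 := bf fun t => g2026 t u3 u1
    have u6 := bt fun t => g2027 t u4 u2
    exact g336 n0 u5 u1 u6
  have s2063 : T.alt p z y b x = true → T.X p y z b = false → False := fun n0 n1 => by
    have u0 := bt fun t => s2061 t n1
    have u1 := bf fun t => s2040 t n1
    have u2 := bf fun t => g771 t n0
    have u3 := bt fun t => g795 n0 n1 g2014 t g2013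
    have u4 := bf fun t => g823 n0 t g2014 g2013
    have u5 := bf fun t => g1990 u1 t u2
    have u6 := bf fun t => s2062 t u4
    have u7 := bt fun t => g2005 u6 t n0
    have u8 := bt fun t => g227 u6 t u5
    have u9 := bt fun t => g1981 u1 t u7
    have u10 := bf fun t => g279 u8 g2011 t u4
    have u11 := bt fun t => s2058 u9 t u4 u3 u1
    have u12 := bf fun t => g268 u8 w2031 w2032 t u10
    have u13 := bf fun t => s2037 t u11 u0
    exact g431 u9 u12 g2012 g2014 u13
  have s2064 : T.alt p a b z y = true → T.X p y z b = false → False := fun n0 n1 => by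
    have u0 := bf fun t => g98 n0 g2011 t n1
    have u1 := bf fun t => g87 n0 w2031 w2032 t u0
    have u2 := bt fun t => s2061 t n1
    have u3 := bf fun t => s2063 t n1
    have u4 := bt fun t => g770 t u3 w2048
    have u5 := bt fun t => g1992 n0 t u3
    have u6 := bf fun t => g862 u4 g2014 t g2013
    have u7 := bf fun t => g865 u4 t g2014 g2013
    have u8 := bf fun t => g410 t u5
    have u9 := bt fun t => g549 u5 u1 g2012 g2014 t
    have u10 := bt fun t => g2009 u8 t u4
    have u11 := bf fun t => g37 u9 t
    have u12 := bf fun t => g1336 u1 t g2012 w2033 u9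
    have u13 := bf fun t => s2037 u9 t u2
    have u14 := bt fun t => g663 u10 u0 t g2012 u6 u13
    have u15 := bf fun t => g1827 u2 t u11 u13 g2013
    exact g1150 g2011 u12 u14 u7 u15
  have s2065 : T.X p y z b = false → False := fun n0 => by
    have u0 := bf fun t => s2040 t n0
    have u1 := bt fun t => g46 w2050 t u0
    exact s2064 u1 n0
  have w2065 := bt s2065
  have s2066 := fun (n0 : T.X p z b y = true) => g20 n0 w2065
  have w2066 := bf s2066
  have s2069 := fun (n0 : T.X a z b y = false) => s2054 w2065 n0
  have w2069 := bt s2069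
  have s2072 := fun (n0 : T.X a y z b = true) => g32 w2069 n0
  have w2072 := bf s2072
  have s2073 := fun (n0 : T.X p a b y = false) => g2020 w2066 w2069 n0
  have w2073 := bt s2073
  have s2078 := fun (n0 : T.X p b a y = true) => g10 w2073 n0
  have w2078 := bf s2078
  have s2085 := fun (n0 : T.X p z a y = false) => g2015 n0 w2072 w2078
  have w2085 := bt s2085
  exact g1026 w2032 w2085 w2078 w2066 w2069

theorem MT_sepa_1000 {p a z b y x : V} (hN : [p, a, z, b, y, x].Nodup) (h0 : T.X p a z b = true)
    (h1 : T.X y x p a = false) (h2 : T.X y x z b = false) (h3 : T.X y x p z = true)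
    (h4 : T.X y a p z = false → T.X y a z b = false → T.X y a b p = false → False)
    (h5 : T.X y a p z = true → T.X y a z b = true → T.X y a b p = false → False)
    (h6 : T.X y a p z = true → T.X y a z b = false → T.X y a b p = true → False)
    (h7 : T.X y a p z = false → T.X y a z b = true → T.X y a b p = true → False)
    (h8 : T.X y b p z = true → T.X y b z a = false → T.X y b a p = false → False)
    (h9 : T.X y b p z = false → T.X y b z a = true → T.X y b a p = false → False)
    (h10 : T.X y b p z = false → T.X y b z a = false → T.X y b a p = true → False)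
    (h11 : T.X y b p z = true → T.X y b z a = true → T.X y b a p = true → False)
    (h12 : T.X x a p z = true → T.X x a z b = false → T.X x a b p = false → False)
    (h13 : T.X x a p z = false → T.X x a z b = true → T.X x a b p = false → False)
    (h14 : T.X x a p z = false → T.X x a z b = false → T.X x a b p = true → False)
    (h15 : T.X x a p z = true → T.X x a z b = true → T.X x a b p = true → False)
    (h16 : T.X x b p z = true → T.X x b z a = false → T.X x b a p = false → False)
    (h17 : T.X x b p z = false → T.X x b z a = true → T.X x b a p = false → False)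
    (h18 : T.X x b p z = false → T.X x b z a = false → T.X x b a p = true → False)
    (h19 : T.X x b p z = true → T.X x b z a = true → T.X x b a p = true → False) : False := by
  have k0 : T.Ok5 p a z b y := T.n5 hN (.cons_cons _ (.cons_cons _ (.cons_cons _ (.cons_cons _ (.cons_cons _ (List.nil_sublist _))))))
  have k1 : T.Ok5 p a z b x := T.n5 hN (.cons_cons _ (.cons_cons _ (.cons_cons _ (.cons_cons _ (.cons _ (.cons_cons _ (List.nil_sublist _)))))))
  have k2 : T.Ok5 p a z y x := T.n5 hN (.cons_cons _ (.cons_cons _ (.cons_cons _ (.cons _ (.cons_cons _ (.cons_cons _ (List.nil_sublist _)))))))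
  have k3 : T.Ok5 p a b y x := T.n5 hN (.cons_cons _ (.cons_cons _ (.cons _ (.cons_cons _ (.cons_cons _ (.cons_cons _ (List.nil_sublist _)))))))
  have k4 : T.Ok5 p z b y x := T.n5 hN (.cons_cons _ (.cons _ (.cons_cons _ (.cons_cons _ (.cons_cons _ (.cons_cons _ (List.nil_sublist _)))))))
  have k5 : T.Ok5 a z b y x := T.n5 hN (.cons _ (.cons_cons _ (.cons_cons _ (.cons_cons _ (.cons_cons _ (.cons_cons _ (List.nil_sublist _)))))))
  have sp0 : T.Sp5 p a z b y x := T.sp5 hN (.cons_cons _ (.cons_cons _ (.cons_cons _ (.cons_cons _ (.cons_cons _ (.cons_cons _ (List.nil_sublist _)))))))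
  have g1 := T.q01 p a z b
  have g2 := T.q02 p a z b
  have g4 := T.q01 p a z y
  have g7 := T.q01 p a z x
  have g9 := T.q12 p a z x
  have g10 := T.q01 p a b y
  have g11 := T.q02 p a b y
  have g14 := T.q02 p a b x
  have g19 := T.q01 p z b y
  have g20 := T.q02 p z b y
  have g22 := T.q01 p z b x
  have g25 := T.q01 p z y x
  have g26 := T.q02 p z y x
  have g28 := T.q01 p b y x
  have g29 := T.q02 p b y x
  have g32 := T.q02 a z b y
  have g33 := T.q12 a z b y
  have g34 := T.q01 a z b x
  have g35 := T.q02 a z b x
  have g38 := T.q02 a z y x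
  have g41 := T.q02 a b y x
  have g45 := T.q12 z b y x
  have g46 := T.ae1 k0
  have g47 := T.ae01 k0
  have g61 := fun ha : T.alt p a b z y = true => zA1_9482_0 (T.okA1 k0 ha)
  have g74 := fun ha : T.alt p a b z y = true => zA1_18561_1 (T.okA1 k0 ha)
  have g87 := fun ha : T.alt p a b z y = true => zA1_294_32 (T.okA1 k0 ha)
  have g89 := fun ha : T.alt p a b z y = true => zA1_9482_9216 (T.okA1 k0 ha)
  have g98 := fun ha : T.alt p a b z y = true => zA1_2305_257 (T.okA1 k0 ha)
  have g120 := fun ha : T.alt p a z b y = true => zA0_4708_0 (T.okA0 k0 ha)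
  have g138 := fun ha : T.alt p a z b y = true => zA0_4672_576 (T.okA0 k0 ha)
  have g147 := fun ha : T.alt p a z b y = true => zA0_4708_4160 (T.okA0 k0 ha)
  have g157 := fun ha : T.alt p a z b y = true => zA0_2081_33 (T.okA0 k0 ha)
  have g191 := fun ha : T.alt p a y z b = true => zA2_4196_32 (T.okA2 k0 ha)
  have g198 := fun ha : T.alt p a y z b = true => zA2_16401_17 (T.okA2 k0 ha)
  have g200 := fun ha : T.alt p a y z b = true => zA2_16513_129 (T.okA2 k0 ha)
  have g206 := fun ha : T.alt p a y z b = true => zA2_18577_16385 (T.okA2 k0 ha)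
  have g210 := fun ha : T.alt p a y z b = true => zA2_2089_2049 (T.okA2 k0 ha)
  have g215 := fun ha : T.alt p a y z b = true => zA2_150_144 (T.okA2 k0 ha)
  have g227 := T.ae1 k1
  have g242 := fun ha : T.alt p a b z x = true => zA1_9482_0 (T.okA1 k1 ha)
  have g255 := fun ha : T.alt p a b z x = true => zA1_18561_1 (T.okA1 k1 ha)
  have g265 := fun ha : T.alt p a b z x = true => zA1_16401_17 (T.okA1 k1 ha)
  have g279 := fun ha : T.alt p a b z x = true => zA1_2305_257 (T.okA1 k1 ha)
  have g301 := fun ha : T.alt p a z b x = true => zA0_4708_0 (T.okA0 k1 ha)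
  have g314 := fun ha : T.alt p a z b x = true => zA0_18449_1 (T.okA0 k1 ha)
  have g324 := fun ha : T.alt p a z b x = true => zA0_16513_129 (T.okA0 k1 ha)
  have g336 := fun ha : T.alt p a z b x = true => zA0_656_640 (T.okA0 k1 ha)
  have g338 := fun ha : T.alt p a z b x = true => zA0_2081_33 (T.okA0 k1 ha)
  have g341 := fun ha : T.alt p a z b x = true => zA0_18577_16401 (T.okA0 k1 ha)
  have g379 := fun ha : T.alt p a x z b = true => zA2_16401_17 (T.okA2 k1 ha)
  have g381 := fun ha : T.alt p a x z b = true => zA2_16513_129 (T.okA2 k1 ha)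
  have g394 := fun ha : T.alt p a x z b = true => zA2_577_513 (T.okA2 k1 ha)
  have g408 := T.ae1 k2
  have g410 := T.ae02 k2
  have g411 := T.ae12 k2
  have g423 := fun ha : T.alt p a y z x = true => zA1_9482_0 (T.okA1 k2 ha)
  have g431 := fun ha : T.alt p a y z x = true => zA1_4704_512 (T.okA1 k2 ha)
  have g432 := fun ha : T.alt p a y z x = true => zA1_16529_128 (T.okA1 k2 ha)
  have g457 := fun ha : T.alt p a y z x = true => zA1_584_520 (T.okA1 k2 ha)
  have g460 := fun ha : T.alt p a y z x = true => zA1_2305_257 (T.okA1 k2 ha)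
  have g519 := fun ha : T.alt p a z y x = true => zA0_2081_33 (T.okA0 k2 ha)
  have g541 := fun ha : T.alt p a x z y = true => zA2_18577_0 (T.okA2 k2 ha)
  have g549 := fun ha : T.alt p a x z y = true => zA2_4676_512 (T.okA2 k2 ha)
  have g575 := fun ha : T.alt p a x z y = true => zA2_577_513 (T.okA2 k2 ha)
  have g609 := fun ha : T.alt p a y b x = true => zA1_18576_16 (T.okA1 k3 ha)
  have g612 := fun ha : T.alt p a y b x = true => zA1_4704_512 (T.okA1 k3 ha)
  have g663 := fun ha : T.alt p a b y x = true => zA0_4708_0 (T.okA0 k3 ha)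
  have g668 := fun ha : T.alt p a b y x = true => zA0_18576_128 (T.okA0 k3 ha)
  have g730 := fun ha : T.alt p a x b y = true => zA2_4676_512 (T.okA2 k3 ha)
  have g770 := T.ae1 k4
  have g771 := T.ae01 k4
  have g772 := T.ae02 k4
  have g773 := T.ae12 k4
  have g785 := fun ha : T.alt p z y b x = true => zA1_9482_0 (T.okA1 k4 ha)
  have g795 := fun ha : T.alt p z y b x = true => zA1_4676_64 (T.okA1 k4 ha)
  have g798 := fun ha : T.alt p z y b x = true => zA1_18561_1 (T.okA1 k4 ha)
  have g809 := fun ha : T.alt p z y b x = true => zA1_4612_516 (T.okA1 k4 ha)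
  have g811 := fun ha : T.alt p z y b x = true => zA1_294_32 (T.okA1 k4 ha)
  have g823 := fun ha : T.alt p z y b x = true => zA1_4192_96 (T.okA1 k4 ha)
  have g856 := fun ha : T.alt p z b y x = true => zA0_8458_2 (T.okA0 k4 ha)
  have g862 := fun ha : T.alt p z b y x = true => zA0_4672_576 (T.okA0 k4 ha)
  have g863 := fun ha : T.alt p z b y x = true => zA0_4164_68 (T.okA0 k4 ha)
  have g865 := fun ha : T.alt p z b y x = true => zA0_4192_96 (T.okA0 k4 ha)
  have g932 := fun ha : T.alt p z x b y = true => zA2_2625_64 (T.okA2 k4 ha)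
  have g938 := fun ha : T.alt p z x b y = true => zA2_2306_2050 (T.okA2 k4 ha)
  have g941 := fun ha : T.alt p z x b y = true => zA2_4164_68 (T.okA2 k4 ha)
  have g1005 := z5_6241_4097 k0
  have g1021 := z5_10505_8193 k0
  have g1026 := z5_4756_4112 k0
  have g1136 := z5_17545_129 k1
  have g1150 := z5_10505_257 k1
  have g1191 := z5_10505_8193 k1
  have g1322 := z5_16977_16896 k2
  have g1336 := z5_5196_4104 k2
  have g1342 := z5_8778_8704 k2
  have g1657 := z5_4756_20 k4
  have g1668 := z5_6241_96 k4
  have g1669 := z5_6241_2112 k4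
  have g1823 := z5_4898_544 k5
  have g1838 := z5_6241_96 k5
  have g1845 := z5_8778_8256 k5
  have g1972 := zsp_73_1 sp0
  have g1973 := zsp_73_64 sp0
  have g1981 := zsp_1156_1024 sp0
  have g1984 := zsp_2336_32 sp0
  have g1985 := zsp_2336_2048 sp0
  have g1989 := zsp_4132_4096 sp0
  have g1990 := zsp_4132_32 sp0
  have g1991 := zsp_8450_8450 sp0
  have g1992 := zsp_8450_2 sp0
  have g1993 := zsp_8450_8192 sp0
  have g1994 := zsp_8450_256 sp0
  have g1997 := zsp_16528_16384 sp0
  have g2001 := zsp_18433_16384 sp0
  have g2002 := zsp_18433_2048 sp0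
  have g2005 := zsp_9224_8192 sp0
  have g2009 := zsp_4672_4096 sp0
  have g2011 : T.X p a z b = true := h0
  have g2012 : T.X p a y x = false := ((T.xs4 y x p a).symm.trans h1)
  have g2013 : T.X z b y x = false := ((T.xs4 y x z b).symm.trans h2)
  have g2014 : T.X p z y x = true := ((T.xs4 y x p z).symm.trans h3)
  have g2015 := fun (n0 : T.X p z a y = false) (n1 : T.X a y z b = false) (n2 : T.X p b a y = false) => h4 ((T.xs6 y a p z).trans n0) ((T.xs1 y a z b).trans n1) ((T.xs7 y a b p).trans n2)
  have g2016 := fun (n0 : T.X p z a y = true) (n1 : T.X a y z b = true) (n2 : T.X p b a y = false) => h5 ((T.xs6 y a p z).trans n0) ((T.xs1 y a z b).trans n1) ((T.xs7 y a b p).trans n2)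
  have g2018 := fun (n0 : T.X p z a y = false) (n1 : T.X a y z b = true) (n2 : T.X p b a y = true) => h7 ((T.xs6 y a p z).trans n0) ((T.xs1 y a z b).trans n1) ((T.xs7 y a b p).trans n2)
  have g2019 := fun (n0 : T.X p z b y = true) (n1 : T.X a z b y = false) (n2 : T.X p a b y = false) => h8 ((T.xs6 y b p z).trans n0) ((T.xs7 y b z a).trans n1) ((T.xs7 y b a p).trans n2)
  have g2020 := fun (n0 : T.X p z b y = false) (n1 : T.X a z b y = true) (n2 : T.X p a b y = false) => h9 ((T.xs6 y b p z).trans n0) ((T.xs7 y b z a).trans n1) ((T.xs7 y b a p).trans n2)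
  have g2021 := fun (n0 : T.X p z b y = false) (n1 : T.X a z b y = false) (n2 : T.X p a b y = true) => h10 ((T.xs6 y b p z).trans n0) ((T.xs7 y b z a).trans n1) ((T.xs7 y b a p).trans n2)
  have g2022 := fun (n0 : T.X p z b y = true) (n1 : T.X a z b y = true) (n2 : T.X p a b y = true) => h11 ((T.xs6 y b p z).trans n0) ((T.xs7 y b z a).trans n1) ((T.xs7 y b a p).trans n2)
  have g2023 := fun (n0 : T.X p z a x = true) (n1 : T.X a x z b = false) (n2 : T.X p b a x = false) => h12 ((T.xs6 x a p z).trans n0) ((T.xs1 x a z b).trans n1) ((T.xs7 x a b p).trans n2)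
  have g2024 := fun (n0 : T.X p z a x = false) (n1 : T.X a x z b = true) (n2 : T.X p b a x = false) => h13 ((T.xs6 x a p z).trans n0) ((T.xs1 x a z b).trans n1) ((T.xs7 x a b p).trans n2)
  have g2025 := fun (n0 : T.X p z a x = false) (n1 : T.X a x z b = false) (n2 : T.X p b a x = true) => h14 ((T.xs6 x a p z).trans n0) ((T.xs1 x a z b).trans n1) ((T.xs7 x a b p).trans n2)
  have g2026 := fun (n0 : T.X p z a x = true) (n1 : T.X a x z b = true) (n2 : T.X p b a x = true) => h15 ((T.xs6 x a p z).trans n0) ((T.xs1 x a z b).trans n1) ((T.xs7 x a b p).trans n2)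
  have g2029 := fun (n0 : T.X p z b x = false) (n1 : T.X a z b x = false) (n2 : T.X p a b x = true) => h18 ((T.xs6 x b p z).trans n0) ((T.xs7 x b z a).trans n1) ((T.xs7 x b a p).trans n2)
  have s2031 := fun (n0 : T.X p z a b = true) => g1 g2011 n0
  have w2031 := bf s2031
  have s2032 := fun (n0 : T.X p b a z = true) => g2 g2011 n0
  have w2032 := bf s2032
  have s2033 := fun (n0 : T.X p y z x = true) => g25 g2014 n0
  have w2033 := bf s2033
  have s2034 := fun (n0 : T.X p x z y = true) => g26 g2014 n0
  have w2034 := bf s2034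
  have s2035 : T.alt p a x z y = true → T.alt p a x b y = true → T.alt p z x b y = true → False := fun n0 n1 n2 => by
    have u0 := bf fun t => g941 n2 t g2014 g2013
    have u1 := bf fun t => g773 t n2
    have u2 := bf fun t => g411 t n0
    have u3 := bf fun t => g575 n0 t g2012 g2014
    have u4 := bt fun t => g1994 t n0 u1
    have u5 := bt fun t => g1997 t u2 n2
    have u6 := bf fun t => g98 u4 g2011 t u0
    have u7 := bf fun t => g1021 g2011 u3 u6 u0 t
    have u8 := bt fun t => g61 u4 w2031 u3 u6 t u7
    have u9 := bf fun t => g87 u4 w2031 w2032 t u6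
    have u10 := bf fun t => g19 t u8
    have u11 := bf fun t => g938 n2 u8 w2034 t
    have u12 := bt fun t => g549 n0 u9 g2012 g2014 t
    have u13 := bf fun t => g1668 u10 t g2014 u11 g2013
    have u14 := bt fun t => g932 n2 u10 g2014 t u11
    have u15 := bf fun t => g38 u12 t
    have u16 := bt fun t => g730 n1 u6 g2012 u14 t
    have u17 := bf fun t => g1823 u7 t u15 u16 g2013
    have u18 := bf fun t => g265 u5 g2011 t u17
    have u19 := bf fun t => g2025 u18 u17 t
    exact g255 u5 g2011 u19 u13 u17
  have s2037 : T.X a y z b = false → T.alt p a y z b = true → False := fun n0 n1 => by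
    have u0 := bf fun t => g198 n1 g2011 t n0
    have u1 := bf fun t => g200 n1 g2011 t n0
    exact g2015 u0 n0 u1
  have s2038 : T.X p b a y = false → T.alt p a y z b = true → T.X p y z b = false → False := fun n0 n1 n2 => by
    have u0 := bt fun t => s2037 t n1
    have u1 := bf fun t => g2016 t u0 n0
    exact g206 n1 g2011 u1 n0 n2 u0
  have s2039 : T.alt p a y z b = true → T.X p y z b = false → False := fun n0 n1 => by
    have u0 := bt fun t => s2037 t n0
    have u1 := bt fun t => s2038 t n0 n1
    have u2 := bt fun t => g2018 t u0 u1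
    exact g215 n0 w2031 w2032 u2 u1
  have s2040 : T.X p a b y = false → T.X a z b y = false → T.X p y a z = false → T.alt p a z b y = true → False := fun n0 n1 n2 n3 => by
    have u0 := bf fun t => g2019 t n1 n0
    exact g120 n3 w2032 n2 n0 u0 n1
  have s2041 : T.X p a b y = true → T.X a z b y = false → T.alt p a z b y = true → False := fun n0 n1 n2 => by
    have u0 := bf fun t => g138 n2 n0 t n1
    exact g2021 u0 n1 n0
  have s2042 : T.X a z b y = false → T.alt p a z b y = true → T.X p y a z = false → False := fun n0 n1 n2 => by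
    have u0 := bt fun t => s2040 t n0 n2 n1
    exact s2041 u0 n0 n1
  have s2043 : T.X p a b y = true → T.X a z b y = true → T.alt p a z b y = true → T.X p y a z = false → False := fun n0 n1 n2 n3 => by
    have u0 := bt fun t => g147 n2 w2032 n3 n0 t n1
    exact g2022 u0 n1 n0
  have s2044 : T.alt p a z b y = true → T.X p y z b = false → False := fun n0 n1 => by
    have u0 := bf fun t => g157 n0 g2011 t n1
    have u1 := bt fun t => s2042 t n0 u0
    have u2 := bt fun t => g1005 g2011 u0 t n1 u1
    exact s2043 u2 u1 n0 u0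
  have s2045 : T.alt p z x b y = true → False := fun n0 => by
    have u0 := bf fun t => g772 t n0
    have u1 := bf fun t => g941 n0 t g2014 g2013
    have u2 := bf fun t => s2039 t u1
    have u3 := bf fun t => g1990 u2 t u0
    have u4 := bf fun t => s2044 t u1
    have u5 := bt fun t => g2001 u4 t n0
    have u6 := bf fun t => s2035 t u5 n0
    exact g1985 u3 u6 u5
  have w2045 := bf s2045
  have s2046 : T.X a z b y = true → T.X p a b y = true → False := fun n0 n1 => by
    have u0 := bf fun t => g10 n1 t
    have u1 := bf fun t => g32 n0 t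
    have u2 := bf fun t => g2022 t n0 n1
    have u3 := bt fun t => g2015 t u1 u0
    exact g1026 w2032 u3 u0 u2 n0
  have s2047 : T.alt p a y z x = true → T.X p a z y = true → T.X p z a y = false → False := fun n0 n1 n2 => by
    have u0 := bf fun t => g457 n0 t g2012 g2014
    have u1 := bf fun t => g460 n0 n1 t w2034
    have u2 := bf fun t => g1342 n2 u0 g2012 g2014 t
    exact g423 n0 n2 u0 u1 w2033 u2
  have s2048 : T.X a x z b = true → T.X p z a x = true → T.alt p a z b x = true → T.X p x z b = false → False := fun n0 n1 n2 n3 => by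
    have u0 := bf fun t => g2026 n1 n0 t
    exact g341 n2 g2011 n1 u0 n3 n0
  have s2049 : T.X p z a x = true → T.X p a z x = false → T.alt p a z b x = true → T.X p b z x = false → T.X p x z b = false → False := fun n0 n1 n2 n3 n4 => by
    have u0 := bf fun t => s2048 t n0 n2 n4
    have u1 := bf fun t => g1136 g2011 n1 t n3 u0
    exact g2023 n0 u0 u1
  have s2050 : T.X p z a x = false → T.alt p a z b x = true → T.X p z b x = true → T.X p x z b = false → False := fun n0 n1 n2 n3 => by
    have u0 := bt fun t => g314 n1 g2011 n0 n3 t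
    have u1 := bf fun t => g336 n1 n0 t n2
    exact g2024 n0 u0 u1
  have s2051 : T.X p a b y = true → T.alt p a z b y = false → False := fun n0 n1 => by
    have u0 := bf fun t => g10 n0 t
    have u1 := bf fun t => g11 n0 t
    have u2 := bf fun t => s2046 t n0
    have u3 := bt fun t => g2021 t u2 n0
    have u4 := bf fun t => g19 u3 t
    have u5 := bf fun t => g20 u3 t
    have u6 := bf fun t => s2039 t u5
    have u7 := bt fun t => g46 n1 t u6
    have u8 := bt fun t => g74 u7 g2011 u0 u5 t
    have u9 := bf fun t => g33 t u8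
    have u10 := bf fun t => g2016 t u8 u0
    have u11 := bt fun t => g61 u7 w2031 t u1 u4 u9
    have u12 := bf fun t => g575 t u11 g2012 g2014
    have u13 := bt fun t => g1992 u7 u12 t
    have u14 := bt fun t => g795 u13 u5 g2014 t g2013
    have u15 := bf fun t => g811 u13 u4 u5 t w2034
    have u16 := bf fun t => g28 u14 t
    have u17 := bf fun t => g29 u14 t
    have u18 := bt fun t => g798 u13 u3 w2033 u17 t
    have u19 := bf fun t => g45 t u18
    have u20 := bt fun t => g785 u13 u4 t w2034 u16 u19
    have u21 := bf fun t => g22 u20 t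
    have u22 := bf fun t => s2047 t u11 u10
    have u23 := bt fun t => g408 t u22 u12
    have u24 := bt fun t => g1973 n1 t u23
    have u25 := bt fun t => s2050 t u24 u20 u15
    have u26 := bf fun t => g7 t u25
    exact s2049 u25 u26 u24 u21 u15
  have s2052 : T.alt p a z b x = true → T.X p z a x = true → T.X p x z b = false → False := fun n0 n1 n2 => by
    have u0 := bf fun t => s2048 t n1 n0 n2
    have u1 := bf fun t => g324 n0 g2011 t u0
    exact g2023 n1 u0 u1
  have s2053 : T.alt p z y b x = true → T.alt p a z y x = false → T.X p z a x = true → T.X p x z b = false → T.X a z b y = false → T.alt p a b z y = true → T.X p y z b = false → False := fun n0 n1 n2 n3 n4 n5 n6 => by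
    have u0 := bf fun t => s2052 t n2 n3
    have u1 := bf fun t => g9 n2 t
    have u2 := bf fun t => s2039 t n6
    have u3 := bf fun t => g771 t n0
    have u4 := bt fun t => g795 n0 n6 g2014 t g2013
    have u5 := bf fun t => g1991 n5 t n0
    have u6 := bf fun t => g1990 u2 t u3
    have u7 := bt fun t => g227 u0 t u6
    have u8 := bt fun t => g2005 u0 t n0
    have u9 := bt fun t => g408 n1 t u5
    have u10 := bf fun t => g279 u7 g2011 t n3
    have u11 := bt fun t => g265 u7 g2011 n2 t
    have u12 := bt fun t => g431 u9 u1 g2012 g2014 t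
    have u13 := bt fun t => g612 u8 u10 g2012 u4 t
    have u14 := bt fun t => g1838 n4 u11 u12 t g2013
    exact g41 u13 u14
  have s2054 : T.X p a z y = false → T.alt p a b z y = true → T.X p y z b = false → T.X p b z y = false → False := fun n0 n1 n2 n3 => by
    have u0 := bf fun t => g98 n1 g2011 t n2
    have u1 := bf fun t => g1021 g2011 n0 u0 n2 t
    exact g61 n1 w2031 n0 u0 n3 u1
  have s2055 : T.X p x z b = false → T.alt p a z b x = true → T.X p x a z = false → False := fun n0 n1 n2 => by
    have u0 := bf fun t => s2052 n1 t n0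
    have u1 := bt fun t => g314 n1 g2011 u0 n0 t
    have u2 := bf fun t => s2050 u0 n1 t n0
    have u3 := bf fun t => g35 t u1
    have u4 := bf fun t => g2029 u2 u3 t
    exact g301 n1 w2032 n2 u4 u2 u3
  have s2056 : T.X p y z b = false → T.X p b z y = false → T.alt p a z b y = false → False := fun n0 n1 n2 => by
    have u0 := bf fun t => s2039 t n0
    have u1 := bt fun t => g46 n2 t u0
    have u2 := bt fun t => s2054 t u1 n0 n1
    have u3 := bf fun t => g4 u2 t
    have u4 := bf fun t => g575 t u2 g2012 g2014
    have u5 := bf fun t => s2047 t u2 u3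
    have u6 := bt fun t => g1992 u1 u4 t
    have u7 := bt fun t => g408 t u5 u4
    have u8 := bf fun t => g519 u7 u2 t w2034
    have u9 := bt fun t => g1973 n2 t u7
    have u10 := bt fun t => s2055 t u9 u8
    exact g811 u6 n1 n0 u10 w2034
  have s2057 : T.X p a z y = true → T.X p x z b = false → T.alt p a z b y = false → False := fun n0 n1 n2 => by
    have u0 := bf fun t => g4 n0 t
    have u1 := bf fun t => g575 t n0 g2012 g2014
    have u2 := bf fun t => s2047 t n0 u0
    have u3 := bt fun t => g408 t u2 u1
    have u4 := bf fun t => g519 u3 n0 t w2034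
    have u5 := bt fun t => g1973 n2 t u3
    exact s2055 n1 u5 u4
  have s2058 : T.alt p a z b x = true → T.X p x z b = false → False := fun n0 n1 => by
    have u0 := bf fun t => g338 n0 g2011 t n1
    exact s2055 n1 n0 u0
  have s2059 : T.alt p a x z y = false → T.alt p a z y x = false → T.X p b z x = false → T.X p x z b = false → T.alt p a x b y = false → False := fun n0 n1 n2 n3 n4 => by
    have u0 := bf fun t => s2058 t n3
    have u1 := bf fun t => g1984 t n0 n4
    have u2 := bt fun t => g408 n1 t n0
    have u3 := bt fun t => g227 u0 t u1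
    have u4 := bf fun t => g457 u2 t g2012 g2014
    have u5 := bf fun t => g279 u3 g2011 t n3
    have u6 := bf fun t => g1191 g2011 u4 u5 n3 t
    exact g242 u3 w2031 u4 u5 n2 u6
  have s2060 : T.X p y z b = true → T.alt p a z b y = false → False := fun n0 n1 => by
    have u0 := bf fun t => s2051 t n1
    have u1 := bf fun t => g2002 n1 t w2045
    have u2 := bf fun t => g20 t n0
    have u3 := bf fun t => g863 t n0 g2014 g2013
    have u4 := bf fun t => g2020 u2 t u0
    have u5 := bt fun t => g770 u3 t w2045
    have u6 := bf fun t => g809 u5 n0 t g2013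
    have u7 := bf fun t => g823 u5 t g2014 g2013
    have u8 := bf fun t => g1657 n0 t w2033 u6 g2013
    have u9 := bf fun t => s2057 t u7 n1
    have u10 := bf fun t => s2058 t u7
    have u11 := bf fun t => g1973 n1 u10 t
    have u12 := bt fun t => g2005 u10 t u5
    have u13 := bt fun t => s2059 t u11 u8 u7 u1
    have u14 := bf fun t => g411 t u13
    have u15 := bt fun t => g1981 t u14 u12
    have u16 := bt fun t => g210 u15 g2011 u9 t n0
    exact g191 u15 w2032 u16 u0 u4
  have s2061 : T.alt p z y b x = true → T.X p x z b = false → T.alt p a z b y = false → False := fun n0 n1 n2 => by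
    have u0 := bf fun t => s2058 t n1
    have u1 := bf fun t => g1973 n2 u0 t
    have u2 := bf fun t => s2060 t n2
    have u3 := bf fun t => s2039 t u2
    have u4 := bt fun t => g46 n2 t u3
    have u5 := bf fun t => g98 u4 g2011 t u2
    have u6 := bt fun t => s2056 u2 t n2
    have u7 := bf fun t => s2057 t n1 n2
    have u8 := bf fun t => g89 u4 w2031 u7 u5 u6 t
    have u9 := bf fun t => g19 t u6
    have u10 := bf fun t => g1669 u9 n1 g2014 t g2013
    have u11 := bf fun t => s2051 t n2
    have u12 := bf fun t => g2020 u9 t u11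
    have u13 := bf fun t => g771 t n0
    have u14 := bt fun t => g795 n0 u2 g2014 t g2013
    have u15 := bf fun t => g1991 u4 t n0
    have u16 := bf fun t => s2053 n0 u1 t n1 u12 u4 u2
    have u17 := bt fun t => g2005 u0 t n0
    have u18 := bf fun t => g1990 u3 t u13
    have u19 := bt fun t => g408 u1 t u15
    have u20 := bf fun t => g1322 u7 u16 g2012 g2014 t
    have u21 := bf fun t => g432 u19 u7 u16 t u20
    have u22 := bt fun t => g227 u0 t u18
    have u23 := bf fun t => g279 u22 g2011 t n1
    have u24 := bt fun t => g612 u17 u23 g2012 u14 t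
    have u25 := bf fun t => g41 u24 t
    have u26 := bf fun t => g1823 u8 t u20 u24 g2013
    have u27 := bf fun t => g609 u17 t u21 u10 u25
    exact g255 u22 g2011 u27 n1 u26
  have s2062 : T.X a b y x = true → T.X a x z y = false → T.alt p a b y x = true → T.alt p a x z b = true → T.alt p a x z y = true → T.X a b z y = false → T.X p a z y = false → T.X p x b y = false → False := fun n0 n1 n2 n3 n4 n5 n6 n7 => by
    have u0 := bf fun t => g41 n0 t
    have u1 := bf fun t => g1823 n5 t n1 n0 g2013
    have u2 := bf fun t => g379 n3 g2011 t u1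
    have u3 := bf fun t => g381 n3 g2011 t u1
    have u4 := bt fun t => g541 n4 n6 u2 t w2034 n1
    exact g668 n2 u3 u4 n7 u0
  have s2063 : T.X p x z b = false → T.alt p a z b y = false → False := fun n0 n1 => by
    have u0 := bf fun t => s2060 t n1
    have u1 := bf fun t => s2039 t u0
    have u2 := bt fun t => g46 n1 t u1
    have u3 := bf fun t => g98 u2 g2011 t u0
    have u4 := bf fun t => g87 u2 w2031 w2032 t u3
    have u5 := bt fun t => s2056 u0 t n1
    have u6 := bf fun t => g19 t u5
    have u7 := bf fun t => g1669 u6 n0 g2014 t g2013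
    have u8 := bf fun t => s2057 t n0 n1
    have u9 := bf fun t => s2058 t n0
    have u10 := bf fun t => g89 u2 w2031 u8 u3 u5 t
    have u11 := bf fun t => g1973 n1 u9 t
    have u12 := bf fun t => s2061 t n0 n1
    have u13 := bt fun t => g770 t u12 w2045
    have u14 := bt fun t => g1992 u2 t u12
    have u15 := bf fun t => g862 u13 g2014 t g2013
    have u16 := bt fun t => g1989 u1 t u13
    have u17 := bt fun t => g2009 u11 t u13
    have u18 := bt fun t => g549 u14 u4 g2012 g2014 t
    have u19 := bf fun t => g38 u18 t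
    have u20 := bf fun t => g1336 u4 t g2012 w2033 u18
    have u21 := bf fun t => s2062 t u19 u17 u16 u14 u10 u8 u7
    have u22 := bt fun t => g663 u17 u3 t g2012 u15 u21
    have u23 := bf fun t => g14 t u22
    have u24 := bt fun t => g1150 g2011 u20 u22 n0 t
    have u25 := bf fun t => g394 u16 g2011 u23 t
    have u26 := bf fun t => g34 t u24
    have u27 := bt fun t => g856 u13 u5 u25 w2034 t
    exact g1845 u10 u26 u18 u21 u27
  have s2064 : T.X p x z b = true → False := fun n0 => by
    have u0 := bf fun t => g823 t n0 g2014 g2013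
    have u1 := bf fun t => g865 t n0 g2014 g2013
    exact g770 u1 u0 w2045
  have w2064 := bf s2064
  have s2065 := fun (n0 : T.alt p a z b x = true) => s2058 n0 w2064
  have w2065 := bf s2065
  have s2066 := fun (n0 : T.alt p a z b y = false) => s2063 w2064 n0
  have w2066 := bt s2066
  have s2067 := fun (n0 : T.alt p a z y x = false) => g1972 w2066 w2065 n0
  have w2067 := bt s2067
  have s2068 := fun (n0 : T.alt p a b z y = true) => g47 w2066 n0
  have w2068 := bf s2068
  have s2070 := fun (n0 : T.X p y z b = false) => s2044 w2066 n0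
  have w2070 := bt s2070
  have s2073 := fun (n0 : T.alt p a x z y = true) => g410 w2067 n0
  have w2073 := bf s2073
  have s2076 := fun (n0 : T.alt p z b y x = true) => g863 n0 w2070 g2014 g2013
  have w2076 := bf s2076
  have s2081 := fun (n0 : T.alt p z y b x = true) => g1993 w2068 w2073 n0
  have w2081 := bf s2081
  exact g770 w2076 w2081 w2045

theorem MT_sepa_0111 {p a z b y x : V} (hN : [p, a, z, b, y, x].Nodup) (h0 : T.X p a z b = true)
    (h1 : T.X y x p a = false) (h2 : T.X y x z b = false) (h3 : T.X y x p z = false)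
    (h4 : T.X y a p z = true → T.X y a z b = false → T.X y a b p = false → False)
    (h5 : T.X y a p z = false → T.X y a z b = true → T.X y a b p = false → False)
    (h6 : T.X y a p z = false → T.X y a z b = false → T.X y a b p = true → False)
    (h7 : T.X y a p z = true → T.X y a z b = true → T.X y a b p = true → False)
    (h8 : T.X y b p z = false → T.X y b z a = false → T.X y b a p = false → False)
    (h9 : T.X y b p z = true → T.X y b z a = true → T.X y b a p = false → False)
    (h10 : T.X y b p z = true → T.X y b z a = false → T.X y b a p = true → False)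
    (h11 : T.X y b p z = false → T.X y b z a = true → T.X y b a p = true → False)
    (h12 : T.X x a p z = false → T.X x a z b = false → T.X x a b p = false → False)
    (h13 : T.X x a p z = true → T.X x a z b = true → T.X x a b p = false → False)
    (h14 : T.X x a p z = true → T.X x a z b = false → T.X x a b p = true → False)
    (h15 : T.X x a p z = false → T.X x a z b = true → T.X x a b p = true → False)
    (h16 : T.X x b p z = false → T.X x b z a = false → T.X x b a p = false → False)
    (h17 : T.X x b p z = true → T.X x b z a = true → T.X x b a p = false → False)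
    (h18 : T.X x b p z = true → T.X x b z a = false → T.X x b a p = true → False)
    (h19 : T.X x b p z = false → T.X x b z a = true → T.X x b a p = true → False) : False := by
  have k0 : T.Ok5 p a z b y := T.n5 hN (.cons_cons _ (.cons_cons _ (.cons_cons _ (.cons_cons _ (.cons_cons _ (List.nil_sublist _))))))
  have k1 : T.Ok5 p a z b x := T.n5 hN (.cons_cons _ (.cons_cons _ (.cons_cons _ (.cons_cons _ (.cons _ (.cons_cons _ (List.nil_sublist _)))))))
  have k2 : T.Ok5 p a z y x := T.n5 hN (.cons_cons _ (.cons_cons _ (.cons_cons _ (.cons _ (.cons_cons _ (.cons_cons _ (List.nil_sublist _)))))))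
  have k3 : T.Ok5 p a b y x := T.n5 hN (.cons_cons _ (.cons_cons _ (.cons _ (.cons_cons _ (.cons_cons _ (.cons_cons _ (List.nil_sublist _)))))))
  have k4 : T.Ok5 p z b y x := T.n5 hN (.cons_cons _ (.cons _ (.cons_cons _ (.cons_cons _ (.cons_cons _ (.cons_cons _ (List.nil_sublist _)))))))
  have k5 : T.Ok5 a z b y x := T.n5 hN (.cons _ (.cons_cons _ (.cons_cons _ (.cons_cons _ (.cons_cons _ (.cons_cons _ (List.nil_sublist _)))))))
  have sp0 : T.Sp5 p a z b y x := T.sp5 hN (.cons_cons _ (.cons_cons _ (.cons_cons _ (.cons_cons _ (.cons_cons _ (.cons_cons _ (List.nil_sublist _)))))))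
  have g1 := T.q01 p a z b
  have g2 := T.q02 p a z b
  have g6 := T.q12 p a z y
  have g7 := T.q01 p a z x
  have g10 := T.q01 p a b y
  have g13 := T.q01 p a b x
  have g14 := T.q02 p a b x
  have g18 := T.q12 p a y x
  have g22 := T.q01 p z b x
  have g23 := T.q02 p z b x
  have g24 := T.q12 p z b x
  have g28 := T.q01 p b y x
  have g32 := T.q02 a z b y
  have g35 := T.q02 a z b x
  have g36 := T.q12 a z b x
  have g42 := T.q12 a b y x
  have g46 := T.ae1 k0
  have g48 := T.ae02 k0
  have g74 := fun ha : T.alt p a b z y = true => zA1_18561_1 (T.okA1 k0 ha)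
  have g84 := fun ha : T.alt p a b z y = true => zA1_16401_17 (T.okA1 k0 ha)
  have g133 := fun ha : T.alt p a z b y = true => zA0_18449_1 (T.okA0 k0 ha)
  have g143 := fun ha : T.alt p a z b y = true => zA0_16513_129 (T.okA0 k0 ha)
  have g160 := fun ha : T.alt p a z b y = true => zA0_18577_16401 (T.okA0 k0 ha)
  have g197 := fun ha : T.alt p a y z b = true => zA2_18433_2049 (T.okA2 k0 ha)
  have g198 := fun ha : T.alt p a y z b = true => zA2_16401_17 (T.okA2 k0 ha)
  have g227 := T.ae1 k1
  have g229 := T.ae02 k1
  have g242 := fun ha : T.alt p a b z x = true => zA1_9482_0 (T.okA1 k1 ha)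
  have g250 := fun ha : T.alt p a b z x = true => zA1_4704_512 (T.okA1 k1 ha)
  have g252 := fun ha : T.alt p a b z x = true => zA1_4676_64 (T.okA1 k1 ha)
  have g314 := fun ha : T.alt p a z b x = true => zA0_18449_1 (T.okA0 k1 ha)
  have g338 := fun ha : T.alt p a z b x = true => zA0_2081_33 (T.okA0 k1 ha)
  have g340 := fun ha : T.alt p a z b x = true => zA0_18448_2064 (T.okA0 k1 ha)
  have g342 := fun ha : T.alt p a z b x = true => zA0_18577_18433 (T.okA0 k1 ha)
  have g370 := fun ha : T.alt p a x z b = true => zA2_4704_64 (T.okA2 k1 ha)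
  have g378 := fun ha : T.alt p a x z b = true => zA2_18433_2049 (T.okA2 k1 ha)
  have g379 := fun ha : T.alt p a x z b = true => zA2_16401_17 (T.okA2 k1 ha)
  have g387 := fun ha : T.alt p a x z b = true => zA2_18577_16385 (T.okA2 k1 ha)
  have g394 := fun ha : T.alt p a x z b = true => zA2_577_513 (T.okA2 k1 ha)
  have g408 := T.ae1 k2
  have g409 := T.ae01 k2
  have g410 := T.ae02 k2
  have g430 := fun ha : T.alt p a y z x = true => zA1_4644_32 (T.okA1 k2 ha)
  have g482 := fun ha : T.alt p a z y x = true => zA0_4708_0 (T.okA0 k2 ha)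
  have g489 := fun ha : T.alt p a z y x = true => zA0_9474_256 (T.okA0 k2 ha)
  have g514 := fun ha : T.alt p a z y x = true => zA0_720_16 (T.okA0 k2 ha)
  have g553 := fun ha : T.alt p a x z y = true => zA2_4196_32 (T.okA2 k2 ha)
  have g604 := fun ha : T.alt p a y b x = true => zA1_9482_0 (T.okA1 k3 ha)
  have g612 := fun ha : T.alt p a y b x = true => zA1_4704_512 (T.okA1 k3 ha)
  have g638 := fun ha : T.alt p a y b x = true => zA1_584_520 (T.okA1 k3 ha)
  have g770 := T.ae1 k4
  have g792 := fun ha : T.alt p z y b x = true => zA1_4644_32 (T.okA1 k4 ha)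
  have g797 := fun ha : T.alt p z y b x = true => zA1_4196_4 (T.okA1 k4 ha)
  have g844 := fun ha : T.alt p z b y x = true => zA0_4708_0 (T.okA0 k4 ha)
  have g861 := fun ha : T.alt p z b y x = true => zA0_4132_36 (T.okA0 k4 ha)
  have g910 := fun ha : T.alt p z x b y = true => zA2_4644_4 (T.okA2 k4 ha)
  have g915 := fun ha : T.alt p z x b y = true => zA2_4196_32 (T.okA2 k4 ha)
  have g1027 := z5_4756_640 k0
  have g1136 := z5_17545_129 k1
  have g1150 := z5_10505_257 k1
  have g1153 := z5_5196_5120 k1
  have g1156 := z5_16977_513 k1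
  have g1162 := z5_6241_33 k1
  have g1164 := z5_16977_17 k1
  have g1171 := z5_8778_520 k1
  have g1172 := z5_8778_8704 k1
  have g1173 := z5_9362_1040 k1
  have g1191 := z5_10505_8193 k1
  have g1196 := z5_4756_4112 k1
  have g1198 := z5_4756_4224 k1
  have g1239 := z5_16985_16961 k1
  have g1312 := z5_4898_4098 k2
  have g1512 := z5_8778_8704 k3
  have g1704 := z5_5196_12 k4
  have g1707 := z5_4756_640 k4
  have g1829 := z5_5196_68 k5
  have g1838 := z5_6241_96 k5
  have g1877 := z5_4756_640 k5
  have g1972 := zsp_73_1 sp0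
  have g1973 := zsp_73_64 sp0
  have g1974 := zsp_73_8 sp0
  have g1980 := zsp_1156_4 sp0
  have g1987 := zsp_4132_4132 sp0
  have g1988 := zsp_4132_4 sp0
  have g1989 := zsp_4132_4096 sp0
  have g1990 := zsp_4132_32 sp0
  have g1992 := zsp_8450_2 sp0
  have g1998 := zsp_16528_128 sp0
  have g2004 := zsp_9224_8 sp0
  have g2011 : T.X p a z b = true := h0
  have g2012 : T.X p a y x = false := ((T.xs4 y x p a).symm.trans h1)
  have g2013 : T.X z b y x = false := ((T.xs4 y x z b).symm.trans h2)
  have g2014 : T.X p z y x = false := ((T.xs4 y x p z).symm.trans h3)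
  have g2015 := fun (n0 : T.X p z a y = true) (n1 : T.X a y z b = false) (n2 : T.X p b a y = false) => h4 ((T.xs6 y a p z).trans n0) ((T.xs1 y a z b).trans n1) ((T.xs7 y a b p).trans n2)
  have g2016 := fun (n0 : T.X p z a y = false) (n1 : T.X a y z b = true) (n2 : T.X p b a y = false) => h5 ((T.xs6 y a p z).trans n0) ((T.xs1 y a z b).trans n1) ((T.xs7 y a b p).trans n2)
  have g2017 := fun (n0 : T.X p z a y = false) (n1 : T.X a y z b = false) (n2 : T.X p b a y = true) => h6 ((T.xs6 y a p z).trans n0) ((T.xs1 y a z b).trans n1) ((T.xs7 y a b p).trans n2)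
  have g2018 := fun (n0 : T.X p z a y = true) (n1 : T.X a y z b = true) (n2 : T.X p b a y = true) => h7 ((T.xs6 y a p z).trans n0) ((T.xs1 y a z b).trans n1) ((T.xs7 y a b p).trans n2)
  have g2019 := fun (n0 : T.X p z b y = false) (n1 : T.X a z b y = false) (n2 : T.X p a b y = false) => h8 ((T.xs6 y b p z).trans n0) ((T.xs7 y b z a).trans n1) ((T.xs7 y b a p).trans n2)
  have g2023 := fun (n0 : T.X p z a x = false) (n1 : T.X a x z b = false) (n2 : T.X p b a x = false) => h12 ((T.xs6 x a p z).trans n0) ((T.xs1 x a z b).trans n1) ((T.xs7 x a b p).trans n2)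
  have g2024 := fun (n0 : T.X p z a x = true) (n1 : T.X a x z b = true) (n2 : T.X p b a x = false) => h13 ((T.xs6 x a p z).trans n0) ((T.xs1 x a z b).trans n1) ((T.xs7 x a b p).trans n2)
  have g2027 := fun (n0 : T.X p z b x = false) (n1 : T.X a z b x = false) (n2 : T.X p a b x = false) => h16 ((T.xs6 x b p z).trans n0) ((T.xs7 x b z a).trans n1) ((T.xs7 x b a p).trans n2)
  have g2028 := fun (n0 : T.X p z b x = true) (n1 : T.X a z b x = true) (n2 : T.X p a b x = false) => h17 ((T.xs6 x b p z).trans n0) ((T.xs7 x b z a).trans n1) ((T.xs7 x b a p).trans n2)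
  have g2029 := fun (n0 : T.X p z b x = true) (n1 : T.X a z b x = false) (n2 : T.X p a b x = true) => h18 ((T.xs6 x b p z).trans n0) ((T.xs7 x b z a).trans n1) ((T.xs7 x b a p).trans n2)
  have g2030 := fun (n0 : T.X p z b x = false) (n1 : T.X a z b x = true) (n2 : T.X p a b x = true) => h19 ((T.xs6 x b p z).trans n0) ((T.xs7 x b z a).trans n1) ((T.xs7 x b a p).trans n2)
  have s2031 := fun (n0 : T.X p z a b = true) => g1 g2011 n0
  have w2031 := bf s2031
  have s2032 := fun (n0 : T.X p b a z = true) => g2 g2011 n0
  have w2032 := bf s2032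
  have s2036 : T.X p z b x = true → T.X p a b x = false → T.X p a z x = true → False := fun n0 n1 n2 => by
    have u0 := bf fun t => g7 n2 t
    have u1 := bt fun t => g1171 w2031 n2 n1 n0 t
    have u2 := bt fun t => g1156 g2011 u0 n1 n0 t
    exact g36 u1 u2
  have s2037 : T.X p a b x = false → T.X p a z x = true → False := fun n0 n1 => by
    have u0 := bf fun t => g7 n1 t
    have u1 := bf fun t => s2036 t n0 n1
    have u2 := bt fun t => g2027 u1 t n0
    have u3 := bf fun t => g35 u2 t
    have u4 := bf fun t => g1198 w2032 u0 t u1 u2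
    exact g2023 u0 u3 u4
  have s2038 : T.X a y z b = true → T.X p z a y = false → False := fun n0 n1 => by
    have u0 := bf fun t => g32 t n0
    have u1 := bt fun t => g2016 n1 n0 t
    have u2 := bf fun t => g10 t u1
    have u3 := bf fun t => g1027 w2032 n1 u1 t u0
    exact g2019 u3 u0 u2
  have s2041 : T.X a z y x = false → T.X p x a z = true → T.alt p a z y x = false → T.X p y a z = false → False := fun n0 n1 n2 n3 => by
    have u0 := bf fun t => g553 t n3 n1 g2012 n0
    have u1 := bf fun t => g430 t n3 n1 g2014 n0
    exact g408 n2 u1 u0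
  have s2045 : T.X p z a x = false → T.X p x z b = true → T.alt p a z b x = true → T.X p b a x = false → False := fun n0 n1 n2 n3 => by
    have u0 := bt fun t => g2023 n0 t n3
    exact g342 n2 g2011 n0 n3 n1 u0
  have s2046 : T.X p x z b = true → T.alt p a z b x = true → T.X p b a x = false → False := fun n0 n1 n2 => by
    have u0 := bt fun t => s2045 t n0 n1 n2
    have u1 := bt fun t => g340 n1 u0 n0 t
    exact g2024 u0 u1 n2
  have s2049 : T.X p z a x = false → T.X p x z b = false → T.alt p a z b x = false → T.X p a b x = true → T.X p a z x = false → False := fun n0 n1 n2 n3 n4 => by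
    have u0 := bf fun t => g13 n3 t
    have u1 := bt fun t => g2023 n0 t u0
    have u2 := bf fun t => g35 t u1
    have u3 := bf fun t => g1239 g2011 n4 n0 n3 t u1
    have u4 := bf fun t => g387 t g2011 n0 u0 n1 u1
    have u5 := bf fun t => g252 t w2032 n3 u3 u2
    exact g227 n2 u5 u4
  have s2058 : T.alt p a y z b = true → T.X a y z b = false → T.X p x z b = true → T.X p a b x = true → False := fun n0 n1 n2 n3 => by
    have u0 := bf fun t => g13 n3 t
    have u1 := bf fun t => s2046 n2 t u0
    have u2 := bf fun t => g23 t n2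
    have u3 := bf fun t => g2030 u2 t n3
    have u4 := bf fun t => g252 t w2032 n3 u2 u3
    have u5 := bt fun t => g227 u1 u4 t
    have u6 := bf fun t => g1987 n0 u5 t
    have u7 := bf fun t => g197 n0 g2011 t n1
    have u8 := bf fun t => g915 t u7 n2 g2014 g2013
    have u9 := bf fun t => g1998 u4 t u8
    have u10 := bt fun t => g770 u6 t u8
    have u11 := bt fun t => g1980 n0 u9 t
    have u12 := bt fun t => g792 u10 u7 n2 t g2013
    exact g638 u11 n3 g2012 u12
  have s2059 : T.X p z a y = false → T.alt p a z b y = false → T.X p x z b = true → T.X p a b x = true → False := fun n0 n1 n2 n3 => by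
    have u0 := bf fun t => g13 n3 t
    have u1 := bf fun t => s2046 n2 t u0
    have u2 := bf fun t => g23 t n2
    have u3 := bf fun t => g2030 u2 t n3
    have u4 := bf fun t => g252 t w2032 n3 u2 u3
    have u5 := bt fun t => g227 u1 u4 t
    have u6 := bf fun t => s2038 t n0
    have u7 := bf fun t => g2017 n0 u6 t
    have u8 := bf fun t => s2058 t u6 n2 n3
    have u9 := bt fun t => g46 n1 t u8
    have u10 := bt fun t => g1990 u8 u5 t
    have u11 := bt fun t => g74 u9 g2011 u7 t u6
    exact g861 u10 u11 n2 g2013
  have s2060 : T.X a y z b = false → T.X p z a y = true → T.alt p a z b y = false → False := fun n0 n1 n2 => by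
    have u0 := bf fun t => g198 t g2011 n1 n0
    have u1 := bf fun t => g84 t g2011 n1 n0
    exact g46 n2 u1 u0
  have s2061 : T.alt p a z y x = false → T.X p x z b = true → T.X p a b x = true → False := fun n0 n1 n2 => by
    have u0 := bf fun t => g13 n2 t
    have u1 := bf fun t => s2046 n1 t u0
    have u2 := bf fun t => g23 t n1
    have u3 := bf fun t => g2030 u2 t n2
    have u4 := bf fun t => g252 t w2032 n2 u2 u3
    have u5 := bt fun t => g227 u1 u4 t
    have u6 := bt fun t => g378 u5 g2011 n1 t
    have u7 := bt fun t => g370 u5 t n2 u2 u3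
    have u8 := bf fun t => g1972 t u1 n0
    have u9 := bt fun t => s2059 t u8 n1 n2
    have u10 := bf fun t => g6 u9 t
    have u11 := bt fun t => s2041 t u7 n0 u10
    have u12 := bt fun t => s2060 t u9 u8
    have u13 := bf fun t => g32 t u12
    have u14 := bt fun t => g1829 u12 u3 u11 t g2013
    have u15 := bt fun t => g1838 u13 u6 u11 t g2013
    exact g42 u14 u15
  have s2062 : T.X p z a y = false → T.X p y z b = false → T.alt p a z b y = true → False := fun n0 n1 n2 => by
    have u0 := bf fun t => s2038 t n0
    exact g133 n2 g2011 n0 n1 u0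
  have s2063 : T.X a y z b = false → T.X p z a y = true → T.alt p a z b y = true → False := fun n0 n1 n2 => by
    have u0 := bt fun t => g2015 n1 n0 t
    exact g143 n2 g2011 u0 n0
  have s2064 : T.X p y z b = false → T.alt p a z b y = true → False := fun n0 n1 => by
    have u0 := bt fun t => s2062 t n0 n1
    have u1 := bt fun t => s2063 t u0 n1
    have u2 := bf fun t => g2018 u0 u1 t
    exact g160 n1 g2011 u0 u2 n0 u1
  have s2065 : T.X p x z b = true → T.X p a b x = true → False := fun n0 n1 => by
    have u0 := bf fun t => g13 n1 t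
    have u1 := bf fun t => g23 t n0
    have u2 := bf fun t => s2046 n0 t u0
    have u3 := bf fun t => g2030 u1 t n1
    have u4 := bf fun t => g252 t w2032 n1 u1 u3
    have u5 := bt fun t => g227 u2 u4 t
    have u6 := bt fun t => s2061 t n0 n1
    have u7 := bt fun t => g1973 t u2 u6
    have u8 := bf fun t => g48 u7 t
    have u9 := bt fun t => g1990 u8 u5 t
    have u10 := bf fun t => g861 u9 t n0 g2013
    exact s2064 u10 u7
  have s2066 : T.X p a z x = false → T.alt p a z b x = false → T.X p a b x = true → False := fun n0 n1 n2 => by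
    have u0 := bf fun t => s2065 t n2
    have u1 := bf fun t => g14 n2 t
    have u2 := bf fun t => g13 n2 t
    have u3 := bt fun t => s2049 t u0 n1 n2 n0
    have u4 := bf fun t => g1191 g2011 n0 u1 u0 t
    have u5 := bf fun t => g1173 w2031 u3 u2 t u4
    have u6 := bf fun t => g2024 u3 t u2
    have u7 := bf fun t => g242 t w2031 n0 u1 u5 u4
    have u8 := bf fun t => g379 t g2011 u3 u6
    exact g227 n1 u7 u8
  have s2067 : T.alt p a z b x = false → T.X p a b x = true → False := fun n0 n1 => by
    have u0 := bf fun t => s2065 t n1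
    have u1 := bf fun t => g13 n1 t
    have u2 := bt fun t => s2066 t n0 n1
    have u3 := bf fun t => g7 u2 t
    have u4 := bt fun t => g2023 u3 t u1
    have u5 := bf fun t => g35 t u4
    have u6 := bf fun t => g387 t g2011 u3 u1 u0 u4
    have u7 := bf fun t => g2029 t u5 n1
    have u8 := bt fun t => g227 n0 t u6
    exact g252 u8 w2032 n1 u7 u5
  have s2068 : T.alt p a z b y = true → T.X p a b x = true → False := fun n0 n1 => by
    have u0 := bt fun t => s2067 t n1
    have u1 := bf fun t => g229 u0 t
    have u2 := bf fun t => s2065 t n1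
    have u3 := bf fun t => g48 n0 t
    have u4 := bt fun t => s2064 t n0
    have u5 := bf fun t => g1989 u3 u1 t
    have u6 := bf fun t => g797 t u4 u2 g2014 g2013
    have u7 := bt fun t => g770 u5 u6 t
    have u8 := bt fun t => g2004 u0 t u6
    have u9 := bt fun t => g910 u7 u4 u2 t g2013
    exact g638 u8 n1 g2012 u9
  have s2069 : T.X p y z b = true → T.X a y z b = false → T.X p a b x = true → False := fun n0 n1 n2 => by
    have u0 := bt fun t => s2067 t n2
    have u1 := bf fun t => s2068 t n2
    have u2 := bt fun t => g1974 u1 u0 t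
    have u3 := bf fun t => g410 u2 t
    have u4 := bf fun t => s2065 t n2
    have u5 := bf fun t => g197 t g2011 n0 n1
    have u6 := bf fun t => g797 t n0 u4 g2014 g2013
    have u7 := bt fun t => g46 u1 t u5
    exact g1992 u7 u3 u6
  have s2070 : T.X p z a y = false → T.X p a b x = true → False := fun n0 n1 => by
    have u0 := bt fun t => s2067 t n1
    have u1 := bf fun t => s2068 t n1
    have u2 := bt fun t => g1974 u1 u0 t
    have u3 := bf fun t => g409 u2 t
    have u4 := bf fun t => g229 u0 t
    have u5 := bf fun t => s2065 t n1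
    have u6 := bf fun t => s2038 t n0
    have u7 := bf fun t => g2017 n0 u6 t
    have u8 := bf fun t => s2069 t u6 n1
    have u9 := bf fun t => g74 t g2011 u7 u8 u6
    have u10 := bt fun t => g46 u1 u9 t
    have u11 := bt fun t => g1988 u10 u4 t
    have u12 := bt fun t => g1980 u10 u3 t
    have u13 := bt fun t => g844 u11 u8 u5 g2014 t g2013
    exact g638 u12 n1 g2012 u13
  have s2071 : T.X p a b x = true → False := fun n0 => by
    have u0 := bf fun t => s2065 t n0
    have u1 := bt fun t => s2067 t n0
    have u2 := bf fun t => g338 u1 g2011 t u0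
    have u3 := bf fun t => s2068 t n0
    have u4 := bt fun t => g1974 u3 u1 t
    have u5 := bt fun t => s2070 t n0
    have u6 := bf fun t => g6 u5 t
    have u7 := bt fun t => s2060 t u5 u3
    have u8 := bt fun t => g482 u4 u6 u2 g2012 g2014 t
    have u9 := bf fun t => g32 t u7
    have u10 := bt fun t => g1312 u5 u2 t g2014 u8
    have u11 := bf fun t => g18 t u10
    have u12 := bf fun t => g514 u4 t g2012 u11 g2014
    have u13 := bt fun t => g314 u1 g2011 u12 u0 t
    have u14 := bf fun t => g35 t u13
    have u15 := bt fun t => g1838 u9 u13 u8 t g2013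
    have u16 := bt fun t => g1829 u7 u14 u8 t g2013
    exact g42 u16 u15
  have w2071 := bf s2071
  have s2072 := fun (n0 : T.X p a z x = true) => s2037 w2071 n0
  have w2072 := bf s2072
  have s2073 : T.X p x z b = true → False := fun n0 => by
    have u0 := bf fun t => g23 t n0
    have u1 := bf fun t => g24 t n0
    have u2 := bt fun t => g2027 u0 t w2071
    have u3 := bf fun t => g35 u2 t
    have u4 := bf fun t => g1164 g2011 t w2071 u0 u3
    have u5 := bf fun t => g1136 g2011 w2072 t u1 u3
    exact g2023 u4 u3 u5
  have w2073 := bf s2073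
  have s2074 : T.X p z b x = false → T.X p b a x = false → False := fun n0 n1 => by
    have u0 := bt fun t => g2027 n0 t w2071
    have u1 := bf fun t => g35 u0 t
    have u2 := bf fun t => g1196 w2032 t n1 n0 u0
    exact g2023 u2 u1 n1
  have s2075 : T.X p z b x = true → T.alt p a z b x = false → False := fun n0 n1 => by
    have u0 := bf fun t => g2028 n0 t w2071
    have u1 := bf fun t => g394 t g2011 w2071 n0
    have u2 := bf fun t => g1162 g2011 t w2071 w2073 u0
    have u3 := bt fun t => g227 n1 t u1
    exact g250 u3 u2 w2071 n0 u0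
  have s2076 : T.X p z b x = false → False := fun n0 => by
    have u0 := bt fun t => g2027 n0 t w2071
    have u1 := bt fun t => s2074 n0 t
    have u2 := bf fun t => g35 u0 t
    have u3 := bf fun t => g1153 w2032 w2072 w2071 t u0
    exact g1136 g2011 w2072 u1 u3 u2
  have w2076 := bt s2076
  have s2077 := fun (n0 : T.X p b z x = true) => g22 w2076 n0
  have w2077 := bf s2077
  have s2078 := fun (n0 : T.X a z b x = true) => g2028 w2076 n0 w2071
  have w2078 := bf s2078
  have s2079 := fun (n0 : T.X a b z x = true) => g1172 w2031 w2072 w2071 w2076 n0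
  have w2079 := bf s2079
  have s2080 := fun (n0 : T.alt p a x z b = true) => g394 n0 g2011 w2071 w2076
  have w2080 := bf s2080
  have s2081 := fun (n0 : T.alt p a z b x = false) => s2075 w2076 n0
  have w2081 := bt s2081
  have s2082 := fun (n0 : T.X p x a z = true) => g1162 g2011 n0 w2071 w2073 w2078
  have w2082 := bf s2082
  have s2083 := fun (n0 : T.X p x a b = true) => g1150 g2011 w2072 n0 w2073 w2079
  have w2083 := bf s2083
  have s2085 : T.X p y z b = true → T.X a y z b = false → T.alt p a z b y = false → False := fun n0 n1 n2 => by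
    have u0 := bt fun t => g1974 n2 w2081 t
    have u1 := bf fun t => g410 u0 t
    have u2 := bf fun t => g197 t g2011 n0 n1
    have u3 := bf fun t => g797 t n0 w2073 g2014 g2013
    have u4 := bt fun t => g46 n2 t u2
    exact g1992 u4 u1 u3
  have s2086 : T.X p z a y = false → T.alt p a z b y = false → False := fun n0 n1 => by
    have u0 := bt fun t => g1974 n1 w2081 t
    have u1 := bf fun t => g409 u0 t
    have u2 := bf fun t => s2038 t n0
    have u3 := bf fun t => g2017 n0 u2 t
    have u4 := bf fun t => s2085 t u2 n1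
    have u5 := bf fun t => g74 t g2011 u3 u4 u2
    have u6 := bt fun t => g46 n1 u5 t
    have u7 := bt fun t => g1988 u6 w2080 t
    have u8 := bt fun t => g1980 u6 u1 t
    have u9 := bt fun t => g844 u7 u4 w2073 g2014 t g2013
    have u10 := bf fun t => g28 u9 t
    have u11 := bf fun t => g1512 u3 w2071 g2012 u9 t
    have u12 := bt fun t => g612 u8 w2083 g2012 u9 t
    have u13 := bf fun t => g1707 u4 w2077 t u9 g2013
    have u14 := bt fun t => g604 u8 u3 w2071 t u10 u11
    have u15 := bf fun t => g1877 u2 w2079 t u12 g2013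
    exact g489 u0 n0 u14 u13 u15
  have s2087 : T.alt p a z b y = false → False := fun n0 => by
    have u0 := bt fun t => g1974 n0 w2081 t
    have u1 := bt fun t => s2086 t n0
    have u2 := bf fun t => g6 u1 t
    have u3 := bt fun t => s2060 t u1 n0
    have u4 := bt fun t => g482 u0 u2 w2082 g2012 g2014 t
    have u5 := bf fun t => g32 t u3
    have u6 := bt fun t => g1829 u3 w2078 u4 t g2013
    have u7 := bt fun t => g1312 u1 w2082 t g2014 u4
    have u8 := bf fun t => g42 u6 t
    have u9 := bf fun t => g18 t u7
    have u10 := bf fun t => g1838 u5 t u4 u8 g2013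
    have u11 := bf fun t => g514 u0 t g2012 u9 g2014
    exact g1156 g2011 u11 w2071 w2076 u10
  have w2087 := bt s2087
  have s2089 := fun (n0 : T.alt p a y z b = true) => g48 w2087 n0
  have w2089 := bf s2089
  have s2090 := fun (n0 : T.X p y z b = false) => s2064 n0 w2087
  have w2090 := bt s2090
  have s2093 := fun (n0 : T.alt p z b y x = true) => g1989 w2089 w2080 n0
  have w2093 := bf s2093
  have s2096 := fun (n0 : T.alt p z y b x = true) => g797 n0 w2090 w2073 g2014 g2013
  have w2096 := bf s2096
  have s2097 := fun (n0 : T.X p y b x = false) => g1704 w2090 w2076 g2014 n0 g2013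
  have w2097 := bt s2097
  have s2099 := fun (n0 : T.alt p z x b y = false) => g770 w2093 w2096 n0
  have w2099 := bt s2099
  have s2101 := fun (n0 : T.X p b y x = true) => g28 n0 w2097
  have w2101 := bf s2101
  exact g910 w2099 w2090 w2073 w2101 g2013

theorem MT_sepa_0110 {p a z b y x : V} (hN : [p, a, z, b, y, x].Nodup) (h0 : T.X p a z b = true)
    (h1 : T.X y x p a = false) (h2 : T.X y x z b = false) (h3 : T.X y x p z = true)
    (h4 : T.X y a p z = true → T.X y a z b = false → T.X y a b p = false → False)
    (h5 : T.X y a p z = false → T.X y a z b = true → T.X y a b p = false → False)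
    (h6 : T.X y a p z = false → T.X y a z b = false → T.X y a b p = true → False)
    (h7 : T.X y a p z = true → T.X y a z b = true → T.X y a b p = true → False)
    (h8 : T.X y b p z = false → T.X y b z a = false → T.X y b a p = false → False)
    (h9 : T.X y b p z = true → T.X y b z a = true → T.X y b a p = false → False)
    (h10 : T.X y b p z = true → T.X y b z a = false → T.X y b a p = true → False)
    (h11 : T.X y b p z = false → T.X y b z a = true → T.X y b a p = true → False)
    (h12 : T.X x a p z = false → T.X x a z b = false → T.X x a b p = false → False)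
    (h13 : T.X x a p z = true → T.X x a z b = true → T.X x a b p = false → False)
    (h14 : T.X x a p z = true → T.X x a z b = false → T.X x a b p = true → False)
    (h15 : T.X x a p z = false → T.X x a z b = true → T.X x a b p = true → False)
    (h16 : T.X x b p z = true → T.X x b z a = false → T.X x b a p = false → False)
    (h17 : T.X x b p z = false → T.X x b z a = true → T.X x b a p = false → False)
    (h18 : T.X x b p z = false → T.X x b z a = false → T.X x b a p = true → False)
    (h19 : T.X x b p z = true → T.X x b z a = true → T.X x b a p = true → False) : False := by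
  have k0 : T.Ok5 p a z b y := T.n5 hN (.cons_cons _ (.cons_cons _ (.cons_cons _ (.cons_cons _ (.cons_cons _ (List.nil_sublist _))))))
  have k1 : T.Ok5 p a z b x := T.n5 hN (.cons_cons _ (.cons_cons _ (.cons_cons _ (.cons_cons _ (.cons _ (.cons_cons _ (List.nil_sublist _)))))))
  have k2 : T.Ok5 p a z y x := T.n5 hN (.cons_cons _ (.cons_cons _ (.cons_cons _ (.cons _ (.cons_cons _ (.cons_cons _ (List.nil_sublist _)))))))
  have k3 : T.Ok5 p a b y x := T.n5 hN (.cons_cons _ (.cons_cons _ (.cons _ (.cons_cons _ (.cons_cons _ (.cons_cons _ (List.nil_sublist _)))))))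
  have k4 : T.Ok5 p z b y x := T.n5 hN (.cons_cons _ (.cons _ (.cons_cons _ (.cons_cons _ (.cons_cons _ (.cons_cons _ (List.nil_sublist _)))))))
  have k5 : T.Ok5 a z b y x := T.n5 hN (.cons _ (.cons_cons _ (.cons_cons _ (.cons_cons _ (.cons_cons _ (.cons_cons _ (List.nil_sublist _)))))))
  have sp0 : T.Sp5 p a z b y x := T.sp5 hN (.cons_cons _ (.cons_cons _ (.cons_cons _ (.cons_cons _ (.cons_cons _ (.cons_cons _ (List.nil_sublist _)))))))
  have g1 := T.q01 p a z b
  have g2 := T.q02 p a z b
  have g7 := T.q01 p a z x
  have g9 := T.q12 p a z x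
  have g10 := T.q01 p a b y
  have g13 := T.q01 p a b x
  have g15 := T.q12 p a b x
  have g18 := T.q12 p a y x
  have g19 := T.q01 p z b y
  have g23 := T.q02 p z b x
  have g25 := T.q01 p z y x
  have g26 := T.q02 p z y x
  have g29 := T.q02 p b y x
  have g32 := T.q02 a z b y
  have g33 := T.q12 a z b y
  have g35 := T.q02 a z b x
  have g36 := T.q12 a z b x
  have g37 := T.q01 a z y x
  have g38 := T.q02 a z y x
  have g41 := T.q02 a b y x
  have g46 := T.ae1 k0
  have g61 := fun ha : T.alt p a b z y = true => zA1_9482_0 (T.okA1 k0 ha)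
  have g98 := fun ha : T.alt p a b z y = true => zA1_2305_257 (T.okA1 k0 ha)
  have g120 := fun ha : T.alt p a z b y = true => zA0_4708_0 (T.okA0 k0 ha)
  have g133 := fun ha : T.alt p a z b y = true => zA0_18449_1 (T.okA0 k0 ha)
  have g143 := fun ha : T.alt p a z b y = true => zA0_16513_129 (T.okA0 k0 ha)
  have g155 := fun ha : T.alt p a z b y = true => zA0_656_640 (T.okA0 k0 ha)
  have g157 := fun ha : T.alt p a z b y = true => zA0_2081_33 (T.okA0 k0 ha)
  have g160 := fun ha : T.alt p a z b y = true => zA0_18577_16401 (T.okA0 k0 ha)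
  have g187 := fun ha : T.alt p a y z b = true => zA2_4676_512 (T.okA2 k0 ha)
  have g198 := fun ha : T.alt p a y z b = true => zA2_16401_17 (T.okA2 k0 ha)
  have g200 := fun ha : T.alt p a y z b = true => zA2_16513_129 (T.okA2 k0 ha)
  have g215 := fun ha : T.alt p a y z b = true => zA2_150_144 (T.okA2 k0 ha)
  have g227 := T.ae1 k1
  have g242 := fun ha : T.alt p a b z x = true => zA1_9482_0 (T.okA1 k1 ha)
  have g301 := fun ha : T.alt p a z b x = true => zA0_4708_0 (T.okA0 k1 ha)
  have g319 := fun ha : T.alt p a z b x = true => zA0_4672_576 (T.okA0 k1 ha)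
  have g328 := fun ha : T.alt p a z b x = true => zA0_4708_4160 (T.okA0 k1 ha)
  have g338 := fun ha : T.alt p a z b x = true => zA0_2081_33 (T.okA0 k1 ha)
  have g372 := fun ha : T.alt p a x z b = true => zA2_4196_32 (T.okA2 k1 ha)
  have g378 := fun ha : T.alt p a x z b = true => zA2_18433_2049 (T.okA2 k1 ha)
  have g381 := fun ha : T.alt p a x z b = true => zA2_16513_129 (T.okA2 k1 ha)
  have g387 := fun ha : T.alt p a x z b = true => zA2_18577_16385 (T.okA2 k1 ha)
  have g391 := fun ha : T.alt p a x z b = true => zA2_2089_2049 (T.okA2 k1 ha)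
  have g396 := fun ha : T.alt p a x z b = true => zA2_150_144 (T.okA2 k1 ha)
  have g408 := T.ae1 k2
  have g423 := fun ha : T.alt p a y z x = true => zA1_9482_0 (T.okA1 k2 ha)
  have g431 := fun ha : T.alt p a y z x = true => zA1_4704_512 (T.okA1 k2 ha)
  have g455 := fun ha : T.alt p a y z x = true => zA1_1176_128 (T.okA1 k2 ha)
  have g457 := fun ha : T.alt p a y z x = true => zA1_584_520 (T.okA1 k2 ha)
  have g575 := fun ha : T.alt p a x z y = true => zA2_577_513 (T.okA2 k2 ha)
  have g589 := T.ae1 k3
  have g591 := T.ae02 k3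
  have g592 := T.ae12 k3
  have g609 := fun ha : T.alt p a y b x = true => zA1_18576_16 (T.okA1 k3 ha)
  have g612 := fun ha : T.alt p a y b x = true => zA1_4704_512 (T.okA1 k3 ha)
  have g663 := fun ha : T.alt p a b y x = true => zA0_4708_0 (T.okA0 k3 ha)
  have g670 := fun ha : T.alt p a b y x = true => zA0_9474_256 (T.okA0 k3 ha)
  have g674 := fun ha : T.alt p a b y x = true => zA0_9482_8192 (T.okA0 k3 ha)
  have g695 := fun ha : T.alt p a b y x = true => zA0_720_16 (T.okA0 k3 ha)
  have g754 := fun ha : T.alt p a x b y = true => zA2_2307_256 (T.okA2 k3 ha)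
  have g756 := fun ha : T.alt p a x b y = true => zA2_577_513 (T.okA2 k3 ha)
  have g770 := T.ae1 k4
  have g772 := T.ae02 k4
  have g773 := T.ae12 k4
  have g814 := fun ha : T.alt p z y b x = true => zA1_1608_64 (T.okA1 k4 ha)
  have g820 := fun ha : T.alt p z y b x = true => zA1_1168_1040 (T.okA1 k4 ha)
  have g823 := fun ha : T.alt p z y b x = true => zA1_4192_96 (T.okA1 k4 ha)
  have g862 := fun ha : T.alt p z b y x = true => zA0_4672_576 (T.okA0 k4 ha)
  have g863 := fun ha : T.alt p z b y x = true => zA0_4164_68 (T.okA0 k4 ha)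
  have g865 := fun ha : T.alt p z b y x = true => zA0_4192_96 (T.okA0 k4 ha)
  have g878 := fun ha : T.alt p z b y x = true => zA0_1096_1088 (T.okA0 k4 ha)
  have g913 := fun ha : T.alt p z x b y = true => zA2_4704_64 (T.okA2 k4 ha)
  have g932 := fun ha : T.alt p z x b y = true => zA2_2625_64 (T.okA2 k4 ha)
  have g938 := fun ha : T.alt p z x b y = true => zA2_2306_2050 (T.okA2 k4 ha)
  have g941 := fun ha : T.alt p z x b y = true => zA2_4164_68 (T.okA2 k4 ha)
  have g980 := z5_10505_257 k0
  have g983 := z5_5196_5120 k0
  have g1021 := z5_10505_8193 k0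
  have g1136 := z5_17545_129 k1
  have g1156 := z5_16977_513 k1
  have g1162 := z5_6241_33 k1
  have g1164 := z5_16977_17 k1
  have g1168 := z5_18706_16640 k1
  have g1175 := z5_6241_4097 k1
  have g1196 := z5_4756_4112 k1
  have g1214 := MTz5_20112_16528 k1
  have g1239 := z5_16985_16961 k1
  have g1251 := MTz5_21073_593 k1
  have g1342 := z5_8778_8704 k2
  have g1345 := z5_6241_4097 k2
  have g1659 := z5_5196_68 k4
  have g1823 := z5_4898_544 k5
  have g1829 := z5_5196_68 k5
  have g1860 := z5_5196_1088 k5
  have g1875 := z5_4756_516 k5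
  have g1973 := zsp_73_64 sp0
  have g1985 := zsp_2336_2048 sp0
  have g1986 := zsp_2336_256 sp0
  have g1989 := zsp_4132_4096 sp0
  have g1992 := zsp_8450_2 sp0
  have g1993 := zsp_8450_8192 sp0
  have g1994 := zsp_8450_256 sp0
  have g1999 := zsp_18433_18433 sp0
  have g2000 := zsp_18433_1 sp0
  have g2001 := zsp_18433_16384 sp0
  have g2002 := zsp_18433_2048 sp0
  have g2005 := zsp_9224_8192 sp0
  have g2006 := zsp_9224_1024 sp0
  have g2008 := zsp_4672_64 sp0
  have g2010 := zsp_4672_512 sp0
  have g2011 : T.X p a z b = true := h0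
  have g2012 : T.X p a y x = false := ((T.xs4 y x p a).symm.trans h1)
  have g2013 : T.X z b y x = false := ((T.xs4 y x z b).symm.trans h2)
  have g2014 : T.X p z y x = true := ((T.xs4 y x p z).symm.trans h3)
  have g2015 := fun (n0 : T.X p z a y = true) (n1 : T.X a y z b = false) (n2 : T.X p b a y = false) => h4 ((T.xs6 y a p z).trans n0) ((T.xs1 y a z b).trans n1) ((T.xs7 y a b p).trans n2)
  have g2016 := fun (n0 : T.X p z a y = false) (n1 : T.X a y z b = true) (n2 : T.X p b a y = false) => h5 ((T.xs6 y a p z).trans n0) ((T.xs1 y a z b).trans n1) ((T.xs7 y a b p).trans n2)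
  have g2018 := fun (n0 : T.X p z a y = true) (n1 : T.X a y z b = true) (n2 : T.X p b a y = true) => h7 ((T.xs6 y a p z).trans n0) ((T.xs1 y a z b).trans n1) ((T.xs7 y a b p).trans n2)
  have g2019 := fun (n0 : T.X p z b y = false) (n1 : T.X a z b y = false) (n2 : T.X p a b y = false) => h8 ((T.xs6 y b p z).trans n0) ((T.xs7 y b z a).trans n1) ((T.xs7 y b a p).trans n2)
  have g2023 := fun (n0 : T.X p z a x = false) (n1 : T.X a x z b = false) (n2 : T.X p b a x = false) => h12 ((T.xs6 x a p z).trans n0) ((T.xs1 x a z b).trans n1) ((T.xs7 x a b p).trans n2)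
  have g2024 := fun (n0 : T.X p z a x = true) (n1 : T.X a x z b = true) (n2 : T.X p b a x = false) => h13 ((T.xs6 x a p z).trans n0) ((T.xs1 x a z b).trans n1) ((T.xs7 x a b p).trans n2)
  have g2026 := fun (n0 : T.X p z a x = false) (n1 : T.X a x z b = true) (n2 : T.X p b a x = true) => h15 ((T.xs6 x a p z).trans n0) ((T.xs1 x a z b).trans n1) ((T.xs7 x a b p).trans n2)
  have g2027 := fun (n0 : T.X p z b x = true) (n1 : T.X a z b x = false) (n2 : T.X p a b x = false) => h16 ((T.xs6 x b p z).trans n0) ((T.xs7 x b z a).trans n1) ((T.xs7 x b a p).trans n2)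
  have g2028 := fun (n0 : T.X p z b x = false) (n1 : T.X a z b x = true) (n2 : T.X p a b x = false) => h17 ((T.xs6 x b p z).trans n0) ((T.xs7 x b z a).trans n1) ((T.xs7 x b a p).trans n2)
  have g2029 := fun (n0 : T.X p z b x = false) (n1 : T.X a z b x = false) (n2 : T.X p a b x = true) => h18 ((T.xs6 x b p z).trans n0) ((T.xs7 x b z a).trans n1) ((T.xs7 x b a p).trans n2)
  have g2030 := fun (n0 : T.X p z b x = true) (n1 : T.X a z b x = true) (n2 : T.X p a b x = true) => h19 ((T.xs6 x b p z).trans n0) ((T.xs7 x b z a).trans n1) ((T.xs7 x b a p).trans n2)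
  have s2031 := fun (n0 : T.X p z a b = true) => g1 g2011 n0
  have w2031 := bf s2031
  have s2032 := fun (n0 : T.X p b a z = true) => g2 g2011 n0
  have w2032 := bf s2032
  have s2033 := fun (n0 : T.X p y z x = true) => g25 g2014 n0
  have w2033 := bf s2033
  have s2034 := fun (n0 : T.X p x z y = true) => g26 g2014 n0
  have w2034 := bf s2034
  have s2035 : T.alt p a x z y = true → T.alt p a x b y = true → T.alt p z x b y = true → False := fun n0 n1 n2 => by
    have u0 := bf fun t => g941 n2 t g2014 g2013
    have u1 := bf fun t => g773 t n2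
    have u2 := bf fun t => g575 n0 t g2012 g2014
    have u3 := bt fun t => g1994 t n0 u1
    have u4 := bf fun t => g98 u3 g2011 t u0
    have u5 := bf fun t => g1021 g2011 u2 u4 u0 t
    have u6 := bt fun t => g61 u3 w2031 u2 u4 t u5
    have u7 := bf fun t => g19 t u6
    have u8 := bf fun t => g938 n2 u6 w2034 t
    have u9 := bt fun t => g932 n2 u7 g2014 t u8
    have u10 := bf fun t => g756 n1 t g2012 u9
    have u11 := bf fun t => g983 w2032 u2 u10 u6 t
    exact g2019 u7 u11 u10
  have s2036 : T.X p a b y = false → T.X a z b y = false → T.alt p a y z b = true → False := fun n0 n1 n2 => by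
    have u0 := bt fun t => g2019 t n1 n0
    exact g187 n2 w2032 n0 u0 n1
  have s2037 : T.X p x z b = true → T.X p a z x = false → T.alt p a x z b = true → False := fun n0 n1 n2 => by
    have u0 := bf fun t => g23 t n0
    have u1 := bt fun t => g378 n2 g2011 n0 t
    have u2 := bt fun t => g391 n2 g2011 n1 t n0
    have u3 := bf fun t => g35 t u1
    have u4 := bt fun t => g372 n2 w2032 u2 t u3
    exact g2029 u0 u3 u4
  have s2038 : T.alt p a x b y = true → T.alt p z x b y = true → False := fun n0 n1 => by
    have u0 := bf fun t => g773 t n1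
    have u1 := bf fun t => g772 t n1
    have u2 := bf fun t => g591 t n0
    have u3 := bf fun t => g1999 t n0 n1
    have u4 := bf fun t => g2008 t u2 u1
    have u5 := bf fun t => s2035 t n0 n1
    have u6 := bf fun t => g1992 t u5 u0
    have u7 := bt fun t => g1985 t u5 n0
    have u8 := bt fun t => g408 u4 t u5
    have u9 := bt fun t => g46 u3 u6 t
    have u10 := bf fun t => g457 u8 t g2012 g2014
    have u11 := bf fun t => s2037 t u10 u7
    have u12 := bt fun t => g913 n1 u11 g2014 t g2013
    have u13 := bf fun t => g29 u12 t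
    have u14 := bf fun t => g756 n0 t g2012 u12
    have u15 := bt fun t => s2036 u14 t u9
    have u16 := bf fun t => g32 u15 t
    have u17 := bf fun t => g198 u9 g2011 t u16
    have u18 := bf fun t => g200 u9 g2011 t u16
    have u19 := bf fun t => g1342 u17 u10 g2012 g2014 t
    have u20 := bf fun t => g754 n0 u14 u18 t u13
    exact g423 u8 u17 u10 u20 w2033 u19
  have s2039 : T.X p x a z = false → T.X a z b x = false → T.alt p a z b x = true → T.X p a b x = false → False := fun n0 n1 n2 n3 => by
    have u0 := bt fun t => g301 n2 w2032 n0 n3 t n1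
    exact g2027 u0 n1 n3
  have s2041 : T.X a y z b = false → T.alt p a z b y = true → T.X p y z b = false → False := fun n0 n1 n2 => by
    have u0 := bt fun t => g133 n1 g2011 t n2 n0
    have u1 := bf fun t => g143 n1 g2011 t n0
    exact g2015 u0 n0 u1
  have s2042 : T.X p b a y = false → T.X a y z b = true → T.alt p a z b y = true → T.X p y z b = false → False := fun n0 n1 n2 n3 => by
    have u0 := bf fun t => g160 n2 g2011 t n0 n3 n1
    exact g2016 u0 n1 n0
  have s2043 : T.alt p a z b y = true → T.X p y z b = false → False := fun n0 n1 => by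
    have u0 := bf fun t => g157 n0 g2011 t n1
    have u1 := bt fun t => s2041 t n0 n1
    have u2 := bf fun t => g32 t u1
    have u3 := bt fun t => s2042 t u1 n0 n1
    have u4 := bf fun t => g10 t u3
    have u5 := bf fun t => g2018 t u1 u3
    have u6 := bt fun t => g120 n0 w2032 u0 u4 t u2
    exact g155 n0 u5 u3 u6
  have s2044 : T.alt p z x b y = true → False := fun n0 => by
    have u0 := bf fun t => g941 n0 t g2014 g2013
    have u1 := bf fun t => s2038 t n0
    have u2 := bt fun t => g2001 t u1 n0
    exact s2043 u2 u0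
  have w2044 := bf s2044
  have s2045 : T.X p a b x = true → T.X a z b x = false → T.alt p a z b x = true → False := fun n0 n1 n2 => by
    have u0 := bf fun t => g319 n2 n0 t n1
    exact g2029 u0 n1 n0
  have s2046 : T.X a z b x = false → T.X p x a z = false → T.alt p a z b x = true → False := fun n0 n1 n2 => by
    have u0 := bt fun t => s2039 n1 n0 n2 t
    exact s2045 u0 n0 n2
  have s2047 : T.X p a b x = true → T.X a z b x = true → T.X p x a z = false → T.alt p a z b x = true → False := fun n0 n1 n2 n3 => by
    have u0 := bt fun t => g328 n3 w2032 n2 n0 t n1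
    exact g2030 u0 n1 n0
  have s2048 : T.alt p a z b x = true → T.X p x z b = false → False := fun n0 n1 => by
    have u0 := bf fun t => g338 n0 g2011 t n1
    have u1 := bt fun t => s2046 t u0 n0
    have u2 := bt fun t => g1175 g2011 u0 t n1 u1
    exact s2047 u2 u1 u0 n0
  have s2049 : T.alt p a y b x = false → T.alt p z y b x = true → False := fun n0 n1 => by
    have u0 := bt fun t => g2005 t n0 n1
    have u1 := bf fun t => g823 n1 t g2014 g2013
    exact s2048 u0 u1
  have s2050 : T.alt p a z b y = true → False := fun n0 => by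
    have u0 := bt fun t => s2043 n0 t
    have u1 := bt fun t => g2000 n0 t w2044
    have u2 := bf fun t => g863 t u0 g2014 g2013
    have u3 := bf fun t => g592 t u1
    have u4 := bt fun t => g770 u2 t w2044
    exact s2049 u3 u4
  have w2050 := bf s2050
  have s2051 := fun (n0 : T.alt p a x b y = true) => g2002 w2050 n0 w2044
  have w2051 := bf s2051
  have s2052 : T.X p x z b = true → False := fun n0 => by
    have u0 := bf fun t => g823 t n0 g2014 g2013
    have u1 := bf fun t => g865 t n0 g2014 g2013
    exact g770 u1 u0 w2044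
  have w2052 := bf s2052
  have s2053 := fun (n0 : T.alt p a z b x = true) => s2048 n0 w2052
  have w2053 := bf s2053
  have s2054 := fun (n0 : T.alt p a z y x = true) => g1973 w2050 w2053 n0
  have w2054 := bf s2054
  have s2055 : T.X p a b x = true → T.X a z b x = true → False := fun n0 n1 => by
    have u0 := bf fun t => g35 n1 t
    have u1 := bf fun t => g13 n0 t
    have u2 := bf fun t => g2030 t n1 n0
    have u3 := bf fun t => g1196 w2032 t u1 u2 n1
    exact g2023 u3 u0 u1
  have s2056 : T.X a z b x = true → False := fun n0 => by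
    have u0 := bf fun t => g35 n0 t
    have u1 := bf fun t => s2055 t n0
    have u2 := bt fun t => g1175 g2011 t u1 w2052 n0
    have u3 := bt fun t => g2028 t n0 u1
    have u4 := bf fun t => g9 t u2
    exact g1156 g2011 u4 u1 u3 u0
  have w2056 := bf s2056
  have s2057 : T.X a x z b = false → T.X p a b x = false → T.alt p a b y x = true → False := fun n0 n1 n2 => by
    have u0 := bf fun t => g2027 t w2056 n1
    have u1 := bt fun t => g2010 w2054 n2 t
    have u2 := bf fun t => g862 u1 g2014 t g2013
    have u3 := bf fun t => g1164 g2011 t n1 u0 n0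
    have u4 := bt fun t => g2023 u3 n0 t
    have u5 := bf fun t => g381 t g2011 u4 n0
    have u6 := bt fun t => g695 n2 u4 g2012 t u2
    have u7 := bf fun t => g1986 u5 t w2051
    have u8 := bt fun t => g408 w2054 t u7
    have u9 := bf fun t => g457 u8 t g2012 g2014
    exact g455 u8 u9 u3 u6 w2033
  have s2058 : T.X p b a x = true → T.X p a b x = false → T.alt p a b y x = true → False := fun n0 n1 n2 => by
    have u0 := bt fun t => s2057 t n1 n2
    have u1 := bt fun t => g2010 w2054 n2 t
    have u2 := bf fun t => g2027 t w2056 n1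
    have u3 := bf fun t => g878 u1 u2 g2014 t
    have u4 := bf fun t => g1162 g2011 t n1 w2052 w2056
    have u5 := bf fun t => g862 u1 g2014 t g2013
    have u6 := bt fun t => g2026 t u0 n0
    have u7 := bt fun t => g695 n2 n0 g2012 t u5
    have u8 := bf fun t => g7 t u6
    have u9 := bf fun t => g396 t w2031 w2032 u6 n0
    have u10 := bf fun t => g18 u7 t
    have u11 := bf fun t => g1986 u9 t w2051
    have u12 := bt fun t => g1989 t u9 u1
    have u13 := bt fun t => g408 w2054 t u11
    have u14 := bt fun t => g431 u13 u4 g2012 g2014 t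
    have u15 := bf fun t => g37 u14 t
    have u16 := bt fun t => g423 u13 t u8 u10 w2033 u15
    have u17 := bt fun t => g198 u12 g2011 u16 t
    have u18 := bf fun t => g215 u12 w2031 w2032 u16 t
    have u19 := bt fun t => g1829 u17 w2056 u14 t g2013
    exact g674 n2 u18 n1 u10 u3 u19
  have s2059 : T.X a y z b = true → T.X p a b x = false → T.alt p a b y x = true → False := fun n0 n1 n2 => by
    have u0 := bf fun t => g1162 g2011 t n1 w2052 w2056
    have u1 := bf fun t => s2058 t n1 n2
    have u2 := bt fun t => s2057 t n1 n2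
    have u3 := bf fun t => g2024 t u2 u1
    have u4 := bf fun t => g387 t g2011 u3 u1 w2052 u2
    have u5 := bf fun t => g1986 u4 t w2051
    have u6 := bt fun t => g408 w2054 t u5
    have u7 := bt fun t => g431 u6 u0 g2012 g2014 t
    have u8 := bf fun t => g1345 t u0 g2012 w2034 u7
    have u9 := bf fun t => g37 u7 t
    have u10 := bf fun t => g1168 w2031 u3 t w2052 u2
    have u11 := bf fun t => g36 t u2
    have u12 := bt fun t => g2010 w2054 n2 t
    have u13 := bf fun t => g863 u12 t g2014 g2013
    have u14 := bf fun t => g862 u12 g2014 t g2013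
    have u15 := bf fun t => g33 t n0
    have u16 := bf fun t => g1875 n0 u11 u9 t g2013
    have u17 := bf fun t => g980 g2011 u8 t u13 u15
    exact g663 n2 u17 u10 g2012 u14 u16
  have s2060 : T.X p a b x = false → T.alt p a b y x = true → False := fun n0 n1 => by
    have u0 := bt fun t => g2010 w2054 n1 t
    have u1 := bf fun t => g1162 g2011 t n0 w2052 w2056
    have u2 := bf fun t => g2027 t w2056 n0
    have u3 := bf fun t => g878 u0 u2 g2014 t
    have u4 := bt fun t => s2057 t n0 n1
    have u5 := bf fun t => s2058 t n0 n1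
    have u6 := bf fun t => g2024 t u4 u5
    have u7 := bf fun t => g387 t g2011 u6 u5 w2052 u4
    have u8 := bf fun t => g1986 u7 t w2051
    have u9 := bt fun t => g1989 t u7 u0
    have u10 := bt fun t => g408 w2054 t u8
    have u11 := bf fun t => g457 u10 t g2012 g2014
    have u12 := bt fun t => g431 u10 u1 g2012 g2014 t
    have u13 := bf fun t => g37 u12 t
    have u14 := bf fun t => s2059 t n0 n1
    have u15 := bf fun t => g198 u9 g2011 t u14
    have u16 := bf fun t => g200 u9 g2011 t u14
    have u17 := bf fun t => g1860 u14 w2056 u12 t g2013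
    have u18 := bt fun t => g423 u10 u15 u11 t w2033 u13
    exact g670 n1 u16 u18 u3 u17
  have s2061 : T.X a x z b = true → T.X p a b x = true → False := fun n0 n1 => by
    have u0 := bt fun t => g2029 t w2056 n1
    have u1 := bf fun t => g13 n1 t
    have u2 := bf fun t => g2024 t n0 u1
    have u3 := bt fun t => g1239 g2011 t u2 n1 u0 n0
    have u4 := bf fun t => g387 t g2011 u2 u1 w2052 n0
    have u5 := bf fun t => g457 t u3 g2012 g2014
    have u6 := bf fun t => g1986 u4 t w2051
    exact g408 w2054 u5 u6
  have s2062 : T.X p a b x = true → False := fun n0 => by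
    have u0 := bf fun t => g13 n0 t
    have u1 := bt fun t => g2029 t w2056 n0
    have u2 := bf fun t => s2061 t n0
    have u3 := bf fun t => g1251 g2011 t n0 u1 w2056 u2
    exact g2023 u3 u2 u0
  have w2062 := bf s2062
  have s2063 := fun (n0 : T.X p x a z = true) => g1162 g2011 n0 w2062 w2052 w2056
  have w2063 := bf s2063
  have s2064 := fun (n0 : T.X p z b x = true) => g2027 n0 w2056 w2062
  have w2064 := bf s2064
  have s2065 := fun (n0 : T.alt p a b y x = true) => s2060 w2062 n0
  have w2065 := bf s2065
  have s2066 := fun (n0 : T.alt p a y b x = false) => g589 w2065 n0 w2051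
  have w2066 := bt s2066
  have s2068 := fun (n0 : T.alt p z y b x = false) => g2006 w2053 w2066 n0
  have w2068 := bt s2068
  have s2069 : T.X p z a x = false → T.X a x z b = false → False := fun n0 n1 => by
    have u0 := bt fun t => g2023 n0 n1 t
    have u1 := bf fun t => g15 u0 t
    have u2 := bf fun t => g381 t g2011 u0 n1
    have u3 := bf fun t => g1986 u2 t w2051
    have u4 := bt fun t => g408 w2054 t u3
    have u5 := bf fun t => g457 u4 t g2012 g2014
    have u6 := bt fun t => g1136 g2011 u5 u0 t n1
    have u7 := bf fun t => g455 u4 u5 n0 t w2033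
    have u8 := bf fun t => g820 w2068 u6 w2033 t
    have u9 := bt fun t => g814 w2068 w2064 g2014 t u8
    have u10 := bf fun t => g29 u9 t
    have u11 := bt fun t => g612 w2066 u1 g2012 u9 t
    have u12 := bt fun t => g609 w2066 u0 u7 u10 t
    exact g41 u11 u12
  have s2070 : T.X a x z b = false → False := fun n0 => by
    have u0 := bf fun t => g1164 g2011 t w2062 w2064 n0
    exact s2069 u0 n0
  have w2070 := bt s2070
  have s2071 := fun (n0 : T.X a b z x = true) => g36 n0 w2070
  have w2071 := bf s2071
  have s2072 : T.X p b a x = true → False := fun n0 => by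
    have u0 := bf fun t => g15 n0 t
    have u1 := bt fun t => g2026 t w2070 n0
    have u2 := bf fun t => g396 t w2031 w2032 u1 n0
    have u3 := bt fun t => g1214 u1 n0 w2064 t w2052 w2070
    have u4 := bf fun t => g1986 u2 t w2051
    have u5 := bf fun t => g820 w2068 u3 w2033 t
    have u6 := bt fun t => g1993 t u4 w2068
    have u7 := bt fun t => g408 w2054 t u4
    have u8 := bf fun t => g1659 t w2064 g2014 u5 g2013
    have u9 := bt fun t => g814 w2068 w2064 g2014 t u5
    have u10 := bt fun t => g431 u7 w2063 g2012 g2014 t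
    have u11 := bf fun t => g98 u6 g2011 t u8
    have u12 := bt fun t => g612 w2066 u0 g2012 u9 t
    have u13 := bf fun t => g38 u10 t
    have u14 := bf fun t => g1345 t w2063 g2012 w2034 u10
    have u15 := bf fun t => g1021 g2011 u14 u11 u8 t
    exact g1823 u15 w2070 u13 u12 g2013
  have w2072 := bf s2072
  have s2073 := fun (n0 : T.X p z a x = true) => g2024 n0 w2070 w2072
  have w2073 := bf s2073
  have s2074 := fun (n0 : T.alt p a x z b = true) => g387 n0 g2011 w2073 w2072 w2052 w2070
  have w2074 := bf s2074
  have s2075 := fun (n0 : T.X p x a b = true) => g1168 w2031 w2073 n0 w2052 w2070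
  have w2075 := bf s2075
  have s2076 := fun (n0 : T.alt p a x z y = true) => g1986 w2074 n0 w2051
  have w2076 := bf s2076
  have s2077 := fun (n0 : T.alt p a b z x = false) => g227 w2053 n0 w2074
  have w2077 := bt s2077
  have s2079 := fun (n0 : T.alt p a b z y = false) => g1993 n0 w2076 w2068
  have w2079 := bt s2079
  have s2080 := fun (n0 : T.alt p a y z x = false) => g408 w2054 n0 w2076
  have w2080 := bt s2080
  have s2081 := fun (n0 : T.X p a z x = true) => g457 w2080 n0 g2012 g2014
  have w2081 := bf s2081
  have s2082 := fun (n0 : T.X a z y x = false) => g431 w2080 w2063 g2012 g2014 n0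
  have w2082 := bt s2082
  have s2084 := fun (n0 : T.X p b z x = false) => g242 w2077 w2031 w2081 w2075 n0 w2071
  have w2084 := bt s2084
  have s2086 := fun (n0 : T.X a x z y = true) => g38 w2082 n0
  have w2086 := bf s2086
  have s2087 := fun (n0 : T.X p a z y = true) => g1345 n0 w2063 g2012 w2034 w2082
  have w2087 := bf s2087
  have s2088 := fun (n0 : T.X p y b x = true) => g820 w2068 w2084 w2033 n0
  have w2088 := bf s2088
  have s2089 := fun (n0 : T.X p y z b = true) => g1659 n0 w2064 g2014 w2088 g2013
  have w2089 := bf s2089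
  have s2090 := fun (n0 : T.X p b y x = false) => g814 w2068 w2064 g2014 n0 w2088
  have w2090 := bt s2090
  have s2091 := fun (n0 : T.X p y a b = true) => g98 w2079 g2011 n0 w2089
  have w2091 := bf s2091
  have s2093 := fun (n0 : T.X a b y x = false) => g612 w2066 w2075 g2012 w2090 n0
  have w2093 := bt s2093
  have s2095 := fun (n0 : T.X a b z y = true) => g1021 g2011 w2087 w2091 w2089 n0
  have w2095 := bf s2095
  exact g1823 w2095 w2070 w2086 w2093 g2013

theorem MT_sepa_0101 {p a z b y x : V} (hN : [p, a, z, b, y, x].Nodup) (h0 : T.X p a z b = true)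
    (h1 : T.X y x p a = false) (h2 : T.X y x z b = false) (h3 : T.X y x p z = true)
    (h4 : T.X y a p z = true → T.X y a z b = false → T.X y a b p = false → False)
    (h5 : T.X y a p z = false → T.X y a z b = true → T.X y a b p = false → False)
    (h6 : T.X y a p z = false → T.X y a z b = false → T.X y a b p = true → False)
    (h7 : T.X y a p z = true → T.X y a z b = true → T.X y a b p = true → False)
    (h8 : T.X y b p z = false → T.X y b z a = false → T.X y b a p = false → False)
    (h9 : T.X y b p z = true → T.X y b z a = true → T.X y b a p = false → False)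
    (h10 : T.X y b p z = true → T.X y b z a = false → T.X y b a p = true → False)
    (h11 : T.X y b p z = false → T.X y b z a = true → T.X y b a p = true → False)
    (h12 : T.X x a p z = true → T.X x a z b = false → T.X x a b p = false → False)
    (h13 : T.X x a p z = false → T.X x a z b = true → T.X x a b p = false → False)
    (h14 : T.X x a p z = false → T.X x a z b = false → T.X x a b p = true → False)
    (h15 : T.X x a p z = true → T.X x a z b = true → T.X x a b p = true → False)
    (h16 : T.X x b p z = false → T.X x b z a = false → T.X x b a p = false → False)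
    (h17 : T.X x b p z = true → T.X x b z a = true → T.X x b a p = false → False)
    (h18 : T.X x b p z = true → T.X x b z a = false → T.X x b a p = true → False)
    (h19 : T.X x b p z = false → T.X x b z a = true → T.X x b a p = true → False) : False := by
  have k0 : T.Ok5 p a z b y := T.n5 hN (.cons_cons _ (.cons_cons _ (.cons_cons _ (.cons_cons _ (.cons_cons _ (List.nil_sublist _))))))
  have k1 : T.Ok5 p a z b x := T.n5 hN (.cons_cons _ (.cons_cons _ (.cons_cons _ (.cons_cons _ (.cons _ (.cons_cons _ (List.nil_sublist _)))))))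
  have k2 : T.Ok5 p a z y x := T.n5 hN (.cons_cons _ (.cons_cons _ (.cons_cons _ (.cons _ (.cons_cons _ (.cons_cons _ (List.nil_sublist _)))))))
  have k3 : T.Ok5 p a b y x := T.n5 hN (.cons_cons _ (.cons_cons _ (.cons _ (.cons_cons _ (.cons_cons _ (.cons_cons _ (List.nil_sublist _)))))))
  have k4 : T.Ok5 p z b y x := T.n5 hN (.cons_cons _ (.cons _ (.cons_cons _ (.cons_cons _ (.cons_cons _ (.cons_cons _ (List.nil_sublist _)))))))
  have k5 : T.Ok5 a z b y x := T.n5 hN (.cons _ (.cons_cons _ (.cons_cons _ (.cons_cons _ (.cons_cons _ (.cons_cons _ (List.nil_sublist _)))))))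
  have sp0 : T.Sp5 p a z b y x := T.sp5 hN (.cons_cons _ (.cons_cons _ (.cons_cons _ (.cons_cons _ (.cons_cons _ (.cons_cons _ (List.nil_sublist _)))))))
  have g1 := T.q01 p a z b
  have g2 := T.q02 p a z b
  have g5 := T.q02 p a z y
  have g6 := T.q12 p a z y
  have g7 := T.q01 p a z x
  have g9 := T.q12 p a z x
  have g10 := T.q01 p a b y
  have g11 := T.q02 p a b y
  have g13 := T.q01 p a b x
  have g19 := T.q01 p z b y
  have g20 := T.q02 p z b y
  have g21 := T.q12 p z b y
  have g22 := T.q01 p z b x
  have g25 := T.q01 p z y x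
  have g26 := T.q02 p z y x
  have g29 := T.q02 p b y x
  have g31 := T.q01 a z b y
  have g32 := T.q02 a z b y
  have g35 := T.q02 a z b x
  have g37 := T.q01 a z y x
  have g38 := T.q02 a z y x
  have g46 := T.ae1 k0
  have g47 := T.ae01 k0
  have g57 := fun ha : T.alt p a b z y = true => zA1_16420_16416 (T.okA1 k0 ha)
  have g61 := fun ha : T.alt p a b z y = true => zA1_9482_0 (T.okA1 k0 ha)
  have g87 := fun ha : T.alt p a b z y = true => zA1_294_32 (T.okA1 k0 ha)
  have g98 := fun ha : T.alt p a b z y = true => zA1_2305_257 (T.okA1 k0 ha)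
  have g120 := fun ha : T.alt p a z b y = true => zA0_4708_0 (T.okA0 k0 ha)
  have g133 := fun ha : T.alt p a z b y = true => zA0_18449_1 (T.okA0 k0 ha)
  have g141 := fun ha : T.alt p a z b y = true => zA0_4192_96 (T.okA0 k0 ha)
  have g143 := fun ha : T.alt p a z b y = true => zA0_16513_129 (T.okA0 k0 ha)
  have g146 := fun ha : T.alt p a z b y = true => zA0_294_256 (T.okA0 k0 ha)
  have g155 := fun ha : T.alt p a z b y = true => zA0_656_640 (T.okA0 k0 ha)
  have g157 := fun ha : T.alt p a z b y = true => zA0_2081_33 (T.okA0 k0 ha)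
  have g159 := fun ha : T.alt p a z b y = true => zA0_18448_2064 (T.okA0 k0 ha)
  have g160 := fun ha : T.alt p a z b y = true => zA0_18577_16401 (T.okA0 k0 ha)
  have g187 := fun ha : T.alt p a y z b = true => zA2_4676_512 (T.okA2 k0 ha)
  have g188 := fun ha : T.alt p a y z b = true => zA2_8458_256 (T.okA2 k0 ha)
  have g197 := fun ha : T.alt p a y z b = true => zA2_18433_2049 (T.okA2 k0 ha)
  have g198 := fun ha : T.alt p a y z b = true => zA2_16401_17 (T.okA2 k0 ha)
  have g200 := fun ha : T.alt p a y z b = true => zA2_16513_129 (T.okA2 k0 ha)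
  have g212 := fun ha : T.alt p a y z b = true => zA2_164_160 (T.okA2 k0 ha)
  have g227 := T.ae1 k1
  have g230 := T.ae12 k1
  have g242 := fun ha : T.alt p a b z x = true => zA1_9482_0 (T.okA1 k1 ha)
  have g255 := fun ha : T.alt p a b z x = true => zA1_18561_1 (T.okA1 k1 ha)
  have g265 := fun ha : T.alt p a b z x = true => zA1_16401_17 (T.okA1 k1 ha)
  have g279 := fun ha : T.alt p a b z x = true => zA1_2305_257 (T.okA1 k1 ha)
  have g282 := fun ha : T.alt p a b z x = true => zA1_18577_16513 (T.okA1 k1 ha)
  have g309 := fun ha : T.alt p a z b x = true => zA0_9480_1024 (T.okA0 k1 ha)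
  have g314 := fun ha : T.alt p a z b x = true => zA0_18449_1 (T.okA0 k1 ha)
  have g327 := fun ha : T.alt p a z b x = true => zA0_294_256 (T.okA0 k1 ha)
  have g338 := fun ha : T.alt p a z b x = true => zA0_2081_33 (T.okA0 k1 ha)
  have g341 := fun ha : T.alt p a z b x = true => zA0_18577_16401 (T.okA0 k1 ha)
  have g370 := fun ha : T.alt p a x z b = true => zA2_4704_64 (T.okA2 k1 ha)
  have g378 := fun ha : T.alt p a x z b = true => zA2_18433_2049 (T.okA2 k1 ha)
  have g379 := fun ha : T.alt p a x z b = true => zA2_16401_17 (T.okA2 k1 ha)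
  have g381 := fun ha : T.alt p a x z b = true => zA2_16513_129 (T.okA2 k1 ha)
  have g391 := fun ha : T.alt p a x z b = true => zA2_2089_2049 (T.okA2 k1 ha)
  have g393 := fun ha : T.alt p a x z b = true => zA2_164_160 (T.okA2 k1 ha)
  have g394 := fun ha : T.alt p a x z b = true => zA2_577_513 (T.okA2 k1 ha)
  have g407 := fun ha : T.alt p a x z b = true => zA2_4708_4672 (T.okA2 k1 ha)
  have g408 := T.ae1 k2
  have g423 := fun ha : T.alt p a y z x = true => zA1_9482_0 (T.okA1 k2 ha)
  have g447 := fun ha : T.alt p a y z x = true => zA1_4612_516 (T.okA1 k2 ha)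
  have g457 := fun ha : T.alt p a y z x = true => zA1_584_520 (T.okA1 k2 ha)
  have g502 := fun ha : T.alt p a z y x = true => zA0_4612_516 (T.okA0 k2 ha)
  have g537 := fun ha : T.alt p a x z y = true => zA2_8228_8196 (T.okA2 k2 ha)
  have g541 := fun ha : T.alt p a x z y = true => zA2_18577_0 (T.okA2 k2 ha)
  have g546 := fun ha : T.alt p a x z y = true => zA2_9474_2 (T.okA2 k2 ha)
  have g549 := fun ha : T.alt p a x z y = true => zA2_4676_512 (T.okA2 k2 ha)
  have g565 := fun ha : T.alt p a x z y = true => zA2_4640_544 (T.okA2 k2 ha)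
  have g567 := fun ha : T.alt p a x z y = true => zA2_180_4 (T.okA2 k2 ha)
  have g575 := fun ha : T.alt p a x z y = true => zA2_577_513 (T.okA2 k2 ha)
  have g587 := fun ha : T.alt p a x z y = true => zA2_4708_4612 (T.okA2 k2 ha)
  have g591 := T.ae02 k3
  have g592 := T.ae12 k3
  have g636 := fun ha : T.alt p a y b x = true => zA1_1176_128 (T.okA1 k3 ha)
  have g638 := fun ha : T.alt p a y b x = true => zA1_584_520 (T.okA1 k3 ha)
  have g739 := fun ha : T.alt p a x b y = true => zA2_16528_144 (T.okA2 k3 ha)
  have g754 := fun ha : T.alt p a x b y = true => zA2_2307_256 (T.okA2 k3 ha)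
  have g756 := fun ha : T.alt p a x b y = true => zA2_577_513 (T.okA2 k3 ha)
  have g758 := fun ha : T.alt p a x b y = true => zA2_150_144 (T.okA2 k3 ha)
  have g770 := T.ae1 k4
  have g772 := T.ae02 k4
  have g773 := T.ae12 k4
  have g784 := fun ha : T.alt p z y b x = true => zA1_2307_2048 (T.okA1 k4 ha)
  have g795 := fun ha : T.alt p z y b x = true => zA1_4676_64 (T.okA1 k4 ha)
  have g809 := fun ha : T.alt p z y b x = true => zA1_4612_516 (T.okA1 k4 ha)
  have g823 := fun ha : T.alt p z y b x = true => zA1_4192_96 (T.okA1 k4 ha)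
  have g863 := fun ha : T.alt p z b y x = true => zA0_4164_68 (T.okA0 k4 ha)
  have g865 := fun ha : T.alt p z b y x = true => zA0_4192_96 (T.okA0 k4 ha)
  have g913 := fun ha : T.alt p z x b y = true => zA2_4704_64 (T.okA2 k4 ha)
  have g932 := fun ha : T.alt p z x b y = true => zA2_2625_64 (T.okA2 k4 ha)
  have g938 := fun ha : T.alt p z x b y = true => zA2_2306_2050 (T.okA2 k4 ha)
  have g941 := fun ha : T.alt p z x b y = true => zA2_4164_68 (T.okA2 k4 ha)
  have g980 := z5_10505_257 k0
  have g983 := z5_5196_5120 k0
  have g986 := z5_16977_513 k0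
  have g1021 := z5_10505_8193 k0
  have g1136 := z5_17545_129 k1
  have g1137 := z5_17545_1025 k1
  have g1150 := z5_10505_257 k1
  have g1175 := z5_6241_4097 k1
  have g1180 := z5_5196_1088 k1
  have g1191 := z5_10505_8193 k1
  have g1197 := z5_4756_640 k1
  have g1336 := z5_5196_4104 k2
  have g1337 := z5_18596_160 k2
  have g1341 := z5_8778_520 k2
  have g1342 := z5_8778_8704 k2
  have g1364 := z5_5196_12 k2
  have g1434 := MTz5_4914_4866 k2
  have g1554 := MTz5_20112_16528 k3
  have g1565 := z5_17428_17428 k3
  have g1657 := z5_4756_20 k4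
  have g1690 := z5_5196_1088 k4
  have g1808 := z5_40_40 k5
  have g1974 := zsp_73_8 sp0
  have g1980 := zsp_1156_4 sp0
  have g1984 := zsp_2336_32 sp0
  have g1985 := zsp_2336_2048 sp0
  have g1990 := zsp_4132_32 sp0
  have g1992 := zsp_8450_2 sp0
  have g1993 := zsp_8450_8192 sp0
  have g1994 := zsp_8450_256 sp0
  have g1996 := zsp_16528_16 sp0
  have g1998 := zsp_16528_128 sp0
  have g1999 := zsp_18433_18433 sp0
  have g2000 := zsp_18433_1 sp0
  have g2001 := zsp_18433_16384 sp0
  have g2002 := zsp_18433_2048 sp0
  have g2005 := zsp_9224_8192 sp0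
  have g2008 := zsp_4672_64 sp0
  have g2011 : T.X p a z b = true := h0
  have g2012 : T.X p a y x = false := ((T.xs4 y x p a).symm.trans h1)
  have g2013 : T.X z b y x = false := ((T.xs4 y x z b).symm.trans h2)
  have g2014 : T.X p z y x = true := ((T.xs4 y x p z).symm.trans h3)
  have g2015 := fun (n0 : T.X p z a y = true) (n1 : T.X a y z b = false) (n2 : T.X p b a y = false) => h4 ((T.xs6 y a p z).trans n0) ((T.xs1 y a z b).trans n1) ((T.xs7 y a b p).trans n2)
  have g2016 := fun (n0 : T.X p z a y = false) (n1 : T.X a y z b = true) (n2 : T.X p b a y = false) => h5 ((T.xs6 y a p z).trans n0) ((T.xs1 y a z b).trans n1) ((T.xs7 y a b p).trans n2)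
  have g2018 := fun (n0 : T.X p z a y = true) (n1 : T.X a y z b = true) (n2 : T.X p b a y = true) => h7 ((T.xs6 y a p z).trans n0) ((T.xs1 y a z b).trans n1) ((T.xs7 y a b p).trans n2)
  have g2019 := fun (n0 : T.X p z b y = false) (n1 : T.X a z b y = false) (n2 : T.X p a b y = false) => h8 ((T.xs6 y b p z).trans n0) ((T.xs7 y b z a).trans n1) ((T.xs7 y b a p).trans n2)
  have g2023 := fun (n0 : T.X p z a x = true) (n1 : T.X a x z b = false) (n2 : T.X p b a x = false) => h12 ((T.xs6 x a p z).trans n0) ((T.xs1 x a z b).trans n1) ((T.xs7 x a b p).trans n2)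
  have g2024 := fun (n0 : T.X p z a x = false) (n1 : T.X a x z b = true) (n2 : T.X p b a x = false) => h13 ((T.xs6 x a p z).trans n0) ((T.xs1 x a z b).trans n1) ((T.xs7 x a b p).trans n2)
  have g2025 := fun (n0 : T.X p z a x = false) (n1 : T.X a x z b = false) (n2 : T.X p b a x = true) => h14 ((T.xs6 x a p z).trans n0) ((T.xs1 x a z b).trans n1) ((T.xs7 x a b p).trans n2)
  have g2026 := fun (n0 : T.X p z a x = true) (n1 : T.X a x z b = true) (n2 : T.X p b a x = true) => h15 ((T.xs6 x a p z).trans n0) ((T.xs1 x a z b).trans n1) ((T.xs7 x a b p).trans n2)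
  have g2027 := fun (n0 : T.X p z b x = false) (n1 : T.X a z b x = false) (n2 : T.X p a b x = false) => h16 ((T.xs6 x b p z).trans n0) ((T.xs7 x b z a).trans n1) ((T.xs7 x b a p).trans n2)
  have g2029 := fun (n0 : T.X p z b x = true) (n1 : T.X a z b x = false) (n2 : T.X p a b x = true) => h18 ((T.xs6 x b p z).trans n0) ((T.xs7 x b z a).trans n1) ((T.xs7 x b a p).trans n2)
  have g2030 := fun (n0 : T.X p z b x = false) (n1 : T.X a z b x = true) (n2 : T.X p a b x = true) => h19 ((T.xs6 x b p z).trans n0) ((T.xs7 x b z a).trans n1) ((T.xs7 x b a p).trans n2)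
  have s2031 := fun (n0 : T.X p z a b = true) => g1 g2011 n0
  have w2031 := bf s2031
  have s2032 := fun (n0 : T.X p b a z = true) => g2 g2011 n0
  have w2032 := bf s2032
  have s2033 := fun (n0 : T.X p y z x = true) => g25 g2014 n0
  have w2033 := bf s2033
  have s2034 := fun (n0 : T.X p x z y = true) => g26 g2014 n0
  have w2034 := bf s2034
  have s2035 : T.alt p a x z y = true → T.alt p a x b y = true → T.alt p z x b y = true → False := fun n0 n1 n2 => by
    have u0 := bf fun t => g941 n2 t g2014 g2013
    have u1 := bf fun t => g773 t n2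
    have u2 := bf fun t => g575 n0 t g2012 g2014
    have u3 := bt fun t => g1994 t n0 u1
    have u4 := bf fun t => g98 u3 g2011 t u0
    have u5 := bf fun t => g1021 g2011 u2 u4 u0 t
    have u6 := bt fun t => g61 u3 w2031 u2 u4 t u5
    have u7 := bf fun t => g19 t u6
    have u8 := bf fun t => g938 n2 u6 w2034 t
    have u9 := bt fun t => g932 n2 u7 g2014 t u8
    have u10 := bf fun t => g756 n1 t g2012 u9
    have u11 := bf fun t => g983 w2032 u2 u10 u6 t
    exact g2019 u7 u11 u10
  have s2036 : T.X p a b y = false → T.X a z b y = false → T.alt p a y z b = true → False := fun n0 n1 n2 => by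
    have u0 := bt fun t => g2019 t n1 n0
    exact g187 n2 w2032 n0 u0 n1
  have s2037 : T.X p x z b = true → T.X p a z x = false → T.alt p a x z b = true → False := fun n0 n1 n2 => by
    have u0 := bt fun t => g378 n2 g2011 n0 t
    have u1 := bt fun t => g391 n2 g2011 n1 t n0
    have u2 := bf fun t => g9 t u1
    have u3 := bf fun t => g393 n2 w2032 u1 t
    exact g2024 u2 u0 u3
  have s2038 : T.alt p a x b y = true → T.alt p z x b y = true → False := fun n0 n1 => by
    have u0 := bf fun t => g773 t n1
    have u1 := bf fun t => g772 t n1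
    have u2 := bf fun t => g591 t n0
    have u3 := bf fun t => g1999 t n0 n1
    have u4 := bf fun t => g2008 t u2 u1
    have u5 := bf fun t => s2035 t n0 n1
    have u6 := bf fun t => g1992 t u5 u0
    have u7 := bt fun t => g1985 t u5 n0
    have u8 := bt fun t => g408 u4 t u5
    have u9 := bt fun t => g46 u3 u6 t
    have u10 := bf fun t => g457 u8 t g2012 g2014
    have u11 := bf fun t => s2037 t u10 u7
    have u12 := bt fun t => g913 n1 u11 g2014 t g2013
    have u13 := bf fun t => g29 u12 t
    have u14 := bf fun t => g756 n0 t g2012 u12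
    have u15 := bt fun t => s2036 u14 t u9
    have u16 := bf fun t => g32 u15 t
    have u17 := bf fun t => g198 u9 g2011 t u16
    have u18 := bf fun t => g200 u9 g2011 t u16
    have u19 := bf fun t => g1342 u17 u10 g2012 g2014 t
    have u20 := bf fun t => g754 n0 u14 u18 t u13
    exact g423 u8 u17 u10 u20 w2033 u19
  have s2040 : T.X a x z b = false → T.X p b z x = true → T.X p a z x = false → T.alt p a b z x = true → False := fun n0 n1 n2 n3 => by
    have u0 := bf fun t => g265 n3 g2011 t n0
    have u1 := bt fun t => g1137 g2011 n2 t n1 n0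
    exact g2025 u0 n0 u1
  have s2041 : T.X a b z x = false → T.X p a z x = false → T.X p x a b = false → T.alt p a b z x = true → False := fun n0 n1 n2 n3 => by
    have u0 := bt fun t => g242 n3 w2031 n1 n2 t n0
    have u1 := bf fun t => g22 t u0
    have u2 := bt fun t => s2040 t u0 n1 n3
    have u3 := bf fun t => g35 t u2
    have u4 := bt fun t => g2027 u1 u3 t
    exact g1180 w2032 n1 u4 u0 u3
  have s2042 : T.X p a z x = false → T.alt p a b z x = true → T.X p x z b = false → False := fun n0 n1 n2 => by
    have u0 := bf fun t => g279 n1 g2011 t n2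
    have u1 := bf fun t => g1191 g2011 n0 u0 n2 t
    exact s2041 u1 n0 u0 n1
  have s2043 : T.X a x z b = true → T.X p z a x = false → T.alt p a b z x = true → T.X p x z b = false → False := fun n0 n1 n2 n3 => by
    have u0 := bf fun t => g282 n2 g2011 n1 t n3 n0
    exact g2024 n1 n0 u0
  have s2044 : T.X p z a x = false → T.X p x z b = false → T.alt p a b z x = true → False := fun n0 n1 n2 => by
    have u0 := bf fun t => s2043 t n0 n2 n1
    have u1 := bt fun t => g255 n2 g2011 t n1 u0
    exact g2025 n0 u0 u1
  have s2045 : T.alt p a b z x = true → T.X p x z b = false → False := fun n0 n1 => by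
    have u0 := bt fun t => s2042 t n0 n1
    have u1 := bf fun t => g7 u0 t
    exact s2044 u1 n1 n0
  have s2047 : T.X a y z b = false → T.alt p a z b y = true → T.X p y z b = false → False := fun n0 n1 n2 => by
    have u0 := bt fun t => g133 n1 g2011 t n2 n0
    have u1 := bf fun t => g143 n1 g2011 t n0
    exact g2015 u0 n0 u1
  have s2048 : T.X p b a y = false → T.X a y z b = true → T.alt p a z b y = true → T.X p y z b = false → False := fun n0 n1 n2 n3 => by
    have u0 := bf fun t => g160 n2 g2011 t n0 n3 n1
    exact g2016 u0 n1 n0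
  have s2050 : T.alt p a z b y = true → T.X p y z b = false → False := fun n0 n1 => by
    have u0 := bf fun t => g157 n0 g2011 t n1
    have u1 := bt fun t => s2047 t n0 n1
    have u2 := bt fun t => s2048 t u1 n0 n1
    have u3 := bf fun t => g2018 t u1 u2
    have u4 := bf fun t => g10 t u2
    have u5 := bf fun t => g32 t u1
    have u6 := bf fun t => g155 n0 u3 u2 t
    exact g120 n0 w2032 u0 u4 u6 u5
  have s2051 : T.alt p z x b y = true → False := fun n0 => by
    have u0 := bf fun t => g941 n0 t g2014 g2013
    have u1 := bf fun t => s2038 t n0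
    have u2 := bt fun t => g2001 t u1 n0
    exact s2050 u2 u0
  have w2051 := bf s2051
  have s2052 : T.X a x z b = false → T.X p z a x = true → T.X p a z x = false → T.X p b z x = false → False := fun n0 n1 n2 n3 => by
    have u0 := bf fun t => g1136 g2011 n2 t n3 n0
    exact g2023 n1 n0 u0
  have s2053 : T.X a y z b = true → T.alt p a z b y = true → False := fun n0 n1 => by
    have u0 := bt fun t => s2050 n1 t
    have u1 := bf fun t => g863 t u0 g2014 g2013
    have u2 := bt fun t => g770 u1 t w2051
    have u3 := bf fun t => g809 u2 u0 t g2013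
    have u4 := bf fun t => g1657 u0 t w2033 u3 g2013
    have u5 := bf fun t => g823 u2 t g2014 g2013
    have u6 := bt fun t => g2000 n1 t w2051
    have u7 := bf fun t => g592 t u6
    have u8 := bt fun t => g2005 t u7 u2
    have u9 := bf fun t => g338 u8 g2011 t u5
    have u10 := bf fun t => g47 n1 t
    have u11 := bt fun t => g1993 u10 t u2
    have u12 := bf fun t => g20 t u0
    have u13 := bf fun t => g32 t n0
    have u14 := bt fun t => g2019 u12 u13 t
    have u15 := bf fun t => g10 u14 t
    have u16 := bf fun t => g141 n1 t u14 u13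
    have u17 := bt fun t => g2016 t n0 u15
    have u18 := bt fun t => g549 u11 u16 g2012 g2014 t
    have u19 := bf fun t => g37 u18 t
    have u20 := bf fun t => g1336 u16 t g2012 w2033 u18
    have u21 := bt fun t => g546 u11 u17 t w2033 u19
    have u22 := bt fun t => g1434 u17 t u9 u21 g2014 u18
    have u23 := bt fun t => s2052 t u22 u20 u4
    have u24 := bf fun t => g2026 u22 u23 t
    exact g341 u8 g2011 u22 u24 u5 u23
  have s2054 : T.X p z a x = true → T.X p a z x = false → T.alt p a z b y = true → False := fun n0 n1 n2 => by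
    have u0 := bt fun t => s2050 n2 t
    have u1 := bf fun t => g863 t u0 g2014 g2013
    have u2 := bt fun t => g770 u1 t w2051
    have u3 := bf fun t => g809 u2 u0 t g2013
    have u4 := bf fun t => g1657 u0 t w2033 u3 g2013
    have u5 := bf fun t => g823 u2 t g2014 g2013
    have u6 := bt fun t => g2000 n2 t w2051
    have u7 := bf fun t => g592 t u6
    have u8 := bt fun t => g2005 t u7 u2
    have u9 := bt fun t => s2052 t n0 n1 u4
    have u10 := bf fun t => g2026 n0 u9 t
    exact g341 u8 g2011 n0 u10 u5 u9
  have s2055 : T.X p y a z = false → T.alt p a z b y = true → False := fun n0 n1 => by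
    have u0 := bf fun t => s2053 t n1
    have u1 := bf fun t => g143 n1 g2011 t u0
    have u2 := bf fun t => g47 n1 t
    have u3 := bt fun t => s2050 n1 t
    have u4 := bf fun t => g863 t u3 g2014 g2013
    have u5 := bt fun t => g770 u4 t w2051
    have u6 := bt fun t => g1993 u2 t u5
    have u7 := bf fun t => g575 u6 t g2012 g2014
    have u8 := bf fun t => g823 u5 t g2014 g2013
    have u9 := bt fun t => g2000 n1 t w2051
    have u10 := bf fun t => g592 t u9
    have u11 := bt fun t => g2005 t u10 u5
    have u12 := bt fun t => g549 u6 n0 g2012 g2014 t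
    have u13 := bf fun t => g146 n1 w2031 w2032 n0 t
    have u14 := bf fun t => g38 u12 t
    have u15 := bf fun t => g1336 n0 t g2012 w2033 u12
    have u16 := bf fun t => s2054 t u15 n1
    have u17 := bt fun t => g541 u6 u7 u16 t w2034 u14
    have u18 := bt fun t => g314 u11 g2011 u16 u8 t
    have u19 := bf fun t => g758 u9 u1 u13 t u17
    exact g2024 u16 u18 u19
  have s2056 : T.alt p a z b y = true → False := fun n0 => by
    have u0 := bf fun t => g47 n0 t
    have u1 := bt fun t => s2050 n0 t
    have u2 := bt fun t => g2000 n0 t w2051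
    have u3 := bf fun t => g20 t u1
    have u4 := bf fun t => g21 t u1
    have u5 := bf fun t => g863 t u1 g2014 g2013
    have u6 := bf fun t => g592 t u2
    have u7 := bt fun t => g770 u5 t w2051
    have u8 := bt fun t => g2005 t u6 u7
    have u9 := bf fun t => g784 u7 u3 u4 w2034 t
    have u10 := bf fun t => g809 u7 u1 t g2013
    have u11 := bf fun t => g823 u7 t g2014 g2013
    have u12 := bt fun t => g1993 u0 t u7
    have u13 := bf fun t => g338 u8 g2011 t u11
    have u14 := bf fun t => s2053 t n0
    have u15 := bf fun t => g143 n0 g2011 t u14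
    have u16 := bf fun t => g159 n0 t u1 u14
    have u17 := bt fun t => s2055 t n0
    have u18 := bf fun t => g537 u12 u17 u13 t
    have u19 := bf fun t => g1341 u16 t g2012 g2014 u18
    have u20 := bf fun t => s2054 t u19 n0
    have u21 := bt fun t => g314 u8 g2011 u20 u11 t
    have u22 := bt fun t => g567 u12 u17 u20 u13 t
    have u23 := bt fun t => g2024 u20 u21 t
    have u24 := bt fun t => g739 u2 u23 u22 t
    have u25 := bt fun t => g758 u2 u15 t u23 u22
    have u26 := bt fun t => g1554 u23 u22 u10 t u9 u24
    exact g1565 u25 u23 u26 u24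
  have w2056 := bf s2056
  have s2057 := fun (n0 : T.alt p a x b y = true) => g2002 w2056 n0 w2051
  have w2057 := bf s2057
  have s2058 : T.X a x z b = true → T.X p z a x = false → False := fun n0 n1 => by
    have u0 := bf fun t => g35 t n0
    have u1 := bt fun t => g2024 n1 n0 t
    have u2 := bf fun t => g13 t u1
    have u3 := bf fun t => g1197 w2032 n1 u1 t u0
    exact g2027 u3 u0 u2
  have s2059 : T.X p z b x = false → T.X a z b x = false → T.X p x a z = false → T.alt p a x z b = true → False := fun n0 n1 n2 n3 => by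
    have u0 := bt fun t => g2027 n0 n1 t
    exact g370 n3 n2 u0 n0 n1
  have s2060 : T.X a z b x = false → T.alt p a x z b = true → T.X p x a z = false → False := fun n0 n1 n2 => by
    have u0 := bt fun t => s2059 t n0 n2 n1
    have u1 := bf fun t => g2029 u0 n0 t
    exact g394 n1 g2011 u1 u0
  have s2061 : T.X p a b x = true → T.X a z b x = true → T.alt p a x z b = true → T.X p x a z = false → False := fun n0 n1 n2 n3 => by
    have u0 := bf fun t => g407 n2 w2032 n3 n0 t n1
    exact g2030 u0 n1 n0
  have s2062 : T.X a z y x = false → T.X p y a z = true → False := fun n0 n1 => by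
    have u0 := bf fun t => g447 t n1 g2014 n0
    have u1 := bf fun t => g1364 n1 t g2012 w2033 n0
    have u2 := bf fun t => g502 t n1 g2014 n0
    have u3 := bf fun t => g1996 t u0 w2051
    have u4 := bf fun t => g1974 w2056 t u2
    have u5 := bt fun t => g408 u2 u0 t
    have u6 := bt fun t => g227 u4 u3 t
    have u7 := bf fun t => g565 u5 t g2014 n0
    have u8 := bf fun t => s2037 t u1 u6
    have u9 := bt fun t => s2060 t u6 u7
    have u10 := bt fun t => g1175 g2011 u7 t u8 u9
    exact s2061 u10 u9 u6 u7
  have s2063 : T.X p y a b = true → T.X a y z b = false → T.alt p a x z b = true → T.X p y a z = true → False := fun n0 n1 n2 n3 => by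
    have u0 := bf fun t => g6 t n3
    have u1 := bf fun t => g5 t n3
    have u2 := bf fun t => g11 t n0
    have u3 := bf fun t => g986 g2011 u0 u2 t n1
    have u4 := bt fun t => g2019 u3 t u2
    have u5 := bf fun t => g31 u4 t
    have u6 := bt fun t => g980 g2011 u1 n0 t u5
    have u7 := bf fun t => g188 t w2031 u1 n0 u5
    have u8 := bf fun t => g863 t u6 g2014 g2013
    exact g1990 u7 n2 u8
  have s2064 : T.X a y z b = false → T.alt p a x z y = true → T.alt p a x z b = true → T.alt p a y z x = false → T.X p a b x = true → T.X p y a z = true → False := fun n0 n1 n2 n3 n4 n5 => by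
    have u0 := bf fun t => s2063 t n0 n2 n5
    have u1 := bf fun t => g87 t w2031 w2032 n5 u0
    have u2 := bt fun t => g46 w2056 u1 t
    have u3 := bt fun t => g1994 u1 n1 t
    have u4 := bf fun t => g197 u2 g2011 t n0
    have u5 := bt fun t => g1980 u2 n3 t
    have u6 := bt fun t => g795 u3 u4 g2014 t g2013
    exact g638 u5 n4 g2012 u6
  have s2065 : T.X a y z b = true → T.X p y a z = true → False := fun n0 n1 => by
    have u0 := bf fun t => g6 t n1
    have u1 := bf fun t => g57 t w2032 n1 n0
    have u2 := bt fun t => g2016 u0 n0 t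
    have u3 := bt fun t => g46 w2056 u1 t
    exact g212 u3 w2032 n1 u2
  have s2066 : T.alt p a x z b = true → T.X a x z b = false → T.X p y a z = true → False := fun n0 n1 n2 => by
    have u0 := bf fun t => s2065 t n2
    have u1 := bt fun t => s2062 t n2
    have u2 := bf fun t => g38 u1 t
    have u3 := bf fun t => g5 t n2
    have u4 := bf fun t => g230 t n0
    have u5 := bt fun t => g1984 n0 t w2057
    have u6 := bf fun t => g379 n0 g2011 t n1
    have u7 := bf fun t => g381 n0 g2011 t n1
    have u8 := bf fun t => s2063 t u0 n0 n2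
    have u9 := bf fun t => g1998 u4 t w2051
    have u10 := bt fun t => g541 u5 u3 u6 t w2034 u2
    have u11 := bf fun t => g87 t w2031 w2032 n2 u8
    have u12 := bf fun t => s2064 u0 u5 n0 u9 t n2
    have u13 := bt fun t => g46 w2056 u11 t
    have u14 := bf fun t => g394 n0 g2011 u12 t
    have u15 := bf fun t => g197 u13 g2011 t u0
    have u16 := bt fun t => g1980 u13 u9 t
    have u17 := bf fun t => g1690 u15 u14 g2014 t g2013
    exact g636 u16 u12 u7 u10 u17
  have s2067 : T.X p x z b = false → T.alt p a x z b = false → T.X a x z b = false → T.X a b z x = false → T.X p a z x = false → False := fun n0 n1 n2 n3 n4 => by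
    have u0 := bf fun t => s2045 t n0
    have u1 := bf fun t => g1150 g2011 n4 t n0 n3
    have u2 := bt fun t => g227 t u0 n1
    have u3 := bf fun t => g309 u2 n4 u1 t n3
    have u4 := bt fun t => g314 u2 g2011 t n0 n2
    exact s2052 n2 u4 n4 u3
  have s2068 : T.X p x z b = true → False := fun n0 => by
    have u0 := bf fun t => g823 t n0 g2014 g2013
    have u1 := bf fun t => g865 t n0 g2014 g2013
    exact g770 u1 u0 w2051
  have w2068 := bf s2068
  have s2069 := fun (n0 : T.alt p a b z x = true) => s2045 n0 w2068
  have w2069 := bf s2069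
  have s2071 : T.alt p a x z b = false → T.X p a z x = false → False := fun n0 n1 => by
    have u0 := bt fun t => g227 t w2069 n0
    have u1 := bf fun t => g338 u0 g2011 t w2068
    have u2 := bf fun t => g327 u0 w2031 w2032 u1 t
    have u3 := bf fun t => g1191 g2011 n1 u2 w2068 t
    have u4 := bt fun t => s2067 w2068 n0 t u3 n1
    have u5 := bt fun t => s2058 u4 t
    have u6 := bf fun t => g2026 u5 u4 t
    exact g341 u0 g2011 u5 u6 w2068 u4
  have s2072 : T.X p y a z = true → False := fun n0 => by
    have u0 := bf fun t => g6 t n0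
    have u1 := bt fun t => s2062 t n0
    have u2 := bf fun t => g37 u1 t
    have u3 := bf fun t => g1341 u0 t g2012 g2014 u2
    have u4 := bt fun t => s2071 t u3
    have u5 := bt fun t => g1984 u4 t w2057
    have u6 := bt fun t => s2066 u4 t n0
    have u7 := bt fun t => g587 u5 n0 t g2012 g2014 u1
    have u8 := bt fun t => s2058 u6 t
    exact g9 u8 u7
  have w2072 := bf s2072
  have s2073 : T.X p z a x = true → T.alt p a x z b = true → False := fun n0 n1 => by
    have u0 := bf fun t => g9 n0 t
    have u1 := bt fun t => g379 n1 g2011 n0 t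
    have u2 := bt fun t => s2060 t n1 u0
    exact g1808 u2 u1
  have s2074 : T.X p x a z = false → T.alt p a x z b = true → False := fun n0 n1 => by
    have u0 := bt fun t => s2060 t n1 n0
    have u1 := bt fun t => g1175 g2011 n0 t w2068 u0
    exact s2061 u1 u0 n1 n0
  have s2075 : T.alt p a x z b = true → False := fun n0 => by
    have u0 := bt fun t => g1984 n0 t w2057
    have u1 := bf fun t => g575 u0 t g2012 g2014
    have u2 := bt fun t => g549 u0 w2072 g2012 g2014 t
    have u3 := bf fun t => g38 u2 t
    have u4 := bf fun t => s2073 t n0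
    have u5 := bt fun t => g541 u0 u1 u4 t w2034 u3
    have u6 := bf fun t => g1337 w2072 t u5 w2034 u3
    exact s2074 u6 n0
  have w2075 := bf s2075
  have s2077 := fun (n0 : T.alt p a z b x = false) => g227 n0 w2069 w2075
  have w2077 := bt s2077
  have s2078 := fun (n0 : T.X p a z x = false) => s2071 w2075 n0
  have w2078 := bt s2078
  have s2081 := fun (n0 : T.X p z a x = true) => g7 w2078 n0
  have w2081 := bf s2081
  have s2084 := fun (n0 : T.X a x z b = false) => g314 w2077 g2011 w2081 w2068 n0
  have w2084 := bt s2084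
  exact s2058 w2084 w2081

theorem MT_sepa_0100 {p a z b y x : V} (hN : [p, a, z, b, y, x].Nodup) (h0 : T.X p a z b = true)
    (h1 : T.X y x p a = false) (h2 : T.X y x z b = false) (h3 : T.X y x p z = true)
    (h4 : T.X y a p z = true → T.X y a z b = false → T.X y a b p = false → False)
    (h5 : T.X y a p z = false → T.X y a z b = true → T.X y a b p = false → False)
    (h6 : T.X y a p z = false → T.X y a z b = false → T.X y a b p = true → False)
    (h7 : T.X y a p z = true → T.X y a z b = true → T.X y a b p = true → False)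
    (h8 : T.X y b p z = false → T.X y b z a = false → T.X y b a p = false → False)
    (h9 : T.X y b p z = true → T.X y b z a = true → T.X y b a p = false → False)
    (h10 : T.X y b p z = true → T.X y b z a = false → T.X y b a p = true → False)
    (h11 : T.X y b p z = false → T.X y b z a = true → T.X y b a p = true → False)
    (h12 : T.X x a p z = true → T.X x a z b = false → T.X x a b p = false → False)
    (h13 : T.X x a p z = false → T.X x a z b = true → T.X x a b p = false → False)
    (h14 : T.X x a p z = false → T.X x a z b = false → T.X x a b p = true → False)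
    (h15 : T.X x a p z = true → T.X x a z b = true → T.X x a b p = true → False)
    (h16 : T.X x b p z = true → T.X x b z a = false → T.X x b a p = false → False)
    (h17 : T.X x b p z = false → T.X x b z a = true → T.X x b a p = false → False)
    (h18 : T.X x b p z = false → T.X x b z a = false → T.X x b a p = true → False)
    (h19 : T.X x b p z = true → T.X x b z a = true → T.X x b a p = true → False) : False := by
  have k0 : T.Ok5 p a z b y := T.n5 hN (.cons_cons _ (.cons_cons _ (.cons_cons _ (.cons_cons _ (.cons_cons _ (List.nil_sublist _))))))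
  have k1 : T.Ok5 p a z b x := T.n5 hN (.cons_cons _ (.cons_cons _ (.cons_cons _ (.cons_cons _ (.cons _ (.cons_cons _ (List.nil_sublist _)))))))
  have k2 : T.Ok5 p a z y x := T.n5 hN (.cons_cons _ (.cons_cons _ (.cons_cons _ (.cons _ (.cons_cons _ (.cons_cons _ (List.nil_sublist _)))))))
  have k3 : T.Ok5 p a b y x := T.n5 hN (.cons_cons _ (.cons_cons _ (.cons _ (.cons_cons _ (.cons_cons _ (.cons_cons _ (List.nil_sublist _)))))))
  have k4 : T.Ok5 p z b y x := T.n5 hN (.cons_cons _ (.cons _ (.cons_cons _ (.cons_cons _ (.cons_cons _ (.cons_cons _ (List.nil_sublist _)))))))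
  have k5 : T.Ok5 a z b y x := T.n5 hN (.cons _ (.cons_cons _ (.cons_cons _ (.cons_cons _ (.cons_cons _ (.cons_cons _ (List.nil_sublist _)))))))
  have sp0 : T.Sp5 p a z b y x := T.sp5 hN (.cons_cons _ (.cons_cons _ (.cons_cons _ (.cons_cons _ (.cons_cons _ (.cons_cons _ (List.nil_sublist _)))))))
  have g1 := T.q01 p a z b
  have g2 := T.q02 p a z b
  have g4 := T.q01 p a z y
  have g5 := T.q02 p a z y
  have g6 := T.q12 p a z y
  have g9 := T.q12 p a z x
  have g10 := T.q01 p a b y
  have g11 := T.q02 p a b y
  have g13 := T.q01 p a b x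
  have g19 := T.q01 p z b y
  have g20 := T.q02 p z b y
  have g21 := T.q12 p z b y
  have g22 := T.q01 p z b x
  have g23 := T.q02 p z b x
  have g25 := T.q01 p z y x
  have g26 := T.q02 p z y x
  have g28 := T.q01 p b y x
  have g29 := T.q02 p b y x
  have g31 := T.q01 a z b y
  have g32 := T.q02 a z b y
  have g33 := T.q12 a z b y
  have g35 := T.q02 a z b x
  have g37 := T.q01 a z y x
  have g46 := T.ae1 k0
  have g49 := T.ae12 k0
  have g61 := fun ha : T.alt p a b z y = true => zA1_9482_0 (T.okA1 k0 ha)
  have g69 := fun ha : T.alt p a b z y = true => zA1_4704_512 (T.okA1 k0 ha)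
  have g71 := fun ha : T.alt p a b z y = true => zA1_4676_64 (T.okA1 k0 ha)
  have g74 := fun ha : T.alt p a b z y = true => zA1_18561_1 (T.okA1 k0 ha)
  have g87 := fun ha : T.alt p a b z y = true => zA1_294_32 (T.okA1 k0 ha)
  have g98 := fun ha : T.alt p a b z y = true => zA1_2305_257 (T.okA1 k0 ha)
  have g133 := fun ha : T.alt p a z b y = true => zA0_18449_1 (T.okA0 k0 ha)
  have g155 := fun ha : T.alt p a z b y = true => zA0_656_640 (T.okA0 k0 ha)
  have g188 := fun ha : T.alt p a y z b = true => zA2_8458_256 (T.okA2 k0 ha)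
  have g189 := fun ha : T.alt p a y z b = true => zA2_4704_64 (T.okA2 k0 ha)
  have g190 := fun ha : T.alt p a y z b = true => zA2_4708_4096 (T.okA2 k0 ha)
  have g197 := fun ha : T.alt p a y z b = true => zA2_18433_2049 (T.okA2 k0 ha)
  have g213 := fun ha : T.alt p a y z b = true => zA2_577_513 (T.okA2 k0 ha)
  have g227 := T.ae1 k1
  have g242 := fun ha : T.alt p a b z x = true => zA1_9482_0 (T.okA1 k1 ha)
  have g268 := fun ha : T.alt p a b z x = true => zA1_294_32 (T.okA1 k1 ha)
  have g279 := fun ha : T.alt p a b z x = true => zA1_2305_257 (T.okA1 k1 ha)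
  have g301 := fun ha : T.alt p a z b x = true => zA0_4708_0 (T.okA0 k1 ha)
  have g314 := fun ha : T.alt p a z b x = true => zA0_18449_1 (T.okA0 k1 ha)
  have g338 := fun ha : T.alt p a z b x = true => zA0_2081_33 (T.okA0 k1 ha)
  have g341 := fun ha : T.alt p a z b x = true => zA0_18577_16401 (T.okA0 k1 ha)
  have g372 := fun ha : T.alt p a x z b = true => zA2_4196_32 (T.okA2 k1 ha)
  have g378 := fun ha : T.alt p a x z b = true => zA2_18433_2049 (T.okA2 k1 ha)
  have g391 := fun ha : T.alt p a x z b = true => zA2_2089_2049 (T.okA2 k1 ha)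
  have g408 := T.ae1 k2
  have g411 := T.ae12 k2
  have g423 := fun ha : T.alt p a y z x = true => zA1_9482_0 (T.okA1 k2 ha)
  have g431 := fun ha : T.alt p a y z x = true => zA1_4704_512 (T.okA1 k2 ha)
  have g457 := fun ha : T.alt p a y z x = true => zA1_584_520 (T.okA1 k2 ha)
  have g487 := fun ha : T.alt p a z y x = true => zA0_18576_128 (T.okA0 k2 ha)
  have g489 := fun ha : T.alt p a z y x = true => zA0_9474_256 (T.okA0 k2 ha)
  have g502 := fun ha : T.alt p a z y x = true => zA0_4612_516 (T.okA0 k2 ha)
  have g573 := fun ha : T.alt p a x z y = true => zA2_2307_256 (T.okA2 k2 ha)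
  have g575 := fun ha : T.alt p a x z y = true => zA2_577_513 (T.okA2 k2 ha)
  have g589 := T.ae1 k3
  have g604 := fun ha : T.alt p a y b x = true => zA1_9482_0 (T.okA1 k3 ha)
  have g612 := fun ha : T.alt p a y b x = true => zA1_4704_512 (T.okA1 k3 ha)
  have g630 := fun ha : T.alt p a y b x = true => zA1_294_32 (T.okA1 k3 ha)
  have g638 := fun ha : T.alt p a y b x = true => zA1_584_520 (T.okA1 k3 ha)
  have g639 := fun ha : T.alt p a y b x = true => zA1_1168_1040 (T.okA1 k3 ha)
  have g689 := fun ha : T.alt p a b y x = true => zA0_294_256 (T.okA0 k3 ha)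
  have g700 := fun ha : T.alt p a b y x = true => zA0_2081_33 (T.okA0 k3 ha)
  have g754 := fun ha : T.alt p a x b y = true => zA2_2307_256 (T.okA2 k3 ha)
  have g756 := fun ha : T.alt p a x b y = true => zA2_577_513 (T.okA2 k3 ha)
  have g770 := T.ae1 k4
  have g771 := T.ae01 k4
  have g773 := T.ae12 k4
  have g784 := fun ha : T.alt p z y b x = true => zA1_2307_2048 (T.okA1 k4 ha)
  have g795 := fun ha : T.alt p z y b x = true => zA1_4676_64 (T.okA1 k4 ha)
  have g814 := fun ha : T.alt p z y b x = true => zA1_1608_64 (T.okA1 k4 ha)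
  have g820 := fun ha : T.alt p z y b x = true => zA1_1168_1040 (T.okA1 k4 ha)
  have g823 := fun ha : T.alt p z y b x = true => zA1_4192_96 (T.okA1 k4 ha)
  have g843 := fun ha : T.alt p z b y x = true => zA0_2085_2048 (T.okA0 k4 ha)
  have g863 := fun ha : T.alt p z b y x = true => zA0_4164_68 (T.okA0 k4 ha)
  have g865 := fun ha : T.alt p z b y x = true => zA0_4192_96 (T.okA0 k4 ha)
  have g913 := fun ha : T.alt p z x b y = true => zA2_4704_64 (T.okA2 k4 ha)
  have g941 := fun ha : T.alt p z x b y = true => zA2_4164_68 (T.okA2 k4 ha)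
  have g966 := z5_17545_129 k0
  have g973 := z5_4898_544 k0
  have g983 := z5_5196_5120 k0
  have g986 := z5_16977_513 k0
  have g994 := z5_16977_17 k0
  have g996 := z5_5196_4104 k0
  have g1001 := z5_8778_520 k0
  have g1005 := z5_6241_4097 k0
  have g1010 := z5_5196_1088 k0
  have g1016 := z5_3657_73 k0
  have g1021 := z5_10505_8193 k0
  have g1036 := z5_28745_73 k0
  have g1042 := z5_4728_4672 k0
  have g1046 := z5_4617_4617 k0
  have g1049 := z5_9281_9281 k0
  have g1079 := z5_17105_16913 k0
  have g1080 := z5_19025_16465 k0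
  have g1175 := z5_6241_4097 k1
  have g1191 := z5_10505_8193 k1
  have g1322 := z5_16977_16896 k2
  have g1341 := z5_8778_520 k2
  have g1342 := z5_8778_8704 k2
  have g1364 := z5_5196_12 k2
  have g1372 := z5_9508_260 k2
  have g1512 := z5_8778_8704 k3
  have g1515 := z5_6241_4097 k3
  have g1659 := z5_5196_68 k4
  have g1669 := z5_6241_2112 k4
  have g1860 := z5_5196_1088 k5
  have g1875 := z5_4756_516 k5
  have g1973 := zsp_73_64 sp0
  have g1974 := zsp_73_8 sp0
  have g1980 := zsp_1156_4 sp0
  have g1981 := zsp_1156_1024 sp0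
  have g1987 := zsp_4132_4132 sp0
  have g1988 := zsp_4132_4 sp0
  have g1990 := zsp_4132_32 sp0
  have g1992 := zsp_8450_2 sp0
  have g1993 := zsp_8450_8192 sp0
  have g1994 := zsp_8450_256 sp0
  have g1996 := zsp_16528_16 sp0
  have g1998 := zsp_16528_128 sp0
  have g2001 := zsp_18433_16384 sp0
  have g2005 := zsp_9224_8192 sp0
  have g2006 := zsp_9224_1024 sp0
  have g2009 := zsp_4672_4096 sp0
  have g2011 : T.X p a z b = true := h0
  have g2012 : T.X p a y x = false := ((T.xs4 y x p a).symm.trans h1)
  have g2013 : T.X z b y x = false := ((T.xs4 y x z b).symm.trans h2)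
  have g2014 : T.X p z y x = true := ((T.xs4 y x p z).symm.trans h3)
  have g2015 := fun (n0 : T.X p z a y = true) (n1 : T.X a y z b = false) (n2 : T.X p b a y = false) => h4 ((T.xs6 y a p z).trans n0) ((T.xs1 y a z b).trans n1) ((T.xs7 y a b p).trans n2)
  have g2016 := fun (n0 : T.X p z a y = false) (n1 : T.X a y z b = true) (n2 : T.X p b a y = false) => h5 ((T.xs6 y a p z).trans n0) ((T.xs1 y a z b).trans n1) ((T.xs7 y a b p).trans n2)
  have g2018 := fun (n0 : T.X p z a y = true) (n1 : T.X a y z b = true) (n2 : T.X p b a y = true) => h7 ((T.xs6 y a p z).trans n0) ((T.xs1 y a z b).trans n1) ((T.xs7 y a b p).trans n2)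
  have g2019 := fun (n0 : T.X p z b y = false) (n1 : T.X a z b y = false) (n2 : T.X p a b y = false) => h8 ((T.xs6 y b p z).trans n0) ((T.xs7 y b z a).trans n1) ((T.xs7 y b a p).trans n2)
  have g2020 := fun (n0 : T.X p z b y = true) (n1 : T.X a z b y = true) (n2 : T.X p a b y = false) => h9 ((T.xs6 y b p z).trans n0) ((T.xs7 y b z a).trans n1) ((T.xs7 y b a p).trans n2)
  have g2021 := fun (n0 : T.X p z b y = true) (n1 : T.X a z b y = false) (n2 : T.X p a b y = true) => h10 ((T.xs6 y b p z).trans n0) ((T.xs7 y b z a).trans n1) ((T.xs7 y b a p).trans n2)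
  have g2022 := fun (n0 : T.X p z b y = false) (n1 : T.X a z b y = true) (n2 : T.X p a b y = true) => h11 ((T.xs6 y b p z).trans n0) ((T.xs7 y b z a).trans n1) ((T.xs7 y b a p).trans n2)
  have g2023 := fun (n0 : T.X p z a x = true) (n1 : T.X a x z b = false) (n2 : T.X p b a x = false) => h12 ((T.xs6 x a p z).trans n0) ((T.xs1 x a z b).trans n1) ((T.xs7 x a b p).trans n2)
  have g2024 := fun (n0 : T.X p z a x = false) (n1 : T.X a x z b = true) (n2 : T.X p b a x = false) => h13 ((T.xs6 x a p z).trans n0) ((T.xs1 x a z b).trans n1) ((T.xs7 x a b p).trans n2)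
  have g2027 := fun (n0 : T.X p z b x = true) (n1 : T.X a z b x = false) (n2 : T.X p a b x = false) => h16 ((T.xs6 x b p z).trans n0) ((T.xs7 x b z a).trans n1) ((T.xs7 x b a p).trans n2)
  have g2029 := fun (n0 : T.X p z b x = false) (n1 : T.X a z b x = false) (n2 : T.X p a b x = true) => h18 ((T.xs6 x b p z).trans n0) ((T.xs7 x b z a).trans n1) ((T.xs7 x b a p).trans n2)
  have s2031 := fun (n0 : T.X p z a b = true) => g1 g2011 n0
  have w2031 := bf s2031
  have s2032 := fun (n0 : T.X p b a z = true) => g2 g2011 n0
  have w2032 := bf s2032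
  have s2033 := fun (n0 : T.X p y z x = true) => g25 g2014 n0
  have w2033 := bf s2033
  have s2034 := fun (n0 : T.X p x z y = true) => g26 g2014 n0
  have w2034 := bf s2034
  have s2036 : T.X p z b y = true → T.X p a b y = true → T.X p a z y = true → False := fun n0 n1 n2 => by
    have u0 := bf fun t => g1046 g2011 n2 n0 t
    exact g2021 n0 u0 n1
  have s2037 : T.X p a b y = true → T.X p a z y = true → False := fun n0 n1 => by
    have u0 := bf fun t => g575 t n1 g2012 g2014
    have u1 := bf fun t => g4 n1 t
    have u2 := bf fun t => g10 n0 t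
    have u3 := bf fun t => g2016 u1 t u2
    have u4 := bf fun t => s2036 t n0 n1
    have u5 := bf fun t => g2022 u4 t n0
    have u6 := bt fun t => g1036 g2011 n1 n0 u5 t u3
    have u7 := bf fun t => g71 t w2032 n0 u4 u5
    have u8 := bf fun t => g1049 g2011 n0 t u6
    have u9 := bf fun t => g1993 u7 u0 t
    have u10 := bt fun t => g1016 g2011 n1 n0 u4 u8 t
    have u11 := bf fun t => g863 t u10 g2014 g2013
    have u12 := bf fun t => g941 t u10 g2014 g2013
    exact g770 u11 u9 u12
  have s2038 : T.X p z b y = true → T.X p a z y = true → False := fun n0 n1 => by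
    have u0 := bf fun t => s2037 t n1
    have u1 := bf fun t => g4 n1 t
    have u2 := bt fun t => g1001 w2031 n1 u0 n0 t
    have u3 := bt fun t => g986 g2011 u1 u0 n0 t
    exact g33 u2 u3
  have s2039 : T.X p a z y = true → False := fun n0 => by
    have u0 := bf fun t => g5 n0 t
    have u1 := bf fun t => s2037 t n0
    have u2 := bf fun t => s2038 t n0
    have u3 := bt fun t => g2019 u2 t u1
    have u4 := bt fun t => g1005 g2011 u0 u1 t u3
    have u5 := bt fun t => g996 w2032 n0 u1 t u3
    exact g21 u5 u4
  have w2039 := bf s2039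
  have s2040 : T.X p x a y = false → T.X p z a x = false → T.X p a z x = false → T.X p x z b = false → T.alt p a x z y = false → T.alt p a y z b = true → T.X p y a z = true → T.alt p a z b y = false → T.X a y z b = false → T.X p b a y = false → False := fun n0 n1 n2 n3 n4 n5 n6 n7 n8 n9 => by
    have u0 := bf fun t => g1322 w2039 n1 g2012 g2014 t
    have u1 := bf fun t => g2015 t n8 n9
    have u2 := bf fun t => g1342 u1 n2 g2012 g2014 t
    have u3 := bf fun t => g423 t u1 n2 n0 w2033 u2
    have u4 := bt fun t => g408 t u3 n4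
    have u5 := bt fun t => g1980 n5 u3 t
    have u6 := bt fun t => g502 u4 n6 g2014 t
    have u7 := bt fun t => g1973 n7 t u4
    have u8 := bf fun t => g487 u4 n1 t w2034 u0
    have u9 := bt fun t => g314 u7 g2011 n1 n3 t
    have u10 := bf fun t => g35 t u9
    have u11 := bt fun t => g2024 n1 u9 t
    have u12 := bf fun t => g1860 n8 u10 u6 t g2013
    have u13 := bf fun t => g13 t u11
    have u14 := bf fun t => g639 u5 u11 u8 t
    exact g604 u5 n9 u13 n0 u14 u12
  have s2041 : T.X p x a y = true → T.X a y z x = false → T.alt p z b y x = true → T.X p z b y = true → T.X p a b y = true → False := fun n0 n1 n2 n3 n4 => by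
    have u0 := bf fun t => g19 n3 t
    have u1 := bf fun t => g11 n4 t
    have u2 := bf fun t => g20 n3 t
    have u3 := bf fun t => g1021 g2011 w2039 u1 u2 t
    have u4 := bf fun t => g61 t w2031 w2039 u1 u0 u3
    have u5 := bf fun t => g10 n4 t
    have u6 := bt fun t => g2021 n3 t n4
    have u7 := bf fun t => g32 u6 t
    have u8 := bf fun t => g2015 t u7 u5
    have u9 := bf fun t => g133 t g2011 u8 u2 u7
    have u10 := bt fun t => g46 u9 u4 t
    have u11 := bf fun t => g1987 u10 t n2
    have u12 := bf fun t => g865 n2 t g2014 g2013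
    have u13 := bf fun t => g489 t u8 n0 w2033 n1
    have u14 := bf fun t => g1974 u9 t u13
    have u15 := bt fun t => g2009 u13 t n2
    have u16 := bt fun t => g227 u14 t u11
    have u17 := bt fun t => g689 u15 u5 u1 t n0
    exact g279 u16 g2011 u17 u12
  have s2042 : T.X p a b x = false → T.X a z b x = false → T.X p x a z = false → T.alt p a z b x = true → False := fun n0 n1 n2 n3 => by
    have u0 := bt fun t => g301 n3 w2032 n2 n0 t n1
    exact g2027 u0 n1 n0
  have s2043 : T.X p a b x = false → T.alt p a z b x = true → T.X p x a z = false → T.X p x z b = false → False := fun n0 n1 n2 n3 => by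
    have u0 := bf fun t => g1175 g2011 n2 n0 n3 t
    exact s2042 n0 u0 n2 n1
  have s2044 : T.X p b a x = false → T.alt p a z b x = true → T.X p z a x = true → T.X p x z b = false → False := fun n0 n1 n2 n3 => by
    have u0 := bf fun t => g341 n1 g2011 n2 n0 n3 t
    exact g2023 n2 u0 n0
  have s2045 : T.X p a z x = false → T.alt p z b y x = true → T.alt p a x z y = false → T.X p z b y = true → T.X p a b y = true → False := fun n0 n1 n2 n3 n4 => by
    have u0 := bf fun t => g865 n1 t g2014 g2013
    have u1 := bf fun t => g19 n3 t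
    have u2 := bf fun t => g11 n4 t
    have u3 := bf fun t => g20 n3 t
    have u4 := bf fun t => g1021 g2011 w2039 u2 u3 t
    have u5 := bf fun t => g61 t w2031 w2039 u2 u1 u4
    have u6 := bf fun t => g10 n4 t
    have u7 := bt fun t => g2021 n3 t n4
    have u8 := bf fun t => g32 u7 t
    have u9 := bf fun t => g2015 t u8 u6
    have u10 := bf fun t => g133 t g2011 u9 u3 u8
    have u11 := bt fun t => g46 u10 u5 t
    have u12 := bt fun t => g1042 w2039 u9 t n4 n3 u7
    have u13 := bf fun t => g1342 u9 n0 g2012 g2014 t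
    have u14 := bf fun t => s2041 t u13 n1 n3 n4
    have u15 := bf fun t => g423 t u9 n0 u14 w2033 u13
    have u16 := bt fun t => s2040 u14 t n0 u0 n2 u11 u12 u10 u8 u6
    have u17 := bt fun t => g408 t u15 n2
    have u18 := bf fun t => g9 u16 t
    have u19 := bt fun t => g1973 u10 t u17
    have u20 := bt fun t => s2043 t u19 u18 u0
    have u21 := bf fun t => g13 u20 t
    exact s2044 u21 u19 u16 u0
  have s2046 : T.X p a z x = true → T.X p y a z = true → T.X p z a y = false → False := fun n0 n1 n2 => by
    have u0 := bt fun t => g1341 n2 n0 g2012 g2014 t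
    have u1 := bt fun t => g1364 n1 n0 g2012 w2033 t
    exact g37 u1 u0
  have s2047 : T.alt p a x z y = false → T.X p z b y = true → T.X p a b y = true → False := fun n0 n1 n2 => by
    have u0 := bf fun t => g10 n2 t
    have u1 := bt fun t => g2021 n1 t n2
    have u2 := bf fun t => g32 u1 t
    have u3 := bf fun t => g2015 t u2 u0
    have u4 := bt fun t => g1042 w2039 u3 t n2 n1 u1
    have u5 := bf fun t => s2046 t u4 u3
    have u6 := bf fun t => g19 n1 t
    have u7 := bf fun t => g11 n2 t
    have u8 := bf fun t => g20 n1 t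
    have u9 := bf fun t => g1021 g2011 w2039 u7 u8 t
    have u10 := bf fun t => g61 t w2031 w2039 u7 u6 u9
    have u11 := bf fun t => g133 t g2011 u3 u8 u2
    have u12 := bt fun t => g46 u11 u10 t
    have u13 := bf fun t => g1993 u10 n0 t
    have u14 := bf fun t => s2045 u5 t n0 n1 n2
    have u15 := bt fun t => g770 u14 u13 t
    have u16 := bt fun t => g1988 u12 t u14
    have u17 := bt fun t => g2001 u11 t u15
    have u18 := bf fun t => g756 u17 n2 g2012 t
    have u19 := bt fun t => g913 u15 t g2014 u18 g2013
    have u20 := bf fun t => g23 t u19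
    have u21 := bt fun t => g378 u16 g2011 u19 t
    have u22 := bt fun t => g391 u16 g2011 u5 t u19
    have u23 := bf fun t => g35 t u21
    have u24 := bt fun t => g372 u16 w2032 u22 t u23
    exact g2029 u20 u23 u24
  have s2048 : T.X p z b y = true → T.X p a b y = true → False := fun n0 n1 => by
    have u0 := bf fun t => g11 n1 t
    have u1 := bf fun t => g10 n1 t
    have u2 := bf fun t => g19 n0 t
    have u3 := bf fun t => g20 n0 t
    have u4 := bt fun t => g2021 n0 t n1
    have u5 := bf fun t => g1021 g2011 w2039 u0 u3 t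
    have u6 := bf fun t => g32 u4 t
    have u7 := bf fun t => g61 t w2031 w2039 u0 u2 u5
    have u8 := bf fun t => g2015 t u6 u1
    have u9 := bf fun t => g133 t g2011 u8 u3 u6
    have u10 := bt fun t => g46 u9 u7 t
    have u11 := bt fun t => s2047 t n0 n1
    have u12 := bf fun t => g411 t u11
    have u13 := bt fun t => g1994 u7 u11 t
    have u14 := bf fun t => g573 u11 w2039 u8 t w2034
    have u15 := bt fun t => g1980 u10 u12 t
    have u16 := bt fun t => g795 u13 u3 g2014 t g2013
    have u17 := bf fun t => g630 u15 u1 u0 t u14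
    have u18 := bf fun t => g29 u16 t
    have u19 := bt fun t => g612 u15 u17 g2012 u16 t
    exact g1515 n1 u17 g2012 u18 u19
  have s2049 : T.X p z a x = true → T.X p y a z = true → T.alt p a z b y = false → T.X p x z b = false → T.X p z a y = false → T.alt p a x z y = false → False := fun n0 n1 n2 n3 n4 n5 => by
    have u0 := bf fun t => s2046 t n1 n4
    have u1 := bf fun t => g1342 n4 u0 g2012 g2014 t
    have u2 := bf fun t => g9 n0 t
    have u3 := bf fun t => g1372 n1 u2 t w2033 u1
    have u4 := bf fun t => g423 t n4 u0 u3 w2033 u1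
    have u5 := bt fun t => g408 t u4 n5
    have u6 := bt fun t => g1973 n2 t u5
    have u7 := bt fun t => s2043 t u6 u2 n3
    have u8 := bt fun t => s2044 t u6 n0 n3
    exact g13 u7 u8
  have s2050 : T.alt p z b y x = true → T.X a y z b = false → T.alt p a x z y = false → T.X p a b y = true → False := fun n0 n1 n2 n3 => by
    have u0 := bf fun t => g10 n3 t
    have u1 := bf fun t => g2015 t n1 u0
    have u2 := bf fun t => s2048 t n3
    have u3 := bf fun t => g2022 u2 t n3
    have u4 := bf fun t => g71 t w2032 n3 u2 u3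
    have u5 := bf fun t => g11 n3 t
    have u6 := bf fun t => g863 n0 t g2014 g2013
    have u7 := bf fun t => g865 n0 t g2014 g2013
    have u8 := bf fun t => g843 n0 u2 u6 u7 t
    have u9 := bf fun t => g133 t g2011 u1 u6 n1
    have u10 := bt fun t => g46 u9 u4 t
    have u11 := bt fun t => g189 u10 t n3 u2 u3
    have u12 := bf fun t => s2046 t u11 u1
    have u13 := bf fun t => g1342 u1 u12 g2012 g2014 t
    have u14 := bf fun t => s2049 t u11 u9 u7 u1 n2
    have u15 := bt fun t => s2040 t u14 u12 u7 n2 u10 u11 u9 n1 u0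
    have u16 := bf fun t => g489 t u1 u15 w2033 u13
    have u17 := bt fun t => g2009 u16 t n0
    have u18 := bt fun t => g689 u17 u0 u5 t u15
    exact g700 u17 n3 u18 u8
  have s2051 : T.X a y z b = false → T.alt p a x z y = false → T.X p a b y = true → False := fun n0 n1 n2 => by
    have u0 := bf fun t => s2048 t n2
    have u1 := bf fun t => g2022 u0 t n2
    have u2 := bf fun t => g71 t w2032 n2 u0 u1
    have u3 := bf fun t => g1993 u2 n1 t
    have u4 := bf fun t => g10 n2 t
    have u5 := bf fun t => g2015 t n0 u4
    have u6 := bf fun t => s2050 t n0 n1 n2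
    have u7 := bt fun t => g770 u6 u3 t
    have u8 := bf fun t => g941 u7 t g2014 g2013
    have u9 := bf fun t => g133 t g2011 u5 u8 n0
    have u10 := bt fun t => g46 u9 u2 t
    have u11 := bt fun t => g2001 u9 t u7
    have u12 := bt fun t => g189 u10 t n2 u0 u1
    have u13 := bt fun t => g1988 u10 t u6
    have u14 := bf fun t => g756 u11 n2 g2012 t
    have u15 := bf fun t => s2046 t u12 u5
    have u16 := bt fun t => g913 u7 t g2014 u14 g2013
    have u17 := bf fun t => g23 t u16
    have u18 := bt fun t => g378 u13 g2011 u16 t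
    have u19 := bt fun t => g391 u13 g2011 u15 t u16
    have u20 := bf fun t => g35 t u18
    have u21 := bt fun t => g372 u13 w2032 u19 t u20
    exact g2029 u17 u20 u21
  have s2052 : T.alt p a x z y = false → T.X p a b y = true → False := fun n0 n1 => by
    have u0 := bf fun t => s2048 t n1
    have u1 := bf fun t => g2022 u0 t n1
    have u2 := bf fun t => g71 t w2032 n1 u0 u1
    have u3 := bf fun t => g10 n1 t
    have u4 := bf fun t => g1993 u2 n0 t
    have u5 := bt fun t => s2051 t n0 n1
    have u6 := bt fun t => g2016 t u5 u3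
    have u7 := bt fun t => g1080 g2011 u6 n1 u0 t u5
    have u8 := bf fun t => g863 t u7 g2014 g2013
    have u9 := bf fun t => g941 t u7 g2014 g2013
    exact g770 u8 u4 u9
  have s2053 : T.alt p a y z b = true → T.X a y z b = false → T.X p a b y = true → False := fun n0 n1 n2 => by
    have u0 := bt fun t => s2052 t n2
    have u1 := bf fun t => g10 n2 t
    have u2 := bf fun t => g2015 t n1 u1
    have u3 := bf fun t => g573 u0 w2039 u2 t w2034
    have u4 := bf fun t => s2048 t n2
    have u5 := bf fun t => g2022 u4 t n2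
    have u6 := bf fun t => g1010 w2032 w2039 n2 t u5
    have u7 := bf fun t => g71 t w2032 n2 u4 u5
    have u8 := bt fun t => g1994 u7 u0 t
    have u9 := bf fun t => g784 u8 u4 u6 w2034 t
    have u10 := bf fun t => g411 t u0
    have u11 := bf fun t => g11 n2 t
    have u12 := bf fun t => g197 n0 g2011 t n1
    have u13 := bt fun t => g1980 n0 u10 t
    have u14 := bt fun t => g795 u8 u12 g2014 t g2013
    have u15 := bf fun t => g630 u13 u1 u11 t u3
    have u16 := bt fun t => g612 u13 u15 g2012 u14 t
    exact g1515 n2 u15 g2012 u9 u16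
  have s2054 : T.X p b a x = false → T.alt p a z b x = true → T.X p x z b = false → False := fun n0 n1 n2 => by
    have u0 := bf fun t => s2044 n0 n1 t n2
    have u1 := bf fun t => g2024 u0 t n0
    exact g314 n1 g2011 u0 n2 u1
  have s2055 : T.alt p a z b x = true → T.X p x a z = false → T.X p x z b = false → False := fun n0 n1 n2 => by
    have u0 := bt fun t => s2043 t n0 n1 n2
    have u1 := bf fun t => g13 u0 t
    exact s2054 u1 n0 n2
  have s2056 : T.alt p a z b x = true → T.X p x z b = false → False := fun n0 n1 => by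
    have u0 := bf fun t => g338 n0 g2011 t n1
    exact s2055 n0 u0 n1
  have s2057 : T.X p a b y = true → False := fun n0 => by
    have u0 := bf fun t => g10 n0 t
    have u1 := bf fun t => s2048 t n0
    have u2 := bf fun t => g2022 u1 t n0
    have u3 := bf fun t => g71 t w2032 n0 u1 u2
    have u4 := bt fun t => s2052 t n0
    have u5 := bf fun t => g411 t u4
    have u6 := bt fun t => g1994 u3 u4 t
    have u7 := bf fun t => g823 u6 t g2014 g2013
    have u8 := bf fun t => s2056 t u7
    have u9 := bt fun t => g2005 u8 t u6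
    have u10 := bt fun t => g1981 t u5 u9
    have u11 := bt fun t => g189 u10 t n0 u1 u2
    have u12 := bt fun t => s2053 u10 t n0
    have u13 := bf fun t => g6 t u11
    exact g2016 u13 u12 u0
  have w2057 := bf s2057
  have s2058 : T.X a y z b = false → T.X p z b y = true → False := fun n0 n1 => by
    have u0 := bf fun t => g19 n1 t
    have u1 := bt fun t => g986 g2011 t w2057 n1 n0
    have u2 := bf fun t => g966 g2011 w2039 t u0 n0
    exact g2015 u1 n0 u2
  have s2059 : T.X p b a y = false → T.X a y z b = true → T.X p z b y = true → False := fun n0 n1 n2 => by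
    have u0 := bf fun t => g1079 g2011 t w2057 n0 n2 n1
    exact g2016 u0 n1 n0
  have s2060 : T.X p z b y = true → T.alt p a b z y = false → False := fun n0 n1 => by
    have u0 := bf fun t => g213 t g2011 w2057 n0
    have u1 := bt fun t => g46 t n1 u0
    have u2 := bt fun t => s2058 t n0
    have u3 := bt fun t => s2059 t u2 n0
    have u4 := bt fun t => g155 u1 t u3 n0
    exact g2018 u4 u2 u3
  have s2061 : T.alt p a z b y = false → T.X p x z b = false → T.alt p a b z y = false → T.alt p a x z y = false → False := fun n0 n1 n2 n3 => by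
    have u0 := bf fun t => s2060 t n2
    have u1 := bf fun t => g1669 u0 n1 g2014 t g2013
    have u2 := bf fun t => g1993 n2 n3 t
    have u3 := bf fun t => s2056 t n1
    have u4 := bf fun t => g2006 u3 t u2
    have u5 := bt fun t => g2019 u0 t w2057
    have u6 := bf fun t => g32 u5 t
    have u7 := bf fun t => g994 g2011 t w2057 u0 u6
    have u8 := bf fun t => g983 w2032 w2039 w2057 t u5
    have u9 := bf fun t => g966 g2011 w2039 t u8 u6
    have u10 := bf fun t => g31 u5 t
    have u11 := bt fun t => g46 n0 n2 t
    have u12 := bt fun t => g190 u11 w2032 t w2057 u0 u5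
    have u13 := bf fun t => g188 u11 w2031 w2039 t u10
    have u14 := bt fun t => g1980 u11 t u4
    have u15 := bf fun t => s2046 t u12 u7
    have u16 := bf fun t => s2049 t u12 n0 n1 u7 n3
    have u17 := bt fun t => s2040 t u16 u15 n1 n3 u11 u12 n0 u6 u9
    have u18 := bf fun t => g754 t w2057 u9 u17 u1
    have u19 := bf fun t => g2001 n0 u18 t
    have u20 := bt fun t => g589 t u4 u18
    have u21 := bt fun t => g1998 t u14 u19
    have u22 := bt fun t => g689 u20 u9 u13 t u17
    exact g279 u21 g2011 u22 n1
  have s2062 : T.X p y z b = true → T.alt p z y b x = false → False := fun n0 n1 => by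
    have u0 := bf fun t => g863 t n0 g2014 g2013
    have u1 := bf fun t => g941 t n0 g2014 g2013
    exact g770 u0 n1 u1
  have s2063 : T.alt p a b z y = false → T.alt p a x z y = false → False := fun n0 n1 => by
    have u0 := bf fun t => g1993 n0 n1 t
    have u1 := bf fun t => s2060 t n0
    have u2 := bt fun t => g2019 u1 t w2057
    have u3 := bf fun t => g32 u2 t
    have u4 := bf fun t => g994 g2011 t w2057 u1 u3
    have u5 := bf fun t => s2062 t u0
    have u6 := bt fun t => g1005 g2011 t w2057 u5 u2
    have u7 := bf fun t => g133 t g2011 u4 u5 u3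
    have u8 := bf fun t => s2046 t u6 u4
    have u9 := bt fun t => g46 u7 n0 t
    have u10 := bt fun t => s2061 u7 t n0 n1
    have u11 := bf fun t => g23 t u10
    have u12 := bf fun t => g865 t u10 g2014 g2013
    have u13 := bt fun t => g1988 u9 t u12
    have u14 := bt fun t => g378 u13 g2011 u10 t
    have u15 := bt fun t => g391 u13 g2011 u8 t u10
    have u16 := bf fun t => g35 t u14
    have u17 := bt fun t => g372 u13 w2032 u15 t u16
    exact g2029 u11 u16 u17
  have s2064 : T.alt p a x z y = false → False := fun n0 => by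
    have u0 := bt fun t => s2063 t n0
    have u1 := bf fun t => g49 u0 t
    have u2 := bt fun t => g1992 u0 n0 t
    have u3 := bf fun t => g771 t u2
    have u4 := bf fun t => g773 u2 t
    have u5 := bf fun t => g823 u2 t g2014 g2013
    have u6 := bf fun t => g1990 u1 t u3
    have u7 := bf fun t => s2056 t u5
    have u8 := bt fun t => g227 u7 t u6
    have u9 := bt fun t => g2005 u7 t u2
    have u10 := bt fun t => g1996 u8 t u4
    have u11 := bf fun t => g279 u8 g2011 t u5
    have u12 := bf fun t => g457 u10 t g2012 g2014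
    have u13 := bf fun t => g268 u8 w2031 w2032 t u11
    have u14 := bf fun t => g1191 g2011 u12 u11 u5 t
    have u15 := bt fun t => g431 u10 u13 g2012 g2014 t
    have u16 := bt fun t => g242 u8 w2031 u12 u11 t u14
    have u17 := bf fun t => g37 u15 t
    have u18 := bf fun t => g22 t u16
    have u19 := bf fun t => g820 u2 u16 w2033 t
    have u20 := bf fun t => g1659 t u18 g2014 u19 g2013
    have u21 := bt fun t => g814 u2 u18 g2014 t u19
    have u22 := bf fun t => g98 u0 g2011 t u20
    have u23 := bt fun t => g612 u9 u11 g2012 u21 t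
    have u24 := bf fun t => g87 u0 w2031 w2032 t u22
    have u25 := bf fun t => g1875 t u14 u17 u23 g2013
    have u26 := bf fun t => g1005 g2011 u24 w2057 u20 t
    have u27 := bf fun t => s2058 u25 t
    exact g2019 u27 u26 w2057
  have w2064 := bt s2064
  have s2066 := fun (n0 : T.alt p a y z x = true) => g411 n0 w2064
  have w2066 := bf s2066
  have s2067 : T.X p z b y = true → False := fun n0 => by
    have u0 := bf fun t => g20 n0 t
    have u1 := bf fun t => g2020 n0 t w2057
    have u2 := bt fun t => s2060 n0 t
    have u3 := bf fun t => g98 u2 g2011 t u0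
    have u4 := bf fun t => g973 w2031 t u3 n0 u1
    exact g69 u2 u4 w2057 n0 u1
  have w2067 := bf s2067
  have s2068 := fun (n0 : T.X a z b y = false) => g2019 w2067 n0 w2057
  have w2068 := bt s2068
  have s2070 := fun (n0 : T.X a y z b = true) => g32 w2068 n0
  have w2070 := bf s2070
  have s2071 := fun (n0 : T.X p b z y = true) => g983 w2032 w2039 w2057 n0 w2068
  have w2071 := bf s2071
  have s2072 := fun (n0 : T.X p b a y = true) => g966 g2011 w2039 n0 w2071 w2070
  have w2072 := bf s2072
  have s2073 := fun (n0 : T.X p z a y = true) => g994 g2011 n0 w2057 w2067 w2070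
  have w2073 := bf s2073
  have s2074 := fun (n0 : T.X p x a y = true) => g573 w2064 w2039 w2073 n0 w2034
  have w2074 := bf s2074
  have s2075 : T.alt p z y b x = true → False := fun n0 => by
    have u0 := bf fun t => g771 t n0
    have u1 := bf fun t => g773 n0 t
    have u2 := bf fun t => g823 n0 t g2014 g2013
    have u3 := bf fun t => g1996 t w2066 u1
    have u4 := bf fun t => s2056 t u2
    have u5 := bt fun t => g227 u4 u3 t
    have u6 := bt fun t => g2005 u4 t n0
    have u7 := bt fun t => g1990 t u5 u0
    have u8 := bf fun t => g197 u7 g2011 t w2070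
    have u9 := bt fun t => g795 n0 u8 g2014 t g2013
    have u10 := bf fun t => g28 u9 t
    have u11 := bf fun t => g638 u6 t g2012 u9
    have u12 := bt fun t => g604 u6 w2072 u11 w2074 u10 t
    exact g1512 w2072 u11 g2012 u9 u12
  have w2075 := bf s2075
  have s2076 := fun (n0 : T.alt p a b z y = false) => g1994 n0 w2064 w2075
  have w2076 := bt s2076
  have s2077 := fun (n0 : T.X p y z b = true) => s2062 n0 w2075
  have w2077 := bf s2077
  exact g74 w2076 g2011 w2072 w2077 w2070

theorem MT_sepa_0011 {p a z b y x : V} (hN : [p, a, z, b, y, x].Nodup) (h0 : T.X p a z b = true)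
    (h1 : T.X y x p a = false) (h2 : T.X y x z b = false) (h3 : T.X y x p z = false)
    (h4 : T.X y a p z = true → T.X y a z b = false → T.X y a b p = false → False)
    (h5 : T.X y a p z = false → T.X y a z b = true → T.X y a b p = false → False)
    (h6 : T.X y a p z = false → T.X y a z b = false → T.X y a b p = true → False)
    (h7 : T.X y a p z = true → T.X y a z b = true → T.X y a b p = true → False)
    (h8 : T.X y b p z = true → T.X y b z a = false → T.X y b a p = false → False)
    (h9 : T.X y b p z = false → T.X y b z a = true → T.X y b a p = false → False)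
    (h10 : T.X y b p z = false → T.X y b z a = false → T.X y b a p = true → False)
    (h11 : T.X y b p z = true → T.X y b z a = true → T.X y b a p = true → False)
    (h12 : T.X x a p z = false → T.X x a z b = false → T.X x a b p = false → False)
    (h13 : T.X x a p z = true → T.X x a z b = true → T.X x a b p = false → False)
    (h14 : T.X x a p z = true → T.X x a z b = false → T.X x a b p = true → False)
    (h15 : T.X x a p z = false → T.X x a z b = true → T.X x a b p = true → False)
    (h16 : T.X x b p z = false → T.X x b z a = false → T.X x b a p = false → False)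
    (h17 : T.X x b p z = true → T.X x b z a = true → T.X x b a p = false → False)
    (h18 : T.X x b p z = true → T.X x b z a = false → T.X x b a p = true → False)
    (h19 : T.X x b p z = false → T.X x b z a = true → T.X x b a p = true → False) : False := by
  have k0 : T.Ok5 p a z b y := T.n5 hN (.cons_cons _ (.cons_cons _ (.cons_cons _ (.cons_cons _ (.cons_cons _ (List.nil_sublist _))))))
  have k1 : T.Ok5 p a z b x := T.n5 hN (.cons_cons _ (.cons_cons _ (.cons_cons _ (.cons_cons _ (.cons _ (.cons_cons _ (List.nil_sublist _)))))))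
  have k2 : T.Ok5 p a z y x := T.n5 hN (.cons_cons _ (.cons_cons _ (.cons_cons _ (.cons _ (.cons_cons _ (.cons_cons _ (List.nil_sublist _)))))))
  have k3 : T.Ok5 p a b y x := T.n5 hN (.cons_cons _ (.cons_cons _ (.cons _ (.cons_cons _ (.cons_cons _ (.cons_cons _ (List.nil_sublist _)))))))
  have k4 : T.Ok5 p z b y x := T.n5 hN (.cons_cons _ (.cons _ (.cons_cons _ (.cons_cons _ (.cons_cons _ (.cons_cons _ (List.nil_sublist _)))))))
  have k5 : T.Ok5 a z b y x := T.n5 hN (.cons _ (.cons_cons _ (.cons_cons _ (.cons_cons _ (.cons_cons _ (.cons_cons _ (List.nil_sublist _)))))))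
  have sp0 : T.Sp5 p a z b y x := T.sp5 hN (.cons_cons _ (.cons_cons _ (.cons_cons _ (.cons_cons _ (.cons_cons _ (.cons_cons _ (List.nil_sublist _)))))))
  have g1 := T.q01 p a z b
  have g2 := T.q02 p a z b
  have g4 := T.q01 p a z y
  have g7 := T.q01 p a z x
  have g9 := T.q12 p a z x
  have g13 := T.q01 p a b x
  have g14 := T.q02 p a b x
  have g18 := T.q12 p a y x
  have g20 := T.q02 p z b y
  have g21 := T.q12 p z b y
  have g23 := T.q02 p z b x
  have g28 := T.q01 p b y x
  have g29 := T.q02 p b y x
  have g31 := T.q01 a z b y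
  have g32 := T.q02 a z b y
  have g33 := T.q12 a z b y
  have g35 := T.q02 a z b x
  have g38 := T.q02 a z y x
  have g40 := T.q01 a b y x
  have g41 := T.q02 a b y x
  have g46 := T.ae1 k0
  have g74 := fun ha : T.alt p a b z y = true => zA1_18561_1 (T.okA1 k0 ha)
  have g87 := fun ha : T.alt p a b z y = true => zA1_294_32 (T.okA1 k0 ha)
  have g98 := fun ha : T.alt p a b z y = true => zA1_2305_257 (T.okA1 k0 ha)
  have g120 := fun ha : T.alt p a z b y = true => zA0_4708_0 (T.okA0 k0 ha)
  have g138 := fun ha : T.alt p a z b y = true => zA0_4672_576 (T.okA0 k0 ha)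
  have g147 := fun ha : T.alt p a z b y = true => zA0_4708_4160 (T.okA0 k0 ha)
  have g157 := fun ha : T.alt p a z b y = true => zA0_2081_33 (T.okA0 k0 ha)
  have g191 := fun ha : T.alt p a y z b = true => zA2_4196_32 (T.okA2 k0 ha)
  have g192 := fun ha : T.alt p a y z b = true => zA2_9480_8 (T.okA2 k0 ha)
  have g197 := fun ha : T.alt p a y z b = true => zA2_18433_2049 (T.okA2 k0 ha)
  have g210 := fun ha : T.alt p a y z b = true => zA2_2089_2049 (T.okA2 k0 ha)
  have g213 := fun ha : T.alt p a y z b = true => zA2_577_513 (T.okA2 k0 ha)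
  have g216 := fun ha : T.alt p a y z b = true => zA2_1160_136 (T.okA2 k0 ha)
  have g227 := T.ae1 k1
  have g238 := fun ha : T.alt p a b z x = true => zA1_16420_16416 (T.okA1 k1 ha)
  have g250 := fun ha : T.alt p a b z x = true => zA1_4704_512 (T.okA1 k1 ha)
  have g252 := fun ha : T.alt p a b z x = true => zA1_4676_64 (T.okA1 k1 ha)
  have g265 := fun ha : T.alt p a b z x = true => zA1_16401_17 (T.okA1 k1 ha)
  have g281 := fun ha : T.alt p a b z x = true => zA1_18560_2176 (T.okA1 k1 ha)
  have g297 := fun ha : T.alt p a z b x = true => zA0_16642_16640 (T.okA0 k1 ha)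
  have g309 := fun ha : T.alt p a z b x = true => zA0_9480_1024 (T.okA0 k1 ha)
  have g324 := fun ha : T.alt p a z b x = true => zA0_16513_129 (T.okA0 k1 ha)
  have g340 := fun ha : T.alt p a z b x = true => zA0_18448_2064 (T.okA0 k1 ha)
  have g342 := fun ha : T.alt p a z b x = true => zA0_18577_18433 (T.okA0 k1 ha)
  have g370 := fun ha : T.alt p a x z b = true => zA2_4704_64 (T.okA2 k1 ha)
  have g379 := fun ha : T.alt p a x z b = true => zA2_16401_17 (T.okA2 k1 ha)
  have g381 := fun ha : T.alt p a x z b = true => zA2_16513_129 (T.okA2 k1 ha)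
  have g387 := fun ha : T.alt p a x z b = true => zA2_18577_16385 (T.okA2 k1 ha)
  have g396 := fun ha : T.alt p a x z b = true => zA2_150_144 (T.okA2 k1 ha)
  have g408 := T.ae1 k2
  have g409 := T.ae01 k2
  have g419 := fun ha : T.alt p a y z x = true => zA1_16420_16416 (T.okA1 k2 ha)
  have g458 := fun ha : T.alt p a y z x = true => zA1_1168_1040 (T.okA1 k2 ha)
  have g482 := fun ha : T.alt p a z y x = true => zA0_4708_0 (T.okA0 k2 ha)
  have g514 := fun ha : T.alt p a z y x = true => zA0_720_16 (T.okA0 k2 ha)
  have g553 := fun ha : T.alt p a x z y = true => zA2_4196_32 (T.okA2 k2 ha)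
  have g589 := T.ae1 k3
  have g590 := T.ae01 k3
  have g592 := T.ae12 k3
  have g612 := fun ha : T.alt p a y b x = true => zA1_4704_512 (T.okA1 k3 ha)
  have g613 := fun ha : T.alt p a y b x = true => zA1_16529_128 (T.okA1 k3 ha)
  have g636 := fun ha : T.alt p a y b x = true => zA1_1176_128 (T.okA1 k3 ha)
  have g638 := fun ha : T.alt p a y b x = true => zA1_584_520 (T.okA1 k3 ha)
  have g663 := fun ha : T.alt p a b y x = true => zA0_4708_0 (T.okA0 k3 ha)
  have g687 := fun ha : T.alt p a b y x = true => zA0_9218_1026 (T.okA0 k3 ha)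
  have g692 := fun ha : T.alt p a b y x = true => zA0_1608_8 (T.okA0 k3 ha)
  have g698 := fun ha : T.alt p a b y x = true => zA0_656_640 (T.okA0 k3 ha)
  have g729 := fun ha : T.alt p a x b y = true => zA2_4644_4 (T.okA2 k3 ha)
  have g770 := T.ae1 k4
  have g772 := T.ae02 k4
  have g773 := T.ae12 k4
  have g792 := fun ha : T.alt p z y b x = true => zA1_4644_32 (T.okA1 k4 ha)
  have g793 := fun ha : T.alt p z y b x = true => zA1_4704_512 (T.okA1 k4 ha)
  have g797 := fun ha : T.alt p z y b x = true => zA1_4196_4 (T.okA1 k4 ha)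
  have g844 := fun ha : T.alt p z b y x = true => zA0_4708_0 (T.okA0 k4 ha)
  have g861 := fun ha : T.alt p z b y x = true => zA0_4132_36 (T.okA0 k4 ha)
  have g866 := fun ha : T.alt p z b y x = true => zA0_4640_544 (T.okA0 k4 ha)
  have g899 := fun ha : T.alt p z x b y = true => zA2_8228_8196 (T.okA2 k4 ha)
  have g910 := fun ha : T.alt p z x b y = true => zA2_4644_4 (T.okA2 k4 ha)
  have g915 := fun ha : T.alt p z x b y = true => zA2_4196_32 (T.okA2 k4 ha)
  have g927 := fun ha : T.alt p z x b y = true => zA2_4640_544 (T.okA2 k4 ha)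
  have g929 := fun ha : T.alt p z x b y = true => zA2_180_4 (T.okA2 k4 ha)
  have g992 := z5_6241_33 k0
  have g1005 := z5_6241_4097 k0
  have g1156 := z5_16977_513 k1
  have g1167 := z5_18596_160 k1
  have g1175 := z5_6241_4097 k1
  have g1179 := z5_18706_272 k1
  have g1191 := z5_10505_8193 k1
  have g1200 := z5_18596_16416 k1
  have g1217 := z5_2193_2193 k1
  have g1482 := z5_4898_4098 k3
  have g1515 := z5_6241_4097 k3
  have g1538 := z5_4756_4224 k3
  have g1681 := z5_8778_520 k4
  have g1704 := z5_5196_12 k4
  have g1823 := z5_4898_544 k5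
  have g1838 := z5_6241_96 k5
  have g1839 := z5_6241_2112 k5
  have g1906 := z5_612_612 k5
  have g1972 := zsp_73_1 sp0
  have g1973 := zsp_73_64 sp0
  have g1974 := zsp_73_8 sp0
  have g1980 := zsp_1156_4 sp0
  have g1981 := zsp_1156_1024 sp0
  have g1989 := zsp_4132_4096 sp0
  have g1990 := zsp_4132_32 sp0
  have g1997 := zsp_16528_16384 sp0
  have g1998 := zsp_16528_128 sp0
  have g2001 := zsp_18433_16384 sp0
  have g2002 := zsp_18433_2048 sp0
  have g2004 := zsp_9224_8 sp0
  have g2005 := zsp_9224_8192 sp0
  have g2006 := zsp_9224_1024 sp0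
  have g2008 := zsp_4672_64 sp0
  have g2009 := zsp_4672_4096 sp0
  have g2010 := zsp_4672_512 sp0
  have g2011 : T.X p a z b = true := h0
  have g2012 : T.X p a y x = false := ((T.xs4 y x p a).symm.trans h1)
  have g2013 : T.X z b y x = false := ((T.xs4 y x z b).symm.trans h2)
  have g2014 : T.X p z y x = false := ((T.xs4 y x p z).symm.trans h3)
  have g2016 := fun (n0 : T.X p z a y = false) (n1 : T.X a y z b = true) (n2 : T.X p b a y = false) => h5 ((T.xs6 y a p z).trans n0) ((T.xs1 y a z b).trans n1) ((T.xs7 y a b p).trans n2)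
  have g2019 := fun (n0 : T.X p z b y = true) (n1 : T.X a z b y = false) (n2 : T.X p a b y = false) => h8 ((T.xs6 y b p z).trans n0) ((T.xs7 y b z a).trans n1) ((T.xs7 y b a p).trans n2)
  have g2020 := fun (n0 : T.X p z b y = false) (n1 : T.X a z b y = true) (n2 : T.X p a b y = false) => h9 ((T.xs6 y b p z).trans n0) ((T.xs7 y b z a).trans n1) ((T.xs7 y b a p).trans n2)
  have g2021 := fun (n0 : T.X p z b y = false) (n1 : T.X a z b y = false) (n2 : T.X p a b y = true) => h10 ((T.xs6 y b p z).trans n0) ((T.xs7 y b z a).trans n1) ((T.xs7 y b a p).trans n2)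
  have g2022 := fun (n0 : T.X p z b y = true) (n1 : T.X a z b y = true) (n2 : T.X p a b y = true) => h11 ((T.xs6 y b p z).trans n0) ((T.xs7 y b z a).trans n1) ((T.xs7 y b a p).trans n2)
  have g2023 := fun (n0 : T.X p z a x = false) (n1 : T.X a x z b = false) (n2 : T.X p b a x = false) => h12 ((T.xs6 x a p z).trans n0) ((T.xs1 x a z b).trans n1) ((T.xs7 x a b p).trans n2)
  have g2024 := fun (n0 : T.X p z a x = true) (n1 : T.X a x z b = true) (n2 : T.X p b a x = false) => h13 ((T.xs6 x a p z).trans n0) ((T.xs1 x a z b).trans n1) ((T.xs7 x a b p).trans n2)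
  have g2026 := fun (n0 : T.X p z a x = false) (n1 : T.X a x z b = true) (n2 : T.X p b a x = true) => h15 ((T.xs6 x a p z).trans n0) ((T.xs1 x a z b).trans n1) ((T.xs7 x a b p).trans n2)
  have g2027 := fun (n0 : T.X p z b x = false) (n1 : T.X a z b x = false) (n2 : T.X p a b x = false) => h16 ((T.xs6 x b p z).trans n0) ((T.xs7 x b z a).trans n1) ((T.xs7 x b a p).trans n2)
  have g2029 := fun (n0 : T.X p z b x = true) (n1 : T.X a z b x = false) (n2 : T.X p a b x = true) => h18 ((T.xs6 x b p z).trans n0) ((T.xs7 x b z a).trans n1) ((T.xs7 x b a p).trans n2)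
  have s2031 := fun (n0 : T.X p z a b = true) => g1 g2011 n0
  have w2031 := bf s2031
  have s2032 := fun (n0 : T.X p b a z = true) => g2 g2011 n0
  have w2032 := bf s2032
  have s2033 : T.X p z b x = false → T.X a z b x = false → T.alt p a b z x = true → False := fun n0 n1 n2 => by
    have u0 := bt fun t => g2027 n0 n1 t
    exact g252 n2 w2032 u0 n0 n1
  have s2034 : T.X a x z b = true → T.alt p a b z x = true → False := fun n0 n1 => by
    have u0 := bf fun t => g35 t n0
    have u1 := bf fun t => g238 n1 w2032 t n0
    have u2 := bt fun t => s2033 t u0 n1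
    have u3 := bf fun t => g2029 u2 u0 t
    exact g250 n1 u1 u3 u2 u0
  have s2035 : T.X a x z b = false → T.alt p a b z x = true → False := fun n0 n1 => by
    have u0 := bf fun t => g265 n1 g2011 t n0
    have u1 := bt fun t => g2023 u0 n0 t
    have u2 := bf fun t => g13 t u1
    have u3 := bf fun t => g281 n1 u1 t n0
    have u4 := bf fun t => g1167 w2032 t u1 u3 n0
    have u5 := bf fun t => g1156 g2011 u0 u2 t n0
    have u6 := bf fun t => g1175 g2011 u4 u2 u3 t
    exact g2027 u5 u6 u2
  have s2036 : T.alt p a b z x = true → False := fun n0 => by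
    have u0 := bf fun t => s2034 t n0
    exact s2035 u0 n0
  have w2036 := bf s2036
  have s2037 : T.X a x z b = false → T.alt p a x z b = true → False := fun n0 n1 => by
    have u0 := bf fun t => g379 n1 g2011 t n0
    have u1 := bf fun t => g381 n1 g2011 t n0
    exact g2023 u0 n0 u1
  have s2038 : T.X p x z b = true → T.alt p a x b y = true → T.alt p z x b y = true → False := fun n0 n1 n2 => by
    have u0 := bf fun t => g773 t n2
    have u1 := bf fun t => g592 t n1
    have u2 := bf fun t => g2004 t u1 u0
    have u3 := bt fun t => g227 u2 w2036 t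
    have u4 := bt fun t => s2037 t u3
    have u5 := bf fun t => g35 t u4
    have u6 := bf fun t => g772 t n2
    have u7 := bt fun t => g1990 t u3 u6
    have u8 := bt fun t => g1997 w2036 t n2
    have u9 := bf fun t => g23 t n0
    have u10 := bt fun t => g915 n2 t n0 g2014 g2013
    have u11 := bf fun t => g927 n2 n0 t g2013
    have u12 := bt fun t => g2027 u9 u5 t
    have u13 := bf fun t => g20 t u10
    have u14 := bf fun t => g21 t u10
    have u15 := bt fun t => g197 u7 g2011 u10 t
    have u16 := bf fun t => g14 u12 t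
    have u17 := bt fun t => g370 u3 t u12 u9 u5
    have u18 := bf fun t => g32 t u15
    have u19 := bf fun t => g33 t u15
    have u20 := bf fun t => g2021 u13 u18 t
    have u21 := bf fun t => g191 u7 w2032 t u20 u18
    have u22 := bf fun t => g419 u8 u21 u17 t
    have u23 := bt fun t => g210 u7 g2011 t u21 u10
    have u24 := bf fun t => g1823 u19 u4 u22 t g2013
    have u25 := bt fun t => g192 u7 u23 t u14 u19
    exact g729 n1 u25 u16 u11 u24
  have s2039 : T.X p b a x = false → T.X p x z b = false → T.alt p a x z b = true → False := fun n0 n1 n2 => by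
    have u0 := bt fun t => s2037 t n2
    have u1 := bf fun t => g2024 t u0 n0
    exact g387 n2 g2011 u1 n0 n1 u0
  have s2040 : T.alt p a x b y = true → T.alt p z x b y = true → False := fun n0 n1 => by
    have u0 := bf fun t => g773 t n1
    have u1 := bf fun t => g592 t n0
    have u2 := bf fun t => g2004 t u1 u0
    have u3 := bt fun t => g227 u2 w2036 t
    have u4 := bt fun t => s2037 t u3
    have u5 := bf fun t => s2038 t n0 n1
    have u6 := bt fun t => s2039 t u5 u3
    have u7 := bt fun t => g2026 t u4 u6
    exact g396 u3 w2031 w2032 u7 u6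
  have s2041 : T.X p z b y = false → T.X a z b y = false → T.alt p a z b y = true → T.X p y a z = false → False := fun n0 n1 n2 n3 => by
    have u0 := bt fun t => g120 n2 w2032 n3 t n0 n1
    exact g2021 n0 n1 u0
  have s2042 : T.X a z b y = false → T.X p y a z = false → T.alt p a z b y = true → False := fun n0 n1 n2 => by
    have u0 := bt fun t => s2041 t n0 n2 n1
    have u1 := bt fun t => g2019 u0 n0 t
    exact g138 n2 u1 u0 n0
  have s2043 : T.X p y z b = false → T.alt p a z b y = true → False := fun n0 n1 => by
    have u0 := bf fun t => g157 n1 g2011 t n0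
    have u1 := bt fun t => s2042 t u0 n1
    have u2 := bt fun t => g1005 g2011 u0 t n0 u1
    have u3 := bf fun t => g2022 t u1 u2
    exact g147 n1 w2032 u0 u2 u3 u1
  have s2044 : T.X p b a x = true → T.X a x z b = true → T.alt p z x b y = true → False := fun n0 n1 n2 => by
    have u0 := bf fun t => g35 t n1
    have u1 := bf fun t => s2040 t n2
    have u2 := bt fun t => g2001 t u1 n2
    have u3 := bt fun t => s2043 t u2
    have u4 := bf fun t => g13 t n0
    have u5 := bt fun t => g2026 t n1 n0
    have u6 := bt fun t => g2027 t u0 u4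
    have u7 := bf fun t => g1217 g2011 u5 n0 t
    have u8 := bt fun t => g1704 u3 u6 g2014 t g2013
    have u9 := bt fun t => g910 n2 u3 u7 t g2013
    exact g28 u9 u8
  have s2045 : T.X a x z b = true → T.alt p z x b y = true → False := fun n0 n1 => by
    have u0 := bf fun t => s2040 t n1
    have u1 := bt fun t => g2001 t u0 n1
    have u2 := bt fun t => s2043 t u1
    have u3 := bf fun t => g21 t u2
    have u4 := bf fun t => g772 t n1
    have u5 := bt fun t => g1997 w2036 t n1
    have u6 := bf fun t => g409 t u5
    have u7 := bf fun t => g2010 u6 t u4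
    have u8 := bt fun t => g589 u7 t u0
    have u9 := bt fun t => g1972 u1 t u6
    have u10 := bf fun t => g35 t n0
    have u11 := bf fun t => s2044 t n0 n1
    have u12 := bf fun t => g2024 t n0 u11
    have u13 := bf fun t => g342 u9 g2011 u12 u11 t n0
    have u14 := bf fun t => g899 n1 u2 u13 t
    have u15 := bt fun t => g910 n1 u2 u13 t g2013
    have u16 := bf fun t => g638 u8 t g2012 u15
    have u17 := bf fun t => g1681 u3 t g2014 u15 u14
    exact g2027 u17 u10 u16
  have s2046 : T.alt p z x b y = true → False := fun n0 => by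
    have u0 := bf fun t => g772 t n0
    have u1 := bt fun t => g1997 w2036 t n0
    have u2 := bf fun t => s2040 t n0
    have u3 := bf fun t => g409 t u1
    have u4 := bt fun t => g2001 t u2 n0
    have u5 := bf fun t => g2010 u3 t u0
    have u6 := bt fun t => g1972 u4 t u3
    have u7 := bt fun t => g589 u5 t u2
    have u8 := bt fun t => s2043 t u4
    have u9 := bf fun t => s2045 t n0
    have u10 := bf fun t => g324 u6 g2011 t u9
    have u11 := bt fun t => g2023 t u9 u10
    have u12 := bf fun t => g7 t u11
    have u13 := bf fun t => g340 u6 u11 t u9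
    have u14 := bf fun t => g1179 w2031 u11 t u13 u9
    have u15 := bf fun t => g1191 g2011 u12 u14 u13 t
    have u16 := bf fun t => g309 u6 u12 u14 t u15
    have u17 := bt fun t => g910 n0 u8 u13 t g2013
    have u18 := bt fun t => g929 n0 u8 u16 u13 t
    have u19 := bf fun t => g28 u17 t
    have u20 := bf fun t => g638 u7 t g2012 u17
    have u21 := bt fun t => g458 u1 u11 t u18
    exact g636 u7 u20 u10 u21 u19
  have w2046 := bf s2046
  have s2047 := fun (n0 : T.alt p a y z x = true) => g1998 w2036 n0 w2046
  have w2047 := bf s2047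
  have s2048 : T.X a x z b = false → T.X p y z b = true → False := fun n0 n1 => by
    have u0 := bf fun t => g20 t n1
    have u1 := bf fun t => s2037 n0 t
    have u2 := bt fun t => g227 t w2036 u1
    have u3 := bf fun t => g324 u2 g2011 t n0
    have u4 := bt fun t => g2023 t n0 u3
    have u5 := bf fun t => g9 u4 t
    have u6 := bf fun t => g340 u2 u4 t n0
    have u7 := bf fun t => g797 t n1 u6 g2014 g2013
    have u8 := bt fun t => g770 t u7 w2046
    have u9 := bt fun t => g2004 u2 t u7
    have u10 := bt fun t => g1989 t u1 u8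
    have u11 := bf fun t => g590 t u9
    have u12 := bt fun t => g197 u10 g2011 n1 t
    have u13 := bt fun t => g2009 t u11 u8
    have u14 := bf fun t => g32 t u12
    have u15 := bt fun t => g514 u13 u4 g2012 t g2014
    have u16 := bf fun t => g2021 u0 u14 t
    have u17 := bt fun t => g613 u9 u16 u3 u15 t
    have u18 := bf fun t => g191 u10 w2032 t u16 u14
    have u19 := bf fun t => g1839 u14 n0 t u17 g2013
    exact g482 u13 u18 u5 g2012 g2014 u19
  have s2049 : T.alt p a y z b = true → T.X p y z b = true → False := fun n0 n1 => by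
    have u0 := bf fun t => g21 t n1
    have u1 := bf fun t => g20 t n1
    have u2 := bt fun t => g197 n0 g2011 n1 t
    have u3 := bf fun t => g32 t u2
    have u4 := bf fun t => g2021 u1 u3 t
    have u5 := bf fun t => g191 n0 w2032 t u4 u3
    have u6 := bt fun t => g210 n0 g2011 t u5 n1
    have u7 := bf fun t => g4 u6 t
    have u8 := bf fun t => g216 n0 u6 t u0
    exact g2016 u7 u2 u8
  have s2050 : T.alt p a z b x = true → T.X p b a x = false → T.X p y z b = true → False := fun n0 n1 n2 => by
    have u0 := bt fun t => s2048 t n2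
    have u1 := bf fun t => g2024 t u0 n1
    have u2 := bf fun t => s2049 t n2
    have u3 := bf fun t => g1981 u2 w2047 t
    have u4 := bf fun t => g342 n0 g2011 u1 n1 t u0
    have u5 := bt fun t => g2004 n0 u3 t
    exact g797 u5 n2 u4 g2014 g2013
  have s2051 : T.X p b a x = false → T.X p y z b = true → False := fun n0 n1 => by
    have u0 := bf fun t => s2049 t n1
    have u1 := bf fun t => g1981 u0 w2047 t
    have u2 := bt fun t => s2048 t n1
    have u3 := bf fun t => g2024 t u2 n0
    have u4 := bf fun t => s2050 t n0 n1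
    have u5 := bf fun t => g2005 u4 u1 t
    have u6 := bt fun t => g227 u4 w2036 t
    have u7 := bt fun t => g770 t u5 w2046
    have u8 := bt fun t => g387 u6 g2011 u3 n0 t u2
    exact g861 u7 n1 u8 g2013
  have s2052 : T.X p y z b = true → False := fun n0 => by
    have u0 := bt fun t => s2048 t n0
    have u1 := bf fun t => s2049 t n0
    have u2 := bf fun t => g1981 u1 w2047 t
    have u3 := bt fun t => s2051 t n0
    have u4 := bt fun t => g2026 t u0 u3
    have u5 := bf fun t => g396 t w2031 w2032 u4 u3
    have u6 := bf fun t => g1217 g2011 u4 u3 t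
    have u7 := bt fun t => g227 t w2036 u5
    have u8 := bf fun t => g797 t n0 u6 g2014 g2013
    exact g2004 u7 u2 u8
  have w2052 := bf s2052
  have s2053 := fun (n0 : T.alt p a z b y = true) => s2043 w2052 n0
  have w2053 := bf s2053
  have s2054 := fun (n0 : T.alt p a x b y = true) => g2002 w2053 n0 w2046
  have w2054 := bf s2054
  have s2055 : T.alt p a y b x = false → T.X p b a x = true → T.X a x z b = true → T.alt p a z b x = true → False := fun n0 n1 n2 n3 => by
    have u0 := bt fun t => g1974 w2053 n3 t
    have u1 := bt fun t => g2026 t n2 n1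
    have u2 := bt fun t => g514 u0 u1 g2012 t g2014
    have u3 := bf fun t => g18 u2 t
    have u4 := bf fun t => g1217 g2011 u1 n1 t
    have u5 := bf fun t => g9 u1 t
    have u6 := bf fun t => g297 n3 w2031 t n2
    have u7 := bf fun t => g1980 t w2047 n0
    have u8 := bt fun t => g589 t n0 w2054
    have u9 := bt fun t => g2004 n3 n0 t
    have u10 := bt fun t => g46 w2053 t u7
    have u11 := bf fun t => g793 u9 u4 g2014 t g2013
    have u12 := bf fun t => g98 u10 g2011 t w2052
    have u13 := bt fun t => g663 u8 u12 u6 g2012 u11 t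
    have u14 := bf fun t => g87 u10 w2031 w2032 t u12
    have u15 := bf fun t => g1482 t u6 u3 u11 u13
    have u16 := bt fun t => g482 u0 u14 u5 g2012 g2014 t
    have u17 := bt fun t => g74 u10 g2011 u15 w2052 t
    exact g1906 u17 n2 u16 u13
  have s2056 : T.X p b a x = true → T.X a x z b = true → T.alt p a z b x = true → False := fun n0 n1 n2 => by
    have u0 := bf fun t => g297 n2 w2031 t n1
    have u1 := bt fun t => g1974 w2053 n2 t
    have u2 := bt fun t => g2026 t n1 n0
    have u3 := bf fun t => g9 u2 t
    have u4 := bf fun t => g1217 g2011 u2 n0 t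
    have u5 := bt fun t => s2055 t n0 n1 n2
    have u6 := bf fun t => g590 t u5
    have u7 := bt fun t => g1981 t w2047 u5
    have u8 := bt fun t => g2008 u1 u6 t
    have u9 := bt fun t => g844 u8 w2052 u4 g2014 t g2013
    have u10 := bf fun t => g29 u9 t
    have u11 := bt fun t => g612 u5 u0 g2012 u9 t
    have u12 := bf fun t => g1515 t u0 g2012 u10 u11
    have u13 := bf fun t => g41 u11 t
    have u14 := bf fun t => g213 u7 g2011 u12 t
    have u15 := bf fun t => g2020 u14 t u12
    have u16 := bf fun t => g992 g2011 t u12 w2052 u15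
    have u17 := bf fun t => g1838 u15 n1 t u13 g2013
    exact g482 u1 u16 u3 g2012 g2014 u17
  have s2057 : T.alt p a y b x = true → T.X p x a z = false → T.X p x z b = false → T.X p x a b = false → T.X a x z b = true → T.alt p a z y x = true → False := fun n0 n1 n2 n3 n4 n5 => by
    have u0 := bf fun t => g590 t n0
    have u1 := bt fun t => g1981 t w2047 n0
    have u2 := bt fun t => g2008 n5 u0 t
    have u3 := bt fun t => g844 u2 w2052 n2 g2014 t g2013
    have u4 := bf fun t => g29 u3 t
    have u5 := bt fun t => g612 n0 n3 g2012 u3 t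
    have u6 := bf fun t => g1515 t n3 g2012 u4 u5
    have u7 := bf fun t => g41 u5 t
    have u8 := bf fun t => g213 u1 g2011 u6 t
    have u9 := bf fun t => g2020 u8 t u6
    have u10 := bf fun t => g992 g2011 t u6 w2052 u9
    have u11 := bf fun t => g1838 u9 n4 t u7 g2013
    exact g482 n5 u10 n1 g2012 g2014 u11
  have s2058 : T.X a x z b = true → T.alt p a z b x = true → False := fun n0 n1 => by
    have u0 := bt fun t => g1974 w2053 n1 t
    have u1 := bf fun t => g297 n1 w2031 t n0
    have u2 := bf fun t => s2056 t n0 n1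
    have u3 := bf fun t => g2024 t n0 u2
    have u4 := bf fun t => g342 n1 g2011 u3 u2 t n0
    have u5 := bf fun t => g1200 w2032 t u2 u4 n0
    have u6 := bf fun t => s2057 t u5 u4 u1 n0 u0
    have u7 := bf fun t => g1980 t w2047 u6
    have u8 := bt fun t => g589 t u6 w2054
    have u9 := bt fun t => g2004 n1 u6 t
    have u10 := bt fun t => g46 w2053 t u7
    have u11 := bf fun t => g793 u9 u4 g2014 t g2013
    have u12 := bf fun t => g98 u10 g2011 t w2052
    have u13 := bt fun t => g663 u8 u12 u1 g2012 u11 t
    have u14 := bf fun t => g87 u10 w2031 w2032 t u12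
    have u15 := bf fun t => g41 u13 t
    have u16 := bt fun t => g482 u0 u14 u5 g2012 g2014 t
    have u17 := bf fun t => g38 u16 t
    have u18 := bt fun t => g1838 t n0 u16 u15 g2013
    have u19 := bt fun t => g1823 t n0 u17 u13 g2013
    exact g31 u18 u19
  have s2059 : T.alt p a y b x = false → T.alt p a z b x = true → False := fun n0 n1 => by
    have u0 := bt fun t => g1974 w2053 n1 t
    have u1 := bf fun t => s2058 t n1
    have u2 := bf fun t => g324 n1 g2011 t u1
    have u3 := bt fun t => g2023 t u1 u2
    have u4 := bt fun t => g514 u0 u3 g2012 t g2014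
    have u5 := bf fun t => g340 n1 u3 t u1
    have u6 := bf fun t => g1179 w2031 u3 t u5 u1
    have u7 := bf fun t => g1980 t w2047 n0
    have u8 := bt fun t => g589 t n0 w2054
    have u9 := bt fun t => g46 w2053 t u7
    have u10 := bf fun t => g698 u8 u2 u4 t
    have u11 := bf fun t => g98 u9 g2011 t w2052
    have u12 := bt fun t => g663 u8 u11 u6 g2012 u10 t
    exact g1538 u11 u2 u4 u10 u12
  have s2060 : T.alt p a z b x = true → False := fun n0 => by
    have u0 := bt fun t => g1974 w2053 n0 t
    have u1 := bf fun t => s2058 t n0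
    have u2 := bf fun t => g324 n0 g2011 t u1
    have u3 := bt fun t => g2023 t u1 u2
    have u4 := bf fun t => g340 n0 u3 t u1
    have u5 := bt fun t => g514 u0 u3 g2012 t g2014
    have u6 := bt fun t => s2059 t n0
    have u7 := bf fun t => g590 t u6
    have u8 := bt fun t => g2008 u0 u7 t
    have u9 := bt fun t => g844 u8 w2052 u4 g2014 t g2013
    have u10 := bf fun t => g28 u9 t
    have u11 := bf fun t => g638 u6 t g2012 u9
    exact g636 u6 u11 u2 u5 u10
  have w2060 := bf s2060
  have s2061 := fun (n0 : T.alt p a z y x = true) => g1973 w2053 w2060 n0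
  have w2061 := bf s2061
  have s2062 := fun (n0 : T.alt p a x z b = false) => g227 w2060 w2036 n0
  have w2062 := bt s2062
  have s2063 := fun (n0 : T.alt p a x z y = false) => g408 w2061 w2047 n0
  have w2063 := bt s2063
  have s2064 := fun (n0 : T.X a x z b = false) => s2037 n0 w2062
  have w2064 := bt s2064
  have s2065 := fun (n0 : T.X a z b x = true) => g35 n0 w2064
  have w2065 := bf s2065
  have s2067 : T.alt p a y b x = true → T.X p x z b = true → False := fun n0 n1 => by
    have u0 := bf fun t => g23 t n1
    have u1 := bt fun t => g2027 u0 w2065 t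
    have u2 := bt fun t => g2006 w2060 n0 t
    have u3 := bf fun t => g638 n0 u1 g2012 t
    exact g792 u2 w2052 n1 u3 g2013
  have s2068 : T.X p x z b = true → False := fun n0 => by
    have u0 := bf fun t => g23 t n0
    have u1 := bt fun t => g2027 u0 w2065 t
    have u2 := bf fun t => g14 u1 t
    have u3 := bt fun t => g370 w2062 t u1 u0 w2065
    have u4 := bf fun t => s2067 t n0
    have u5 := bf fun t => g1980 t w2047 u4
    have u6 := bt fun t => g589 t u4 w2054
    have u7 := bt fun t => g46 w2053 t u5
    have u8 := bt fun t => g1990 u5 w2062 t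
    have u9 := bf fun t => g98 u7 g2011 t w2052
    have u10 := bf fun t => g866 u8 n0 t g2013
    have u11 := bt fun t => g663 u6 u9 u2 g2012 u10 t
    have u12 := bf fun t => g87 u7 w2031 w2032 t u9
    have u13 := bt fun t => g692 u6 u1 g2012 u10 t
    have u14 := bf fun t => g40 u11 t
    have u15 := bt fun t => g553 w2063 u12 u3 g2012 t
    have u16 := bf fun t => g687 u6 t u13 u14
    have u17 := bf fun t => g1906 t w2064 u15 u11
    exact g74 u7 g2011 u16 w2052 u17
  have w2068 := bf s2068
  have s2069 := fun (n0 : T.X p b a x = false) => s2039 n0 w2068 w2062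
  have w2069 := bt s2069
  have s2072 := fun (n0 : T.X p z a x = false) => g2026 n0 w2064 w2069
  have w2072 := bt s2072
  exact g396 w2062 w2031 w2032 w2072 w2069

theorem MT_sepa_0010 {p a z b y x : V} (hN : [p, a, z, b, y, x].Nodup) (h0 : T.X p a z b = true)
    (h1 : T.X y x p a = false) (h2 : T.X y x z b = false) (h3 : T.X y x p z = true)
    (h4 : T.X y a p z = true → T.X y a z b = false → T.X y a b p = false → False)
    (h5 : T.X y a p z = false → T.X y a z b = true → T.X y a b p = false → False)
    (h6 : T.X y a p z = false → T.X y a z b = false → T.X y a b p = true → False)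
    (h7 : T.X y a p z = true → T.X y a z b = true → T.X y a b p = true → False)
    (h8 : T.X y b p z = true → T.X y b z a = false → T.X y b a p = false → False)
    (h9 : T.X y b p z = false → T.X y b z a = true → T.X y b a p = false → False)
    (h10 : T.X y b p z = false → T.X y b z a = false → T.X y b a p = true → False)
    (h11 : T.X y b p z = true → T.X y b z a = true → T.X y b a p = true → False)
    (h12 : T.X x a p z = false → T.X x a z b = false → T.X x a b p = false → False)
    (h13 : T.X x a p z = true → T.X x a z b = true → T.X x a b p = false → False)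
    (h14 : T.X x a p z = true → T.X x a z b = false → T.X x a b p = true → False)
    (h15 : T.X x a p z = false → T.X x a z b = true → T.X x a b p = true → False)
    (h16 : T.X x b p z = true → T.X x b z a = false → T.X x b a p = false → False)
    (h17 : T.X x b p z = false → T.X x b z a = true → T.X x b a p = false → False)
    (h18 : T.X x b p z = false → T.X x b z a = false → T.X x b a p = true → False)
    (h19 : T.X x b p z = true → T.X x b z a = true → T.X x b a p = true → False) : False := by
  have k0 : T.Ok5 p a z b y := T.n5 hN (.cons_cons _ (.cons_cons _ (.cons_cons _ (.cons_cons _ (.cons_cons _ (List.nil_sublist _))))))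
  have k1 : T.Ok5 p a z b x := T.n5 hN (.cons_cons _ (.cons_cons _ (.cons_cons _ (.cons_cons _ (.cons _ (.cons_cons _ (List.nil_sublist _)))))))
  have k2 : T.Ok5 p a z y x := T.n5 hN (.cons_cons _ (.cons_cons _ (.cons_cons _ (.cons _ (.cons_cons _ (.cons_cons _ (List.nil_sublist _)))))))
  have k3 : T.Ok5 p a b y x := T.n5 hN (.cons_cons _ (.cons_cons _ (.cons _ (.cons_cons _ (.cons_cons _ (.cons_cons _ (List.nil_sublist _)))))))
  have k4 : T.Ok5 p z b y x := T.n5 hN (.cons_cons _ (.cons _ (.cons_cons _ (.cons_cons _ (.cons_cons _ (.cons_cons _ (List.nil_sublist _)))))))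
  have k5 : T.Ok5 a z b y x := T.n5 hN (.cons _ (.cons_cons _ (.cons_cons _ (.cons_cons _ (.cons_cons _ (.cons_cons _ (List.nil_sublist _)))))))
  have sp0 : T.Sp5 p a z b y x := T.sp5 hN (.cons_cons _ (.cons_cons _ (.cons_cons _ (.cons_cons _ (.cons_cons _ (.cons_cons _ (List.nil_sublist _)))))))
  have g1 := T.q01 p a z b
  have g2 := T.q02 p a z b
  have g7 := T.q01 p a z x
  have g9 := T.q12 p a z x
  have g10 := T.q01 p a b y
  have g13 := T.q01 p a b x
  have g15 := T.q12 p a b x
  have g18 := T.q12 p a y x
  have g19 := T.q01 p z b y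
  have g23 := T.q02 p z b x
  have g25 := T.q01 p z y x
  have g26 := T.q02 p z y x
  have g29 := T.q02 p b y x
  have g32 := T.q02 a z b y
  have g33 := T.q12 a z b y
  have g35 := T.q02 a z b x
  have g36 := T.q12 a z b x
  have g37 := T.q01 a z y x
  have g38 := T.q02 a z y x
  have g39 := T.q12 a z y x
  have g40 := T.q01 a b y x
  have g41 := T.q02 a b y x
  have g42 := T.q12 a b y x
  have g46 := T.ae1 k0
  have g61 := fun ha : T.alt p a b z y = true => zA1_9482_0 (T.okA1 k0 ha)
  have g74 := fun ha : T.alt p a b z y = true => zA1_18561_1 (T.okA1 k0 ha)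
  have g84 := fun ha : T.alt p a b z y = true => zA1_16401_17 (T.okA1 k0 ha)
  have g87 := fun ha : T.alt p a b z y = true => zA1_294_32 (T.okA1 k0 ha)
  have g98 := fun ha : T.alt p a b z y = true => zA1_2305_257 (T.okA1 k0 ha)
  have g120 := fun ha : T.alt p a z b y = true => zA0_4708_0 (T.okA0 k0 ha)
  have g133 := fun ha : T.alt p a z b y = true => zA0_18449_1 (T.okA0 k0 ha)
  have g143 := fun ha : T.alt p a z b y = true => zA0_16513_129 (T.okA0 k0 ha)
  have g157 := fun ha : T.alt p a z b y = true => zA0_2081_33 (T.okA0 k0 ha)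
  have g160 := fun ha : T.alt p a z b y = true => zA0_18577_16401 (T.okA0 k0 ha)
  have g198 := fun ha : T.alt p a y z b = true => zA2_16401_17 (T.okA2 k0 ha)
  have g200 := fun ha : T.alt p a y z b = true => zA2_16513_129 (T.okA2 k0 ha)
  have g215 := fun ha : T.alt p a y z b = true => zA2_150_144 (T.okA2 k0 ha)
  have g227 := T.ae1 k1
  have g242 := fun ha : T.alt p a b z x = true => zA1_9482_0 (T.okA1 k1 ha)
  have g279 := fun ha : T.alt p a b z x = true => zA1_2305_257 (T.okA1 k1 ha)
  have g301 := fun ha : T.alt p a z b x = true => zA0_4708_0 (T.okA0 k1 ha)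
  have g319 := fun ha : T.alt p a z b x = true => zA0_4672_576 (T.okA0 k1 ha)
  have g324 := fun ha : T.alt p a z b x = true => zA0_16513_129 (T.okA0 k1 ha)
  have g328 := fun ha : T.alt p a z b x = true => zA0_4708_4160 (T.okA0 k1 ha)
  have g338 := fun ha : T.alt p a z b x = true => zA0_2081_33 (T.okA0 k1 ha)
  have g342 := fun ha : T.alt p a z b x = true => zA0_18577_18433 (T.okA0 k1 ha)
  have g369 := fun ha : T.alt p a x z b = true => zA2_8458_256 (T.okA2 k1 ha)
  have g372 := fun ha : T.alt p a x z b = true => zA2_4196_32 (T.okA2 k1 ha)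
  have g379 := fun ha : T.alt p a x z b = true => zA2_16401_17 (T.okA2 k1 ha)
  have g381 := fun ha : T.alt p a x z b = true => zA2_16513_129 (T.okA2 k1 ha)
  have g384 := fun ha : T.alt p a x z b = true => zA2_4640_544 (T.okA2 k1 ha)
  have g387 := fun ha : T.alt p a x z b = true => zA2_18577_16385 (T.okA2 k1 ha)
  have g391 := fun ha : T.alt p a x z b = true => zA2_2089_2049 (T.okA2 k1 ha)
  have g396 := fun ha : T.alt p a x z b = true => zA2_150_144 (T.okA2 k1 ha)
  have g408 := T.ae1 k2
  have g411 := T.ae12 k2
  have g423 := fun ha : T.alt p a y z x = true => zA1_9482_0 (T.okA1 k2 ha)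
  have g428 := fun ha : T.alt p a y z x = true => zA1_18576_16 (T.okA1 k2 ha)
  have g431 := fun ha : T.alt p a y z x = true => zA1_4704_512 (T.okA1 k2 ha)
  have g455 := fun ha : T.alt p a y z x = true => zA1_1176_128 (T.okA1 k2 ha)
  have g457 := fun ha : T.alt p a y z x = true => zA1_584_520 (T.okA1 k2 ha)
  have g549 := fun ha : T.alt p a x z y = true => zA2_4676_512 (T.okA2 k2 ha)
  have g575 := fun ha : T.alt p a x z y = true => zA2_577_513 (T.okA2 k2 ha)
  have g589 := T.ae1 k3
  have g590 := T.ae01 k3
  have g591 := T.ae02 k3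
  have g592 := T.ae12 k3
  have g609 := fun ha : T.alt p a y b x = true => zA1_18576_16 (T.okA1 k3 ha)
  have g612 := fun ha : T.alt p a y b x = true => zA1_4704_512 (T.okA1 k3 ha)
  have g639 := fun ha : T.alt p a y b x = true => zA1_1168_1040 (T.okA1 k3 ha)
  have g670 := fun ha : T.alt p a b y x = true => zA0_9474_256 (T.okA0 k3 ha)
  have g674 := fun ha : T.alt p a b y x = true => zA0_9482_8192 (T.okA0 k3 ha)
  have g695 := fun ha : T.alt p a b y x = true => zA0_720_16 (T.okA0 k3 ha)
  have g730 := fun ha : T.alt p a x b y = true => zA2_4676_512 (T.okA2 k3 ha)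
  have g731 := fun ha : T.alt p a x b y = true => zA2_8458_256 (T.okA2 k3 ha)
  have g761 := fun ha : T.alt p a x b y = true => zA2_9472_1280 (T.okA2 k3 ha)
  have g770 := T.ae1 k4
  have g772 := T.ae02 k4
  have g773 := T.ae12 k4
  have g814 := fun ha : T.alt p z y b x = true => zA1_1608_64 (T.okA1 k4 ha)
  have g820 := fun ha : T.alt p z y b x = true => zA1_1168_1040 (T.okA1 k4 ha)
  have g823 := fun ha : T.alt p z y b x = true => zA1_4192_96 (T.okA1 k4 ha)
  have g862 := fun ha : T.alt p z b y x = true => zA0_4672_576 (T.okA0 k4 ha)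
  have g863 := fun ha : T.alt p z b y x = true => zA0_4164_68 (T.okA0 k4 ha)
  have g865 := fun ha : T.alt p z b y x = true => zA0_4192_96 (T.okA0 k4 ha)
  have g878 := fun ha : T.alt p z b y x = true => zA0_1096_1088 (T.okA0 k4 ha)
  have g913 := fun ha : T.alt p z x b y = true => zA2_4704_64 (T.okA2 k4 ha)
  have g932 := fun ha : T.alt p z x b y = true => zA2_2625_64 (T.okA2 k4 ha)
  have g938 := fun ha : T.alt p z x b y = true => zA2_2306_2050 (T.okA2 k4 ha)
  have g941 := fun ha : T.alt p z x b y = true => zA2_4164_68 (T.okA2 k4 ha)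
  have g967 := z5_17545_1025 k0
  have g980 := z5_10505_257 k0
  have g1021 := z5_10505_8193 k0
  have g1156 := z5_16977_513 k1
  have g1162 := z5_6241_33 k1
  have g1164 := z5_16977_17 k1
  have g1168 := z5_18706_16640 k1
  have g1175 := z5_6241_4097 k1
  have g1191 := z5_10505_8193 k1
  have g1196 := z5_4756_4112 k1
  have g1214 := MTz5_20112_16528 k1
  have g1217 := z5_2193_2193 k1
  have g1239 := z5_16985_16961 k1
  have g1251 := MTz5_21073_593 k1
  have g1336 := z5_5196_4104 k2
  have g1345 := z5_6241_4097 k2
  have g1506 := z5_5196_4104 k3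
  have g1542 := z5_9508_260 k3
  have g1659 := z5_5196_68 k4
  have g1668 := z5_6241_96 k4
  have g1823 := z5_4898_544 k5
  have g1826 := z5_4898_34 k5
  have g1829 := z5_5196_68 k5
  have g1838 := z5_6241_96 k5
  have g1860 := z5_5196_1088 k5
  have g1875 := z5_4756_516 k5
  have g1877 := z5_4756_640 k5
  have g1906 := z5_612_612 k5
  have g1973 := zsp_73_64 sp0
  have g1978 := zsp_530_16 sp0
  have g1982 := zsp_1156_128 sp0
  have g1985 := zsp_2336_2048 sp0
  have g1986 := zsp_2336_256 sp0
  have g1989 := zsp_4132_4096 sp0
  have g1992 := zsp_8450_2 sp0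
  have g1993 := zsp_8450_8192 sp0
  have g1994 := zsp_8450_256 sp0
  have g1996 := zsp_16528_16 sp0
  have g1997 := zsp_16528_16384 sp0
  have g1999 := zsp_18433_18433 sp0
  have g2000 := zsp_18433_1 sp0
  have g2001 := zsp_18433_16384 sp0
  have g2002 := zsp_18433_2048 sp0
  have g2005 := zsp_9224_8192 sp0
  have g2006 := zsp_9224_1024 sp0
  have g2008 := zsp_4672_64 sp0
  have g2010 := zsp_4672_512 sp0
  have g2011 : T.X p a z b = true := h0
  have g2012 : T.X p a y x = false := ((T.xs4 y x p a).symm.trans h1)
  have g2013 : T.X z b y x = false := ((T.xs4 y x z b).symm.trans h2)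
  have g2014 : T.X p z y x = true := ((T.xs4 y x p z).symm.trans h3)
  have g2015 := fun (n0 : T.X p z a y = true) (n1 : T.X a y z b = false) (n2 : T.X p b a y = false) => h4 ((T.xs6 y a p z).trans n0) ((T.xs1 y a z b).trans n1) ((T.xs7 y a b p).trans n2)
  have g2016 := fun (n0 : T.X p z a y = false) (n1 : T.X a y z b = true) (n2 : T.X p b a y = false) => h5 ((T.xs6 y a p z).trans n0) ((T.xs1 y a z b).trans n1) ((T.xs7 y a b p).trans n2)
  have g2017 := fun (n0 : T.X p z a y = false) (n1 : T.X a y z b = false) (n2 : T.X p b a y = true) => h6 ((T.xs6 y a p z).trans n0) ((T.xs1 y a z b).trans n1) ((T.xs7 y a b p).trans n2)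
  have g2019 := fun (n0 : T.X p z b y = true) (n1 : T.X a z b y = false) (n2 : T.X p a b y = false) => h8 ((T.xs6 y b p z).trans n0) ((T.xs7 y b z a).trans n1) ((T.xs7 y b a p).trans n2)
  have g2023 := fun (n0 : T.X p z a x = false) (n1 : T.X a x z b = false) (n2 : T.X p b a x = false) => h12 ((T.xs6 x a p z).trans n0) ((T.xs1 x a z b).trans n1) ((T.xs7 x a b p).trans n2)
  have g2024 := fun (n0 : T.X p z a x = true) (n1 : T.X a x z b = true) (n2 : T.X p b a x = false) => h13 ((T.xs6 x a p z).trans n0) ((T.xs1 x a z b).trans n1) ((T.xs7 x a b p).trans n2)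
  have g2026 := fun (n0 : T.X p z a x = false) (n1 : T.X a x z b = true) (n2 : T.X p b a x = true) => h15 ((T.xs6 x a p z).trans n0) ((T.xs1 x a z b).trans n1) ((T.xs7 x a b p).trans n2)
  have g2027 := fun (n0 : T.X p z b x = true) (n1 : T.X a z b x = false) (n2 : T.X p a b x = false) => h16 ((T.xs6 x b p z).trans n0) ((T.xs7 x b z a).trans n1) ((T.xs7 x b a p).trans n2)
  have g2028 := fun (n0 : T.X p z b x = false) (n1 : T.X a z b x = true) (n2 : T.X p a b x = false) => h17 ((T.xs6 x b p z).trans n0) ((T.xs7 x b z a).trans n1) ((T.xs7 x b a p).trans n2)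
  have g2029 := fun (n0 : T.X p z b x = false) (n1 : T.X a z b x = false) (n2 : T.X p a b x = true) => h18 ((T.xs6 x b p z).trans n0) ((T.xs7 x b z a).trans n1) ((T.xs7 x b a p).trans n2)
  have g2030 := fun (n0 : T.X p z b x = true) (n1 : T.X a z b x = true) (n2 : T.X p a b x = true) => h19 ((T.xs6 x b p z).trans n0) ((T.xs7 x b z a).trans n1) ((T.xs7 x b a p).trans n2)
  have s2031 := fun (n0 : T.X p z a b = true) => g1 g2011 n0
  have w2031 := bf s2031
  have s2032 := fun (n0 : T.X p b a z = true) => g2 g2011 n0
  have w2032 := bf s2032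
  have s2033 := fun (n0 : T.X p y z x = true) => g25 g2014 n0
  have w2033 := bf s2033
  have s2034 := fun (n0 : T.X p x z y = true) => g26 g2014 n0
  have w2034 := bf s2034
  have s2035 : T.alt p a x z y = true → T.alt p a x b y = true → T.alt p z x b y = true → False := fun n0 n1 n2 => by
    have u0 := bf fun t => g941 n2 t g2014 g2013
    have u1 := bf fun t => g773 t n2
    have u2 := bf fun t => g411 t n0
    have u3 := bf fun t => g575 n0 t g2012 g2014
    have u4 := bt fun t => g1994 t n0 u1
    have u5 := bt fun t => g1997 t u2 n2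
    have u6 := bf fun t => g98 u4 g2011 t u0
    have u7 := bf fun t => g1021 g2011 u3 u6 u0 t
    have u8 := bf fun t => g87 u4 w2031 w2032 t u6
    have u9 := bt fun t => g61 u4 w2031 u3 u6 t u7
    have u10 := bt fun t => g549 n0 u8 g2012 g2014 t
    have u11 := bf fun t => g19 t u9
    have u12 := bf fun t => g938 n2 u9 w2034 t
    have u13 := bf fun t => g37 u10 t
    have u14 := bf fun t => g1336 u8 t g2012 w2033 u10
    have u15 := bf fun t => g1668 u11 t g2014 u12 g2013
    have u16 := bt fun t => g932 n2 u11 g2014 t u12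
    have u17 := bf fun t => g279 u5 g2011 t u15
    have u18 := bt fun t => g730 n1 u6 g2012 u16 t
    have u19 := bf fun t => g1191 g2011 u14 u17 u15 t
    have u20 := bf fun t => g1875 t u19 u13 u18 g2013
    have u21 := bt fun t => g967 g2011 u3 t u9 u20
    have u22 := bf fun t => g84 u4 g2011 t u20
    exact g2017 u22 u20 u21
  have s2036 : T.X a b z x = false → T.X a y z x = false → T.X a b y x = true → T.alt p a y z b = true → T.alt p a y z x = true → T.alt p a x z b = true → T.alt p a x b y = true → False := fun n0 n1 n2 n3 n4 n5 n6 => by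
    have u0 := bf fun t => g40 n2 t
    have u1 := bf fun t => g457 n4 t g2012 g2014
    have u2 := bf fun t => g1875 t n0 n1 n2 g2013
    have u3 := bf fun t => g369 n5 w2031 u1 t n0
    have u4 := bf fun t => g198 n3 g2011 t u2
    have u5 := bf fun t => g200 n3 g2011 t u2
    have u6 := bt fun t => g423 n4 u4 u1 t w2033 n1
    have u7 := bf fun t => g761 n6 u6 t u0
    have u8 := bt fun t => g731 n6 u5 t u6 u0
    have u9 := bf fun t => g1542 t u3 u6 u7 u0
    exact g1506 u9 u8 g2012 u7 n2
  have s2037 : T.X a x z b = false → T.alt p a x z b = true → False := fun n0 n1 => by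
    have u0 := bf fun t => g379 n1 g2011 t n0
    have u1 := bf fun t => g381 n1 g2011 t n0
    exact g2023 u0 n0 u1
  have s2038 : T.X a b y x = true → T.alt p a y z b = true → T.alt p a y z x = true → T.alt p a x z b = true → T.alt p a x b y = true → False := fun n0 n1 n2 n3 n4 => by
    have u0 := bt fun t => s2037 t n3
    have u1 := bf fun t => g36 t u0
    have u2 := bt fun t => s2036 u1 t n0 n1 n2 n3 n4
    have u3 := bf fun t => g39 u2 t
    have u4 := bt fun t => g1877 t u1 u2 n0 g2013
    have u5 := bt fun t => g1823 t u0 u3 n0 g2013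
    exact g33 u5 u4
  have s2039 : T.X p x a z = true → T.X a z b x = false → T.alt p a x z b = true → False := fun n0 n1 n2 => by
    have u0 := bt fun t => g372 n2 w2032 n0 t n1
    have u1 := bf fun t => g384 n2 n0 t n1
    exact g2029 u1 n1 u0
  have s2040 : T.alt p a x b y = true → T.alt p z x b y = true → False := fun n0 n1 => by
    have u0 := bf fun t => g941 n1 t g2014 g2013
    have u1 := bf fun t => g773 t n1
    have u2 := bf fun t => g772 t n1
    have u3 := bf fun t => g591 t n0
    have u4 := bf fun t => g1999 t n0 n1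
    have u5 := bf fun t => g2008 t u3 u2
    have u6 := bf fun t => s2035 t n0 n1
    have u7 := bf fun t => g1992 t u6 u1
    have u8 := bt fun t => g1985 t u6 n0
    have u9 := bt fun t => g408 u5 t u6
    have u10 := bt fun t => g46 u4 u7 t
    have u11 := bf fun t => g457 u9 t g2012 g2014
    have u12 := bt fun t => s2037 t u8
    have u13 := bf fun t => g35 t u12
    have u14 := bf fun t => s2038 t u10 u9 u8 n0
    have u15 := bf fun t => s2039 t u13 u8
    have u16 := bt fun t => g431 u9 u15 g2012 g2014 t
    have u17 := bf fun t => g391 u8 g2011 u11 u15 t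
    have u18 := bf fun t => g1345 t u15 g2012 w2034 u16
    have u19 := bf fun t => g38 u16 t
    have u20 := bt fun t => g913 n1 u17 g2014 t g2013
    have u21 := bf fun t => g1826 t u12 u19 u14 g2013
    have u22 := bt fun t => g730 n0 t g2012 u20 u14
    exact g980 g2011 u18 u22 u0 u21
  have s2044 : T.X p b a y = false → T.X a y z b = true → T.alt p a z b y = true → T.X p y z b = false → False := fun n0 n1 n2 n3 => by
    have u0 := bf fun t => g160 n2 g2011 t n0 n3 n1
    exact g2016 u0 n1 n0
  have s2045 : T.X p a b y = false → T.X a z b y = false → T.alt p a z b y = true → T.X p y a z = false → False := fun n0 n1 n2 n3 => by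
    have u0 := bt fun t => g120 n2 w2032 n3 n0 t n1
    exact g2019 u0 n1 n0
  have s2046 : T.X a y z b = true → T.alt p z x b y = true → False := fun n0 n1 => by
    have u0 := bf fun t => g941 n1 t g2014 g2013
    have u1 := bf fun t => s2040 t n1
    have u2 := bt fun t => g2001 t u1 n1
    have u3 := bf fun t => g157 u2 g2011 t u0
    have u4 := bf fun t => g32 t n0
    have u5 := bt fun t => s2044 t n0 u2 u0
    have u6 := bf fun t => g10 t u5
    exact s2045 u6 u4 u2 u3
  have s2047 : T.X a y z b = false → T.alt p a z b y = true → T.X p y z b = false → False := fun n0 n1 n2 => by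
    have u0 := bt fun t => g133 n1 g2011 t n2 n0
    have u1 := bt fun t => g2015 u0 n0 t
    exact g143 n1 g2011 u1 n0
  have s2048 : T.alt p z x b y = true → False := fun n0 => by
    have u0 := bf fun t => g941 n0 t g2014 g2013
    have u1 := bf fun t => s2040 t n0
    have u2 := bt fun t => g2001 t u1 n0
    have u3 := bf fun t => s2046 t n0
    exact s2047 u3 u2 u0
  have w2048 := bf s2048
  have s2049 : T.X p y z b = false → T.alt p a z b y = true → False := fun n0 n1 => by
    have u0 := bf fun t => g157 n1 g2011 t n0
    have u1 := bt fun t => s2047 t n1 n0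
    have u2 := bf fun t => g32 t u1
    have u3 := bt fun t => s2044 t u1 n1 n0
    have u4 := bt fun t => s2045 t u2 n1 u0
    exact g10 u4 u3
  have s2050 : T.X p a b x = false → T.X a z b x = false → T.alt p a z b y = true → False := fun n0 n1 n2 => by
    have u0 := bt fun t => s2049 t n2
    have u1 := bf fun t => g863 t u0 g2014 g2013
    have u2 := bt fun t => g770 u1 t w2048
    have u3 := bf fun t => g823 u2 t g2014 g2013
    have u4 := bt fun t => g2000 n2 t w2048
    have u5 := bf fun t => g592 t u4
    have u6 := bt fun t => g2005 t u5 u2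
    have u7 := bf fun t => g338 u6 g2011 t u3
    have u8 := bf fun t => g2027 t n1 n0
    exact g301 u6 w2032 u7 n0 u8 n1
  have s2051 : T.X p a b x = true → T.X a z b x = false → T.alt p a z b x = true → False := fun n0 n1 n2 => by
    have u0 := bf fun t => g319 n2 n0 t n1
    exact g2029 u0 n1 n0
  have s2052 : T.X a z b x = false → T.alt p a z b y = true → False := fun n0 n1 => by
    have u0 := bt fun t => g2000 n1 t w2048
    have u1 := bf fun t => g592 t u0
    have u2 := bt fun t => s2049 t n1
    have u3 := bf fun t => g863 t u2 g2014 g2013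
    have u4 := bt fun t => g770 u3 t w2048
    have u5 := bt fun t => g2005 t u1 u4
    have u6 := bt fun t => s2050 t n0 n1
    exact s2051 u6 n0 u5
  have s2053 : T.X p a b x = true → T.X a z b x = true → T.X p x a z = false → T.alt p a z b x = true → False := fun n0 n1 n2 n3 => by
    have u0 := bt fun t => g328 n3 w2032 n2 n0 t n1
    exact g2030 u0 n1 n0
  have s2054 : T.alt p a z b y = true → False := fun n0 => by
    have u0 := bt fun t => g2000 n0 t w2048
    have u1 := bf fun t => g592 t u0
    have u2 := bt fun t => s2049 t n0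
    have u3 := bf fun t => g863 t u2 g2014 g2013
    have u4 := bt fun t => g770 u3 t w2048
    have u5 := bf fun t => g823 u4 t g2014 g2013
    have u6 := bt fun t => g2005 t u1 u4
    have u7 := bf fun t => g338 u6 g2011 t u5
    have u8 := bt fun t => s2052 t n0
    have u9 := bt fun t => g1175 g2011 u7 t u5 u8
    exact s2053 u9 u8 u7 u6
  have w2054 := bf s2054
  have s2055 := fun (n0 : T.alt p a x b y = true) => g2002 w2054 n0 w2048
  have w2055 := bf s2055
  have s2056 : T.X p a b x = true → T.X a z b x = true → False := fun n0 n1 => by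
    have u0 := bf fun t => g35 n1 t
    have u1 := bf fun t => g13 n0 t
    have u2 := bf fun t => g2030 t n1 n0
    have u3 := bf fun t => g1196 w2032 t u1 u2 n1
    exact g2023 u3 u0 u1
  have s2057 : T.X a z b x = true → False := fun n0 => by
    have u0 := bf fun t => g35 n0 t
    have u1 := bf fun t => s2056 t n0
    have u2 := bt fun t => g2028 t n0 u1
    have u3 := bf fun t => g23 u2 t
    have u4 := bt fun t => g1156 g2011 t u1 u2 u0
    have u5 := bt fun t => g1175 g2011 t u1 u3 n0
    exact g9 u4 u5
  have w2057 := bf s2057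
  have s2058 : T.alt p a b y x = true → T.X p y a x = false → T.alt p a z y x = false → T.X p b a x = true → False := fun n0 n1 n2 n3 => by
    have u0 := bt fun t => g2010 n2 n0 t
    have u1 := bt fun t => g695 n0 n3 g2012 n1 t
    exact g862 u0 g2014 u1 g2013
  have s2059 : T.X a x z b = false → T.X p a b x = false → False := fun n0 n1 => by
    have u0 := bf fun t => g2027 t w2057 n1
    have u1 := bf fun t => s2037 n0 t
    have u2 := bf fun t => g1164 g2011 t n1 u0 n0
    have u3 := bf fun t => g1986 u1 t w2055
    have u4 := bt fun t => g2023 u2 n0 t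
    have u5 := bf fun t => g15 u4 t
    have u6 := bf fun t => g324 t g2011 u4 n0
    have u7 := bf fun t => g1973 w2054 u6 t
    have u8 := bt fun t => g408 u7 t u3
    have u9 := bf fun t => g457 u8 t g2012 g2014
    have u10 := bf fun t => g455 u8 u9 u2 t w2033
    have u11 := bf fun t => s2058 t u10 u7 u4
    have u12 := bt fun t => g589 u11 t w2055
    have u13 := bt fun t => g2006 u6 u12 t
    have u14 := bf fun t => g639 u12 u4 u10 t
    have u15 := bt fun t => g814 u13 u0 g2014 t u14
    have u16 := bf fun t => g29 u15 t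
    have u17 := bt fun t => g612 u12 u5 g2012 u15 t
    have u18 := bt fun t => g609 u12 u4 u10 u16 t
    exact g41 u17 u18
  have s2060 : T.alt p a y b x = true → T.X p b a x = true → T.X p a b x = false → False := fun n0 n1 n2 => by
    have u0 := bt fun t => s2059 t n2
    have u1 := bt fun t => g2026 t u0 n1
    have u2 := bf fun t => g7 t u1
    have u3 := bf fun t => g396 t w2031 w2032 u1 n1
    have u4 := bf fun t => g1986 u3 t w2055
    have u5 := bf fun t => g2027 t w2057 n2
    have u6 := bf fun t => g9 u1 t
    have u7 := bf fun t => g301 t w2032 u6 n2 u5 w2057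
    have u8 := bf fun t => g1973 w2054 u7 t
    have u9 := bt fun t => g408 u8 t u4
    have u10 := bt fun t => g431 u9 u6 g2012 g2014 t
    have u11 := bf fun t => g37 u10 t
    have u12 := bf fun t => g38 u10 t
    have u13 := bt fun t => g428 u9 u1 t w2034 u12
    have u14 := bf fun t => g18 u13 t
    have u15 := bt fun t => g423 u9 t u2 u14 w2033 u11
    have u16 := bt fun t => g227 u7 t u3
    have u17 := bf fun t => g1217 g2011 u1 n1 t
    have u18 := bt fun t => g1214 u1 n1 u5 t u17 u0
    have u19 := bf fun t => g15 n1 t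
    have u20 := bf fun t => g590 t n0
    have u21 := bt fun t => g2006 u7 n0 t
    have u22 := bt fun t => g1978 t u16 u20
    have u23 := bf fun t => g820 u21 u18 w2033 t
    have u24 := bt fun t => g84 u22 g2011 u15 t
    have u25 := bt fun t => g814 u21 u5 g2014 t u23
    have u26 := bf fun t => g1906 u24 u0 u10 t
    exact g612 n0 u19 g2012 u25 u26
  have s2061 : T.X p b a x = true → T.X p a b x = false → False := fun n0 n1 => by
    have u0 := bt fun t => s2059 t n1
    have u1 := bf fun t => g2027 t w2057 n1
    have u2 := bt fun t => g2026 t u0 n0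
    have u3 := bf fun t => g7 t u2
    have u4 := bf fun t => g9 u2 t
    have u5 := bf fun t => g396 t w2031 w2032 u2 n0
    have u6 := bf fun t => g301 t w2032 u4 n1 u1 w2057
    have u7 := bf fun t => g1986 u5 t w2055
    have u8 := bf fun t => g1973 w2054 u6 t
    have u9 := bt fun t => g408 u8 t u7
    have u10 := bt fun t => g431 u9 u4 g2012 g2014 t
    have u11 := bf fun t => g37 u10 t
    have u12 := bf fun t => g38 u10 t
    have u13 := bt fun t => g428 u9 u2 t w2034 u12
    have u14 := bf fun t => g18 u13 t
    have u15 := bt fun t => g423 u9 t u3 u14 w2033 u11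
    have u16 := bf fun t => s2060 t n0 n1
    have u17 := bt fun t => g589 t u16 w2055
    have u18 := bt fun t => g1982 t u9 u16
    have u19 := bt fun t => g2010 u8 u17 t
    have u20 := bt fun t => g198 u18 g2011 u15 t
    have u21 := bf fun t => g215 u18 w2031 w2032 u15 t
    have u22 := bf fun t => g878 u19 u1 g2014 t
    have u23 := bt fun t => g1829 u20 w2057 u10 t g2013
    exact g674 u17 u21 n1 u14 u22 u23
  have s2062 : T.X a y z b = true → T.X a z y x = true → T.X a x z b = true → False := fun n0 n1 n2 => by
    have u0 := bf fun t => g32 t n0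
    have u1 := bt fun t => g1829 n0 w2057 n1 t g2013
    have u2 := bt fun t => g1838 u0 n2 n1 t g2013
    exact g42 u1 u2
  have s2063 : T.alt p a b y x = true → T.alt p a z y x = false → T.X p a b x = false → False := fun n0 n1 n2 => by
    have u0 := bt fun t => s2059 t n2
    have u1 := bf fun t => s2061 t n2
    have u2 := bf fun t => g2024 t u0 u1
    have u3 := bf fun t => g2027 t w2057 n2
    have u4 := bt fun t => g2010 n1 n0 t
    have u5 := bf fun t => g865 u4 t g2014 g2013
    have u6 := bf fun t => g878 u4 u3 g2014 t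
    have u7 := bf fun t => g1162 g2011 t n2 u5 w2057
    have u8 := bf fun t => g387 t g2011 u2 u1 u5 u0
    have u9 := bf fun t => g1986 u8 t w2055
    have u10 := bt fun t => g1989 t u8 u4
    have u11 := bt fun t => g408 n1 t u9
    have u12 := bf fun t => g457 u11 t g2012 g2014
    have u13 := bt fun t => g431 u11 u7 g2012 g2014 t
    have u14 := bf fun t => g37 u13 t
    have u15 := bf fun t => s2062 t u13 u0
    have u16 := bf fun t => g198 u10 g2011 t u15
    have u17 := bf fun t => g200 u10 g2011 t u15
    have u18 := bf fun t => g1860 u15 w2057 u13 t g2013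
    have u19 := bt fun t => g423 u11 u16 u12 t w2033 u14
    exact g670 n0 u17 u19 u6 u18
  have s2064 : T.alt p a z b x = false → T.X p a b x = false → False := fun n0 n1 => by
    have u0 := bt fun t => s2059 t n1
    have u1 := bf fun t => s2061 t n1
    have u2 := bf fun t => g2024 t u0 u1
    have u3 := bf fun t => g36 t u0
    have u4 := bf fun t => g2027 t w2057 n1
    have u5 := bf fun t => g1973 w2054 n0 t
    have u6 := bf fun t => s2063 t u5 n1
    have u7 := bt fun t => g589 u6 t w2055
    have u8 := bt fun t => g2006 n0 u7 t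
    have u9 := bf fun t => g823 u8 t g2014 g2013
    have u10 := bf fun t => g1162 g2011 t n1 u9 w2057
    have u11 := bf fun t => g1168 w2031 u2 t u9 u0
    have u12 := bf fun t => g387 t g2011 u2 u1 u9 u0
    have u13 := bf fun t => g1986 u12 t w2055
    have u14 := bt fun t => g227 n0 t u12
    have u15 := bt fun t => g408 u5 t u13
    have u16 := bt fun t => g1993 t u13 u8
    have u17 := bf fun t => g457 u15 t g2012 g2014
    have u18 := bt fun t => g431 u15 u10 g2012 g2014 t
    have u19 := bt fun t => g242 u14 w2031 u17 u11 t u3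
    have u20 := bf fun t => s2062 t u18 u0
    have u21 := bf fun t => g820 u8 u19 w2033 t
    have u22 := bf fun t => g84 u16 g2011 t u20
    have u23 := bf fun t => g2017 u22 u20 t
    have u24 := bf fun t => g1659 t u4 g2014 u21 g2013
    exact g74 u16 g2011 u23 u24 u20
  have s2065 : T.X p a b x = false → False := fun n0 => by
    have u0 := bf fun t => g2027 t w2057 n0
    have u1 := bt fun t => s2059 t n0
    have u2 := bf fun t => s2061 t n0
    have u3 := bf fun t => g2024 t u1 u2
    have u4 := bt fun t => s2064 t n0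
    have u5 := bt fun t => g301 u4 w2032 t n0 u0 w2057
    have u6 := bf fun t => g342 u4 g2011 u3 u2 t u1
    exact g1162 g2011 u5 n0 u6 w2057
  have w2065 := bt s2065
  have s2066 := fun (n0 : T.X p b a x = true) => g13 w2065 n0
  have w2066 := bf s2066
  have s2068 := fun (n0 : T.alt p a z b x = true) => s2051 w2065 w2057 n0
  have w2068 := bf s2068
  have s2069 := fun (n0 : T.X p z b x = false) => g2029 n0 w2057 w2065
  have w2069 := bt s2069
  have s2073 := fun (n0 : T.X p x z b = true) => g23 w2069 n0
  have w2073 := bf s2073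
  have s2074 : T.X p z a x = false → T.X a x z b = true → False := fun n0 n1 => by
    have u0 := bt fun t => g1239 g2011 t n0 w2065 w2069 n1
    have u1 := bf fun t => g387 t g2011 n0 w2066 w2073 n1
    have u2 := bf fun t => g457 t u0 g2012 g2014
    have u3 := bt fun t => g227 w2068 t u1
    exact g1996 u3 u2 w2048
  have s2075 : T.X a x z b = true → False := fun n0 => by
    have u0 := bf fun t => g2024 t n0 w2066
    exact s2074 u0 n0
  have w2075 := bf s2075
  have s2077 := fun (n0 : T.X p z a x = false) => g2023 n0 w2075 w2066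
  have w2077 := bt s2077
  exact g1251 g2011 w2077 w2065 w2069 w2057 w2075

theorem MT_sepa_0001 {p a z b y x : V} (hN : [p, a, z, b, y, x].Nodup) (h0 : T.X p a z b = true)
    (h1 : T.X y x p a = false) (h2 : T.X y x z b = false) (h3 : T.X y x p z = true)
    (h4 : T.X y a p z = true → T.X y a z b = false → T.X y a b p = false → False)
    (h5 : T.X y a p z = false → T.X y a z b = true → T.X y a b p = false → False)
    (h6 : T.X y a p z = false → T.X y a z b = false → T.X y a b p = true → False)
    (h7 : T.X y a p z = true → T.X y a z b = true → T.X y a b p = true → False)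
    (h8 : T.X y b p z = true → T.X y b z a = false → T.X y b a p = false → False)
    (h9 : T.X y b p z = false → T.X y b z a = true → T.X y b a p = false → False)
    (h10 : T.X y b p z = false → T.X y b z a = false → T.X y b a p = true → False)
    (h11 : T.X y b p z = true → T.X y b z a = true → T.X y b a p = true → False)
    (h12 : T.X x a p z = true → T.X x a z b = false → T.X x a b p = false → False)
    (h13 : T.X x a p z = false → T.X x a z b = true → T.X x a b p = false → False)
    (h14 : T.X x a p z = false → T.X x a z b = false → T.X x a b p = true → False)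
    (h15 : T.X x a p z = true → T.X x a z b = true → T.X x a b p = true → False)
    (h16 : T.X x b p z = false → T.X x b z a = false → T.X x b a p = false → False)
    (h17 : T.X x b p z = true → T.X x b z a = true → T.X x b a p = false → False)
    (h18 : T.X x b p z = true → T.X x b z a = false → T.X x b a p = true → False)
    (h19 : T.X x b p z = false → T.X x b z a = true → T.X x b a p = true → False) : False := by
  have k0 : T.Ok5 p a z b y := T.n5 hN (.cons_cons _ (.cons_cons _ (.cons_cons _ (.cons_cons _ (.cons_cons _ (List.nil_sublist _))))))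
  have k1 : T.Ok5 p a z b x := T.n5 hN (.cons_cons _ (.cons_cons _ (.cons_cons _ (.cons_cons _ (.cons _ (.cons_cons _ (List.nil_sublist _)))))))
  have k2 : T.Ok5 p a z y x := T.n5 hN (.cons_cons _ (.cons_cons _ (.cons_cons _ (.cons _ (.cons_cons _ (.cons_cons _ (List.nil_sublist _)))))))
  have k3 : T.Ok5 p a b y x := T.n5 hN (.cons_cons _ (.cons_cons _ (.cons _ (.cons_cons _ (.cons_cons _ (.cons_cons _ (List.nil_sublist _)))))))
  have k4 : T.Ok5 p z b y x := T.n5 hN (.cons_cons _ (.cons _ (.cons_cons _ (.cons_cons _ (.cons_cons _ (.cons_cons _ (List.nil_sublist _)))))))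
  have k5 : T.Ok5 a z b y x := T.n5 hN (.cons _ (.cons_cons _ (.cons_cons _ (.cons_cons _ (.cons_cons _ (.cons_cons _ (List.nil_sublist _)))))))
  have sp0 : T.Sp5 p a z b y x := T.sp5 hN (.cons_cons _ (.cons_cons _ (.cons_cons _ (.cons_cons _ (.cons_cons _ (.cons_cons _ (List.nil_sublist _)))))))
  have g1 := T.q01 p a z b
  have g2 := T.q02 p a z b
  have g6 := T.q12 p a z y
  have g7 := T.q01 p a z x
  have g9 := T.q12 p a z x
  have g10 := T.q01 p a b y
  have g11 := T.q02 p a b y
  have g13 := T.q01 p a b x
  have g19 := T.q01 p z b y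
  have g20 := T.q02 p z b y
  have g25 := T.q01 p z y x
  have g26 := T.q02 p z y x
  have g29 := T.q02 p b y x
  have g30 := T.q12 p b y x
  have g31 := T.q01 a z b y
  have g32 := T.q02 a z b y
  have g33 := T.q12 a z b y
  have g35 := T.q02 a z b x
  have g36 := T.q12 a z b x
  have g37 := T.q01 a z y x
  have g38 := T.q02 a z y x
  have g39 := T.q12 a z y x
  have g40 := T.q01 a b y x
  have g41 := T.q02 a b y x
  have g46 := T.ae1 k0
  have g47 := T.ae01 k0
  have g48 := T.ae02 k0
  have g61 := fun ha : T.alt p a b z y = true => zA1_9482_0 (T.okA1 k0 ha)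
  have g87 := fun ha : T.alt p a b z y = true => zA1_294_32 (T.okA1 k0 ha)
  have g98 := fun ha : T.alt p a b z y = true => zA1_2305_257 (T.okA1 k0 ha)
  have g120 := fun ha : T.alt p a z b y = true => zA0_4708_0 (T.okA0 k0 ha)
  have g138 := fun ha : T.alt p a z b y = true => zA0_4672_576 (T.okA0 k0 ha)
  have g147 := fun ha : T.alt p a z b y = true => zA0_4708_4160 (T.okA0 k0 ha)
  have g157 := fun ha : T.alt p a z b y = true => zA0_2081_33 (T.okA0 k0 ha)
  have g191 := fun ha : T.alt p a y z b = true => zA2_4196_32 (T.okA2 k0 ha)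
  have g197 := fun ha : T.alt p a y z b = true => zA2_18433_2049 (T.okA2 k0 ha)
  have g198 := fun ha : T.alt p a y z b = true => zA2_16401_17 (T.okA2 k0 ha)
  have g200 := fun ha : T.alt p a y z b = true => zA2_16513_129 (T.okA2 k0 ha)
  have g210 := fun ha : T.alt p a y z b = true => zA2_2089_2049 (T.okA2 k0 ha)
  have g213 := fun ha : T.alt p a y z b = true => zA2_577_513 (T.okA2 k0 ha)
  have g227 := T.ae1 k1
  have g229 := T.ae02 k1
  have g242 := fun ha : T.alt p a b z x = true => zA1_9482_0 (T.okA1 k1 ha)
  have g255 := fun ha : T.alt p a b z x = true => zA1_18561_1 (T.okA1 k1 ha)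
  have g265 := fun ha : T.alt p a b z x = true => zA1_16401_17 (T.okA1 k1 ha)
  have g279 := fun ha : T.alt p a b z x = true => zA1_2305_257 (T.okA1 k1 ha)
  have g314 := fun ha : T.alt p a z b x = true => zA0_18449_1 (T.okA0 k1 ha)
  have g324 := fun ha : T.alt p a z b x = true => zA0_16513_129 (T.okA0 k1 ha)
  have g338 := fun ha : T.alt p a z b x = true => zA0_2081_33 (T.okA0 k1 ha)
  have g341 := fun ha : T.alt p a z b x = true => zA0_18577_16401 (T.okA0 k1 ha)
  have g369 := fun ha : T.alt p a x z b = true => zA2_8458_256 (T.okA2 k1 ha)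
  have g378 := fun ha : T.alt p a x z b = true => zA2_18433_2049 (T.okA2 k1 ha)
  have g379 := fun ha : T.alt p a x z b = true => zA2_16401_17 (T.okA2 k1 ha)
  have g381 := fun ha : T.alt p a x z b = true => zA2_16513_129 (T.okA2 k1 ha)
  have g391 := fun ha : T.alt p a x z b = true => zA2_2089_2049 (T.okA2 k1 ha)
  have g393 := fun ha : T.alt p a x z b = true => zA2_164_160 (T.okA2 k1 ha)
  have g408 := T.ae1 k2
  have g411 := T.ae12 k2
  have g423 := fun ha : T.alt p a y z x = true => zA1_9482_0 (T.okA1 k2 ha)
  have g431 := fun ha : T.alt p a y z x = true => zA1_4704_512 (T.okA1 k2 ha)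
  have g455 := fun ha : T.alt p a y z x = true => zA1_1176_128 (T.okA1 k2 ha)
  have g457 := fun ha : T.alt p a y z x = true => zA1_584_520 (T.okA1 k2 ha)
  have g541 := fun ha : T.alt p a x z y = true => zA2_18577_0 (T.okA2 k2 ha)
  have g549 := fun ha : T.alt p a x z y = true => zA2_4676_512 (T.okA2 k2 ha)
  have g558 := fun ha : T.alt p a x z y = true => zA2_16528_144 (T.okA2 k2 ha)
  have g575 := fun ha : T.alt p a x z y = true => zA2_577_513 (T.okA2 k2 ha)
  have g587 := fun ha : T.alt p a x z y = true => zA2_4708_4612 (T.okA2 k2 ha)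
  have g589 := T.ae1 k3
  have g591 := T.ae02 k3
  have g592 := T.ae12 k3
  have g612 := fun ha : T.alt p a y b x = true => zA1_4704_512 (T.okA1 k3 ha)
  have g613 := fun ha : T.alt p a y b x = true => zA1_16529_128 (T.okA1 k3 ha)
  have g619 := fun ha : T.alt p a y b x = true => zA1_18577_16384 (T.okA1 k3 ha)
  have g644 := fun ha : T.alt p a y b x = true => zA1_18577_16513 (T.okA1 k3 ha)
  have g668 := fun ha : T.alt p a b y x = true => zA0_18576_128 (T.okA0 k3 ha)
  have g678 := fun ha : T.alt p a b y x = true => zA0_18577_16384 (T.okA0 k3 ha)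
  have g692 := fun ha : T.alt p a b y x = true => zA0_1608_8 (T.okA0 k3 ha)
  have g722 := fun ha : T.alt p a x b y = true => zA2_18577_0 (T.okA2 k3 ha)
  have g730 := fun ha : T.alt p a x b y = true => zA2_4676_512 (T.okA2 k3 ha)
  have g731 := fun ha : T.alt p a x b y = true => zA2_8458_256 (T.okA2 k3 ha)
  have g756 := fun ha : T.alt p a x b y = true => zA2_577_513 (T.okA2 k3 ha)
  have g758 := fun ha : T.alt p a x b y = true => zA2_150_144 (T.okA2 k3 ha)
  have g761 := fun ha : T.alt p a x b y = true => zA2_9472_1280 (T.okA2 k3 ha)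
  have g770 := T.ae1 k4
  have g771 := T.ae01 k4
  have g772 := T.ae02 k4
  have g773 := T.ae12 k4
  have g795 := fun ha : T.alt p z y b x = true => zA1_4676_64 (T.okA1 k4 ha)
  have g798 := fun ha : T.alt p z y b x = true => zA1_18561_1 (T.okA1 k4 ha)
  have g823 := fun ha : T.alt p z y b x = true => zA1_4192_96 (T.okA1 k4 ha)
  have g863 := fun ha : T.alt p z b y x = true => zA0_4164_68 (T.okA0 k4 ha)
  have g865 := fun ha : T.alt p z b y x = true => zA0_4192_96 (T.okA0 k4 ha)
  have g913 := fun ha : T.alt p z x b y = true => zA2_4704_64 (T.okA2 k4 ha)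
  have g932 := fun ha : T.alt p z x b y = true => zA2_2625_64 (T.okA2 k4 ha)
  have g938 := fun ha : T.alt p z x b y = true => zA2_2306_2050 (T.okA2 k4 ha)
  have g941 := fun ha : T.alt p z x b y = true => zA2_4164_68 (T.okA2 k4 ha)
  have g967 := z5_17545_1025 k0
  have g973 := z5_4898_544 k0
  have g980 := z5_10505_257 k0
  have g986 := z5_16977_513 k0
  have g992 := z5_6241_33 k0
  have g994 := z5_16977_17 k0
  have g1005 := z5_6241_4097 k0
  have g1021 := z5_10505_8193 k0
  have g1083 := z5_6753_4193 k0
  have g1150 := z5_10505_257 k1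
  have g1173 := z5_9362_1040 k1
  have g1191 := z5_10505_8193 k1
  have g1197 := z5_4756_640 k1
  have g1249 := z5_17105_16913 k1
  have g1322 := z5_16977_16896 k2
  have g1336 := z5_5196_4104 k2
  have g1345 := z5_6241_4097 k2
  have g1365 := z5_4756_516 k2
  have g1492 := z5_16977_16896 k3
  have g1496 := z5_16977_513 k3
  have g1506 := z5_5196_4104 k3
  have g1515 := z5_6241_4097 k3
  have g1542 := z5_9508_260 k3
  have g1668 := z5_6241_96 k4
  have g1669 := z5_6241_2112 k4
  have g1823 := z5_4898_544 k5
  have g1826 := z5_4898_34 k5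
  have g1838 := z5_6241_96 k5
  have g1839 := z5_6241_2112 k5
  have g1850 := z5_16977_16448 k5
  have g1875 := z5_4756_516 k5
  have g1877 := z5_4756_640 k5
  have g1973 := zsp_73_64 sp0
  have g1980 := zsp_1156_4 sp0
  have g1984 := zsp_2336_32 sp0
  have g1985 := zsp_2336_2048 sp0
  have g1990 := zsp_4132_32 sp0
  have g1992 := zsp_8450_2 sp0
  have g1993 := zsp_8450_8192 sp0
  have g1994 := zsp_8450_256 sp0
  have g1997 := zsp_16528_16384 sp0
  have g1998 := zsp_16528_128 sp0
  have g1999 := zsp_18433_18433 sp0
  have g2000 := zsp_18433_1 sp0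
  have g2001 := zsp_18433_16384 sp0
  have g2002 := zsp_18433_2048 sp0
  have g2005 := zsp_9224_8192 sp0
  have g2006 := zsp_9224_1024 sp0
  have g2008 := zsp_4672_64 sp0
  have g2009 := zsp_4672_4096 sp0
  have g2011 : T.X p a z b = true := h0
  have g2012 : T.X p a y x = false := ((T.xs4 y x p a).symm.trans h1)
  have g2013 : T.X z b y x = false := ((T.xs4 y x z b).symm.trans h2)
  have g2014 : T.X p z y x = true := ((T.xs4 y x p z).symm.trans h3)
  have g2017 := fun (n0 : T.X p z a y = false) (n1 : T.X a y z b = false) (n2 : T.X p b a y = true) => h6 ((T.xs6 y a p z).trans n0) ((T.xs1 y a z b).trans n1) ((T.xs7 y a b p).trans n2)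
  have g2019 := fun (n0 : T.X p z b y = true) (n1 : T.X a z b y = false) (n2 : T.X p a b y = false) => h8 ((T.xs6 y b p z).trans n0) ((T.xs7 y b z a).trans n1) ((T.xs7 y b a p).trans n2)
  have g2020 := fun (n0 : T.X p z b y = false) (n1 : T.X a z b y = true) (n2 : T.X p a b y = false) => h9 ((T.xs6 y b p z).trans n0) ((T.xs7 y b z a).trans n1) ((T.xs7 y b a p).trans n2)
  have g2021 := fun (n0 : T.X p z b y = false) (n1 : T.X a z b y = false) (n2 : T.X p a b y = true) => h10 ((T.xs6 y b p z).trans n0) ((T.xs7 y b z a).trans n1) ((T.xs7 y b a p).trans n2)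
  have g2022 := fun (n0 : T.X p z b y = true) (n1 : T.X a z b y = true) (n2 : T.X p a b y = true) => h11 ((T.xs6 y b p z).trans n0) ((T.xs7 y b z a).trans n1) ((T.xs7 y b a p).trans n2)
  have g2023 := fun (n0 : T.X p z a x = true) (n1 : T.X a x z b = false) (n2 : T.X p b a x = false) => h12 ((T.xs6 x a p z).trans n0) ((T.xs1 x a z b).trans n1) ((T.xs7 x a b p).trans n2)
  have g2024 := fun (n0 : T.X p z a x = false) (n1 : T.X a x z b = true) (n2 : T.X p b a x = false) => h13 ((T.xs6 x a p z).trans n0) ((T.xs1 x a z b).trans n1) ((T.xs7 x a b p).trans n2)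
  have g2025 := fun (n0 : T.X p z a x = false) (n1 : T.X a x z b = false) (n2 : T.X p b a x = true) => h14 ((T.xs6 x a p z).trans n0) ((T.xs1 x a z b).trans n1) ((T.xs7 x a b p).trans n2)
  have g2026 := fun (n0 : T.X p z a x = true) (n1 : T.X a x z b = true) (n2 : T.X p b a x = true) => h15 ((T.xs6 x a p z).trans n0) ((T.xs1 x a z b).trans n1) ((T.xs7 x a b p).trans n2)
  have g2027 := fun (n0 : T.X p z b x = false) (n1 : T.X a z b x = false) (n2 : T.X p a b x = false) => h16 ((T.xs6 x b p z).trans n0) ((T.xs7 x b z a).trans n1) ((T.xs7 x b a p).trans n2)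
  have s2031 := fun (n0 : T.X p z a b = true) => g1 g2011 n0
  have w2031 := bf s2031
  have s2032 := fun (n0 : T.X p b a z = true) => g2 g2011 n0
  have w2032 := bf s2032
  have s2033 := fun (n0 : T.X p y z x = true) => g25 g2014 n0
  have w2033 := bf s2033
  have s2034 := fun (n0 : T.X p x z y = true) => g26 g2014 n0
  have w2034 := bf s2034
  have s2035 : T.alt p a x z y = true → T.alt p a x b y = true → T.alt p z x b y = true → False := fun n0 n1 n2 => by
    have u0 := bf fun t => g941 n2 t g2014 g2013
    have u1 := bf fun t => g773 t n2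
    have u2 := bf fun t => g411 t n0
    have u3 := bf fun t => g575 n0 t g2012 g2014
    have u4 := bt fun t => g1994 t n0 u1
    have u5 := bt fun t => g1997 t u2 n2
    have u6 := bf fun t => g98 u4 g2011 t u0
    have u7 := bf fun t => g1021 g2011 u3 u6 u0 t
    have u8 := bf fun t => g87 u4 w2031 w2032 t u6
    have u9 := bt fun t => g61 u4 w2031 u3 u6 t u7
    have u10 := bt fun t => g549 n0 u8 g2012 g2014 t
    have u11 := bf fun t => g19 t u9
    have u12 := bf fun t => g938 n2 u9 w2034 t
    have u13 := bf fun t => g37 u10 t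
    have u14 := bf fun t => g1336 u8 t g2012 w2033 u10
    have u15 := bf fun t => g1668 u11 t g2014 u12 g2013
    have u16 := bt fun t => g932 n2 u11 g2014 t u12
    have u17 := bf fun t => g279 u5 g2011 t u15
    have u18 := bt fun t => g730 n1 u6 g2012 u16 t
    have u19 := bf fun t => g756 n1 t g2012 u16
    have u20 := bf fun t => g1191 g2011 u14 u17 u15 t
    have u21 := bf fun t => g1875 t u20 u13 u18 g2013
    have u22 := bf fun t => g994 g2011 t u19 u11 u21
    have u23 := bf fun t => g2017 u22 u21 t
    exact g967 g2011 u3 u23 u9 u21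
  have s2036 : T.X a b z x = false → T.X a y z x = false → T.X a b y x = true → T.alt p a y z b = true → T.alt p a y z x = true → T.alt p a x z b = true → T.alt p a x b y = true → False := fun n0 n1 n2 n3 n4 n5 n6 => by
    have u0 := bf fun t => g40 n2 t
    have u1 := bf fun t => g457 n4 t g2012 g2014
    have u2 := bf fun t => g369 n5 w2031 u1 t n0
    have u3 := bf fun t => g1875 t n0 n1 n2 g2013
    have u4 := bf fun t => g198 n3 g2011 t u3
    have u5 := bf fun t => g200 n3 g2011 t u3
    have u6 := bt fun t => g423 n4 u4 u1 t w2033 n1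
    have u7 := bf fun t => g761 n6 u6 t u0
    have u8 := bt fun t => g731 n6 u5 t u6 u0
    have u9 := bf fun t => g1542 t u2 u6 u7 u0
    exact g1506 u9 u8 g2012 u7 n2
  have s2037 : T.X a x z b = false → T.X a x b y = false → T.alt p a x b y = true → T.alt p z x b y = true → False := fun n0 n1 n2 n3 => by
    have u0 := bf fun t => g772 t n3
    have u1 := bf fun t => g591 t n2
    have u2 := bf fun t => g2008 t u1 u0
    have u3 := bf fun t => s2035 t n2 n3
    have u4 := bt fun t => g408 u2 t u3
    have u5 := bf fun t => g457 u4 t g2012 g2014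
    have u6 := bt fun t => g1985 t u3 n2
    have u7 := bf fun t => g378 u6 g2011 t n0
    have u8 := bf fun t => g379 u6 g2011 t n0
    have u9 := bf fun t => g381 u6 g2011 t n0
    have u10 := bt fun t => g913 n3 u7 g2014 t g2013
    have u11 := bf fun t => g1496 t u9 g2012 u10 n1
    have u12 := bf fun t => g29 u10 t
    have u13 := bf fun t => g455 u4 u5 u8 t w2033
    exact g722 n2 u11 u9 u13 u12 n1
  have s2038 : T.X a b y x = true → T.alt p a x b y = true → T.alt p z x b y = true → False := fun n0 n1 n2 => by
    have u0 := bf fun t => g1999 t n1 n2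
    have u1 := bf fun t => g773 t n2
    have u2 := bf fun t => s2035 t n1 n2
    have u3 := bf fun t => g1992 t u2 u1
    have u4 := bt fun t => g46 u0 u3 t
    have u5 := bf fun t => g772 t n2
    have u6 := bf fun t => g591 t n1
    have u7 := bf fun t => g2008 t u6 u5
    have u8 := bt fun t => g408 u7 t u2
    have u9 := bt fun t => g1985 t u2 n1
    have u10 := bf fun t => g41 n0 t
    have u11 := bt fun t => s2037 t u10 n1 n2
    have u12 := bf fun t => g36 t u11
    have u13 := bt fun t => s2036 u12 t n0 u4 u8 u9 n1
    have u14 := bf fun t => g39 u13 t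
    have u15 := bt fun t => g1877 t u12 u13 n0 g2013
    have u16 := bt fun t => g1823 t u11 u14 n0 g2013
    exact g33 u16 u15
  have s2039 : T.X p x a z = true → T.X a x z b = true → T.alt p a x z b = true → False := fun n0 n1 n2 => by
    have u0 := bf fun t => g9 t n0
    have u1 := bf fun t => g393 n2 w2032 n0 t
    exact g2024 u0 n1 u1
  have s2040 : T.X a x z b = true → T.alt p a x b y = true → T.alt p z x b y = true → False := fun n0 n1 n2 => by
    have u0 := bf fun t => s2038 t n1 n2
    have u1 := bf fun t => g772 t n2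
    have u2 := bf fun t => g591 t n1
    have u3 := bf fun t => g2008 t u2 u1
    have u4 := bf fun t => s2035 t n1 n2
    have u5 := bt fun t => g408 u3 t u4
    have u6 := bf fun t => g457 u5 t g2012 g2014
    have u7 := bt fun t => g1985 t u4 n1
    have u8 := bf fun t => g941 n2 t g2014 g2013
    have u9 := bf fun t => s2039 t n0 u7
    have u10 := bt fun t => g431 u5 u9 g2012 g2014 t
    have u11 := bf fun t => g391 u7 g2011 u6 u9 t
    have u12 := bf fun t => g1345 t u9 g2012 w2034 u10
    have u13 := bf fun t => g38 u10 t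
    have u14 := bt fun t => g913 n2 u11 g2014 t g2013
    have u15 := bf fun t => g1826 t n0 u13 u0 g2013
    have u16 := bt fun t => g730 n1 t g2012 u14 u0
    exact g980 g2011 u12 u16 u8 u15
  have s2041 : T.alt p a x b y = true → T.alt p z x b y = true → False := fun n0 n1 => by
    have u0 := bf fun t => s2035 t n0 n1
    have u1 := bt fun t => g1985 t u0 n0
    have u2 := bf fun t => s2040 t n0 n1
    have u3 := bf fun t => g378 u1 g2011 t u2
    have u4 := bf fun t => g381 u1 g2011 t u2
    have u5 := bt fun t => s2037 u2 t n0 n1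
    have u6 := bt fun t => g913 n1 u3 g2014 t g2013
    have u7 := bt fun t => g1492 t u4 g2012 u6 u5
    exact g756 n0 u7 g2012 u6
  have s2042 : T.X p b a x = false → T.X p x z b = false → T.X a x z b = false → T.alt p a x z b = false → False := fun n0 n1 n2 n3 => by
    have u0 := bf fun t => g255 t g2011 n0 n1 n2
    have u1 := bf fun t => g2023 t n2 n0
    have u2 := bt fun t => g227 t u0 n3
    exact g314 u2 g2011 u1 n1 n2
  have s2043 : T.X p b a x = true → T.X a x z b = false → T.alt p a x z b = false → False := fun n0 n1 n2 => by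
    have u0 := bf fun t => g324 t g2011 n0 n1
    have u1 := bt fun t => g2025 t n1 n0
    have u2 := bt fun t => g227 u0 t n2
    exact g265 u2 g2011 u1 n1
  have s2044 : T.X p a b y = false → T.alt p z x b y = true → False := fun n0 n1 => by
    have u0 := bf fun t => g941 n1 t g2014 g2013
    have u1 := bf fun t => s2041 t n1
    have u2 := bt fun t => g2001 t u1 n1
    have u3 := bf fun t => g157 u2 g2011 t u0
    have u4 := bf fun t => g1005 g2011 u3 n0 u0 t
    have u5 := bf fun t => g2019 t u4 n0
    exact g120 u2 w2032 u3 n0 u5 u4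
  have s2047 : T.X p z b y = true → T.alt p z x b y = true → False := fun n0 n1 => by
    have u0 := bt fun t => s2044 t n1
    have u1 := bf fun t => s2041 t n1
    have u2 := bt fun t => g2001 t u1 n1
    have u3 := bf fun t => g2022 n0 t u0
    exact g138 u2 u0 n0 u3
  have s2048 : T.alt p z x b y = true → False := fun n0 => by
    have u0 := bf fun t => g941 n0 t g2014 g2013
    have u1 := bf fun t => s2041 t n0
    have u2 := bt fun t => g2001 t u1 n0
    have u3 := bf fun t => g157 u2 g2011 t u0
    have u4 := bt fun t => s2044 t n0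
    have u5 := bf fun t => s2047 t n0
    have u6 := bt fun t => g2021 u5 t u4
    exact g147 u2 w2032 u3 u4 u5 u6
  have w2048 := bf s2048
  have s2049 : T.X p b a x = false → T.X a x z b = true → T.alt p a z b x = true → T.X p x z b = false → False := fun n0 n1 n2 n3 => by
    have u0 := bf fun t => g341 n2 g2011 t n0 n3 n1
    exact g2024 u0 n1 n0
  have s2050 : T.X p b a x = false → T.alt p a z b x = true → T.alt p a x z b = false → T.X p x z b = false → False := fun n0 n1 n2 n3 => by
    have u0 := bt fun t => s2042 n0 n3 t n2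
    exact s2049 n0 u0 n1 n3
  have s2051 : T.X p z b y = false → T.alt p a z b y = true → T.X p a b y = true → T.X p x b y = false → False := fun n0 n1 n2 n3 => by
    have u0 := bt fun t => g2000 n1 t w2048
    have u1 := bf fun t => g592 t u0
    have u2 := bf fun t => g48 n1 t
    have u3 := bf fun t => g47 n1 t
    have u4 := bf fun t => g11 n2 t
    have u5 := bf fun t => g10 n2 t
    have u6 := bt fun t => g2021 n0 t n2
    have u7 := bf fun t => g1668 n0 t g2014 n3 g2013
    have u8 := bt fun t => g147 n1 w2032 t n2 n0 u6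
    have u9 := bt fun t => g1083 g2011 u8 n2 n0 t u6
    have u10 := bf fun t => g863 t u9 g2014 g2013
    have u11 := bt fun t => g770 u10 t w2048
    have u12 := bf fun t => g1990 u2 t u10
    have u13 := bt fun t => g1993 u3 t u11
    have u14 := bt fun t => g2005 t u1 u11
    have u15 := bf fun t => g338 u14 g2011 t u7
    have u16 := bf fun t => g587 u13 u8 u15 g2012 g2014 t
    have u17 := bt fun t => s2050 t u14 u12 u7
    have u18 := bf fun t => g758 u0 u5 u4 u17 t
    have u19 := bt fun t => g324 u14 g2011 u17 t
    have u20 := bf fun t => g2026 t u19 u17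
    exact g1365 u8 u20 u18 g2014 u16
  have s2052 : T.alt p a z b y = true → T.X p a b y = true → T.X p x b y = false → False := fun n0 n1 n2 => by
    have u0 := bt fun t => s2051 t n0 n1 n2
    have u1 := bf fun t => g2022 u0 t n1
    exact g138 n0 n1 u0 u1
  have s2053 : T.X a x z b = true → T.X p b a x = true → False := fun n0 n1 => by
    have u0 := bf fun t => g13 t n1
    have u1 := bf fun t => g35 t n0
    have u2 := bf fun t => g2026 t n0 n1
    have u3 := bt fun t => g2027 t u1 u0
    exact g1197 w2032 u2 n1 u3 u1
  have s2054 : T.X a x z b = false → T.X p b a x = true → False := fun n0 n1 => by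
    have u0 := bf fun t => g381 t g2011 n1 n0
    exact s2043 n1 n0 u0
  have s2055 : T.X p b a x = true → False := fun n0 => by
    have u0 := bf fun t => s2053 t n0
    exact s2054 u0 n0
  have w2055 := bf s2055
  have s2056 : T.X a x z b = false → T.X p x z b = false → T.X p z b y = true → T.alt p a x b y = false → T.X p a b y = true → False := fun n0 n1 n2 n3 n4 => by
    have u0 := bf fun t => g2022 n2 t n4
    have u1 := bf fun t => g11 n4 t
    have u2 := bf fun t => g973 w2031 t u1 n2 u0
    have u3 := bf fun t => g20 n2 t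
    have u4 := bf fun t => g19 n2 t
    have u5 := bt fun t => s2042 w2055 n1 n0 t
    have u6 := bt fun t => g1984 u5 t n3
    have u7 := bf fun t => g575 u6 t g2012 g2014
    have u8 := bt fun t => g549 u6 u2 g2012 g2014 t
    have u9 := bf fun t => g1021 g2011 u7 u1 u3 t
    have u10 := bf fun t => g1839 u0 n0 u8 t g2013
    have u11 := bf fun t => g61 t w2031 u7 u1 u4 u9
    have u12 := bf fun t => g1496 n4 w2055 g2012 t u10
    have u13 := bt fun t => g1994 u11 u6 t
    exact g795 u13 u3 g2014 u12 g2013
  have s2057 : T.X p x z b = false → T.X p z b y = true → T.X p a b y = true → T.X p x b y = false → False := fun n0 n1 n2 n3 => by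
    have u0 := bf fun t => g2022 n1 t n2
    have u1 := bf fun t => g11 n2 t
    have u2 := bf fun t => g973 w2031 t u1 n1 u0
    have u3 := bf fun t => g20 n1 t
    have u4 := bf fun t => g19 n1 t
    have u5 := bf fun t => s2052 t n2 n3
    have u6 := bf fun t => g2002 u5 t w2048
    have u7 := bt fun t => s2056 t n0 n1 u6 n2
    have u8 := bf fun t => g36 t u7
    have u9 := bt fun t => g2024 t u7 w2055
    have u10 := bf fun t => s2049 w2055 u7 t n0
    have u11 := bf fun t => g7 t u9
    have u12 := bf fun t => g1173 w2031 u9 w2055 t u8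
    have u13 := bf fun t => g1973 u5 u10 t
    have u14 := bf fun t => g1150 g2011 u11 t n0 u8
    have u15 := bf fun t => g1515 n2 u14 g2012 n3 t
    have u16 := bf fun t => g242 t w2031 u11 u14 u12 u8
    have u17 := bf fun t => g1998 u16 t w2048
    have u18 := bt fun t => g408 u13 u17 t
    have u19 := bf fun t => g575 u18 t g2012 g2014
    have u20 := bt fun t => g549 u18 u2 g2012 g2014 t
    have u21 := bf fun t => g1021 g2011 u19 u1 u3 t
    have u22 := bf fun t => g1850 u0 u8 u20 u15 t
    have u23 := bf fun t => g61 t w2031 u19 u1 u4 u21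
    have u24 := bf fun t => g798 t n1 w2033 n3 u22
    exact g1994 u23 u18 u24
  have s2058 : T.X p x z b = true → False := fun n0 => by
    have u0 := bf fun t => g823 t n0 g2014 g2013
    have u1 := bf fun t => g865 t n0 g2014 g2013
    exact g770 u1 u0 w2048
  have w2058 := bf s2058
  have s2059 : T.X a x z b = true → T.X p a b y = true → T.X p x b y = false → False := fun n0 n1 n2 => by
    have u0 := bf fun t => s2057 w2058 t n1 n2
    have u1 := bt fun t => g2021 u0 t n1
    have u2 := bf fun t => g32 u1 t
    have u3 := bf fun t => g31 u1 t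
    have u4 := bf fun t => s2052 t n1 n2
    have u5 := bf fun t => g11 n1 t
    have u6 := bf fun t => g10 n1 t
    have u7 := bf fun t => g36 t n0
    have u8 := bt fun t => g2024 t n0 w2055
    have u9 := bf fun t => s2049 w2055 n0 t w2058
    have u10 := bf fun t => g7 t u8
    have u11 := bf fun t => g1173 w2031 u8 w2055 t u7
    have u12 := bf fun t => g1973 u4 u9 t
    have u13 := bf fun t => g1150 g2011 u10 t w2058 u7
    have u14 := bf fun t => g1515 n1 u13 g2012 n2 t
    have u15 := bf fun t => g242 t w2031 u10 u13 u11 u7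
    have u16 := bf fun t => g1998 u15 t w2048
    have u17 := bt fun t => g408 u12 u16 t
    have u18 := bf fun t => g575 u17 t g2012 g2014
    have u19 := bf fun t => g967 g2011 u18 u6 t u2
    have u20 := bf fun t => g61 t w2031 u18 u5 u19 u3
    have u21 := bt fun t => g46 u4 u20 t
    have u22 := bt fun t => g1994 u20 u17 t
    have u23 := bf fun t => g197 u21 g2011 t u2
    have u24 := bt fun t => g1980 u21 u16 t
    have u25 := bt fun t => g795 u22 u23 g2014 t g2013
    exact g612 u24 u13 g2012 u25 u14
  have s2060 : T.X p a b y = true → T.X p x b y = false → False := fun n0 n1 => by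
    have u0 := bf fun t => g10 n0 t
    have u1 := bf fun t => g11 n0 t
    have u2 := bf fun t => s2052 t n0 n1
    have u3 := bf fun t => g2002 u2 t w2048
    have u4 := bf fun t => s2057 w2058 t n0 n1
    have u5 := bt fun t => g2021 u4 t n0
    have u6 := bf fun t => g31 u5 t
    have u7 := bf fun t => g32 u5 t
    have u8 := bf fun t => s2059 t n0 n1
    have u9 := bt fun t => s2042 w2055 w2058 u8 t
    have u10 := bf fun t => g2023 t u8 w2055
    have u11 := bf fun t => g255 t g2011 w2055 w2058 u8
    have u12 := bt fun t => g1984 u9 t u3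
    have u13 := bf fun t => g1998 u11 t w2048
    have u14 := bf fun t => g575 u12 t g2012 g2014
    have u15 := bf fun t => g967 g2011 u14 u0 t u7
    have u16 := bf fun t => g1322 u14 u10 g2012 g2014 t
    have u17 := bf fun t => g61 t w2031 u14 u1 u15 u6
    have u18 := bt fun t => g541 u12 u14 u10 t w2034 u16
    have u19 := bt fun t => g46 u2 u17 t
    have u20 := bt fun t => g1994 u17 u12 t
    have u21 := bf fun t => g197 u19 g2011 t u7
    have u22 := bt fun t => g1980 u19 u13 t
    have u23 := bt fun t => g795 u20 u21 g2014 t g2013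
    have u24 := bf fun t => g644 u22 n0 w2055 u18 n1 t
    exact g1496 n0 w2055 g2012 u23 u24
  have s2061 : T.alt p z y b x = true → T.X p y a x = true → T.X p a z y = false → T.alt p a x z b = true → T.X p a b y = false → False := fun n0 n1 n2 n3 n4 => by
    have u0 := bf fun t => g229 t n3
    have u1 := bf fun t => g771 t n0
    have u2 := bt fun t => g2005 u0 t n0
    have u3 := bt fun t => g1990 t n3 u1
    have u4 := bt fun t => g613 u2 n4 w2055 n1 t
    have u5 := bf fun t => g213 u3 g2011 n4 t
    have u6 := bf fun t => g1492 n4 w2055 g2012 t u4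
    have u7 := bf fun t => g2020 u5 t n4
    have u8 := bt fun t => g795 n0 t g2014 u6 g2013
    have u9 := bf fun t => g191 u3 w2032 t n4 u7
    exact g210 u3 g2011 n2 u9 u8
  have s2062 : T.alt p a z b y = false → T.X a x z b = false → T.X p x b y = false → False := fun n0 n1 n2 => by
    have u0 := bt fun t => s2042 w2055 w2058 n1 t
    have u1 := bf fun t => g229 t u0
    have u2 := bf fun t => g2023 t n1 w2055
    have u3 := bf fun t => s2060 t n2
    have u4 := bf fun t => g2002 n0 t w2048
    have u5 := bf fun t => g1973 n0 u1 t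
    have u6 := bt fun t => g1984 u0 t u4
    have u7 := bf fun t => g575 u6 t g2012 g2014
    have u8 := bf fun t => g1322 u7 u2 g2012 g2014 t
    have u9 := bt fun t => g541 u6 u7 u2 t w2034 u8
    have u10 := bf fun t => s2061 t u9 u7 u0 u3
    have u11 := bt fun t => g770 t u10 w2048
    have u12 := bt fun t => g1994 t u6 u10
    have u13 := bf fun t => g863 u11 t g2014 g2013
    have u14 := bt fun t => g2009 u5 t u11
    have u15 := bf fun t => g98 u12 g2011 t u13
    have u16 := bf fun t => g87 u12 w2031 w2032 t u15
    have u17 := bt fun t => g668 u14 w2055 u9 n2 t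
    have u18 := bt fun t => g549 u6 u16 g2012 g2014 t
    have u19 := bf fun t => g1005 g2011 u16 u3 u13 t
    exact g1839 u19 n1 u18 u17 g2013
  have s2063 : T.X a z b y = false → T.X p y a z = false → T.alt p a z b y = true → T.X p a b y = false → False := fun n0 n1 n2 n3 => by
    have u0 := bt fun t => g120 n2 w2032 n1 n3 t n0
    exact g2019 u0 n0 n3
  have s2064 : T.X a x z b = false → T.X p x b y = false → False := fun n0 n1 => by
    have u0 := bf fun t => s2060 t n1
    have u1 := bt fun t => s2042 w2055 w2058 n0 t
    have u2 := bt fun t => s2062 t n0 n1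
    have u3 := bf fun t => g48 u2 t
    have u4 := bt fun t => g1990 u3 u1 t
    have u5 := bf fun t => g863 u4 t g2014 g2013
    have u6 := bf fun t => g157 u2 g2011 t u5
    have u7 := bf fun t => g1005 g2011 u6 u0 u5 t
    exact s2063 u7 u6 u2 u0
  have s2065 : T.X p y a z = false → T.X a z b y = false → T.X p x b y = false → False := fun n0 n1 n2 => by
    have u0 := bt fun t => s2064 t n2
    have u1 := bf fun t => s2049 w2055 u0 t w2058
    have u2 := bt fun t => g2024 t u0 w2055
    have u3 := bf fun t => g7 t u2
    have u4 := bf fun t => g36 t u0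
    have u5 := bf fun t => g1173 w2031 u2 w2055 t u4
    have u6 := bf fun t => g1150 g2011 u3 t w2058 u4
    have u7 := bf fun t => g242 t w2031 u3 u6 u5 u4
    have u8 := bt fun t => g227 u1 u7 t
    have u9 := bf fun t => s2060 t n2
    have u10 := bf fun t => s2063 n1 n0 t u9
    have u11 := bf fun t => g2002 u10 t w2048
    have u12 := bt fun t => g1984 u8 t u11
    have u13 := bt fun t => g549 u12 n0 g2012 g2014 t
    have u14 := bf fun t => g38 u13 t
    have u15 := bt fun t => g1838 n1 u0 u13 t g2013
    have u16 := bf fun t => g558 u12 u2 t u14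
    have u17 := bf fun t => g619 t u9 w2055 u16 n2 u15
    have u18 := bf fun t => g678 t u9 w2055 u16 n2 u15
    exact g589 u18 u17 u11
  have s2066 : T.X a z b y = false → T.X p x b y = false → False := fun n0 n1 => by
    have u0 := bt fun t => s2064 t n1
    have u1 := bf fun t => s2049 w2055 u0 t w2058
    have u2 := bt fun t => g2024 t u0 w2055
    have u3 := bf fun t => g7 t u2
    have u4 := bf fun t => g36 t u0
    have u5 := bf fun t => g1173 w2031 u2 w2055 t u4
    have u6 := bf fun t => g1150 g2011 u3 t w2058 u4
    have u7 := bf fun t => g242 t w2031 u3 u6 u5 u4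
    have u8 := bt fun t => g227 u1 u7 t
    have u9 := bf fun t => s2060 t n1
    have u10 := bt fun t => s2065 t n0 n1
    have u11 := bf fun t => g191 t w2032 u10 u9 n0
    have u12 := bt fun t => g992 g2011 u10 u9 t n0
    have u13 := bt fun t => g1990 u11 u8 t
    exact g863 u13 u12 g2014 g2013
  have s2067 : T.X p x b y = false → False := fun n0 => by
    have u0 := bf fun t => s2060 t n0
    have u1 := bt fun t => s2066 t n0
    have u2 := bf fun t => g32 u1 t
    have u3 := bt fun t => g2020 t u1 u0
    have u4 := bf fun t => g20 u3 t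
    have u5 := bt fun t => g986 g2011 t u0 u3 u2
    have u6 := bt fun t => g1005 g2011 t u0 u4 u1
    exact g6 u5 u6
  have w2067 := bt s2067
  have s2068 := fun (n0 : T.X p b y x = true) => g29 n0 w2067
  have w2068 := bf s2068
  have s2069 := fun (n0 : T.X p y b x = true) => g30 n0 w2067
  have w2069 := bf s2069
  have s2070 := fun (n0 : T.X p z b y = false) => g1669 n0 w2058 g2014 w2067 g2013
  have w2070 := bt s2070
  have s2072 := fun (n0 : T.X p y z b = true) => g20 w2070 n0
  have w2072 := bf s2072
  have s2073 := fun (n0 : T.alt p z y b x = true) => g795 n0 w2072 g2014 w2068 g2013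
  have w2073 := bf s2073
  have s2075 : T.X p a b y = false → False := fun n0 => by
    have u0 := bt fun t => g2019 w2070 t n0
    have u1 := bf fun t => g32 u0 t
    have u2 := bt fun t => g1005 g2011 t n0 w2072 u0
    have u3 := bt fun t => g986 g2011 t n0 w2070 u1
    exact g6 u3 u2
  have w2075 := bt s2075
  have s2078 := fun (n0 : T.X a z b y = true) => g2022 w2070 n0 w2075
  have w2078 := bf s2078
  have s2080 := fun (n0 : T.alt p a z b y = true) => g138 n0 w2075 w2070 w2078
  have w2080 := bf s2080
  have s2081 := fun (n0 : T.alt p a x b y = true) => g2002 w2080 n0 w2048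
  have w2081 := bf s2081
  have s2082 := fun (n0 : T.X a x z b = false) => s2056 n0 w2058 w2070 w2081 w2075
  have w2082 := bt s2082
  have s2083 := fun (n0 : T.X a z b x = true) => g35 n0 w2082
  have w2083 := bf s2083
  have s2085 := fun (n0 : T.X p z a x = false) => g2024 n0 w2082 w2055
  have w2085 := bt s2085
  have s2086 := fun (n0 : T.alt p a z b x = true) => s2049 w2055 w2082 n0 w2058
  have w2086 := bf s2086
  have s2090 := fun (n0 : T.alt p a y b x = true) => g2006 w2086 n0 w2073
  have w2090 := bf s2090
  have s2094 := fun (n0 : T.alt p a b y x = false) => g589 n0 w2090 w2081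
  have w2094 := bt s2094
  have s2099 := fun (n0 : T.X p a b x = true) => g692 w2094 n0 g2012 w2068 w2069
  have w2099 := bf s2099
  have s2109 := fun (n0 : T.X p z b x = true) => g1249 g2011 w2085 w2099 w2055 n0 w2082
  have w2109 := bf s2109
  exact g2027 w2109 w2083 w2099

theorem MT_sepa_0000 {p a z b y x : V} (hN : [p, a, z, b, y, x].Nodup) (h0 : T.X p a z b = true)
    (h1 : T.X y x p a = false) (h2 : T.X y x z b = false) (h3 : T.X y x p z = true)
    (h4 : T.X y a p z = true → T.X y a z b = false → T.X y a b p = false → False)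
    (h5 : T.X y a p z = false → T.X y a z b = true → T.X y a b p = false → False)
    (h6 : T.X y a p z = false → T.X y a z b = false → T.X y a b p = true → False)
    (h7 : T.X y a p z = true → T.X y a z b = true → T.X y a b p = true → False)
    (h8 : T.X y b p z = true → T.X y b z a = false → T.X y b a p = false → False)
    (h9 : T.X y b p z = false → T.X y b z a = true → T.X y b a p = false → False)
    (h10 : T.X y b p z = false → T.X y b z a = false → T.X y b a p = true → False)
    (h11 : T.X y b p z = true → T.X y b z a = true → T.X y b a p = true → False)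
    (h12 : T.X x a p z = true → T.X x a z b = false → T.X x a b p = false → False)
    (h13 : T.X x a p z = false → T.X x a z b = true → T.X x a b p = false → False)
    (h14 : T.X x a p z = false → T.X x a z b = false → T.X x a b p = true → False)
    (h15 : T.X x a p z = true → T.X x a z b = true → T.X x a b p = true → False)
    (h16 : T.X x b p z = true → T.X x b z a = false → T.X x b a p = false → False)
    (h17 : T.X x b p z = false → T.X x b z a = true → T.X x b a p = false → False)
    (h18 : T.X x b p z = false → T.X x b z a = false → T.X x b a p = true → False)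
    (h19 : T.X x b p z = true → T.X x b z a = true → T.X x b a p = true → False) : False := by
  have k0 : T.Ok5 p a z b y := T.n5 hN (.cons_cons _ (.cons_cons _ (.cons_cons _ (.cons_cons _ (.cons_cons _ (List.nil_sublist _))))))
  have k1 : T.Ok5 p a z b x := T.n5 hN (.cons_cons _ (.cons_cons _ (.cons_cons _ (.cons_cons _ (.cons _ (.cons_cons _ (List.nil_sublist _)))))))
  have k2 : T.Ok5 p a z y x := T.n5 hN (.cons_cons _ (.cons_cons _ (.cons_cons _ (.cons _ (.cons_cons _ (.cons_cons _ (List.nil_sublist _)))))))
  have k3 : T.Ok5 p a b y x := T.n5 hN (.cons_cons _ (.cons_cons _ (.cons _ (.cons_cons _ (.cons_cons _ (.cons_cons _ (List.nil_sublist _)))))))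
  have k4 : T.Ok5 p z b y x := T.n5 hN (.cons_cons _ (.cons _ (.cons_cons _ (.cons_cons _ (.cons_cons _ (.cons_cons _ (List.nil_sublist _)))))))
  have k5 : T.Ok5 a z b y x := T.n5 hN (.cons _ (.cons_cons _ (.cons_cons _ (.cons_cons _ (.cons_cons _ (.cons_cons _ (List.nil_sublist _)))))))
  have sp0 : T.Sp5 p a z b y x := T.sp5 hN (.cons_cons _ (.cons_cons _ (.cons_cons _ (.cons_cons _ (.cons_cons _ (.cons_cons _ (List.nil_sublist _)))))))
  have g1 := T.q01 p a z b
  have g2 := T.q02 p a z b
  have g4 := T.q01 p a z y
  have g5 := T.q02 p a z y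
  have g6 := T.q12 p a z y
  have g9 := T.q12 p a z x
  have g10 := T.q01 p a b y
  have g11 := T.q02 p a b y
  have g19 := T.q01 p z b y
  have g20 := T.q02 p z b y
  have g21 := T.q12 p z b y
  have g22 := T.q01 p z b x
  have g25 := T.q01 p z y x
  have g26 := T.q02 p z y x
  have g28 := T.q01 p b y x
  have g29 := T.q02 p b y x
  have g31 := T.q01 a z b y
  have g32 := T.q02 a z b y
  have g33 := T.q12 a z b y
  have g37 := T.q01 a z y x
  have g38 := T.q02 a z y x
  have g40 := T.q01 a b y x
  have g41 := T.q02 a b y x
  have g45 := T.q12 z b y x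
  have g46 := T.ae1 k0
  have g49 := T.ae12 k0
  have g61 := fun ha : T.alt p a b z y = true => zA1_9482_0 (T.okA1 k0 ha)
  have g74 := fun ha : T.alt p a b z y = true => zA1_18561_1 (T.okA1 k0 ha)
  have g87 := fun ha : T.alt p a b z y = true => zA1_294_32 (T.okA1 k0 ha)
  have g90 := fun ha : T.alt p a b z y = true => zA1_1608_64 (T.okA1 k0 ha)
  have g96 := fun ha : T.alt p a b z y = true => zA1_1168_1040 (T.okA1 k0 ha)
  have g98 := fun ha : T.alt p a b z y = true => zA1_2305_257 (T.okA1 k0 ha)
  have g101 := fun ha : T.alt p a b z y = true => zA1_18577_16513 (T.okA1 k0 ha)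
  have g120 := fun ha : T.alt p a z b y = true => zA0_4708_0 (T.okA0 k0 ha)
  have g138 := fun ha : T.alt p a z b y = true => zA0_4672_576 (T.okA0 k0 ha)
  have g147 := fun ha : T.alt p a z b y = true => zA0_4708_4160 (T.okA0 k0 ha)
  have g157 := fun ha : T.alt p a z b y = true => zA0_2081_33 (T.okA0 k0 ha)
  have g191 := fun ha : T.alt p a y z b = true => zA2_4196_32 (T.okA2 k0 ha)
  have g195 := fun ha : T.alt p a y z b = true => zA2_9226_1024 (T.okA2 k0 ha)
  have g197 := fun ha : T.alt p a y z b = true => zA2_18433_2049 (T.okA2 k0 ha)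
  have g200 := fun ha : T.alt p a y z b = true => zA2_16513_129 (T.okA2 k0 ha)
  have g210 := fun ha : T.alt p a y z b = true => zA2_2089_2049 (T.okA2 k0 ha)
  have g212 := fun ha : T.alt p a y z b = true => zA2_164_160 (T.okA2 k0 ha)
  have g213 := fun ha : T.alt p a y z b = true => zA2_577_513 (T.okA2 k0 ha)
  have g224 := fun ha : T.alt p a y z b = true => zA2_4708_4192 (T.okA2 k0 ha)
  have g227 := T.ae1 k1
  have g229 := T.ae02 k1
  have g242 := fun ha : T.alt p a b z x = true => zA1_9482_0 (T.okA1 k1 ha)
  have g255 := fun ha : T.alt p a b z x = true => zA1_18561_1 (T.okA1 k1 ha)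
  have g265 := fun ha : T.alt p a b z x = true => zA1_16401_17 (T.okA1 k1 ha)
  have g268 := fun ha : T.alt p a b z x = true => zA1_294_32 (T.okA1 k1 ha)
  have g279 := fun ha : T.alt p a b z x = true => zA1_2305_257 (T.okA1 k1 ha)
  have g301 := fun ha : T.alt p a z b x = true => zA0_4708_0 (T.okA0 k1 ha)
  have g319 := fun ha : T.alt p a z b x = true => zA0_4672_576 (T.okA0 k1 ha)
  have g328 := fun ha : T.alt p a z b x = true => zA0_4708_4160 (T.okA0 k1 ha)
  have g338 := fun ha : T.alt p a z b x = true => zA0_2081_33 (T.okA0 k1 ha)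
  have g376 := fun ha : T.alt p a x z b = true => zA2_9226_1024 (T.okA2 k1 ha)
  have g378 := fun ha : T.alt p a x z b = true => zA2_18433_2049 (T.okA2 k1 ha)
  have g379 := fun ha : T.alt p a x z b = true => zA2_16401_17 (T.okA2 k1 ha)
  have g381 := fun ha : T.alt p a x z b = true => zA2_16513_129 (T.okA2 k1 ha)
  have g391 := fun ha : T.alt p a x z b = true => zA2_2089_2049 (T.okA2 k1 ha)
  have g393 := fun ha : T.alt p a x z b = true => zA2_164_160 (T.okA2 k1 ha)
  have g394 := fun ha : T.alt p a x z b = true => zA2_577_513 (T.okA2 k1 ha)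
  have g408 := T.ae1 k2
  have g411 := T.ae12 k2
  have g419 := fun ha : T.alt p a y z x = true => zA1_16420_16416 (T.okA1 k2 ha)
  have g423 := fun ha : T.alt p a y z x = true => zA1_9482_0 (T.okA1 k2 ha)
  have g431 := fun ha : T.alt p a y z x = true => zA1_4704_512 (T.okA1 k2 ha)
  have g432 := fun ha : T.alt p a y z x = true => zA1_16529_128 (T.okA1 k2 ha)
  have g447 := fun ha : T.alt p a y z x = true => zA1_4612_516 (T.okA1 k2 ha)
  have g448 := fun ha : T.alt p a y z x = true => zA1_9482_8194 (T.okA1 k2 ha)
  have g457 := fun ha : T.alt p a y z x = true => zA1_584_520 (T.okA1 k2 ha)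
  have g469 := fun ha : T.alt p a y z x = true => zA1_4708_4640 (T.okA1 k2 ha)
  have g549 := fun ha : T.alt p a x z y = true => zA2_4676_512 (T.okA2 k2 ha)
  have g573 := fun ha : T.alt p a x z y = true => zA2_2307_256 (T.okA2 k2 ha)
  have g575 := fun ha : T.alt p a x z y = true => zA2_577_513 (T.okA2 k2 ha)
  have g589 := T.ae1 k3
  have g590 := T.ae01 k3
  have g591 := T.ae02 k3
  have g592 := T.ae12 k3
  have g604 := fun ha : T.alt p a y b x = true => zA1_9482_0 (T.okA1 k3 ha)
  have g612 := fun ha : T.alt p a y b x = true => zA1_4704_512 (T.okA1 k3 ha)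
  have g630 := fun ha : T.alt p a y b x = true => zA1_294_32 (T.okA1 k3 ha)
  have g638 := fun ha : T.alt p a y b x = true => zA1_584_520 (T.okA1 k3 ha)
  have g641 := fun ha : T.alt p a y b x = true => zA1_2305_257 (T.okA1 k3 ha)
  have g663 := fun ha : T.alt p a b y x = true => zA0_4708_0 (T.okA0 k3 ha)
  have g670 := fun ha : T.alt p a b y x = true => zA0_9474_256 (T.okA0 k3 ha)
  have g689 := fun ha : T.alt p a b y x = true => zA0_294_256 (T.okA0 k3 ha)
  have g700 := fun ha : T.alt p a b y x = true => zA0_2081_33 (T.okA0 k3 ha)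
  have g722 := fun ha : T.alt p a x b y = true => zA2_18577_0 (T.okA2 k3 ha)
  have g730 := fun ha : T.alt p a x b y = true => zA2_4676_512 (T.okA2 k3 ha)
  have g746 := fun ha : T.alt p a x b y = true => zA2_4640_544 (T.okA2 k3 ha)
  have g756 := fun ha : T.alt p a x b y = true => zA2_577_513 (T.okA2 k3 ha)
  have g770 := T.ae1 k4
  have g771 := T.ae01 k4
  have g772 := T.ae02 k4
  have g773 := T.ae12 k4
  have g784 := fun ha : T.alt p z y b x = true => zA1_2307_2048 (T.okA1 k4 ha)
  have g785 := fun ha : T.alt p z y b x = true => zA1_9482_0 (T.okA1 k4 ha)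
  have g795 := fun ha : T.alt p z y b x = true => zA1_4676_64 (T.okA1 k4 ha)
  have g809 := fun ha : T.alt p z y b x = true => zA1_4612_516 (T.okA1 k4 ha)
  have g823 := fun ha : T.alt p z y b x = true => zA1_4192_96 (T.okA1 k4 ha)
  have g862 := fun ha : T.alt p z b y x = true => zA0_4672_576 (T.okA0 k4 ha)
  have g863 := fun ha : T.alt p z b y x = true => zA0_4164_68 (T.okA0 k4 ha)
  have g865 := fun ha : T.alt p z b y x = true => zA0_4192_96 (T.okA0 k4 ha)
  have g903 := fun ha : T.alt p z x b y = true => zA2_18577_0 (T.okA2 k4 ha)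
  have g913 := fun ha : T.alt p z x b y = true => zA2_4704_64 (T.okA2 k4 ha)
  have g932 := fun ha : T.alt p z x b y = true => zA2_2625_64 (T.okA2 k4 ha)
  have g938 := fun ha : T.alt p z x b y = true => zA2_2306_2050 (T.okA2 k4 ha)
  have g941 := fun ha : T.alt p z x b y = true => zA2_4164_68 (T.okA2 k4 ha)
  have g966 := z5_17545_129 k0
  have g967 := z5_17545_1025 k0
  have g980 := z5_10505_257 k0
  have g986 := z5_16977_513 k0
  have g992 := z5_6241_33 k0
  have g994 := z5_16977_17 k0
  have g1003 := z5_9362_1040 k0
  have g1005 := z5_6241_4097 k0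
  have g1021 := z5_10505_8193 k0
  have g1026 := z5_4756_4112 k0
  have g1071 := z5_6249_6209 k0
  have g1081 := MTz5_21073_593 k0
  have g1175 := z5_6241_4097 k1
  have g1191 := z5_10505_8193 k1
  have g1326 := z5_16977_513 k2
  have g1337 := z5_18596_160 k2
  have g1342 := z5_8778_8704 k2
  have g1345 := z5_6241_4097 k2
  have g1360 := z5_4580_4132 k2
  have g1361 := z5_10505_8193 k2
  have g1496 := z5_16977_513 k3
  have g1508 := z5_18706_16640 k3
  have g1515 := z5_6241_4097 k3
  have g1535 := z5_4756_516 k3
  have g1657 := z5_4756_20 k4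
  have g1658 := z5_16977_80 k4
  have g1668 := z5_6241_96 k4
  have g1669 := z5_6241_2112 k4
  have g1687 := z5_8778_66 k4
  have g1690 := z5_5196_1088 k4
  have g1801 := z5_3_3 k5
  have g1823 := z5_4898_544 k5
  have g1829 := z5_5196_68 k5
  have g1838 := z5_6241_96 k5
  have g1845 := z5_8778_8256 k5
  have g1850 := z5_16977_16448 k5
  have g1860 := z5_5196_1088 k5
  have g1875 := z5_4756_516 k5
  have g1973 := zsp_73_64 sp0
  have g1976 := zsp_530_2 sp0
  have g1977 := zsp_530_512 sp0
  have g1980 := zsp_1156_4 sp0
  have g1981 := zsp_1156_1024 sp0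
  have g1985 := zsp_2336_2048 sp0
  have g1987 := zsp_4132_4132 sp0
  have g1988 := zsp_4132_4 sp0
  have g1992 := zsp_8450_2 sp0
  have g1993 := zsp_8450_8192 sp0
  have g1994 := zsp_8450_256 sp0
  have g1997 := zsp_16528_16384 sp0
  have g1999 := zsp_18433_18433 sp0
  have g2000 := zsp_18433_1 sp0
  have g2001 := zsp_18433_16384 sp0
  have g2002 := zsp_18433_2048 sp0
  have g2005 := zsp_9224_8192 sp0
  have g2006 := zsp_9224_1024 sp0
  have g2008 := zsp_4672_64 sp0
  have g2009 := zsp_4672_4096 sp0
  have g2010 := zsp_4672_512 sp0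
  have g2011 : T.X p a z b = true := h0
  have g2012 : T.X p a y x = false := ((T.xs4 y x p a).symm.trans h1)
  have g2013 : T.X z b y x = false := ((T.xs4 y x z b).symm.trans h2)
  have g2014 : T.X p z y x = true := ((T.xs4 y x p z).symm.trans h3)
  have g2015 := fun (n0 : T.X p z a y = true) (n1 : T.X a y z b = false) (n2 : T.X p b a y = false) => h4 ((T.xs6 y a p z).trans n0) ((T.xs1 y a z b).trans n1) ((T.xs7 y a b p).trans n2)
  have g2016 := fun (n0 : T.X p z a y = false) (n1 : T.X a y z b = true) (n2 : T.X p b a y = false) => h5 ((T.xs6 y a p z).trans n0) ((T.xs1 y a z b).trans n1) ((T.xs7 y a b p).trans n2)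
  have g2017 := fun (n0 : T.X p z a y = false) (n1 : T.X a y z b = false) (n2 : T.X p b a y = true) => h6 ((T.xs6 y a p z).trans n0) ((T.xs1 y a z b).trans n1) ((T.xs7 y a b p).trans n2)
  have g2018 := fun (n0 : T.X p z a y = true) (n1 : T.X a y z b = true) (n2 : T.X p b a y = true) => h7 ((T.xs6 y a p z).trans n0) ((T.xs1 y a z b).trans n1) ((T.xs7 y a b p).trans n2)
  have g2019 := fun (n0 : T.X p z b y = true) (n1 : T.X a z b y = false) (n2 : T.X p a b y = false) => h8 ((T.xs6 y b p z).trans n0) ((T.xs7 y b z a).trans n1) ((T.xs7 y b a p).trans n2)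
  have g2020 := fun (n0 : T.X p z b y = false) (n1 : T.X a z b y = true) (n2 : T.X p a b y = false) => h9 ((T.xs6 y b p z).trans n0) ((T.xs7 y b z a).trans n1) ((T.xs7 y b a p).trans n2)
  have g2021 := fun (n0 : T.X p z b y = false) (n1 : T.X a z b y = false) (n2 : T.X p a b y = true) => h10 ((T.xs6 y b p z).trans n0) ((T.xs7 y b z a).trans n1) ((T.xs7 y b a p).trans n2)
  have g2022 := fun (n0 : T.X p z b y = true) (n1 : T.X a z b y = true) (n2 : T.X p a b y = true) => h11 ((T.xs6 y b p z).trans n0) ((T.xs7 y b z a).trans n1) ((T.xs7 y b a p).trans n2)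
  have g2024 := fun (n0 : T.X p z a x = false) (n1 : T.X a x z b = true) (n2 : T.X p b a x = false) => h13 ((T.xs6 x a p z).trans n0) ((T.xs1 x a z b).trans n1) ((T.xs7 x a b p).trans n2)
  have g2025 := fun (n0 : T.X p z a x = false) (n1 : T.X a x z b = false) (n2 : T.X p b a x = true) => h14 ((T.xs6 x a p z).trans n0) ((T.xs1 x a z b).trans n1) ((T.xs7 x a b p).trans n2)
  have g2027 := fun (n0 : T.X p z b x = true) (n1 : T.X a z b x = false) (n2 : T.X p a b x = false) => h16 ((T.xs6 x b p z).trans n0) ((T.xs7 x b z a).trans n1) ((T.xs7 x b a p).trans n2)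
  have g2028 := fun (n0 : T.X p z b x = false) (n1 : T.X a z b x = true) (n2 : T.X p a b x = false) => h17 ((T.xs6 x b p z).trans n0) ((T.xs7 x b z a).trans n1) ((T.xs7 x b a p).trans n2)
  have g2029 := fun (n0 : T.X p z b x = false) (n1 : T.X a z b x = false) (n2 : T.X p a b x = true) => h18 ((T.xs6 x b p z).trans n0) ((T.xs7 x b z a).trans n1) ((T.xs7 x b a p).trans n2)
  have g2030 := fun (n0 : T.X p z b x = true) (n1 : T.X a z b x = true) (n2 : T.X p a b x = true) => h19 ((T.xs6 x b p z).trans n0) ((T.xs7 x b z a).trans n1) ((T.xs7 x b a p).trans n2)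
  have s2031 := fun (n0 : T.X p z a b = true) => g1 g2011 n0
  have w2031 := bf s2031
  have s2032 := fun (n0 : T.X p b a z = true) => g2 g2011 n0
  have w2032 := bf s2032
  have s2033 := fun (n0 : T.X p y z x = true) => g25 g2014 n0
  have w2033 := bf s2033
  have s2034 := fun (n0 : T.X p x z y = true) => g26 g2014 n0
  have w2034 := bf s2034
  have s2035 : T.alt p a x z y = true → T.alt p a x b y = true → T.alt p z x b y = true → False := fun n0 n1 n2 => by
    have u0 := bf fun t => g941 n2 t g2014 g2013
    have u1 := bf fun t => g773 t n2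
    have u2 := bf fun t => g411 t n0
    have u3 := bf fun t => g575 n0 t g2012 g2014
    have u4 := bt fun t => g1994 t n0 u1
    have u5 := bt fun t => g1997 t u2 n2
    have u6 := bf fun t => g98 u4 g2011 t u0
    have u7 := bf fun t => g1021 g2011 u3 u6 u0 t
    have u8 := bf fun t => g87 u4 w2031 w2032 t u6
    have u9 := bt fun t => g61 u4 w2031 u3 u6 t u7
    have u10 := bt fun t => g549 n0 u8 g2012 g2014 t
    have u11 := bf fun t => g19 t u9
    have u12 := bf fun t => g938 n2 u9 w2034 t
    have u13 := bf fun t => g38 u10 t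
    have u14 := bf fun t => g1668 u11 t g2014 u12 g2013
    have u15 := bt fun t => g932 n2 u11 g2014 t u12
    have u16 := bt fun t => g730 n1 u6 g2012 u15 t
    have u17 := bf fun t => g1823 u7 t u13 u16 g2013
    have u18 := bf fun t => g265 u5 g2011 t u17
    have u19 := bf fun t => g2025 u18 u17 t
    exact g255 u5 g2011 u19 u14 u17
  have s2036 : T.X a x z b = false → T.X a x z y = false → T.X a x b y = false → T.alt p a x b y = true → T.alt p z x b y = true → False := fun n0 n1 n2 n3 n4 => by
    have u0 := bf fun t => g772 t n4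
    have u1 := bf fun t => g591 t n3
    have u2 := bf fun t => g2008 t u1 u0
    have u3 := bf fun t => s2035 t n3 n4
    have u4 := bt fun t => g408 u2 t u3
    have u5 := bt fun t => g1985 t u3 n3
    have u6 := bf fun t => g378 u5 g2011 t n0
    have u7 := bf fun t => g379 u5 g2011 t n0
    have u8 := bf fun t => g381 u5 g2011 t n0
    have u9 := bt fun t => g913 n4 u6 g2014 t g2013
    have u10 := bf fun t => g1326 t u7 g2012 g2014 n1
    have u11 := bf fun t => g432 u4 u10 u7 t n1
    have u12 := bf fun t => g1496 t u8 g2012 u9 n2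
    have u13 := bf fun t => g29 u9 t
    exact g722 n3 u12 u8 u11 u13 n2
  have s2037 : T.X a x z y = false → T.X a b y x = true → T.alt p a x b y = true → T.alt p z x b y = true → False := fun n0 n1 n2 n3 => by
    have u0 := bf fun t => g41 n1 t
    have u1 := bf fun t => g772 t n3
    have u2 := bf fun t => g591 t n2
    have u3 := bf fun t => g2008 t u2 u1
    have u4 := bf fun t => s2035 t n2 n3
    have u5 := bt fun t => g408 u3 t u4
    have u6 := bt fun t => g1985 t u4 n2
    have u7 := bt fun t => s2036 t n0 u0 n2 n3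
    have u8 := bt fun t => g1823 t u7 n0 n1 g2013
    have u9 := bf fun t => g1801 t u8
    have u10 := bf fun t => g1838 u9 u7 t u0 g2013
    have u11 := bt fun t => g431 u5 t g2012 g2014 u10
    have u12 := bf fun t => g9 t u11
    have u13 := bf fun t => g393 u6 w2032 u11 t
    exact g2024 u12 u7 u13
  have s2038 : T.X a x z y = true → T.alt p a y z x = true → False := fun n0 n1 => by
    have u0 := bf fun t => g38 t n0
    have u1 := bf fun t => g447 n1 t g2014 u0
    have u2 := bt fun t => g431 n1 t g2012 g2014 u0
    exact g419 n1 u1 u2 n0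
  have s2039 : T.X a z y x = false → T.alt p a x b y = true → T.alt p z x b y = true → False := fun n0 n1 n2 => by
    have u0 := bf fun t => g772 t n2
    have u1 := bf fun t => g591 t n1
    have u2 := bf fun t => g2008 t u1 u0
    have u3 := bf fun t => s2035 t n1 n2
    have u4 := bt fun t => g408 u2 t u3
    have u5 := bf fun t => s2038 t u4
    have u6 := bf fun t => s2037 u5 t n1 n2
    have u7 := bt fun t => g1985 t u3 n1
    have u8 := bf fun t => g447 u4 t g2014 n0
    have u9 := bt fun t => g431 u4 t g2012 g2014 n0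
    have u10 := bf fun t => g9 t u9
    have u11 := bf fun t => g393 u7 w2032 u9 t
    have u12 := bf fun t => g1337 u8 u9 t w2034 u5
    have u13 := bf fun t => g2024 u10 t u11
    have u14 := bf fun t => g378 u7 g2011 t u13
    have u15 := bt fun t => g913 n2 u14 g2014 t g2013
    have u16 := bt fun t => g730 n1 t g2012 u15 u6
    exact g1535 u16 u11 u12 u15 u6
  have s2040 : T.X p x a z = true → T.alt p a x b y = true → T.alt p z x b y = true → False := fun n0 n1 n2 => by
    have u0 := bt fun t => s2039 t n1 n2
    have u1 := bf fun t => g772 t n2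
    have u2 := bf fun t => g591 t n1
    have u3 := bf fun t => g2008 t u2 u1
    have u4 := bf fun t => s2035 t n1 n2
    have u5 := bt fun t => g408 u3 t u4
    have u6 := bf fun t => s2038 t u5
    have u7 := bf fun t => g1999 t n1 n2
    have u8 := bf fun t => g773 t n2
    have u9 := bf fun t => g1992 t u4 u8
    have u10 := bt fun t => g46 u7 u9 t
    have u11 := bt fun t => g1985 t u4 n1
    have u12 := bf fun t => g9 t n0
    have u13 := bf fun t => g393 u11 w2032 n0 t
    have u14 := bt fun t => g469 u5 t n0 g2012 g2014 u0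
    have u15 := bf fun t => g1326 t u12 g2012 g2014 u6
    have u16 := bf fun t => g432 u5 u15 u12 t u6
    have u17 := bf fun t => g2024 u12 t u13
    have u18 := bf fun t => g212 u10 w2032 u14 t
    have u19 := bt fun t => g1360 u14 n0 g2012 u16 t u0
    have u20 := bf fun t => g378 u11 g2011 t u17
    have u21 := bt fun t => s2036 u17 u6 t n1 n2
    have u22 := bt fun t => g1508 u18 u13 u19 t u21
    have u23 := bt fun t => g913 n2 u20 g2014 t g2013
    exact g29 u23 u22
  have s2041 : T.alt p a x b y = true → T.alt p z x b y = true → False := fun n0 n1 => by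
    have u0 := bf fun t => g941 n1 t g2014 g2013
    have u1 := bf fun t => g773 t n1
    have u2 := bf fun t => g772 t n1
    have u3 := bf fun t => g591 t n0
    have u4 := bf fun t => g1999 t n0 n1
    have u5 := bf fun t => g2008 t u3 u2
    have u6 := bf fun t => s2035 t n0 n1
    have u7 := bf fun t => g1992 t u6 u1
    have u8 := bt fun t => g1985 t u6 n0
    have u9 := bt fun t => g408 u5 t u6
    have u10 := bt fun t => g46 u4 u7 t
    have u11 := bf fun t => g457 u9 t g2012 g2014
    have u12 := bf fun t => s2038 t u9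
    have u13 := bf fun t => s2037 u12 t n0 n1
    have u14 := bt fun t => s2039 t n0 n1
    have u15 := bf fun t => s2040 t n0 n1
    have u16 := bf fun t => g391 u8 g2011 u11 u15 t
    have u17 := bf fun t => g1345 t u15 g2012 w2034 u14
    have u18 := bt fun t => g913 n1 u16 g2014 t g2013
    have u19 := bf fun t => g29 u18 t
    have u20 := bt fun t => g730 n0 t g2012 u18 u13
    have u21 := bf fun t => g746 n0 t u18 u13
    have u22 := bf fun t => g756 n0 t g2012 u18
    have u23 := bt fun t => g980 g2011 u17 u20 u0 t
    have u24 := bf fun t => g1191 g2011 u11 u21 u16 t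
    have u25 := bf fun t => g213 u10 g2011 u22 t
    have u26 := bf fun t => g31 t u23
    have u27 := bf fun t => g376 u8 w2031 u11 t u24
    have u28 := bt fun t => g903 n1 u25 u27 w2033 u19 t
    exact g1850 u26 u24 u14 u13 u28
  have s2043 : T.X a z b x = false → T.X p z b x = false → T.alt p a z b x = true → T.X p x a z = false → False := fun n0 n1 n2 n3 => by
    have u0 := bt fun t => g301 n2 w2032 n3 t n1 n0
    exact g2029 n1 n0 u0
  have s2045 : T.X a z b y = false → T.X p z b y = true → T.alt p a z b y = true → False := fun n0 n1 n2 => by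
    have u0 := bt fun t => g2019 n1 n0 t
    exact g138 n2 u0 n1 n0
  have s2046 : T.X p z b y = true → T.alt p z x b y = true → False := fun n0 n1 => by
    have u0 := bf fun t => g941 n1 t g2014 g2013
    have u1 := bf fun t => s2041 t n1
    have u2 := bt fun t => g2001 t u1 n1
    have u3 := bf fun t => g157 u2 g2011 t u0
    have u4 := bt fun t => s2045 t n0 u2
    have u5 := bf fun t => g2022 n0 u4 t
    exact g1005 g2011 u3 u5 u0 u4
  have s2047 : T.X a z b y = true → T.alt p z x b y = true → False := fun n0 n1 => by
    have u0 := bf fun t => s2046 t n1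
    have u1 := bf fun t => g941 n1 t g2014 g2013
    have u2 := bf fun t => s2041 t n1
    have u3 := bt fun t => g2001 t u2 n1
    have u4 := bf fun t => g157 u3 g2011 t u1
    have u5 := bt fun t => g2020 u0 n0 t
    exact g147 u3 w2032 u4 u5 u0 n0
  have s2048 : T.X a z b y = false → T.X p z b y = false → T.alt p a z b y = true → T.X p y a z = false → False := fun n0 n1 n2 n3 => by
    have u0 := bt fun t => g120 n2 w2032 n3 t n1 n0
    exact g2021 n1 n0 u0
  have s2049 : T.alt p z x b y = true → False := fun n0 => by
    have u0 := bf fun t => g941 n0 t g2014 g2013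
    have u1 := bf fun t => s2041 t n0
    have u2 := bt fun t => g2001 t u1 n0
    have u3 := bf fun t => g157 u2 g2011 t u0
    have u4 := bf fun t => s2046 t n0
    have u5 := bf fun t => s2047 t n0
    exact s2048 u5 u4 u2 u3
  have w2049 := bf s2049
  have s2050 : T.X p a b x = true → T.X a z b x = true → T.alt p a z b x = true → T.X p x a z = false → False := fun n0 n1 n2 n3 => by
    have u0 := bt fun t => g328 n2 w2032 n3 n0 t n1
    exact g2030 u0 n1 n0
  have s2051 : T.X a z b x = true → T.alt p a z b x = true → T.X p x z b = false → False := fun n0 n1 n2 => by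
    have u0 := bf fun t => g338 n1 g2011 t n2
    have u1 := bt fun t => g1175 g2011 u0 t n2 n0
    exact s2050 u1 n0 n1 u0
  have s2052 : T.X a z b x = false → T.X p x a z = false → T.alt p a z b x = true → False := fun n0 n1 n2 => by
    have u0 := bt fun t => s2043 n0 t n2 n1
    have u1 := bt fun t => g2027 u0 n0 t
    exact g319 n2 u1 u0 n0
  have s2053 : T.X p x z b = false → T.alt p a z b x = true → False := fun n0 n1 => by
    have u0 := bf fun t => g338 n1 g2011 t n0
    have u1 := bf fun t => s2051 t n1 n0
    exact s2052 u1 u0 n1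
  have s2054 : T.alt p z y b x = true → T.alt p a y b x = false → False := fun n0 n1 => by
    have u0 := bf fun t => g823 n0 t g2014 g2013
    have u1 := bt fun t => g2005 t n1 n0
    exact s2053 u0 u1
  have s2055 : T.X a z b y = false → T.alt p a z b y = true → False := fun n0 n1 => by
    have u0 := bt fun t => g2000 n1 t w2049
    have u1 := bf fun t => g592 t u0
    have u2 := bf fun t => s2054 t u1
    have u3 := bt fun t => g770 t u2 w2049
    have u4 := bf fun t => g863 u3 t g2014 g2013
    have u5 := bf fun t => g157 n1 g2011 t u4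
    have u6 := bf fun t => s2045 n0 t n1
    exact s2048 n0 u6 n1 u5
  have s2056 : T.X p a b y = true → T.X a z b y = true → T.alt p a z b y = true → T.X p y a z = false → False := fun n0 n1 n2 n3 => by
    have u0 := bt fun t => g147 n2 w2032 n3 n0 t n1
    exact g2022 u0 n1 n0
  have s2057 : T.X p y z b = false → T.alt p a z b y = true → False := fun n0 n1 => by
    have u0 := bf fun t => g157 n1 g2011 t n0
    have u1 := bt fun t => s2055 t n1
    have u2 := bt fun t => g1005 g2011 u0 t n0 u1
    exact s2056 u2 u1 n1 u0
  have s2058 : T.alt p a z b y = true → False := fun n0 => by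
    have u0 := bt fun t => g2000 n0 t w2049
    have u1 := bf fun t => g592 t u0
    have u2 := bf fun t => s2054 t u1
    have u3 := bt fun t => g770 t u2 w2049
    have u4 := bf fun t => g863 u3 t g2014 g2013
    exact s2057 u4 n0
  have w2058 := bf s2058
  have s2059 := fun (n0 : T.alt p a x b y = true) => g2002 w2058 n0 w2049
  have w2059 := bf s2059
  have s2060 : T.alt p a b y x = true → T.X p x b y = false → T.alt p a z y x = false → T.X p a b y = true → False := fun n0 n1 n2 n3 => by
    have u0 := bf fun t => g11 n3 t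
    have u1 := bt fun t => g2010 n2 n0 t
    have u2 := bf fun t => g700 n0 n3 t n1
    have u3 := bf fun t => g862 u1 g2014 t g2013
    have u4 := bt fun t => g663 n0 u0 u2 g2012 u3 t
    exact g1515 n3 u2 g2012 n1 u4
  have s2061 : T.X p x b y = false → T.alt p a z b x = false → T.X p y z b = false → T.X p a b y = true → False := fun n0 n1 n2 n3 => by
    have u0 := bf fun t => g1973 w2058 n1 t
    have u1 := bf fun t => g11 n3 t
    have u2 := bf fun t => g10 n3 t
    have u3 := bf fun t => s2060 t n0 u0 n3
    have u4 := bt fun t => g589 u3 t w2059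
    have u5 := bt fun t => g2006 n1 u4 t
    have u6 := bf fun t => g641 u4 n3 t n0
    have u7 := bt fun t => g795 u5 n2 g2014 t g2013
    have u8 := bf fun t => g630 u4 u2 u1 t u6
    have u9 := bt fun t => g612 u4 u8 g2012 u7 t
    exact g1515 n3 u8 g2012 n0 u9
  have s2062 : T.X p x b y = true → T.X p y z b = false → T.X p z b y = false → False := fun n0 n1 n2 => by
    have u0 := bf fun t => g29 t n0
    have u1 := bt fun t => g1669 n2 t g2014 n0 g2013
    have u2 := bf fun t => g795 t n1 g2014 u0 g2013
    have u3 := bf fun t => g865 t u1 g2014 g2013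
    exact g770 u3 u2 w2049
  have s2063 : T.X p y z b = false → T.X p z b y = false → T.X p a b y = true → False := fun n0 n1 n2 => by
    have u0 := bf fun t => s2062 t n0 n1
    have u1 := bf fun t => g1668 n1 t g2014 u0 g2013
    have u2 := bt fun t => s2061 u0 t n0 n2
    exact s2053 u1 u2
  have s2064 : T.X p a b y = true → T.X p y a z = false → T.X a z b y = true → False := fun n0 n1 n2 => by
    have u0 := bf fun t => g32 n2 t
    have u1 := bf fun t => g10 n0 t
    have u2 := bf fun t => g2022 t n2 n0
    have u3 := bf fun t => g1026 w2032 t u1 u2 n2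
    have u4 := bt fun t => s2063 t u2 n0
    have u5 := bf fun t => g21 t u4
    have u6 := bf fun t => g863 t u4 g2014 g2013
    have u7 := bf fun t => g197 t g2011 u4 u0
    have u8 := bt fun t => g1071 g2011 t n1 n0 u4 n2
    have u9 := bt fun t => g770 u6 t w2049
    have u10 := bf fun t => g784 u9 u2 u5 w2034 t
    have u11 := bt fun t => s2054 u9 t
    have u12 := bt fun t => g1981 u7 t u11
    have u13 := bf fun t => g641 u11 n0 t u10
    have u14 := bf fun t => g457 u12 t g2012 g2014
    have u15 := bt fun t => g423 u12 u3 u14 u13 w2033 t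
    exact g1361 u8 u14 u13 w2034 u15
  have s2065 : T.X p a b y = false → T.X p y a z = false → T.X a z b y = true → False := fun n0 n1 n2 => by
    have u0 := bt fun t => g1005 g2011 n1 n0 t n2
    have u1 := bt fun t => g2020 t n2 n0
    exact g20 u1 u0
  have s2066 : T.X p y a z = false → T.X a z b y = true → False := fun n0 n1 => by
    have u0 := bf fun t => s2064 t n0 n1
    exact s2065 u0 n0 n1
  have s2067 : T.X p a b y = false → T.X a z b y = true → False := fun n0 n1 => by
    have u0 := bt fun t => s2066 t n1
    have u1 := bf fun t => g6 t u0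
    have u2 := bf fun t => g32 n1 t
    have u3 := bt fun t => g2020 t n1 n0
    exact g986 g2011 u1 n0 u3 u2
  have s2068 : T.X a z b y = true → False := fun n0 => by
    have u0 := bf fun t => g32 n0 t
    have u1 := bt fun t => s2066 t n0
    have u2 := bf fun t => g5 t u1
    have u3 := bf fun t => g6 t u1
    have u4 := bf fun t => g2017 u3 u0 t
    have u5 := bf fun t => g967 g2011 u2 u4 t u0
    have u6 := bt fun t => s2067 t n0
    have u7 := bf fun t => g2022 t n0 u6
    have u8 := bf fun t => g90 t u2 u6 u7 u5
    have u9 := bf fun t => g224 t w2032 u1 u6 u7 n0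
    exact g46 w2058 u8 u9
  have w2068 := bf s2068
  have s2069 : T.alt p a z b x = true → T.alt p a y z b = true → False := fun n0 n1 => by
    have u0 := bf fun t => g229 n0 t
    have u1 := bt fun t => s2053 t n0
    have u2 := bt fun t => g1988 n1 u0 t
    exact g865 u2 u1 g2014 g2013
  have s2070 : T.X a y z b = false → T.X p a b y = true → False := fun n0 n1 => by
    have u0 := bt fun t => g2021 t w2068 n1
    have u1 := bf fun t => g20 u0 t
    have u2 := bf fun t => g11 n1 t
    have u3 := bf fun t => g10 n1 t
    have u4 := bf fun t => g1081 g2011 t n1 u0 w2068 n0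
    have u5 := bf fun t => g74 t g2011 u3 u1 n0
    have u6 := bt fun t => g46 w2058 u5 t
    have u7 := bf fun t => s2069 t u6
    have u8 := bf fun t => g1973 w2058 u7 t
    have u9 := bt fun t => s2061 t u7 u1 n1
    have u10 := bf fun t => g29 t u9
    have u11 := bf fun t => g795 t u1 g2014 u10 g2013
    have u12 := bt fun t => g770 t u11 w2049
    have u13 := bf fun t => g1994 u5 t u11
    have u14 := bf fun t => g865 u12 t g2014 g2013
    have u15 := bf fun t => g1987 u6 t u12
    have u16 := bt fun t => g2009 u8 t u12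
    have u17 := bt fun t => g408 u8 t u13
    have u18 := bt fun t => g227 u7 t u15
    have u19 := bf fun t => g457 u17 t g2012 g2014
    have u20 := bf fun t => g279 u18 g2011 t u14
    have u21 := bf fun t => g1342 u4 u19 g2012 g2014 t
    have u22 := bf fun t => g689 u16 u3 u2 u20 t
    exact g423 u17 u4 u19 u22 w2033 u21
  have s2071 : T.X p a b y = true → False := fun n0 => by
    have u0 := bf fun t => g10 n0 t
    have u1 := bf fun t => g11 n0 t
    have u2 := bt fun t => g2021 t w2068 n0
    have u3 := bf fun t => g19 u2 t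
    have u4 := bf fun t => g20 u2 t
    have u5 := bt fun t => s2070 t n0
    have u6 := bf fun t => g33 t u5
    have u7 := bt fun t => g2016 t u5 u0
    have u8 := bf fun t => g4 t u7
    have u9 := bf fun t => g61 t w2031 u8 u1 u3 u6
    have u10 := bt fun t => g46 w2058 u9 t
    have u11 := bf fun t => s2069 t u10
    have u12 := bf fun t => g1973 w2058 u11 t
    have u13 := bt fun t => s2061 t u11 u4 n0
    have u14 := bf fun t => g29 t u13
    have u15 := bf fun t => g795 t u4 g2014 u14 g2013
    have u16 := bt fun t => g770 t u15 w2049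
    have u17 := bf fun t => g1994 u9 t u15
    have u18 := bf fun t => g865 u16 t g2014 g2013
    have u19 := bf fun t => g1987 u10 t u16
    have u20 := bt fun t => g2009 u12 t u16
    have u21 := bt fun t => g408 u12 t u17
    have u22 := bt fun t => g227 u11 t u19
    have u23 := bf fun t => g457 u21 t g2012 g2014
    have u24 := bf fun t => g279 u22 g2011 t u18
    have u25 := bf fun t => g1191 g2011 u23 u24 u18 t
    have u26 := bt fun t => g663 u20 u1 u24 g2012 u14 t
    have u27 := bf fun t => g689 u20 u0 u1 u24 t
    have u28 := bt fun t => g1875 u5 u25 t u26 g2013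
    exact g448 u21 u7 u23 u27 w2033 u28
  have w2071 := bf s2071
  have s2072 := fun (n0 : T.X p z b y = true) => g2019 n0 w2068 w2071
  have w2072 := bf s2072
  have s2073 : T.alt p a y z b = true → T.alt p z b y x = true → T.X p y z b = false → False := fun n0 n1 n2 => by
    have u0 := bf fun t => s2062 t n2 w2072
    have u1 := bf fun t => g1668 w2072 t g2014 u0 g2013
    have u2 := bf fun t => s2053 u1 t
    have u3 := bf fun t => g771 n1 t
    have u4 := bf fun t => g2006 u2 t u3
    have u5 := bf fun t => g1973 w2058 u2 t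
    have u6 := bt fun t => g2009 u5 t n1
    have u7 := bf fun t => g862 n1 g2014 t g2013
    have u8 := bf fun t => g49 t n0
    have u9 := bt fun t => g1980 n0 t u4
    have u10 := bt fun t => g1977 u8 t u6
    have u11 := bf fun t => g457 u9 t g2012 g2014
    have u12 := bf fun t => g279 u10 g2011 t u1
    have u13 := bf fun t => g1191 g2011 u11 u12 u1 t
    have u14 := bf fun t => g268 u10 w2031 w2032 t u12
    have u15 := bt fun t => g242 u10 w2031 u11 u12 t u13
    have u16 := bt fun t => g431 u9 u14 g2012 g2014 t
    have u17 := bf fun t => g22 t u15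
    have u18 := bt fun t => g1658 w2072 u15 g2014 u7 t
    have u19 := bf fun t => g37 u16 t
    have u20 := bf fun t => g1345 t u14 g2012 w2034 u16
    have u21 := bf fun t => g1690 n2 u17 g2014 t g2013
    have u22 := bf fun t => g45 t u18
    have u23 := bt fun t => g1850 w2068 u13 u16 t u18
    have u24 := bf fun t => g1687 t u17 g2014 u7 u22
    have u25 := bf fun t => g40 u23 t
    have u26 := bf fun t => g1875 t u13 u19 u23 g2013
    have u27 := bf fun t => g966 g2011 u20 t u24 u26
    have u28 := bf fun t => g670 u6 u27 t u21 u25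
    have u29 := bf fun t => g2015 t u26 u27
    exact g423 u9 u29 u11 u28 w2033 u19
  have s2074 : T.X a y z b = false → T.alt p a b z y = true → T.X p y z b = false → False := fun n0 n1 n2 => by
    have u0 := bt fun t => g74 n1 g2011 t n2 n0
    have u1 := bf fun t => g994 g2011 t w2071 w2072 n0
    exact g2017 u1 n0 u0
  have s2075 : T.X p z a y = false → T.alt p a b z y = true → T.X p y z b = false → False := fun n0 n1 n2 => by
    have u0 := bt fun t => s2074 t n1 n2
    have u1 := bt fun t => g2016 n0 u0 t
    exact g101 n1 g2011 n0 u1 n2 u0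
  have s2076 : T.alt p z b y x = true → T.X p y z b = false → False := fun n0 n1 => by
    have u0 := bf fun t => g771 n0 t
    have u1 := bf fun t => s2073 t n0 n1
    have u2 := bt fun t => g46 w2058 t u1
    have u3 := bf fun t => g98 u2 g2011 t n1
    have u4 := bt fun t => g1992 u2 t u0
    have u5 := bf fun t => g575 u4 t g2012 g2014
    have u6 := bf fun t => g1021 g2011 u5 u3 n1 t
    have u7 := bt fun t => g61 u2 w2031 u5 u3 t u6
    have u8 := bt fun t => s2074 t u2 n1
    have u9 := bt fun t => s2075 t u2 n1
    have u10 := bt fun t => g96 u2 u9 t u7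
    exact g2018 u9 u8 u10
  have s2077 : T.alt p a b z y = true → T.X p y z b = false → False := fun n0 n1 => by
    have u0 := bf fun t => g98 n0 g2011 t n1
    have u1 := bt fun t => s2074 t n0 n1
    have u2 := bt fun t => s2075 t n0 n1
    have u3 := bf fun t => g33 t u1
    have u4 := bf fun t => g4 t u2
    have u5 := bf fun t => g2018 u2 u1 t
    have u6 := bt fun t => g61 n0 w2031 u4 u0 t u3
    exact g1003 w2031 u2 u5 u6 u3
  have s2078 : T.X a y z b = true → T.X p y z b = false → False := fun n0 n1 => by
    have u0 := bf fun t => s2076 t n1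
    have u1 := bt fun t => g770 u0 t w2049
    have u2 := bt fun t => s2054 u1 t
    have u3 := bt fun t => g795 u1 n1 g2014 t g2013
    have u4 := bf fun t => g638 u2 t g2012 u3
    have u5 := bf fun t => s2077 t n1
    have u6 := bt fun t => g46 w2058 u5 t
    have u7 := bt fun t => g1988 u6 t u0
    have u8 := bf fun t => g394 u7 g2011 u4 t
    have u9 := bf fun t => g2028 u8 t u4
    have u10 := bf fun t => g992 g2011 t w2071 n1 w2068
    have u11 := bt fun t => g1993 u5 t u1
    have u12 := bt fun t => g549 u11 u10 g2012 g2014 t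
    have u13 := bf fun t => g575 u11 t g2012 g2014
    have u14 := bf fun t => g28 u3 t
    have u15 := bf fun t => g33 t n0
    have u16 := bt fun t => g1829 n0 u9 u12 t g2013
    have u17 := bf fun t => g195 u6 w2031 u13 t u15
    have u18 := bf fun t => g40 t u16
    have u19 := bt fun t => g785 u1 u17 u8 w2034 u14 t
    exact g1845 u15 u9 u12 u18 u19
  have s2079 : T.X p y z b = false → False := fun n0 => by
    have u0 := bf fun t => g992 g2011 t w2071 n0 w2068
    have u1 := bf fun t => s2076 t n0
    have u2 := bt fun t => g770 u1 t w2049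
    have u3 := bt fun t => g795 u2 n0 g2014 t g2013
    have u4 := bt fun t => s2054 u2 t
    have u5 := bf fun t => g28 u3 t
    have u6 := bf fun t => g638 u4 t g2012 u3
    have u7 := bf fun t => s2077 t n0
    have u8 := bt fun t => g46 w2058 u7 t
    have u9 := bt fun t => g1993 u7 t u2
    have u10 := bt fun t => g1988 u8 t u1
    have u11 := bf fun t => g575 u9 t g2012 g2014
    have u12 := bt fun t => g549 u9 u0 g2012 g2014 t
    have u13 := bf fun t => g394 u10 g2011 u6 t
    have u14 := bf fun t => g2028 u13 t u6
    have u15 := bf fun t => s2078 t n0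
    have u16 := bf fun t => g994 g2011 t w2071 w2072 u15
    have u17 := bf fun t => g200 u8 g2011 t u15
    have u18 := bf fun t => g1860 u15 u14 u12 t g2013
    have u19 := bf fun t => g573 u9 u11 u16 t w2034
    exact g604 u4 u17 u6 u19 u5 u18
  have w2079 := bt s2079
  have s2081 := fun (n0 : T.alt p z b y x = true) => g863 n0 w2079 g2014 g2013
  have w2081 := bf s2081
  have s2082 := fun (n0 : T.alt p z y b x = false) => g770 w2081 n0 w2049
  have w2082 := bt s2082
  have s2084 := fun (n0 : T.X p b y x = true) => g809 w2082 w2079 n0 g2013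
  have w2084 := bf s2084
  have s2085 := fun (n0 : T.X p x z b = true) => g823 w2082 n0 g2014 g2013
  have w2085 := bf s2085
  have s2086 := fun (n0 : T.alt p a y b x = false) => s2054 w2082 n0
  have w2086 := bt s2086
  have s2087 := fun (n0 : T.X p b z x = true) => g1657 w2079 n0 w2033 w2084 g2013
  have w2087 := bf s2087
  have s2090 := fun (n0 : T.alt p a b y x = true) => g590 n0 w2086
  have w2090 := bf s2090
  have s2092 : T.alt p a b z x = true → T.X p x a b = false → T.X p a z x = false → False := fun n0 n1 n2 => by
    have u0 := bt fun t => g242 n0 w2031 n2 n1 w2087 t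
    exact g1191 g2011 n2 n1 w2085 u0
  have s2093 : T.alt p a y z b = false → False := fun n0 => by
    have u0 := bt fun t => g46 w2058 t n0
    have u1 := bt fun t => g1981 n0 t w2086
    have u2 := bt fun t => g1976 u0 t w2090
    have u3 := bf fun t => g457 u1 t g2012 g2014
    have u4 := bf fun t => g279 u2 g2011 t w2085
    exact s2092 u2 u4 u3
  have w2093 := bt s2093
  have s2094 := fun (n0 : T.alt p a b z y = true) => g49 n0 w2093
  have w2094 := bf s2094
  have s2096 := fun (n0 : T.X p y a z = true) => g191 w2093 w2032 n0 w2071 w2068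
  have w2096 := bf s2096
  have s2099 := fun (n0 : T.alt p a x z y = false) => g1993 w2094 n0 w2082
  have w2099 := bt s2099
  have s2102 := fun (n0 : T.X p a z y = false) => g210 w2093 g2011 n0 w2096 w2079
  have w2102 := bt s2102
  exact g575 w2099 w2102 g2012 g2014

end H53P
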