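import Pool.Agent.Lib.H98M.M0
import Pool.Agent.Lib.H98M.MTg
import Pool.Agent.Lib.H63L.V3

/-!
# H98M, chunk MT: the geometric facts hold for crossing tables

PROOF. `symm`: `crossT_symm`. `adj`: `crossT_adj`. `v2`: `v2_table`. `tri`: `Table.tri` (9 terms).
`five`: `Table.Ok5` (the tables on five points). `sep`: `h y := 1` if
`T.crT w z z' y w' && T.crT w z w' y z'`, else 0, and `h w' = h z' = 0`; the cases are SEPa (six points, file
MTg.lean: generated resolution proofs, with helper63's generator), SEPb (five points, `Table.Ok5`) and `Table.one`.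
-/

set_option autoImplicit false
set_option linter.unusedSectionVars false

namespace H98M

open Finset H98P H98Z H53P

variable {V : Type} [Fintype V] [DecidableEq V]

/-- a Boolean as an element of `ZMod 2` -/
private def MT_z (b : Bool) : ZMod 2 := bif b then 1 else 0

private theorem MT_xor (a b : Bool) : MT_z (a ^^ b) = MT_z a + MT_z b := by
  revert a b
  decide

private theorem MT_cr (T : Table V) (a b c d : V) :
    cr (crossT T) s(a, b) s(c, d) = MT_z (T.X a b c d) := by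
  cases h : T.X a b c d with
  | true => exact cr_one ((crossT_mk T a b c d).2 h)
  | false =>
    refine cr_zero fun h1 => ?_
    rw [crossT_mk, h] at h1
    exact absurd h1 (by decide)

private theorem MT_loop (T : Table V) (a : V) (e : Sym2 V) : ¬ crossT T s(a, a) e := by
  induction e using Sym2.ind with
  | _ x y =>
    rw [crossT_mk]
    intro h
    exact (T.ne _ _ _ _ h).1 rfl

private theorem MT_tri (T : Table V) (a b c x y z : V) (h : [a, b, c, x, y, z].Nodup) :
    (cr (crossT T) s(a, b) s(x, y) + cr (crossT T) s(a, b) s(y, z) + cr (crossT T) s(a, b) s(x, z)) +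
    (cr (crossT T) s(b, c) s(x, y) + cr (crossT T) s(b, c) s(y, z) + cr (crossT T) s(b, c) s(x, z)) +
    (cr (crossT T) s(a, c) s(x, y) + cr (crossT T) s(a, c) s(y, z) + cr (crossT T) s(a, c) s(x, z)) = 0 := by
  simp only [List.nodup_cons, List.mem_cons, List.not_mem_nil, not_or, or_false, not_false_iff,
    List.nodup_nil, and_true] at h
  obtain ⟨⟨ab, ac, ax, ay, az⟩, ⟨bc, bx, by', bz⟩, ⟨cx, cy, cz⟩, -, -⟩ := h
  have h1 := T.tri a b c ab bc (Ne.symm ac) x y z (Ne.symm ax) (Ne.symm bx) (Ne.symm cx) (Ne.symm ay)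
    (Ne.symm by') (Ne.symm cy) (Ne.symm az) (Ne.symm bz) (Ne.symm cz)
  unfold crTX at h1
  rw [T.xs4 x y a b, T.xs4 x y b c, T.xs5 x y c a, T.xs4 y z a b, T.xs4 y z b c, T.xs5 y z c a,
    T.xs6 z x a b, T.xs6 z x b c, T.xs7 z x c a] at h1
  simp only [MT_cr]
  revert h1
  generalize T.X a b x y = b1
  generalize T.X a b y z = b2
  generalize T.X a b x z = b3
  generalize T.X b c x y = b4
  generalize T.X b c y z = b5
  generalize T.X b c x z = b6
  generalize T.X a c x y = b7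
  generalize T.X a c y z = b8
  generalize T.X a c x z = b9
  revert b1 b2 b3 b4 b5 b6 b7 b8 b9
  decide +kernel

private theorem MT_five (T : Table V) (a b c d z : V) (h : [a, b, c, d, z].Nodup) :
    cr (crossT T) s(a, b) s(c, d) + cr (crossT T) s(a, c) s(b, d) + cr (crossT T) s(a, d) s(b, c) +
    (cr (crossT T) s(a, b) s(c, z) + cr (crossT T) s(a, b) s(d, z)) +
    (cr (crossT T) s(a, c) s(b, z) + cr (crossT T) s(a, c) s(d, z)) +
    (cr (crossT T) s(a, d) s(b, z) + cr (crossT T) s(a, d) s(c, z)) +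
    (cr (crossT T) s(b, c) s(a, z) + cr (crossT T) s(b, c) s(d, z)) +
    (cr (crossT T) s(b, d) s(a, z) + cr (crossT T) s(b, d) s(c, z)) +
    (cr (crossT T) s(c, d) s(a, z) + cr (crossT T) s(c, d) s(b, z)) = 1 := by
  have h0 : T.Ok5 a b c d z := T.n5 h (List.Sublist.refl _)
  unfold Table.Ok5 at h0
  simp only [MT_cr]
  rw [T.xs4 b c a z, T.xs4 b d a z, T.xs4 c d a z, T.xs4 c d b z]
  revert h0
  generalize T.X a b c d = b0
  generalize T.X a c b d = b1
  generalize T.X a d b c = b2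
  generalize T.X a b c z = b3
  generalize T.X a c b z = b4
  generalize T.X a z b c = b5
  generalize T.X a b d z = b6
  generalize T.X a d b z = b7
  generalize T.X a z b d = b8
  generalize T.X a c d z = b9
  generalize T.X a d c z = b10
  generalize T.X a z c d = b11
  generalize T.X b c d z = b12
  generalize T.X b d c z = b13
  generalize T.X b z c d = b14
  revert b0 b1 b2 b3 b4 b5 b6 b7 b8 b9 b10 b11 b12 b13 b14
  decide +kernel

/-- one clause of an exclusive or -/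
private theorem MT_x3 {a b c v s0 s1 s2 : Bool} (h : ((a ^^ b) ^^ c) = v) (k : ((s0 ^^ s1) ^^ s2) ≠ v)
    (n0 : a = s0) (n1 : b = s1) (n2 : c = s2) : False := by
  subst n0 n1 n2
  exact k h

private theorem MT_s_1111 (T : Table V) {w w' z z' y y' : V} (hN : [w, w', z, z', y, y'].Nodup)
    (h0 : T.X w w' z z' = true) (h1 : T.X y y' w w' = false) (h2 : T.X y y' z z' = false)
    (ha : ((T.X y w' w z ^^ T.X y w' z z') ^^ T.X y w' z' w) = true)
    (hb : ((T.X y z' w z ^^ T.X y z' z w') ^^ T.X y z' w' w) = true)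
    (ha' : ((T.X y' w' w z ^^ T.X y' w' z z') ^^ T.X y' w' z' w) = true)
    (hb' : ((T.X y' z' w z ^^ T.X y' z' z w') ^^ T.X y' z' w' w) = true) :
    T.X y y' w z = false := by
  cases h3 : T.X y y' w z with
  | false => rfl
  | true =>
    exact (MT_sepa_1111 T hN h0 h1 h2 h3
      (MT_x3 ha (by decide)) (MT_x3 ha (by decide)) (MT_x3 ha (by decide)) (MT_x3 ha (by decide))
      (MT_x3 hb (by decide)) (MT_x3 hb (by decide)) (MT_x3 hb (by decide)) (MT_x3 hb (by decide))
      (MT_x3 ha' (by decide)) (MT_x3 ha' (by decide)) (MT_x3 ha' (by decide)) (MT_x3 ha' (by decide))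
      (MT_x3 hb' (by decide)) (MT_x3 hb' (by decide)) (MT_x3 hb' (by decide)) (MT_x3 hb' (by decide))).elim

private theorem MT_s_1110 (T : Table V) {w w' z z' y y' : V} (hN : [w, w', z, z', y, y'].Nodup)
    (h0 : T.X w w' z z' = true) (h1 : T.X y y' w w' = false) (h2 : T.X y y' z z' = false)
    (ha : ((T.X y w' w z ^^ T.X y w' z z') ^^ T.X y w' z' w) = true)
    (hb : ((T.X y z' w z ^^ T.X y z' z w') ^^ T.X y z' w' w) = true)
    (ha' : ((T.X y' w' w z ^^ T.X y' w' z z') ^^ T.X y' w' z' w) = true)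
    (hb' : ((T.X y' z' w z ^^ T.X y' z' z w') ^^ T.X y' z' w' w) = false) :
    T.X y y' w z = true := by
  cases h3 : T.X y y' w z with
  | true => rfl
  | false =>
    exact (MT_sepa_1110 T hN h0 h1 h2 h3
      (MT_x3 ha (by decide)) (MT_x3 ha (by decide)) (MT_x3 ha (by decide)) (MT_x3 ha (by decide))
      (MT_x3 hb (by decide)) (MT_x3 hb (by decide)) (MT_x3 hb (by decide)) (MT_x3 hb (by decide))
      (MT_x3 ha' (by decide)) (MT_x3 ha' (by decide)) (MT_x3 ha' (by decide)) (MT_x3 ha' (by decide))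
      (MT_x3 hb' (by decide)) (MT_x3 hb' (by decide)) (MT_x3 hb' (by decide)) (MT_x3 hb' (by decide))).elim

private theorem MT_s_1101 (T : Table V) {w w' z z' y y' : V} (hN : [w, w', z, z', y, y'].Nodup)
    (h0 : T.X w w' z z' = true) (h1 : T.X y y' w w' = false) (h2 : T.X y y' z z' = false)
    (ha : ((T.X y w' w z ^^ T.X y w' z z') ^^ T.X y w' z' w) = true)
    (hb : ((T.X y z' w z ^^ T.X y z' z w') ^^ T.X y z' w' w) = true)
    (ha' : ((T.X y' w' w z ^^ T.X y' w' z z') ^^ T.X y' w' z' w) = false)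
    (hb' : ((T.X y' z' w z ^^ T.X y' z' z w') ^^ T.X y' z' w' w) = true) :
    T.X y y' w z = true := by
  cases h3 : T.X y y' w z with
  | true => rfl
  | false =>
    exact (MT_sepa_1101 T hN h0 h1 h2 h3
      (MT_x3 ha (by decide)) (MT_x3 ha (by decide)) (MT_x3 ha (by decide)) (MT_x3 ha (by decide))
      (MT_x3 hb (by decide)) (MT_x3 hb (by decide)) (MT_x3 hb (by decide)) (MT_x3 hb (by decide))
      (MT_x3 ha' (by decide)) (MT_x3 ha' (by decide)) (MT_x3 ha' (by decide)) (MT_x3 ha' (by decide))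
      (MT_x3 hb' (by decide)) (MT_x3 hb' (by decide)) (MT_x3 hb' (by decide)) (MT_x3 hb' (by decide))).elim

private theorem MT_s_1100 (T : Table V) {w w' z z' y y' : V} (hN : [w, w', z, z', y, y'].Nodup)
    (h0 : T.X w w' z z' = true) (h1 : T.X y y' w w' = false) (h2 : T.X y y' z z' = false)
    (ha : ((T.X y w' w z ^^ T.X y w' z z') ^^ T.X y w' z' w) = true)
    (hb : ((T.X y z' w z ^^ T.X y z' z w') ^^ T.X y z' w' w) = true)
    (ha' : ((T.X y' w' w z ^^ T.X y' w' z z') ^^ T.X y' w' z' w) = false)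
    (hb' : ((T.X y' z' w z ^^ T.X y' z' z w') ^^ T.X y' z' w' w) = false) :
    T.X y y' w z = true := by
  cases h3 : T.X y y' w z with
  | true => rfl
  | false =>
    exact (MT_sepa_1100 T hN h0 h1 h2 h3
      (MT_x3 ha (by decide)) (MT_x3 ha (by decide)) (MT_x3 ha (by decide)) (MT_x3 ha (by decide))
      (MT_x3 hb (by decide)) (MT_x3 hb (by decide)) (MT_x3 hb (by decide)) (MT_x3 hb (by decide))
      (MT_x3 ha' (by decide)) (MT_x3 ha' (by decide)) (MT_x3 ha' (by decide)) (MT_x3 ha' (by decide))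
      (MT_x3 hb' (by decide)) (MT_x3 hb' (by decide)) (MT_x3 hb' (by decide)) (MT_x3 hb' (by decide))).elim

private theorem MT_s_1011 (T : Table V) {w w' z z' y y' : V} (hN : [w, w', z, z', y, y'].Nodup)
    (h0 : T.X w w' z z' = true) (h1 : T.X y y' w w' = false) (h2 : T.X y y' z z' = false)
    (ha : ((T.X y w' w z ^^ T.X y w' z z') ^^ T.X y w' z' w) = true)
    (hb : ((T.X y z' w z ^^ T.X y z' z w') ^^ T.X y z' w' w) = false)
    (ha' : ((T.X y' w' w z ^^ T.X y' w' z z') ^^ T.X y' w' z' w) = true)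
    (hb' : ((T.X y' z' w z ^^ T.X y' z' z w') ^^ T.X y' z' w' w) = true) :
    T.X y y' w z = true := by
  cases h3 : T.X y y' w z with
  | true => rfl
  | false =>
    exact (MT_sepa_1011 T hN h0 h1 h2 h3
      (MT_x3 ha (by decide)) (MT_x3 ha (by decide)) (MT_x3 ha (by decide)) (MT_x3 ha (by decide))
      (MT_x3 hb (by decide)) (MT_x3 hb (by decide)) (MT_x3 hb (by decide)) (MT_x3 hb (by decide))
      (MT_x3 ha' (by decide)) (MT_x3 ha' (by decide)) (MT_x3 ha' (by decide)) (MT_x3 ha' (by decide))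
      (MT_x3 hb' (by decide)) (MT_x3 hb' (by decide)) (MT_x3 hb' (by decide)) (MT_x3 hb' (by decide))).elim

private theorem MT_s_1010 (T : Table V) {w w' z z' y y' : V} (hN : [w, w', z, z', y, y'].Nodup)
    (h0 : T.X w w' z z' = true) (h1 : T.X y y' w w' = false) (h2 : T.X y y' z z' = false)
    (ha : ((T.X y w' w z ^^ T.X y w' z z') ^^ T.X y w' z' w) = true)
    (hb : ((T.X y z' w z ^^ T.X y z' z w') ^^ T.X y z' w' w) = false)
    (ha' : ((T.X y' w' w z ^^ T.X y' w' z z') ^^ T.X y' w' z' w) = true)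
    (hb' : ((T.X y' z' w z ^^ T.X y' z' z w') ^^ T.X y' z' w' w) = false) :
    T.X y y' w z = false := by
  cases h3 : T.X y y' w z with
  | false => rfl
  | true =>
    exact (MT_sepa_1010 T hN h0 h1 h2 h3
      (MT_x3 ha (by decide)) (MT_x3 ha (by decide)) (MT_x3 ha (by decide)) (MT_x3 ha (by decide))
      (MT_x3 hb (by decide)) (MT_x3 hb (by decide)) (MT_x3 hb (by decide)) (MT_x3 hb (by decide))
      (MT_x3 ha' (by decide)) (MT_x3 ha' (by decide)) (MT_x3 ha' (by decide)) (MT_x3 ha' (by decide))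
      (MT_x3 hb' (by decide)) (MT_x3 hb' (by decide)) (MT_x3 hb' (by decide)) (MT_x3 hb' (by decide))).elim

private theorem MT_s_1001 (T : Table V) {w w' z z' y y' : V} (hN : [w, w', z, z', y, y'].Nodup)
    (h0 : T.X w w' z z' = true) (h1 : T.X y y' w w' = false) (h2 : T.X y y' z z' = false)
    (ha : ((T.X y w' w z ^^ T.X y w' z z') ^^ T.X y w' z' w) = true)
    (hb : ((T.X y z' w z ^^ T.X y z' z w') ^^ T.X y z' w' w) = false)
    (ha' : ((T.X y' w' w z ^^ T.X y' w' z z') ^^ T.X y' w' z' w) = false)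
    (hb' : ((T.X y' z' w z ^^ T.X y' z' z w') ^^ T.X y' z' w' w) = true) :
    T.X y y' w z = false := by
  cases h3 : T.X y y' w z with
  | false => rfl
  | true =>
    exact (MT_sepa_1001 T hN h0 h1 h2 h3
      (MT_x3 ha (by decide)) (MT_x3 ha (by decide)) (MT_x3 ha (by decide)) (MT_x3 ha (by decide))
      (MT_x3 hb (by decide)) (MT_x3 hb (by decide)) (MT_x3 hb (by decide)) (MT_x3 hb (by decide))
      (MT_x3 ha' (by decide)) (MT_x3 ha' (by decide)) (MT_x3 ha' (by decide)) (MT_x3 ha' (by decide))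
      (MT_x3 hb' (by decide)) (MT_x3 hb' (by decide)) (MT_x3 hb' (by decide)) (MT_x3 hb' (by decide))).elim

private theorem MT_s_1000 (T : Table V) {w w' z z' y y' : V} (hN : [w, w', z, z', y, y'].Nodup)
    (h0 : T.X w w' z z' = true) (h1 : T.X y y' w w' = false) (h2 : T.X y y' z z' = false)
    (ha : ((T.X y w' w z ^^ T.X y w' z z') ^^ T.X y w' z' w) = true)
    (hb : ((T.X y z' w z ^^ T.X y z' z w') ^^ T.X y z' w' w) = false)
    (ha' : ((T.X y' w' w z ^^ T.X y' w' z z') ^^ T.X y' w' z' w) = false)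
    (hb' : ((T.X y' z' w z ^^ T.X y' z' z w') ^^ T.X y' z' w' w) = false) :
    T.X y y' w z = false := by
  cases h3 : T.X y y' w z with
  | false => rfl
  | true =>
    exact (MT_sepa_1000 T hN h0 h1 h2 h3
      (MT_x3 ha (by decide)) (MT_x3 ha (by decide)) (MT_x3 ha (by decide)) (MT_x3 ha (by decide))
      (MT_x3 hb (by decide)) (MT_x3 hb (by decide)) (MT_x3 hb (by decide)) (MT_x3 hb (by decide))
      (MT_x3 ha' (by decide)) (MT_x3 ha' (by decide)) (MT_x3 ha' (by decide)) (MT_x3 ha' (by decide))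
      (MT_x3 hb' (by decide)) (MT_x3 hb' (by decide)) (MT_x3 hb' (by decide)) (MT_x3 hb' (by decide))).elim

private theorem MT_s_0111 (T : Table V) {w w' z z' y y' : V} (hN : [w, w', z, z', y, y'].Nodup)
    (h0 : T.X w w' z z' = true) (h1 : T.X y y' w w' = false) (h2 : T.X y y' z z' = false)
    (ha : ((T.X y w' w z ^^ T.X y w' z z') ^^ T.X y w' z' w) = false)
    (hb : ((T.X y z' w z ^^ T.X y z' z w') ^^ T.X y z' w' w) = true)
    (ha' : ((T.X y' w' w z ^^ T.X y' w' z z') ^^ T.X y' w' z' w) = true)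
    (hb' : ((T.X y' z' w z ^^ T.X y' z' z w') ^^ T.X y' z' w' w) = true) :
    T.X y y' w z = true := by
  cases h3 : T.X y y' w z with
  | true => rfl
  | false =>
    exact (MT_sepa_0111 T hN h0 h1 h2 h3
      (MT_x3 ha (by decide)) (MT_x3 ha (by decide)) (MT_x3 ha (by decide)) (MT_x3 ha (by decide))
      (MT_x3 hb (by decide)) (MT_x3 hb (by decide)) (MT_x3 hb (by decide)) (MT_x3 hb (by decide))
      (MT_x3 ha' (by decide)) (MT_x3 ha' (by decide)) (MT_x3 ha' (by decide)) (MT_x3 ha' (by decide))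
      (MT_x3 hb' (by decide)) (MT_x3 hb' (by decide)) (MT_x3 hb' (by decide)) (MT_x3 hb' (by decide))).elim

private theorem MT_s_0110 (T : Table V) {w w' z z' y y' : V} (hN : [w, w', z, z', y, y'].Nodup)
    (h0 : T.X w w' z z' = true) (h1 : T.X y y' w w' = false) (h2 : T.X y y' z z' = false)
    (ha : ((T.X y w' w z ^^ T.X y w' z z') ^^ T.X y w' z' w) = false)
    (hb : ((T.X y z' w z ^^ T.X y z' z w') ^^ T.X y z' w' w) = true)
    (ha' : ((T.X y' w' w z ^^ T.X y' w' z z') ^^ T.X y' w' z' w) = true)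
    (hb' : ((T.X y' z' w z ^^ T.X y' z' z w') ^^ T.X y' z' w' w) = false) :
    T.X y y' w z = false := by
  cases h3 : T.X y y' w z with
  | false => rfl
  | true =>
    exact (MT_sepa_0110 T hN h0 h1 h2 h3
      (MT_x3 ha (by decide)) (MT_x3 ha (by decide)) (MT_x3 ha (by decide)) (MT_x3 ha (by decide))
      (MT_x3 hb (by decide)) (MT_x3 hb (by decide)) (MT_x3 hb (by decide)) (MT_x3 hb (by decide))
      (MT_x3 ha' (by decide)) (MT_x3 ha' (by decide)) (MT_x3 ha' (by decide)) (MT_x3 ha' (by decide))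
      (MT_x3 hb' (by decide)) (MT_x3 hb' (by decide)) (MT_x3 hb' (by decide)) (MT_x3 hb' (by decide))).elim

private theorem MT_s_0101 (T : Table V) {w w' z z' y y' : V} (hN : [w, w', z, z', y, y'].Nodup)
    (h0 : T.X w w' z z' = true) (h1 : T.X y y' w w' = false) (h2 : T.X y y' z z' = false)
    (ha : ((T.X y w' w z ^^ T.X y w' z z') ^^ T.X y w' z' w) = false)
    (hb : ((T.X y z' w z ^^ T.X y z' z w') ^^ T.X y z' w' w) = true)
    (ha' : ((T.X y' w' w z ^^ T.X y' w' z z') ^^ T.X y' w' z' w) = false)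
    (hb' : ((T.X y' z' w z ^^ T.X y' z' z w') ^^ T.X y' z' w' w) = true) :
    T.X y y' w z = false := by
  cases h3 : T.X y y' w z with
  | false => rfl
  | true =>
    exact (MT_sepa_0101 T hN h0 h1 h2 h3
      (MT_x3 ha (by decide)) (MT_x3 ha (by decide)) (MT_x3 ha (by decide)) (MT_x3 ha (by decide))
      (MT_x3 hb (by decide)) (MT_x3 hb (by decide)) (MT_x3 hb (by decide)) (MT_x3 hb (by decide))
      (MT_x3 ha' (by decide)) (MT_x3 ha' (by decide)) (MT_x3 ha' (by decide)) (MT_x3 ha' (by decide))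
      (MT_x3 hb' (by decide)) (MT_x3 hb' (by decide)) (MT_x3 hb' (by decide)) (MT_x3 hb' (by decide))).elim

private theorem MT_s_0100 (T : Table V) {w w' z z' y y' : V} (hN : [w, w', z, z', y, y'].Nodup)
    (h0 : T.X w w' z z' = true) (h1 : T.X y y' w w' = false) (h2 : T.X y y' z z' = false)
    (ha : ((T.X y w' w z ^^ T.X y w' z z') ^^ T.X y w' z' w) = false)
    (hb : ((T.X y z' w z ^^ T.X y z' z w') ^^ T.X y z' w' w) = true)
    (ha' : ((T.X y' w' w z ^^ T.X y' w' z z') ^^ T.X y' w' z' w) = false)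
    (hb' : ((T.X y' z' w z ^^ T.X y' z' z w') ^^ T.X y' z' w' w) = false) :
    T.X y y' w z = false := by
  cases h3 : T.X y y' w z with
  | false => rfl
  | true =>
    exact (MT_sepa_0100 T hN h0 h1 h2 h3
      (MT_x3 ha (by decide)) (MT_x3 ha (by decide)) (MT_x3 ha (by decide)) (MT_x3 ha (by decide))
      (MT_x3 hb (by decide)) (MT_x3 hb (by decide)) (MT_x3 hb (by decide)) (MT_x3 hb (by decide))
      (MT_x3 ha' (by decide)) (MT_x3 ha' (by decide)) (MT_x3 ha' (by decide)) (MT_x3 ha' (by decide))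
      (MT_x3 hb' (by decide)) (MT_x3 hb' (by decide)) (MT_x3 hb' (by decide)) (MT_x3 hb' (by decide))).elim

private theorem MT_s_0011 (T : Table V) {w w' z z' y y' : V} (hN : [w, w', z, z', y, y'].Nodup)
    (h0 : T.X w w' z z' = true) (h1 : T.X y y' w w' = false) (h2 : T.X y y' z z' = false)
    (ha : ((T.X y w' w z ^^ T.X y w' z z') ^^ T.X y w' z' w) = false)
    (hb : ((T.X y z' w z ^^ T.X y z' z w') ^^ T.X y z' w' w) = false)
    (ha' : ((T.X y' w' w z ^^ T.X y' w' z z') ^^ T.X y' w' z' w) = true)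
    (hb' : ((T.X y' z' w z ^^ T.X y' z' z w') ^^ T.X y' z' w' w) = true) :
    T.X y y' w z = true := by
  cases h3 : T.X y y' w z with
  | true => rfl
  | false =>
    exact (MT_sepa_0011 T hN h0 h1 h2 h3
      (MT_x3 ha (by decide)) (MT_x3 ha (by decide)) (MT_x3 ha (by decide)) (MT_x3 ha (by decide))
      (MT_x3 hb (by decide)) (MT_x3 hb (by decide)) (MT_x3 hb (by decide)) (MT_x3 hb (by decide))
      (MT_x3 ha' (by decide)) (MT_x3 ha' (by decide)) (MT_x3 ha' (by decide)) (MT_x3 ha' (by decide))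
      (MT_x3 hb' (by decide)) (MT_x3 hb' (by decide)) (MT_x3 hb' (by decide)) (MT_x3 hb' (by decide))).elim

private theorem MT_s_0010 (T : Table V) {w w' z z' y y' : V} (hN : [w, w', z, z', y, y'].Nodup)
    (h0 : T.X w w' z z' = true) (h1 : T.X y y' w w' = false) (h2 : T.X y y' z z' = false)
    (ha : ((T.X y w' w z ^^ T.X y w' z z') ^^ T.X y w' z' w) = false)
    (hb : ((T.X y z' w z ^^ T.X y z' z w') ^^ T.X y z' w' w) = false)
    (ha' : ((T.X y' w' w z ^^ T.X y' w' z z') ^^ T.X y' w' z' w) = true)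
    (hb' : ((T.X y' z' w z ^^ T.X y' z' z w') ^^ T.X y' z' w' w) = false) :
    T.X y y' w z = false := by
  cases h3 : T.X y y' w z with
  | false => rfl
  | true =>
    exact (MT_sepa_0010 T hN h0 h1 h2 h3
      (MT_x3 ha (by decide)) (MT_x3 ha (by decide)) (MT_x3 ha (by decide)) (MT_x3 ha (by decide))
      (MT_x3 hb (by decide)) (MT_x3 hb (by decide)) (MT_x3 hb (by decide)) (MT_x3 hb (by decide))
      (MT_x3 ha' (by decide)) (MT_x3 ha' (by decide)) (MT_x3 ha' (by decide)) (MT_x3 ha' (by decide))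
      (MT_x3 hb' (by decide)) (MT_x3 hb' (by decide)) (MT_x3 hb' (by decide)) (MT_x3 hb' (by decide))).elim

private theorem MT_s_0001 (T : Table V) {w w' z z' y y' : V} (hN : [w, w', z, z', y, y'].Nodup)
    (h0 : T.X w w' z z' = true) (h1 : T.X y y' w w' = false) (h2 : T.X y y' z z' = false)
    (ha : ((T.X y w' w z ^^ T.X y w' z z') ^^ T.X y w' z' w) = false)
    (hb : ((T.X y z' w z ^^ T.X y z' z w') ^^ T.X y z' w' w) = false)
    (ha' : ((T.X y' w' w z ^^ T.X y' w' z z') ^^ T.X y' w' z' w) = false)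
    (hb' : ((T.X y' z' w z ^^ T.X y' z' z w') ^^ T.X y' z' w' w) = true) :
    T.X y y' w z = false := by
  cases h3 : T.X y y' w z with
  | false => rfl
  | true =>
    exact (MT_sepa_0001 T hN h0 h1 h2 h3
      (MT_x3 ha (by decide)) (MT_x3 ha (by decide)) (MT_x3 ha (by decide)) (MT_x3 ha (by decide))
      (MT_x3 hb (by decide)) (MT_x3 hb (by decide)) (MT_x3 hb (by decide)) (MT_x3 hb (by decide))
      (MT_x3 ha' (by decide)) (MT_x3 ha' (by decide)) (MT_x3 ha' (by decide)) (MT_x3 ha' (by decide))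
      (MT_x3 hb' (by decide)) (MT_x3 hb' (by decide)) (MT_x3 hb' (by decide)) (MT_x3 hb' (by decide))).elim

private theorem MT_s_0000 (T : Table V) {w w' z z' y y' : V} (hN : [w, w', z, z', y, y'].Nodup)
    (h0 : T.X w w' z z' = true) (h1 : T.X y y' w w' = false) (h2 : T.X y y' z z' = false)
    (ha : ((T.X y w' w z ^^ T.X y w' z z') ^^ T.X y w' z' w) = false)
    (hb : ((T.X y z' w z ^^ T.X y z' z w') ^^ T.X y z' w' w) = false)
    (ha' : ((T.X y' w' w z ^^ T.X y' w' z z') ^^ T.X y' w' z' w) = false)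
    (hb' : ((T.X y' z' w z ^^ T.X y' z' z w') ^^ T.X y' z' w' w) = false) :
    T.X y y' w z = false := by
  cases h3 : T.X y y' w z with
  | false => rfl
  | true =>
    exact (MT_sepa_0000 T hN h0 h1 h2 h3
      (MT_x3 ha (by decide)) (MT_x3 ha (by decide)) (MT_x3 ha (by decide)) (MT_x3 ha (by decide))
      (MT_x3 hb (by decide)) (MT_x3 hb (by decide)) (MT_x3 hb (by decide)) (MT_x3 hb (by decide))
      (MT_x3 ha' (by decide)) (MT_x3 ha' (by decide)) (MT_x3 ha' (by decide)) (MT_x3 ha' (by decide))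
      (MT_x3 hb' (by decide)) (MT_x3 hb' (by decide)) (MT_x3 hb' (by decide)) (MT_x3 hb' (by decide))).elim
/-- `y` is in the small triangle at `w`, `z` of the crossing of `ww'` and `zz'` -/
private def MT_inn (T : Table V) (w w' z z' y : V) : Bool := T.crT w z z' y w' && T.crT w z w' y z'

private theorem MT_sepa (T : Table V) {w w' z z' y y' : V} (hN : [w, w', z, z', y, y'].Nodup)
    (h0 : T.X w w' z z' = true) (h1 : T.X y y' w w' = false) (h2 : T.X y y' z z' = false) :
    T.X y y' w z = (MT_inn T w w' z z' y ^^ MT_inn T w w' z z' y') := by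
  unfold MT_inn Table.crT crTX
  cases ha : ((T.X y w' w z ^^ T.X y w' z z') ^^ T.X y w' z' w) <;>
  cases hb : ((T.X y z' w z ^^ T.X y z' z w') ^^ T.X y z' w' w) <;>
  cases ha' : ((T.X y' w' w z ^^ T.X y' w' z z') ^^ T.X y' w' z' w) <;>
  cases hb' : ((T.X y' z' w z ^^ T.X y' z' z w') ^^ T.X y' z' w' w) <;>
  first
  | exact MT_s_1111 T hN h0 h1 h2 ha hb ha' hb'
  | exact MT_s_1110 T hN h0 h1 h2 ha hb ha' hb'
  | exact MT_s_1101 T hN h0 h1 h2 ha hb ha' hb'
  | exact MT_s_1100 T hN h0 h1 h2 ha hb ha' hb'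
  | exact MT_s_1011 T hN h0 h1 h2 ha hb ha' hb'
  | exact MT_s_1010 T hN h0 h1 h2 ha hb ha' hb'
  | exact MT_s_1001 T hN h0 h1 h2 ha hb ha' hb'
  | exact MT_s_1000 T hN h0 h1 h2 ha hb ha' hb'
  | exact MT_s_0111 T hN h0 h1 h2 ha hb ha' hb'
  | exact MT_s_0110 T hN h0 h1 h2 ha hb ha' hb'
  | exact MT_s_0101 T hN h0 h1 h2 ha hb ha' hb'
  | exact MT_s_0100 T hN h0 h1 h2 ha hb ha' hb'
  | exact MT_s_0011 T hN h0 h1 h2 ha hb ha' hb'
  | exact MT_s_0010 T hN h0 h1 h2 ha hb ha' hb'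
  | exact MT_s_0001 T hN h0 h1 h2 ha hb ha' hb'
  | exact MT_s_0000 T hN h0 h1 h2 ha hb ha' hb'

private theorem MT_decb : ∀ b1 b2 b3 b4 b5 b6 b7 b8 b9 b10 b11 b12 b13 : Bool,
    ok5 true b1 b2 b3 b4 b5 b6 b7 b8 b9 b10 b11 b12 b13 false = true →
    b4 = (((b4 ^^ false) ^^ b7) && ((b9 ^^ b12) ^^ b6)) := by
  decide +kernel

private theorem MT_sepb (T : Table V) {w w' z z' y : V} (hN : [w, w', z, z', y].Nodup)
    (h0 : T.X w w' z z' = true) (h1 : T.X w' y z z' = false) :
    T.X w' y w z = MT_inn T w w' z z' y := by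
  have h : T.Ok5 w w' z z' y := T.n5 hN (List.Sublist.refl _)
  unfold Table.Ok5 at h
  unfold MT_inn Table.crT crTX
  rw [h0, h1] at h
  rw [T.xs4 w' y w z, T.xs6 y w' w z, T.xs1 y w' z z', T.xs7 y w' z' w, T.xs6 y z' w z, T.xs7 y z' z w',
    T.xs7 y z' w' w, h1]
  exact MT_decb _ _ _ _ _ _ _ _ _ _ _ _ _ h

private theorem MT_inn_comm (T : Table V) (w w' z z' y : V) :
    MT_inn T w w' z z' y = MT_inn T z z' w w' y := by
  unfold MT_inn Table.crT crTX
  rw [T.xs2 y w' w z, T.xs2 y w' z z', T.xs2 y w' z' w, T.xs2 y z' w z, T.xs2 y z' z w', T.xs2 y z' w' w]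
  generalize T.X y w' z w = b1
  generalize T.X y w' z' z = b2
  generalize T.X y w' w z' = b3
  generalize T.X y z' z w = b4
  generalize T.X y z' w' z = b5
  generalize T.X y z' w w' = b6
  revert b1 b2 b3 b4 b5 b6
  decide

private theorem MT_ncr (T : Table V) {a b c d : V} (h : ¬ crossT T s(a, b) s(c, d)) : T.X a b c d = false := by
  rw [crossT_mk, Bool.not_eq_true] at h
  exact h

private theorem MT_nd5 {a b c d e : V} (ab : a ≠ b) (ac : a ≠ c) (ad : a ≠ d) (ae : a ≠ e) (bc : b ≠ c)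
    (bd : b ≠ d) (be : b ≠ e) (cd : c ≠ d) (ce : c ≠ e) (de : d ≠ e) : [a, b, c, d, e].Nodup := by
  simp [ab, ac, ad, ae, bc, bd, be, cd, ce, de]

private theorem MT_nd6 {a b c d e f : V} (ab : a ≠ b) (ac : a ≠ c) (ad : a ≠ d) (ae : a ≠ e) (af : a ≠ f)
    (bc : b ≠ c) (bd : b ≠ d) (be : b ≠ e) (bf : b ≠ f) (cd : c ≠ d) (ce : c ≠ e) (cf : c ≠ f) (de : d ≠ e)
    (df : d ≠ f) (ef : e ≠ f) : [a, b, c, d, e, f].Nodup := by
  simp [ab, ac, ad, ae, af, bc, bd, be, bf, cd, ce, cf, de, df, ef]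

/-- the function `h` of `Geo.sep` -/
private def MT_h (T : Table V) (w w' z z' y : V) : ZMod 2 :=
  if y = w' ∨ y = z' then 0 else MT_z (MT_inn T w w' z z' y)

private theorem MT_h0 (T : Table V) {w w' z z' y : V} (h : y = w' ∨ y = z') : MT_h T w w' z z' y = 0 :=
  if_pos h

private theorem MT_h1 (T : Table V) {w w' z z' y : V} (h1 : y ≠ w') (h2 : y ≠ z') :
    MT_h T w w' z z' y = MT_z (MT_inn T w w' z z' y) :=
  if_neg (by rintro (h | h); exacts [h1 h, h2 h])

/-- `y = w'` -/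
private theorem MT_sw (T : Table V) {w w' z z' y : V} (h0 : T.X w w' z z' = true) (hy : w' ≠ y) (hw : y ≠ w)
    (hz : y ≠ z) (h2 : T.X w' y z z' = false) : MT_z (T.X w' y w z) = MT_h T w w' z z' y := by
  obtain ⟨n1, n2, n3, n4, n5, n6⟩ := T.ne _ _ _ _ h0
  by_cases hb : y = z'
  · subst hb
    rw [MT_h0 T (Or.inr rfl), T.xs4 w' y w z, T.one w w' z y h0]
    rfl
  · rw [MT_h1 T (Ne.symm hy) hb, MT_sepb T (MT_nd5 n1 n3 n4 (Ne.symm hw) n5 n6 hy n2 (Ne.symm hz)
      (Ne.symm hb)) h0 h2]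

/-- `y = z'` -/
private theorem MT_sz (T : Table V) {w w' z z' y : V} (h0 : T.X w w' z z' = true) (hy : z' ≠ y) (hw : y ≠ w)
    (hz : y ≠ z) (h2 : T.X z' y w w' = false) : MT_z (T.X z' y w z) = MT_h T w w' z z' y := by
  obtain ⟨n1, n2, n3, n4, n5, n6⟩ := T.ne _ _ _ _ h0
  have h0' : T.X z z' w w' = true := by rw [T.xs4]; exact h0
  by_cases hb : y = w'
  · subst hb
    rw [MT_h0 T (Or.inl rfl), T.xs6 z' y w z, T.one w y z z' h0]
    rfl
  · rw [MT_h1 T hb (Ne.symm hy), MT_inn_comm, T.xs2 z' y w z, MT_sepb T (MT_nd5 n2 (Ne.symm n3) (Ne.symm n5)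
      (Ne.symm hz) (Ne.symm n4) (Ne.symm n6) hy n1 (Ne.symm hw) (Ne.symm hb)) h0' h2]

theorem geo_table (T : Table V) : Geo (crossT T) where
  symm := crossT_symm T
  adj := crossT_adj T
  loop := MT_loop T
  v2 := fun W hW p hp => v2_table T hW hp
  tri := MT_tri T
  five := MT_five T
  sep := by
    intro w w' z z' h
    rw [crossT_mk] at h
    refine ⟨MT_h T w w' z z', ?_⟩
    intro y y' hyy yw yz yw' yz' h1 h2
    have h1' := MT_ncr T h1
    have h2' := MT_ncr T h2
    rw [MT_cr]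
    obtain ⟨n1, n2, n3, n4, n5, n6⟩ := T.ne _ _ _ _ h
    by_cases e1 : y = w'
    · subst e1
      rw [MT_sw T h hyy yw' yz' h2', MT_h0 T (Or.inl rfl), zero_add]
    by_cases e2 : y = z'
    · subst e2
      rw [MT_sz T h hyy yw' yz' h1', MT_h0 T (Or.inr rfl), zero_add]
    by_cases e3 : y' = w'
    · subst e3
      rw [T.xs1 y y' z z'] at h2'
      rw [T.xs1 y y' w z, MT_sw T h (Ne.symm hyy) yw yz h2', MT_h0 T (y := y') (Or.inl rfl), add_zero]
    by_cases e4 : y' = z'
    · subst e4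
      rw [T.xs1 y y' w w'] at h1'
      rw [T.xs1 y y' w z, MT_sz T h (Ne.symm hyy) yw yz h1', MT_h0 T (y := y') (Or.inr rfl), add_zero]
    rw [MT_h1 T e1 e2, MT_h1 T e3 e4, MT_sepa T (MT_nd6 n1 n3 n4 (Ne.symm yw) (Ne.symm yw') n5 n6
      (Ne.symm e1) (Ne.symm e3) n2 (Ne.symm yz) (Ne.symm yz') (Ne.symm e2) (Ne.symm e4) hyy) h h1' h2',
      MT_xor]

end H98M
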