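import Pool.Agent.Lib.H98M.M0

/-!
# H98M, file MC0: walks, sides of a closed walk, edges on different sides do not cross
-/

set_option autoImplicit false
set_option linter.unusedSectionVars false

namespace H98M

open Finset H98P H98Z

variable {V : Type*} [Fintype V] [DecidableEq V]

theorem getLastD_mem (x : V) : ∀ l : List V, l.getLastD x = x ∨ l.getLastD x ∈ l
  | [] => Or.inl rfl
  | b :: l => by
    right
    rw [List.getLastD_cons]
    rcases getLastD_mem b l with h | h
    · rw [h]
      exact List.mem_cons_self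
    · exact List.mem_cons_of_mem b h

theorem wk_last {S : V → Prop} {g : Sym2 V → ZMod 2} (h0 : ∀ x, S x → g s(x, x) = 0)
    (h : ∀ x y w, S x → S y → S w → g s(x, y) + g s(y, w) = g s(x, w)) :
    ∀ (l : List V) (x : V), S x → (∀ y ∈ l, S y) → wk g (x :: l) = g s(x, l.getLastD x)
  | [], x, hx, _ => by
    rw [wk]
    exact (h0 x hx).symm
  | b :: l, x, hx, hl => by
    have hb : S b := hl b List.mem_cons_self
    have hl' : ∀ y ∈ l, S y := fun y hy => hl y (List.mem_cons_of_mem b hy)
    rw [wk, wk_last h0 h l b hb hl', List.getLastD_cons]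
    refine h x b _ hx hb ?_
    rcases getLastD_mem b l with h1 | h1
    · rw [h1]
      exact hb
    · exact hl' _ h1

theorem getLastD_append (x a : V) : ∀ l : List V, (l ++ [a]).getLastD x = a
  | [] => rfl
  | b :: l => by
    rw [List.cons_append, List.getLastD_cons]
    exact getLastD_append b a l

theorem cy_zero {S : V → Prop} {g : Sym2 V → ZMod 2} (h0 : ∀ x, S x → g s(x, x) = 0)
    (h : ∀ x y w, S x → S y → S w → g s(x, y) + g s(y, w) = g s(x, w)) {L : List V}
    (hL : ∀ y ∈ L, S y) : cy g L = 0 := by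
  cases L with
  | nil => rfl
  | cons a l =>
    have ha : S a := hL a List.mem_cons_self
    rw [cy, wk_last h0 h (l ++ [a]) a ha, getLastD_append]
    · exact h0 a ha
    · intro y hy
      rw [List.mem_append, List.mem_singleton] at hy
      rcases hy with hy | hy
      · exact hL y (List.mem_cons_of_mem a hy)
      · rw [hy]
        exact ha

theorem wk_add (g g' : Sym2 V → ZMod 2) : ∀ l : List V, wk (fun e => g e + g' e) l = wk g l + wk g' l
  | [] => by simp [wk]
  | [_] => by simp [wk]
  | a :: b :: l => by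
    rw [wk, wk, wk, wk_add g g' (b :: l)]
    ring

theorem cy_add (g g' : Sym2 V → ZMod 2) (L : List V) :
    cy (fun e => g e + g' e) L = cy g L + cy g' L := by
  cases L with
  | nil => simp [cy]
  | cons a l => rw [cy, cy, cy, wk_add]

theorem wk_congr {g g' : Sym2 V → ZMod 2} : ∀ l : List V, (∀ e ∈ we l, g e = g' e) → wk g l = wk g' l
  | [], _ => rfl
  | [_], _ => rfl
  | a :: b :: l, h => by
    rw [wk, wk, h _ List.mem_cons_self, wk_congr (b :: l) fun e he => h e (List.mem_cons_of_mem _ he)]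

theorem mem_we {y : V} {e : Sym2 V} : ∀ l : List V, e ∈ we l → y ∈ e → y ∈ l
  | [], h, _ => absurd h List.not_mem_nil
  | [_], h, _ => absurd h List.not_mem_nil
  | a :: b :: l, h, hy => by
    rw [we, List.mem_cons] at h
    rcases h with rfl | h
    · rw [Sym2.mem_iff] at hy
      rcases hy with rfl | rfl
      · exact List.mem_cons_self
      · exact List.mem_cons_of_mem _ List.mem_cons_self
    · exact List.mem_cons_of_mem _ (mem_we (b :: l) h hy)

theorem mem_ce {y : V} {e : Sym2 V} {L : List V} (h : e ∈ ce L) (hy : y ∈ e) : y ∈ L := by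
  cases L with
  | nil => exact absurd h List.not_mem_nil
  | cons a l =>
    have h1 := mem_we _ h hy
    rw [List.mem_cons, List.mem_append, List.mem_singleton] at h1
    rcases h1 with h1 | h1 | h1
    · rw [h1]
      exact List.mem_cons_self
    · exact List.mem_cons_of_mem a h1
    · rw [h1]
      exact List.mem_cons_self

/-- telescoping -/
theorem wk_tel {g : Sym2 V → ZMod 2} {h : V → ZMod 2} : ∀ (l : List V) (x : V),
    (∀ y y', s(y, y') ∈ we (x :: l) → g s(y, y') = h y + h y') →
    wk g (x :: l) = h x + h (l.getLastD x)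
  | [], x, _ => by
    rw [wk]
    exact (CharTwo.add_self_eq_zero (h x)).symm
  | b :: l, x, hl => by
    rw [wk, wk_tel l b fun y y' hy => hl y y' (by rw [we]; exact List.mem_cons_of_mem _ hy),
      hl x b (by rw [we]; exact List.mem_cons_self), List.getLastD_cons]
    have h1 : h b + h b = 0 := CharTwo.add_self_eq_zero _
    calc h x + h b + (h b + h (l.getLastD b)) = h x + (h b + h b) + h (l.getLastD b) := by ring
      _ = h x + h (l.getLastD b) := by rw [h1, add_zero]

theorem cy_tel {g : Sym2 V → ZMod 2} {h : V → ZMod 2} {L : List V}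
    (hl : ∀ y y', s(y, y') ∈ ce L → g s(y, y') = h y + h y') : cy g L = 0 := by
  cases L with
  | nil => rfl
  | cons a l =>
    rw [cy, wk_tel (l ++ [a]) a hl, getLastD_append]
    exact CharTwo.add_self_eq_zero _

variable {cross : Sym2 V → Sym2 V → Prop}

theorem cr_symm (hG : Geo cross) (e f : Sym2 V) : cr cross e f = cr cross f e := by
  by_cases h : cross e f
  · rw [cr_one h, cr_one (hG.symm _ _ h)]
  · rw [cr_zero h, cr_zero fun h1 => h (hG.symm _ _ h1)]

theorem cr_loop (hG : Geo cross) (a : V) (e : Sym2 V) : cr cross s(a, a) e = 0 :=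
  cr_zero (hG.loop a e)

theorem cr_loop' (hG : Geo cross) (a : V) (e : Sym2 V) : cr cross e s(a, a) = 0 := by
  rw [cr_symm hG]
  exact cr_loop hG a e

/-- The triangle relation off a triangle. -/
theorem tri_rel (hG : Geo cross) {u v w : V} {x y z : V} (hx : x ≠ u ∧ x ≠ v ∧ x ≠ w)
    (hy : y ≠ u ∧ y ≠ v ∧ y ≠ w) (hz : z ≠ u ∧ z ≠ v ∧ z ≠ w) :
    (cr cross s(u, v) s(x, y) + cr cross s(v, w) s(x, y) + cr cross s(u, w) s(x, y)) +
      (cr cross s(u, v) s(y, z) + cr cross s(v, w) s(y, z) + cr cross s(u, w) s(y, z)) =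
      cr cross s(u, v) s(x, z) + cr cross s(v, w) s(x, z) + cr cross s(u, w) s(x, z) := by
  have two : ∀ a : ZMod 2, a + a = 0 := fun a => CharTwo.add_self_eq_zero a
  by_cases h1 : u = v
  · subst h1
    simp only [cr_loop hG, zero_add, two]
  by_cases h2 : v = w
  · subst h2
    simp only [cr_loop hG, add_zero, two]
  by_cases h3 : u = w
  · subst h3
    have h4 : s(v, u) = s(u, v) := Sym2.eq_swap
    simp only [h4, cr_loop hG, add_zero, two]
  by_cases h4 : x = y
  · subst h4
    simp only [cr_loop' hG, add_zero, zero_add]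
  by_cases h5 : y = z
  · subst h5
    simp only [cr_loop' hG, add_zero]
  by_cases h6 : x = z
  · subst h6
    have h7 : s(y, x) = s(x, y) := Sym2.eq_swap
    rw [h7, two]
    simp only [cr_loop' hG, add_zero]
  have h7 := hG.tri u v w x y z (by
    simp only [List.nodup_cons, List.mem_cons, List.not_mem_nil, or_false, not_or, List.nodup_nil,
      and_true, not_false_eq_true]
    exact ⟨⟨h1, h3, hx.1.symm, hy.1.symm, hz.1.symm⟩, ⟨h2, hx.2.1.symm, hy.2.1.symm, hz.2.1.symm⟩,
      ⟨hx.2.2.symm, hy.2.2.symm, hz.2.2.symm⟩, ⟨h4, h6⟩, h5⟩)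
  refine CharTwo.add_eq_zero.1 ?_
  rw [← h7]
  ring

/-- The sides of a closed walk. -/
theorem sd_add (hG : Geo cross) {L : List V} {u v w : V} (hu : u ∉ L) (hv : v ∉ L) (hw : w ∉ L) :
    cy (cr cross s(u, v)) L + cy (cr cross s(v, w)) L = cy (cr cross s(u, w)) L := by
  have h1 : cy (fun e => cr cross s(u, v) e + cr cross s(v, w) e + cr cross s(u, w) e) L = 0 := by
    refine cy_zero (S := fun x => x ≠ u ∧ x ≠ v ∧ x ≠ w) (fun x _ => ?_)
      (fun x y z hx hy hz => tri_rel hG hx hy hz) fun y hy => ?_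
    · simp only [cr_loop' hG, add_zero]
    · exact ⟨fun h => hu (h ▸ hy), fun h => hv (h ▸ hy), fun h => hw (h ▸ hy)⟩
  rw [cy_add, cy_add] at h1
  exact CharTwo.add_eq_zero.1 h1

theorem sd_symm (u v : V) (L : List V) : cy (cr cross s(u, v)) L = cy (cr cross s(v, u)) L := by
  rw [Sym2.eq_swap]

theorem zmod2 (a : ZMod 2) : a = 0 ∨ a = 1 := by
  revert a
  decide

/-- An edge with `sd = 1` crosses an edge of the closed walk. -/
theorem sd_cross {L : List V} {u v : V} (h : cy (cr cross s(u, v)) L ≠ 0) :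
    ∃ e ∈ ce L, cross s(u, v) e := by
  by_contra h1
  push Not at h1
  apply h
  rw [cy_eq]
  refine List.sum_eq_zero fun a ha => ?_
  rw [List.mem_map] at ha
  obtain ⟨e, he, rfl⟩ := ha
  exact cr_zero (h1 e he)

/-- SEP: edges which miss the closed walk and cross each other have ends on the same side. -/
theorem sep_cy (hG : Geo cross) {L : List V} {w w' z z' : V} (hw : w ∉ L) (hz : z ∉ L)
    (hc : cross s(w, w') s(z, z')) (hnd : ∀ e ∈ ce L, ¬ e.IsDiag)
    (h1 : ∀ e ∈ ce L, ¬ cross s(w, w') e) (h2 : ∀ e ∈ ce L, ¬ cross s(z, z') e) :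
    cy (cr cross s(w, z)) L = 0 := by
  obtain ⟨h, hh⟩ := hG.sep w w' z z' hc
  refine cy_tel (h := h) fun y y' hy => ?_
  rw [cr_symm hG]
  have m1 : y ∈ L := mem_ce hy (Sym2.mem_mk_left y y')
  have m2 : y' ∈ L := mem_ce hy (Sym2.mem_mk_right y y')
  exact hh y y' (fun h => hnd _ hy (Sym2.mk_isDiag_iff.2 h)) (fun h => hw (h ▸ m1)) (fun h => hz (h ▸ m1))
    (fun h => hw (h ▸ m2)) (fun h => hz (h ▸ m2)) (fun h => h1 _ hy (hG.symm _ _ h))
    fun h => h2 _ hy (hG.symm _ _ h)

/-- A walk in `F` stays in one part of a separation. -/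
theorem walk_in {W C D : Finset V} {F : Finset (Sym2 V)} (hF : F ⊆ LW W) (hCD : C ∪ D = W)
    (hs : ∀ x ∈ C, ∀ y ∈ D, s(x, y) ∉ F) : ∀ (l : List V) (x : V), x ∈ C →
    (∀ e ∈ we (x :: l), e ∈ F) → ∀ y ∈ l, y ∈ C
  | [], _, _, _ => fun y hy => absurd hy List.not_mem_nil
  | b :: l, x, hx, hl => by
    have h1 : s(x, b) ∈ F := hl _ (by rw [we]; exact List.mem_cons_self)
    have hb : b ∈ C := by
      have h2 := (mem_LW.1 (hF h1)).2.1
      rw [← hCD, mem_union] at h2
      rcases h2 with h2 | h2
      · exact h2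
      · exact absurd h1 (hs x hx b h2)
    intro y hy
    rcases List.mem_cons.1 hy with rfl | hy
    · exact hb
    · exact walk_in hF hCD hs l b hb (fun e he => hl e (by rw [we]; exact List.mem_cons_of_mem _ he)) y hy

end H98M
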