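import Pool.Agent.Lib.H98M.M0

/-!
# H98M, chunk MK: the parity of a plane subdivided K4 and a further vertex
-/

set_option autoImplicit false
set_option linter.unusedSectionVars false

namespace H98M

open Finset H98P H98Z

variable {V : Type*} [Fintype V] [DecidableEq V]

theorem cr_comm {cross : Sym2 V → Sym2 V → Prop} (hG : Geo cross) (e f : Sym2 V) :
    cr cross e f = cr cross f e := by
  by_cases h : cross e f
  · rw [cr_one h, cr_one (hG.symm _ _ h)]
  · rw [cr_zero h, cr_zero fun h1 => h (hG.symm _ _ h1)]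

theorem wk_append (g : Sym2 V → ZMod 2) : ∀ (l : List V) (x y : V) (m : List V),
    wk g (x :: (l ++ y :: m)) = wk g (x :: l) + g s(l.getLastD x, y) + wk g (y :: m)
  | [], x, y, m => by
    rw [List.nil_append, wk, wk, List.getLastD_nil, zero_add]
  | a :: l, x, y, m => by
    have h := wk_append g l a y m
    rw [List.cons_append, wk, h, wk, List.getLastD_cons]
    ring

theorem wk_single (g : Sym2 V → ZMod 2) (x : V) : wk g [x] = 0 := rfl

theorem wk_cons2 (g : Sym2 V → ZMod 2) (x y : V) (l : List V) :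
    wk g (x :: y :: l) = g s(x, y) + wk g (y :: l) := rfl

theorem wk_snoc (g : Sym2 V → ZMod 2) (l : List V) (x y : V) :
    wk g (x :: (l ++ [y])) = wk g (x :: l) + g s(l.getLastD x, y) := by
  rw [wk_append, wk_single, add_zero]

theorem getLastD_append_cons (l m : List V) (x y : V) :
    (l ++ y :: m).getLastD x = m.getLastD y := by
  induction l generalizing x with
  | nil => rw [List.nil_append, List.getLastD_cons]
  | cons a l ih => rw [List.cons_append, List.getLastD_cons, ih]

theorem wk_reverse (g : Sym2 V → ZMod 2) : ∀ l : List V, wk g l.reverse = wk g l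
  | [] => rfl
  | [_] => rfl
  | a :: b :: l => by
    have h := wk_reverse g (b :: l)
    have h1 : (a :: b :: l).reverse = (b :: l).reverse ++ [a] := by
      rw [List.reverse_cons]
    rw [h1]
    obtain ⟨c, m, hm⟩ : ∃ c m, (b :: l).reverse = c :: m := by
      cases hr : (b :: l).reverse with
      | nil => exact absurd hr (by simp)
      | cons c m => exact ⟨c, m, rfl⟩
    rw [hm, List.cons_append, wk_snoc, ← hm, h, wk_cons2]
    have h2 : m.getLastD c = b := by
      have h3 : (b :: l).reverse = l.reverse ++ b :: [] := by rw [List.reverse_cons]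
      have h4 : (c :: m).getLastD a = b := by
        rw [← hm, h3, getLastD_append_cons, List.getLastD_nil]
      rwa [List.getLastD_cons] at h4
    rw [h2, Sym2.eq_swap, add_comm]

theorem wk_add (g h : Sym2 V → ZMod 2) (l : List V) :
    wk (fun e => g e + h e) l = wk g l + wk h l := by
  rw [wk_eq, wk_eq, wk_eq]
  exact List.sum_map_add

theorem wk_zero (g : Sym2 V → ZMod 2) (l : List V) (h : ∀ e ∈ we l, g e = 0) : wk g l = 0 := by
  rw [wk_eq]
  refine List.sum_eq_zero ?_
  intro x hx
  obtain ⟨e, he, rfl⟩ := List.mem_map.mp hx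
  exact h e he

/-- The walk lemma. -/
theorem wk_path (g : Sym2 V → ZMod 2) (S : V → Prop) (h0 : ∀ x, S x → g s(x, x) = 0)
    (h1 : ∀ x y w, S x → S y → S w → g s(x, y) + g s(y, w) = g s(x, w)) :
    ∀ (l : List V) (x : V), S x → (∀ y ∈ l, S y) → wk g (x :: l) = g s(x, l.getLastD x)
  | [], x, hx, _ => by rw [wk_single, List.getLastD_nil, h0 x hx]
  | y :: l, x, hx, hl => by
    have hy : S y := hl y List.mem_cons_self
    have hl' : ∀ z ∈ l, S z := fun z hz => hl z (List.mem_cons_of_mem _ hz)
    have h := wk_path g S h0 h1 l y hy hl'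
    rw [wk_cons2, h, List.getLastD_cons]
    refine h1 x y _ hx hy ?_
    cases l with
    | nil => exact hy
    | cons a l =>
      have h3 : (a :: l).getLastD y ∈ a :: l := by
        rw [List.getLastD_cons]
        exact List.getLastD_mem_cons
      exact hl' _ h3

theorem wk_closed (g : Sym2 V → ZMod 2) (S : V → Prop) (h0 : ∀ x, S x → g s(x, x) = 0)
    (h1 : ∀ x y w, S x → S y → S w → g s(x, y) + g s(y, w) = g s(x, w))
    (l : List V) (x : V) (hx : S x) (hl : ∀ y ∈ l, S y) : cy g (x :: l) = 0 := by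
  rw [cy, wk_path g S h0 h1 (l ++ [x]) x hx, getLastD_append_cons, List.getLastD_nil, h0 x hx]
  intro y hy
  rcases List.mem_append.mp hy with h | h
  · exact hl y h
  · rw [List.mem_singleton] at h
    rw [h]
    exact hx

theorem two_zmod (x : ZMod 2) : x + x = 0 := CharTwo.add_self_eq_zero x

/-- A function which is additive on distinct triples of `S` is additive. -/
theorem add_of_distinct (g : Sym2 V → ZMod 2) (S : V → Prop) (h0 : ∀ x, S x → g s(x, x) = 0)
    (h1 : ∀ x y w, S x → S y → S w → x ≠ y → y ≠ w → x ≠ w →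
      g s(x, y) + g s(y, w) + g s(x, w) = 0) :
    ∀ x y w, S x → S y → S w → g s(x, y) + g s(y, w) = g s(x, w) := by
  intro x y w hx hy hw
  by_cases hxy : x = y
  · subst hxy
    rw [h0 x hx, zero_add]
  · by_cases hyw : y = w
    · subst hyw
      rw [h0 y hy, add_zero]
    · by_cases hxw : x = w
      · subst hxw
        rw [h0 x hx, Sym2.eq_swap (a := y) (b := x)]
        exact two_zmod _
      · have h2 := h1 x y w hx hy hw hxy hyw hxw
        have h3 := two_zmod (g s(x, w))
        linear_combination h2 - h3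

theorem nodup6 {a b c x y z : V} (h1 : a ≠ b) (h2 : b ≠ c) (h3 : a ≠ c) (h4 : x ≠ y)
    (h5 : y ≠ z) (h6 : x ≠ z) (ha : a ≠ x ∧ a ≠ y ∧ a ≠ z) (hb : b ≠ x ∧ b ≠ y ∧ b ≠ z)
    (hc : c ≠ x ∧ c ≠ y ∧ c ≠ z) : [a, b, c, x, y, z].Nodup := by
  simp [h1, h2, h3, h4, h5, h6, ha.1, ha.2.1, ha.2.2, hb.1, hb.2.1, hb.2.2, hc.1, hc.2.1, hc.2.2]

/-- Two disjoint closed walks cross evenly. -/
theorem cy_cy {cross : Sym2 V → Sym2 V → Prop} (hG : Geo cross) (x0 y0 : V) (l m : List V)
    (hd : ∀ x ∈ x0 :: l, x ∉ y0 :: m) :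
    cy (fun e => cy (cr cross e) (y0 :: m)) (x0 :: l) = 0 := by
  refine wk_closed _ (fun x => x ∉ y0 :: m) ?_ ?_ l x0 (hd x0 List.mem_cons_self)
    fun y hy => hd y (List.mem_cons_of_mem _ hy)
  · intro x _
    rw [cy]
    exact wk_zero _ _ fun e _ => cr_zero (hG.loop x e)
  · refine add_of_distinct (fun e => cy (cr cross e) (y0 :: m)) (fun x => x ∉ y0 :: m) ?_ ?_
    · intro x _
      rw [cy]
      exact wk_zero _ _ fun e _ => cr_zero (hG.loop x e)
    · intro a b c ha hb hc hab hbc hac
      have h : cy (fun f => cr cross s(a, b) f + cr cross s(b, c) f + cr cross s(a, c) f)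
          (y0 :: m) = 0 := by
        have hS : ∀ y ∈ y0 :: m, y ≠ a ∧ y ≠ b ∧ y ≠ c := by
          intro y hy
          refine ⟨?_, ?_, ?_⟩
          · rintro rfl
            exact ha hy
          · rintro rfl
            exact hb hy
          · rintro rfl
            exact hc hy
        have hz : ∀ y : V, (fun f => cr cross s(a, b) f + cr cross s(b, c) f +
            cr cross s(a, c) f) s(y, y) = 0 := by
          intro y
          show cr cross s(a, b) s(y, y) + cr cross s(b, c) s(y, y) + cr cross s(a, c) s(y, y) = 0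
          rw [cr_comm hG s(a, b), cr_comm hG s(b, c), cr_comm hG s(a, c),
            cr_zero (hG.loop y _), cr_zero (hG.loop y _), cr_zero (hG.loop y _)]
          ring
        refine wk_closed _ (fun y => y ≠ a ∧ y ≠ b ∧ y ≠ c) (fun y _ => hz y) ?_ m y0
          (hS y0 List.mem_cons_self) fun y hy => hS y (List.mem_cons_of_mem _ hy)
        refine add_of_distinct (fun f => cr cross s(a, b) f + cr cross s(b, c) f +
          cr cross s(a, c) f) (fun y => y ≠ a ∧ y ≠ b ∧ y ≠ c) (fun y _ => hz y) ?_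
        intro x y z hx hy hz' hxy hyz hxz
        have ht := hG.tri a b c x y z (nodup6 hab hbc hac hxy hyz hxz
          ⟨hx.1.symm, hy.1.symm, hz'.1.symm⟩ ⟨hx.2.1.symm, hy.2.1.symm, hz'.2.1.symm⟩
          ⟨hx.2.2.symm, hy.2.2.symm, hz'.2.2.symm⟩)
        show cr cross s(a, b) s(x, y) + cr cross s(b, c) s(x, y) + cr cross s(a, c) s(x, y) +
          (cr cross s(a, b) s(y, z) + cr cross s(b, c) s(y, z) + cr cross s(a, c) s(y, z)) +
          (cr cross s(a, b) s(x, z) + cr cross s(b, c) s(x, z) + cr cross s(a, c) s(x, z)) = 0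
        linear_combination ht
      rw [cy] at h
      rw [wk_add, wk_add] at h
      exact h

theorem we_append : ∀ (l : List V) (x y : V) (m : List V),
    we (x :: (l ++ y :: m)) = we (x :: l) ++ (s(l.getLastD x, y) :: we (y :: m))
  | [], x, y, m => by
    rw [List.nil_append, we, we, List.getLastD_nil, List.nil_append]
  | a :: l, x, y, m => by
    rw [List.cons_append, we, we_append l a y m, we, List.getLastD_cons, List.cons_append]

theorem k4 {cross : Sym2 V → Sym2 V → Prop} (hG : Geo cross) {F : Finset (Sym2 V)}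
    (hp : Plane cross F) {a0 b0 c0 : V} {A B C : List V} (hA : A ≠ [])
    (hn : (a0 :: (A ++ (b0 :: (B ++ (c0 :: C))))).Nodup)
    (hF : ∀ e ∈ we (a0 :: (A ++ (b0 :: (B ++ (c0 :: C))))), e ∈ F)
    (h1 : s(a0, b0) ∈ F) (h2 : s(a0, c0) ∈ F) (h3 : s(A.getLastD a0, C.getLastD c0) ∈ F)
    {z : V} (hz : z ∉ a0 :: (A ++ (b0 :: (B ++ (c0 :: C))))) :
    cy (cr cross s(c0, z)) (a0 :: (A ++ [b0])) +
      cy (cr cross s(b0, z)) (a0 :: (A ++ (c0 :: C).reverse)) +
      cy (cr cross s(A.getLastD a0, z)) (a0 :: b0 :: (B ++ [c0])) +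
      cy (cr cross s(a0, z)) (A.getLastD a0 :: b0 :: (B ++ (c0 :: C))) = 1 := by
  -- names
  set q2 : V := A.getLastD a0 with hq2
  set h : V := C.getLastD c0 with hh
  have hq2A : q2 ∈ A := by
    cases A with
    | nil => exact absurd rfl hA
    | cons a A' =>
      rw [hq2, List.getLastD_cons]
      exact List.getLastD_mem_cons
  have hhC : h ∈ c0 :: C := List.getLastD_mem_cons
  -- disjointness
  have hn' := hn
  rw [List.nodup_cons, List.nodup_append] at hn'
  obtain ⟨ha0, hnA, hn2, hAB⟩ := hn'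
  have hn3 := hn2
  rw [List.nodup_cons, List.nodup_append] at hn3
  obtain ⟨hb0, hnB, hnC, hBC⟩ := hn3
  have hn4 := hnC
  rw [List.nodup_cons] at hn4
  obtain ⟨hc0, hnC'⟩ := hn4
  -- edges in F
  have hF' : ∀ e ∈ we (a0 :: A), e ∈ F := by
    intro e he
    refine hF e ?_
    rw [we_append]
    exact List.mem_append_left _ he
  have hqb : s(q2, b0) ∈ F := by
    refine hF _ ?_
    rw [we_append]
    exact List.mem_append_right _ List.mem_cons_self
  have hF34 : ∀ e ∈ we (b0 :: (B ++ (c0 :: C))), e ∈ F := by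
    intro e he
    refine hF e ?_
    rw [we_append]
    exact List.mem_append_right _ (List.mem_cons_of_mem _ he)
  have hFB : ∀ e ∈ we (b0 :: (B ++ [c0])), e ∈ F := by
    intro e he
    refine hF34 e ?_
    rw [we_append] at he ⊢
    rcases List.mem_append.mp he with h' | h'
    · exact List.mem_append_left _ h'
    · rcases List.mem_cons.mp h' with h'' | h''
      · rw [h'']
        exact List.mem_append_right _ List.mem_cons_self
      · exact absurd h'' (by rw [we]; exact List.not_mem_nil)
  have hFC : ∀ e ∈ we (c0 :: C), e ∈ F := by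
    intro e he
    refine hF34 e ?_
    rw [we_append]
    exact List.mem_append_right _ (List.mem_cons_of_mem _ he)
  have hcr : ∀ e ∈ F, ∀ f ∈ F, cr cross e f = 0 := fun e he f hf => cr_zero (hp e he f hf)
  -- reverse of C
  obtain ⟨D, hD⟩ : ∃ D, (c0 :: C).reverse = h :: D := by
    obtain ⟨c, m, hm⟩ : ∃ c m, (c0 :: C).reverse = c :: m := by
      cases hr : (c0 :: C).reverse with
      | nil => exact absurd hr (by simp)
      | cons c m => exact ⟨c, m, rfl⟩
    refine ⟨m, ?_⟩
    have h5 : (c0 :: C).reverse.reverse = m.reverse ++ c :: [] := by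
      rw [hm, List.reverse_cons]
    rw [List.reverse_reverse] at h5
    have h6 : (c0 :: C).getLastD c0 = c := by
      rw [h5, getLastD_append_cons, List.getLastD_nil]
    rw [List.getLastD_cons] at h6
    rw [hm, hh, h6]
  have hDlast : D.getLastD h = c0 := by
    have h5 : (h :: D).getLastD c0 = c0 := by
      rw [← hD, List.reverse_cons, getLastD_append_cons, List.getLastD_nil]
    rwa [List.getLastD_cons] at h5
  have hwD : ∀ g : Sym2 V → ZMod 2, wk g (h :: D) = wk g (c0 :: C) := by
    intro g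
    rw [← hD, wk_reverse]
  -- the four terms
  have T1 : cy (cr cross s(c0, z)) (a0 :: (A ++ [b0])) =
      wk (cr cross s(c0, z)) (a0 :: A) + cr cross s(c0, z) s(q2, b0) +
        cr cross s(c0, z) s(b0, a0) := by
    have e1 : A ++ [b0] ++ [a0] = A ++ b0 :: [a0] := by
      rw [List.append_assoc]
      rfl
    rw [cy, e1, wk_append, wk_cons2, wk_single]
    ring
  have T2 : cy (cr cross s(b0, z)) (a0 :: (A ++ (c0 :: C).reverse)) =
      wk (cr cross s(b0, z)) (a0 :: A) + cr cross s(b0, z) s(q2, h) +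
        wk (cr cross s(b0, z)) (c0 :: C) + cr cross s(b0, z) s(c0, a0) := by
    have e1 : A ++ (c0 :: C).reverse ++ [a0] = A ++ h :: (D ++ [a0]) := by
      rw [hD, List.append_assoc]
      rfl
    rw [cy, e1, wk_append, wk_snoc, hDlast, hwD]
    ring
  have T3 : cy (cr cross s(q2, z)) (a0 :: b0 :: (B ++ [c0])) =
      cr cross s(q2, z) s(a0, b0) + wk (cr cross s(q2, z)) (b0 :: (B ++ [c0])) +
        cr cross s(q2, z) s(c0, a0) := by
    have e1 : b0 :: (B ++ [c0]) ++ [a0] = b0 :: (B ++ c0 :: [a0]) := by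
      rw [List.cons_append, List.append_assoc]
      rfl
    rw [cy, e1, wk_cons2, wk_append, wk_cons2, wk_single, wk_snoc]
    ring
  have T4 : cy (cr cross s(a0, z)) (q2 :: b0 :: (B ++ (c0 :: C))) =
      cr cross s(a0, z) s(q2, b0) + wk (cr cross s(a0, z)) (b0 :: (B ++ [c0])) +
        wk (cr cross s(a0, z)) (c0 :: C) + cr cross s(a0, z) s(h, q2) := by
    have e1 : b0 :: (B ++ (c0 :: C)) ++ [q2] = b0 :: (B ++ c0 :: (C ++ [q2])) := by
      rw [List.cons_append, List.append_assoc]
      rfl
    rw [cy, e1, wk_cons2, wk_append, wk_snoc, wk_snoc]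
    ring
  -- (1)
  have E1 : cy (fun e => cy (cr cross e) (z :: b0 :: (B ++ [c0]))) (a0 :: A) = 0 := by
    refine cy_cy hG a0 z A (b0 :: (B ++ [c0])) ?_
    intro x hx hx'
    have hx2 : x ∈ b0 :: (B ++ (c0 :: C)) ∨ x = z := by
      rcases List.mem_cons.mp hx' with h' | h'
      · exact Or.inr h'
      · refine Or.inl ?_
        rcases List.mem_cons.mp h' with h'' | h''
        · rw [h'']
          exact List.mem_cons_self
        · refine List.mem_cons_of_mem _ ?_
          rcases List.mem_append.mp h'' with h6 | h6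
          · exact List.mem_append_left _ h6
          · rw [List.mem_singleton] at h6
            rw [h6]
            exact List.mem_append_right _ List.mem_cons_self
    rcases hx2 with h' | h'
    · rcases List.mem_cons.mp hx with h'' | h''
      · rw [h''] at h'
        exact ha0 (List.mem_append_right _ h')
      · exact hAB x h'' x h' rfl
    · rw [h'] at hx
      rcases List.mem_cons.mp hx with h'' | h''
      · exact hz (by rw [h'']; exact List.mem_cons_self)
      · exact hz (List.mem_cons_of_mem _ (List.mem_append_left _ h''))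
  have E1' : wk (cr cross s(b0, z)) (a0 :: A) + wk (cr cross s(c0, z)) (a0 :: A) =
      wk (cr cross s(a0, q2)) (b0 :: (B ++ [c0])) + cr cross s(a0, q2) s(b0, z) +
        cr cross s(a0, q2) s(c0, z) := by
    have hfun : (fun e => cy (cr cross e) (z :: b0 :: (B ++ [c0]))) =
        fun e => cr cross s(b0, z) e + (wk (cr cross e) (b0 :: (B ++ [c0])) +
          cr cross s(c0, z) e) := by
      funext e
      have e1 : b0 :: (B ++ [c0]) ++ [z] = b0 :: (B ++ c0 :: [z]) := by
        rw [List.cons_append, List.append_assoc]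
        rfl
      rw [cy, e1, wk_cons2, wk_append, wk_cons2, wk_single, wk_snoc,
        cr_comm hG s(b0, z) e, cr_comm hG s(c0, z) e, Sym2.eq_swap (a := z) (b := b0)]
      ring
    rw [hfun, cy, wk_snoc, wk_add, wk_add] at E1
    have hmid : wk (fun e => wk (cr cross e) (b0 :: (B ++ [c0]))) (a0 :: A) = 0 := by
      refine wk_zero _ _ ?_
      intro e he
      refine wk_zero _ _ ?_
      intro f hf
      exact hcr e (hF' e he) f (hFB f hf)
    rw [hmid] at E1
    rw [← hq2, Sym2.eq_swap (a := q2) (b := a0)] at E1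
    rw [cr_comm hG s(a0, q2) s(b0, z), cr_comm hG s(a0, q2) s(c0, z)]
    have t1 := two_zmod (wk (cr cross s(a0, q2)) (b0 :: (B ++ [c0])))
    have t2 := two_zmod (cr cross s(b0, z) s(a0, q2))
    have t3 := two_zmod (cr cross s(c0, z) s(a0, q2))
    linear_combination E1 - t1 - t2 - t3
  -- distinctness
  have hza0 : z ≠ a0 := fun h' => hz (by rw [h']; exact List.mem_cons_self)
  have hzA : ∀ x ∈ A, z ≠ x := fun x hx h' =>
    hz (by rw [h']; exact List.mem_cons_of_mem _ (List.mem_append_left _ hx))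
  have hzR : ∀ x ∈ b0 :: (B ++ (c0 :: C)), z ≠ x := fun x hx h' =>
    hz (by rw [h']; exact List.mem_cons_of_mem _ (List.mem_append_right _ hx))
  have ha0A : ∀ x ∈ A, a0 ≠ x := fun x hx h' =>
    ha0 (by rw [h']; exact List.mem_append_left _ hx)
  have ha0R : ∀ x ∈ b0 :: (B ++ (c0 :: C)), a0 ≠ x := fun x hx h' =>
    ha0 (by rw [h']; exact List.mem_append_right _ hx)
  have hAR : ∀ x ∈ A, ∀ y ∈ b0 :: (B ++ (c0 :: C)), x ≠ y := fun x hx y hy => hAB x hx y hy
  have mb0 : b0 ∈ b0 :: (B ++ (c0 :: C)) := List.mem_cons_self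
  have mC : ∀ x ∈ c0 :: C, x ∈ b0 :: (B ++ (c0 :: C)) := fun x hx =>
    List.mem_cons_of_mem _ (List.mem_append_right _ hx)
  have mB : ∀ x ∈ b0 :: (B ++ [c0]), x ∈ b0 :: (B ++ (c0 :: C)) := by
    intro x hx
    rcases List.mem_cons.mp hx with h'' | h''
    · rw [h'']
      exact List.mem_cons_self
    · refine List.mem_cons_of_mem _ ?_
      rcases List.mem_append.mp h'' with h6 | h6
      · exact List.mem_append_left _ h6
      · rw [List.mem_singleton] at h6
        rw [h6]
        exact List.mem_append_right _ List.mem_cons_self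
  have hb0C : ∀ x ∈ c0 :: C, b0 ≠ x := fun x hx h' =>
    hb0 (by rw [h']; exact List.mem_append_right _ hx)
  -- (2)
  have E2 : cy (fun e => cy (cr cross e) (b0 :: (B ++ [c0]))) (a0 :: [q2, z]) = 0 := by
    refine cy_cy hG a0 b0 [q2, z] (B ++ [c0]) ?_
    intro x hx hx'
    have hx2 := mB x hx'
    rcases List.mem_cons.mp hx with h' | h'
    · exact ha0R x hx2 h'.symm
    · rcases List.mem_cons.mp h' with h'' | h''
      · rw [h''] at hx2
        exact hAR q2 hq2A q2 hx2 rfl
      · rw [List.mem_singleton] at h''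
        rw [h''] at hx2
        exact hzR z hx2 rfl
  have E2' : wk (cr cross s(a0, q2)) (b0 :: (B ++ [c0])) +
      wk (cr cross s(q2, z)) (b0 :: (B ++ [c0])) + wk (cr cross s(a0, z)) (b0 :: (B ++ [c0])) =
      cr cross s(b0, c0) s(a0, q2) + cr cross s(b0, c0) s(q2, z) + cr cross s(b0, c0) s(a0, z) := by
    have hfun : (fun e => cy (cr cross e) (b0 :: (B ++ [c0]))) =
        fun e => wk (cr cross e) (b0 :: (B ++ [c0])) + cr cross s(b0, c0) e := by
      funext e
      rw [cy, wk_snoc, getLastD_append_cons, List.getLastD_nil, cr_comm hG s(b0, c0) e,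
        Sym2.eq_swap (a := c0) (b := b0)]
    rw [hfun, cy] at E2
    have e1 : [q2, z] ++ [a0] = [q2, z, a0] := rfl
    rw [e1, wk_cons2, wk_cons2, wk_cons2, wk_single, Sym2.eq_swap (a := z) (b := a0)] at E2
    have t1 := two_zmod (cr cross s(b0, c0) s(a0, q2))
    have t2 := two_zmod (cr cross s(b0, c0) s(q2, z))
    have t3 := two_zmod (cr cross s(b0, c0) s(a0, z))
    linear_combination E2 - t1 - t2 - t3
  -- (3)
  have E3 : cy (fun e => cy (cr cross e) (a0 :: [b0, z])) (q2 :: (c0 :: C).reverse) = 0 := by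
    refine cy_cy hG q2 a0 (c0 :: C).reverse [b0, z] ?_
    intro x hx hx'
    rcases List.mem_cons.mp hx with h' | h'
    · rw [h'] at hx'
      rcases List.mem_cons.mp hx' with h6 | h6
      · exact ha0A q2 hq2A h6.symm
      · rcases List.mem_cons.mp h6 with h7 | h7
        · exact hAR q2 hq2A b0 mb0 h7
        · rw [List.mem_singleton] at h7
          exact hzA q2 hq2A h7.symm
    · rw [List.mem_reverse] at h'
      rcases List.mem_cons.mp hx' with h6 | h6
      · exact ha0R x (mC x h') h6.symm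
      · rcases List.mem_cons.mp h6 with h7 | h7
        · exact hb0C x h' h7.symm
        · rw [List.mem_singleton] at h7
          exact hzR x (mC x h') h7.symm
  have E3' : cr cross s(b0, z) s(q2, h) + wk (cr cross s(b0, z)) (c0 :: C) +
      (cr cross s(a0, z) s(h, q2) + wk (cr cross s(a0, z)) (c0 :: C)) =
      cr cross s(q2, c0) s(a0, b0) + cr cross s(q2, c0) s(b0, z) + cr cross s(q2, c0) s(a0, z) := by
    have hfun : (fun e => cy (cr cross e) (a0 :: [b0, z])) =
        fun e => cr cross s(a0, b0) e + (cr cross s(b0, z) e + cr cross s(a0, z) e) := by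
      funext e
      have e1 : [b0, z] ++ [a0] = [b0, z, a0] := rfl
      rw [cy, e1, wk_cons2, wk_cons2, wk_cons2, wk_single, Sym2.eq_swap (a := z) (b := a0),
        cr_comm hG s(a0, b0) e, cr_comm hG s(b0, z) e, cr_comm hG s(a0, z) e]
      ring
    have e2 : (c0 :: C).reverse ++ [q2] = h :: (D ++ [q2]) := by
      rw [hD, List.cons_append]
    rw [hfun, cy, e2, wk_cons2, wk_snoc, hDlast, hwD, wk_add, wk_add] at E3
    have hmid : wk (cr cross s(a0, b0)) (c0 :: C) = 0 := by
      refine wk_zero _ _ ?_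
      intro e he
      exact hcr _ h1 e (hFC e he)
    have hmid2 : cr cross s(a0, b0) s(q2, h) = 0 := hcr _ h1 _ h3
    rw [hmid, hmid2, Sym2.eq_swap (a := c0) (b := q2)] at E3
    rw [cr_comm hG s(q2, c0) s(a0, b0), cr_comm hG s(q2, c0) s(b0, z),
      cr_comm hG s(q2, c0) s(a0, z), Sym2.eq_swap (a := h) (b := q2)]
    have t1 := two_zmod (cr cross s(a0, b0) s(q2, c0))
    have t2 := two_zmod (cr cross s(b0, z) s(q2, c0))
    have t3 := two_zmod (cr cross s(a0, z) s(q2, c0))
    linear_combination E3 - t1 - t2 - t3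
  -- five points
  have mc0 : c0 ∈ c0 :: C := List.mem_cons_self
  have H5 := hG.five a0 q2 b0 c0 z (by
    have i1 : a0 ≠ q2 := ha0A q2 hq2A
    have i2 : a0 ≠ b0 := ha0R b0 mb0
    have i3 : a0 ≠ c0 := ha0R c0 (mC c0 mc0)
    have i4 : a0 ≠ z := hza0.symm
    have i5 : q2 ≠ b0 := hAR q2 hq2A b0 mb0
    have i6 : q2 ≠ c0 := hAR q2 hq2A c0 (mC c0 mc0)
    have i7 : q2 ≠ z := (hzA q2 hq2A).symm
    have i8 : b0 ≠ c0 := hb0C c0 mc0
    have i9 : b0 ≠ z := (hzR b0 mb0).symm
    have i10 : c0 ≠ z := (hzR c0 (mC c0 mc0)).symm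
    simp [i1, i2, i3, i4, i5, i6, i7, i8, i9, i10])
  have H0 : cr cross s(a0, c0) s(q2, b0) = 0 := hcr _ h2 _ hqb
  rw [T1, T2, T3, T4]
  rw [Sym2.eq_swap (a := b0) (b := a0), Sym2.eq_swap (a := c0) (b := a0)]
  rw [H0] at H5
  rw [cr_comm hG s(c0, z) s(q2, b0), cr_comm hG s(c0, z) s(a0, b0),
    cr_comm hG s(b0, z) s(a0, c0), cr_comm hG s(q2, z) s(a0, b0), cr_comm hG s(q2, z) s(a0, c0),
    cr_comm hG s(a0, z) s(q2, b0)]
  rw [cr_comm hG s(b0, c0) s(a0, q2)] at E2'
  rw [cr_comm hG s(q2, c0) s(a0, b0)] at E3'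
  linear_combination E1' + E2' + E3' + H5

end H98M
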