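import Pool.Agent.Lib.H98M.MC0

/-!
# H98M, chunk MC: a cycle of `F` with vertices on both sides

PROOF. `sd u v := cy (cr cross s(u, v)) L` (for `u, v` not in `L`).
(2) WLOG (exchange `x`, `y`): let `(C, D)` be the separation of `W`, `L ⊆ C`, `d ∈ D`, `sd d x = 0`.
`Out := {w ∈ W, w ∉ L, sd w x = 1}` (contains `y`), `W' := W \ Out`, `F' := F.filter (e ∈ LW W')`.
(3) `chords`: for `Y` plane, `Y ⊆ LW L`, the edges of `Un cross W' (F' ∪ Y)` which are not in `LW L` form an
acyclic complex. (4) `split_mpr`.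
-/

set_option autoImplicit false
set_option linter.unusedSectionVars false

namespace H98M

open Finset H98P H98Z

variable {V : Type*} [Fintype V] [DecidableEq V]

/-- (3) -/
theorem chords {cross : Sym2 V → Sym2 V → Prop} (hsymm : ∀ e f, cross e f → cross f e)
    {W C D Z : Finset V} {F : Finset (Sym2 V)} (hF : F ⊆ LW W) (hH : HD cross W)
    (hC : C.Nonempty) (hD : D.Nonempty) (hCD : Disjoint C D) (hCDW : C ∪ D = W)
    (hs : ∀ x ∈ C, ∀ y ∈ D, s(x, y) ∉ F) (hZ : Z ⊆ C) :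
    ∀ (k : ℕ) (Y : Finset (Sym2 V)), (LW Z \ Y).card = k → Y ⊆ LW Z → Plane cross (F ∪ Y) →
      Acy cross ((Un cross W (F ∪ Y)).filter fun e => e ∉ LW Z) := by
  have hZW : Z ⊆ W := by
    rw [← hCDW]
    exact hZ.trans subset_union_left
  intro k
  induction k using Nat.strong_induction_on with
  | _ k ih =>
    intro Y hk hY hp
    have hU : (Un cross W (F ∪ Y)).filter (fun e => e ∉ LW Z) ∪
        (Un cross W (F ∪ Y)).filter (fun e => e ∈ LW Z) = Un cross W (F ∪ Y) := by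
      rw [union_comm]
      exact filter_union_filter_not_eq _ _
    have hA : Acy cross (Un cross W (F ∪ Y)) := by
      refine hH _ (union_subset hF (hY.trans (LW_mono hZW))) hp ⟨C, D, hC, hD, hCD, hCDW, ?_⟩
      intro x hx y hy h
      rcases mem_union.1 h with h1 | h1
      · exact hs x hx y hy h1
      · exact disjoint_left.1 hCD (hZ (mem_LW.1 (hY h1)).2.1) hy
    rw [← hU] at hA
    refine split_mp hsymm ?_ (fun Y' hY' hn hp' => ?_) hA
    · rw [disjoint_left]
      intro e h1 h2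
      exact (mem_filter.1 h1).2 (mem_filter.1 h2).2
    · have hm : ∀ e ∈ Y', e ∈ Un cross W (F ∪ Y) ∧ e ∈ LW Z := fun e he => mem_filter.1 (hY' he)
      have hpl : Plane cross (F ∪ (Y ∪ Y')) := by
        rw [← union_assoc]
        exact plane_un hsymm hp hp' fun e he f hf h => (mem_un.1 (hm f hf).1).2.1 e he (hsymm _ _ h)
      have hYY : Y ∪ Y' ⊆ LW Z := union_subset hY fun e he => (hm e he).2
      have heq : Miss cross ((Un cross W (F ∪ Y)).filter fun e => e ∉ LW Z) Y' =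
          (Un cross W (F ∪ (Y ∪ Y'))).filter fun e => e ∉ LW Z := by
        ext e
        rw [mem_miss, mem_filter, mem_filter, mem_un, mem_un]
        constructor
        · rintro ⟨⟨⟨h1, h2, h3⟩, h4⟩, h5⟩
          refine ⟨⟨h1, fun f hf => ?_, fun h => ?_⟩, h4⟩
          · rw [mem_union, mem_union] at hf
            rcases hf with hf | hf | hf
            · exact h2 f (mem_union_left _ hf)
            · exact h2 f (mem_union_right _ hf)
            · exact h5 f hf
          · rw [mem_union] at h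
            rcases h with h | h
            · exact h3 (mem_union_left _ h)
            · exact h4 (hYY h)
        · rintro ⟨⟨h1, h2, h3⟩, h4⟩
          refine ⟨⟨⟨h1, fun f hf => ?_, fun h => ?_⟩, h4⟩, fun f hf => ?_⟩
          · rw [mem_union] at hf
            rcases hf with hf | hf
            · exact h2 f (mem_union_left _ hf)
            · exact h2 f (mem_union_right _ (mem_union_left _ hf))
          · rw [mem_union] at h
            rcases h with h | h
            · exact h3 (mem_union_left _ h)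
            · exact h4 (hY h)
          · exact h2 f (mem_union_right _ (mem_union_right _ hf))
      rw [heq]
      refine ih _ ?_ (Y ∪ Y') rfl hYY hpl
      rw [← hk]
      refine card_lt_card ⟨sdiff_subset_sdiff (le_refl _) subset_union_left, fun h => ?_⟩
      obtain ⟨e, he⟩ := hn
      have h1 : e ∈ LW Z \ Y := mem_sdiff.2 ⟨(hm e he).2, fun h2 =>
        (mem_un.1 (hm e he).1).2.2 (mem_union_right _ h2)⟩
      exact (mem_sdiff.1 (h h1)).2 (mem_union_right _ he)

/-- (2)-(4) -/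
theorem cyc_aux {cross : Sym2 V → Sym2 V → Prop} (hG : Geo cross) {W : Finset V}
    {F : Finset (Sym2 V)} (hF : F ⊆ LW W) (hp : Plane cross F) {C D : Finset V}
    (hCD : Disjoint C D) (hCDW : C ∪ D = W)
    (hs : ∀ x ∈ C, ∀ y ∈ D, s(x, y) ∉ F) {L : List V}
    (hLC : ∀ a ∈ L, a ∈ C) (hL0 : L ≠ []) (hLF : ∀ e ∈ ce L, e ∈ F) {x y d : V} (hx : x ∈ W)
    (hy : y ∈ W) (hxL : x ∉ L) (hyL : y ∉ L) (hsd : cy (cr cross s(y, x)) L = 1) (hd : d ∈ D)
    (hdx : cy (cr cross s(d, x)) L = 0) (ih : ∀ W' : Finset V, W' ⊂ W → HD cross W') :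
    Acy cross (Un cross W F) := by
  have hdL : d ∉ L := fun h => disjoint_left.1 hCD (hLC d h) hd
  have hCW : C ⊆ W := by
    rw [← hCDW]
    exact subset_union_left
  have hDW : D ⊆ W := by
    rw [← hCDW]
    exact subset_union_right
  have hnd : ∀ e ∈ ce L, ¬ e.IsDiag := by
    intro e he
    have h1 := hF (hLF e he)
    induction e with
    | _ a b =>
      rw [Sym2.mk_isDiag_iff]
      exact (mem_LW.1 h1).2.2
  obtain ⟨Out, hOut⟩ : ∃ Out : Finset V, ∀ w, w ∈ Out ↔ w ∈ W ∧ w ∉ L ∧ cy (cr cross s(w, x)) L ≠ 0 :=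
    ⟨W.filter fun w => w ∉ L ∧ cy (cr cross s(w, x)) L ≠ 0, fun w => mem_filter⟩
  obtain ⟨W', hW'⟩ : ∃ W' : Finset V, W' = W \ Out := ⟨_, rfl⟩
  have hmW' : ∀ w, w ∈ W' ↔ w ∈ W ∧ w ∉ Out := fun w => by rw [hW', mem_sdiff]
  have hW'W : W' ⊆ W := fun w hw => ((hmW' w).1 hw).1
  have hyO : y ∈ Out := (hOut y).2 ⟨hy, hyL, by rw [hsd]; exact one_ne_zero⟩
  have hssub : W' ⊂ W := ⟨hW'W, fun h => ((hmW' y).1 (h hy)).2 hyO⟩
  have hdW' : d ∈ W' := (hmW' d).2 ⟨hDW hd, fun h => ((hOut d).1 h).2.2 hdx⟩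
  have hLW' : ∀ a ∈ L, a ∈ W' := fun a ha => (hmW' a).2 ⟨hCW (hLC a ha), fun h => ((hOut a).1 h).2.1 ha⟩
  obtain ⟨F', hF'⟩ : ∃ F' : Finset (Sym2 V), ∀ e, e ∈ F' ↔ e ∈ F ∧ e ∈ LW W' :=
    ⟨F.filter fun e => e ∈ LW W', fun e => mem_filter⟩
  obtain ⟨Z, hZ⟩ : ∃ Z : Finset V, ∀ a, a ∈ Z ↔ a ∈ L := ⟨L.toFinset, fun a => List.mem_toFinset⟩
  have hceF' : ∀ e ∈ ce L, e ∈ F' := by
    intro e he
    refine (hF' e).2 ⟨hLF e he, ?_⟩
    have h1 := hnd e he
    induction e with
    | _ a b =>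
      rw [mem_LW]
      exact ⟨hLW' a (mem_ce he (Sym2.mem_mk_left a b)), hLW' b (mem_ce he (Sym2.mem_mk_right a b)),
        fun h => h1 (Sym2.mk_isDiag_iff.2 h)⟩
  -- the inner complexes
  have inner : ∀ Y : Finset (Sym2 V), Y ⊆ LW Z → Plane cross (F' ∪ Y) →
      Acy cross ((Un cross W' (F' ∪ Y)).filter fun e => e ∉ LW Z) := by
    intro Y hY hpY
    obtain ⟨a, l, hal⟩ : ∃ a l, L = a :: l := by
      cases L with
      | nil => exact absurd rfl hL0
      | cons a l => exact ⟨a, l, rfl⟩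
    have haL : a ∈ L := by rw [hal]; exact List.mem_cons_self
    refine chords hG.symm (C := C ∩ W') (D := D ∩ W') (fun e he => ((hF' e).1 he).2)
      (ih W' hssub) ⟨a, mem_inter.2 ⟨hLC a haL, hLW' a haL⟩⟩ ⟨d, mem_inter.2 ⟨hd, hdW'⟩⟩ ?_ ?_ ?_ ?_
      _ Y rfl hY hpY
    · exact disjoint_of_subset_left inter_subset_left (disjoint_of_subset_right inter_subset_left hCD)
    · rw [← union_inter_distrib_right, hCDW]
      exact inter_eq_right.2 hW'W
    · intro u hu v hv h
      exact hs u (mem_inter.1 hu).1 v (mem_inter.1 hv).1 ((hF' _).1 h).1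
    · intro u hu
      rw [hZ] at hu
      exact mem_inter.2 ⟨hLC u hu, hLW' u hu⟩
  -- an edge with an end inside and an edge with an end outside do not cross
  have hsep : ∀ p q r t : V, p ∈ W' → p ∉ L → r ∈ Out → (∀ e ∈ ce L, ¬ cross s(p, q) e) →
      (∀ e ∈ ce L, ¬ cross s(r, t) e) → ¬ cross s(p, q) s(r, t) := by
    intro p q r t hpW hpL hr h1 h2 hc
    obtain ⟨_, hrL, hrx⟩ := (hOut r).1 hr
    have h3 := sep_cy hG hpL hrL hc hnd h1 h2
    have h4 : cy (cr cross s(p, x)) L = 0 := by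
      by_contra h5
      exact ((hmW' p).1 hpW).2 ((hOut p).2 ⟨hW'W hpW, hpL, h5⟩)
    have h5 := sd_add hG hrL hpL hxL
    rw [sd_symm r p, h3, h4, add_zero] at h5
    exact hrx h5.symm
  -- both ends of an edge with an end inside which misses the cycle are in `W'`
  have hend : ∀ p q : V, p ∈ W' → p ∉ L → q ∈ W → (∀ e ∈ ce L, ¬ cross s(p, q) e) → q ∈ W' := by
    intro p q hpW hpL hq h1
    refine (hmW' q).2 ⟨hq, fun h2 => ?_⟩
    obtain ⟨_, hqL, hqx⟩ := (hOut q).1 h2
    have h4 : cy (cr cross s(p, x)) L = 0 := by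
      by_contra h5
      exact ((hmW' p).1 hpW).2 ((hOut p).2 ⟨hW'W hpW, hpL, h5⟩)
    have h5 := sd_add hG hqL hpL hxL
    rw [h4, add_zero] at h5
    have h6 : cy (cr cross s(q, p)) L ≠ 0 := by
      rw [h5]
      exact hqx
    rw [sd_symm] at h6
    obtain ⟨e, he, h7⟩ := sd_cross h6
    exact h1 e he h7
  -- the split
  obtain ⟨S, hS⟩ : ∃ S : Finset (Sym2 V), ∀ e, e ∈ S ↔ e ∈ Un cross W F ∧ e ∈ LW W' ∧ e ∉ LW Z :=
    ⟨(Un cross W F).filter fun e => e ∈ LW W' ∧ e ∉ LW Z, fun e => mem_filter⟩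
  have hSU : S ∪ (Un cross W F \ S) = Un cross W F := by
    rw [union_sdiff_self_eq_union]
    exact union_eq_right.2 fun e he => ((hS e).1 he).1
  have hpt : ∀ e ∈ LW W', e ∉ LW Z → ∃ p q, e = s(p, q) ∧ p ∈ W' ∧ q ∈ W' ∧ p ∉ L := by
    intro e he hez
    induction e with
    | _ a b =>
      rw [mem_LW] at he
      by_cases ha : a ∈ L
      · by_cases hb : b ∈ L
        · exact absurd (mem_LW.2 ⟨(hZ a).2 ha, (hZ b).2 hb, he.2.2⟩) hez
        · exact ⟨b, a, Sym2.eq_swap, he.2.1, he.1, hb⟩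
      · exact ⟨a, b, rfl, he.1, he.2.1, ha⟩
  have hmain : ∀ Y : Finset (Sym2 V), Y ⊆ Un cross W F \ S → Plane cross Y →
      Acy cross (Miss cross S Y) := by
    intro Y hY hYp
    obtain ⟨Yz, hYz⟩ : ∃ Yz : Finset (Sym2 V), ∀ e, e ∈ Yz ↔ e ∈ Y ∧ e ∈ LW Z :=
      ⟨Y.filter fun e => e ∈ LW Z, fun e => mem_filter⟩
    have hYU : ∀ e ∈ Y, e ∈ Un cross W F ∧ e ∉ S := fun e he => mem_sdiff.1 (hY he)
    have heq : Miss cross S Y = (Un cross W' (F' ∪ Yz)).filter fun e => e ∉ LW Z := by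
      ext e
      rw [mem_miss, hS, mem_filter, mem_un (F := F' ∪ Yz)]
      constructor
      · rintro ⟨⟨h1, h2, h3⟩, h4⟩
        obtain ⟨h5, h6, h7⟩ := mem_un.1 h1
        refine ⟨⟨h2, fun f hf => ?_, fun h => ?_⟩, h3⟩
        · rcases mem_union.1 hf with hf | hf
          · exact h6 f ((hF' f).1 hf).1
          · exact h4 f ((hYz f).1 hf).1
        · rcases mem_union.1 h with h | h
          · exact h7 ((hF' e).1 h).1
          · exact h3 ((hYz e).1 h).2
      · rintro ⟨⟨h1, h2, h3⟩, h4⟩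
        obtain ⟨p, q, rfl, hpW, hqW, hpL⟩ := hpt e h1 h4
        have hce : ∀ f ∈ ce L, ¬ cross s(p, q) f := fun f hf => h2 f (mem_union_left _ (hceF' f hf))
        have hout : ∀ f : Sym2 V, f ∈ LW W → f ∉ LW W' → (∀ g ∈ ce L, ¬ cross f g) →
            ¬ cross s(p, q) f := by
          intro f hf hf' hfL
          induction f with
          | _ a b =>
            rw [mem_LW] at hf hf'
            by_cases ha : a ∈ Out
            · exact hsep p q a b hpW hpL ha hce hfL
            · by_cases hb : b ∈ Out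
              · rw [Sym2.eq_swap (a := a)] at hfL ⊢
                exact hsep p q b a hpW hpL hb hce hfL
              · exact absurd ⟨(hmW' a).2 ⟨hf.1, ha⟩, (hmW' b).2 ⟨hf.2.1, hb⟩, hf.2.2⟩ hf'
        have hU : s(p, q) ∈ Un cross W F := by
          rw [mem_un]
          refine ⟨LW_mono hW'W h1, fun f hf => ?_, fun h => ?_⟩
          · by_cases hf' : f ∈ LW W'
            · exact h2 f (mem_union_left _ ((hF' f).2 ⟨hf, hf'⟩))
            · exact hout f (hF hf) hf' fun g hg => hp f hf g (hLF g hg)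
          · exact h3 (mem_union_left _ ((hF' _).2 ⟨h, h1⟩))
        refine ⟨⟨hU, h1, h4⟩, fun f hf => ?_⟩
        obtain ⟨h5, h6⟩ := hYU f hf
        obtain ⟨h7, h8, h9⟩ := mem_un.1 h5
        by_cases hfZ : f ∈ LW Z
        · exact h2 f (mem_union_right _ ((hYz f).2 ⟨hf, hfZ⟩))
        · refine hout f h7 (fun h => h6 ((hS f).2 ⟨h5, h, hfZ⟩)) fun g hg => h8 g (hLF g hg)
    rw [heq]
    refine inner Yz (fun e he => ((hYz e).1 he).2) ?_
    refine plane_un hG.symm (plane_sub (fun e he => ((hF' e).1 he).1) hp)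
      (plane_sub (fun e he => ((hYz e).1 he).1) hYp) fun e he f hf h => ?_
    exact (mem_un.1 (hYU f ((hYz f).1 hf).1).1).2.1 e ((hF' e).1 he).1 (hG.symm _ _ h)
  rw [← hSU]
  refine split_mpr hG.symm disjoint_sdiff (fun Y hY _ hYp => hmain Y hY hYp) ?_
  have h0 := hmain ∅ (empty_subset _) fun e he => absurd he (notMem_empty e)
  have h1 : Miss cross S ∅ = S := by
    ext e
    rw [mem_miss]
    exact ⟨fun h => h.1, fun h => ⟨h, fun f hf => absurd hf (notMem_empty f)⟩⟩
  rw [h1] at h0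
  exact h0

theorem cyc {cross : Sym2 V → Sym2 V → Prop} (hG : Geo cross) {W : Finset V}
    {F : Finset (Sym2 V)} (hF : F ⊆ LW W) (hp : Plane cross F) (hD : Disc W F) {L : List V}
    (hLF : ∀ e ∈ ce L, e ∈ F) {x y : V} (hx : x ∈ W) (hy : y ∈ W) (hxL : x ∉ L)
    (hyL : y ∉ L) (hs : cy (cr cross s(x, y)) L = 1) (ih : ∀ W' : Finset V, W' ⊂ W → HD cross W') :
    Acy cross (Un cross W F) := by
  obtain ⟨C, D, hC, hD, hCD, hCDW, hsep⟩ := hD
  have main : ∀ C D : Finset V, D.Nonempty → Disjoint C D → C ∪ D = W →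
      (∀ u ∈ C, ∀ v ∈ D, s(u, v) ∉ F) → (∀ a ∈ L, a ∈ C) → L ≠ [] → Acy cross (Un cross W F) := by
    intro C D hD hCD hCDW hsep hLC hL0
    obtain ⟨d, hd⟩ := hD
    have hdL : d ∉ L := fun h => disjoint_left.1 hCD (hLC d h) hd
    rcases zmod2 (cy (cr cross s(d, x)) L) with h1 | h1
    · exact cyc_aux hG hF hp hCD hCDW hsep hLC hL0 hLF hx hy hxL hyL (by rw [sd_symm]; exact hs) hd
        h1 ih
    · refine cyc_aux hG hF hp hCD hCDW hsep hLC hL0 hLF hy hx hyL hxL hs hd ?_ ih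
      rw [← sd_add hG hdL hxL hyL, h1, hs]
      exact CharTwo.add_self_eq_zero 1
  have hL0 : L ≠ [] := by
    rintro rfl
    exact zero_ne_one hs
  cases L with
  | nil => exact absurd rfl hL0
  | cons a l =>
    have h1 : ∀ e ∈ we (a :: (l ++ [a])), e ∈ F := hLF
    have haW : a ∈ W := by
      cases l with
      | nil =>
        have h2 := hF (h1 s(a, a) (by rw [List.nil_append, we]; exact List.mem_cons_self))
        exact (mem_LW.1 h2).1
      | cons b l =>
        have h2 := hF (h1 s(a, b) (by rw [List.cons_append, we]; exact List.mem_cons_self))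
        exact (mem_LW.1 h2).1
    rw [← hCDW, mem_union] at haW
    rcases haW with haC | haD
    · refine main C D hD hCD hCDW hsep (fun b hb => ?_) hL0
      rcases List.mem_cons.1 hb with rfl | hb
      · exact haC
      · exact walk_in hF hCDW hsep _ a haC h1 b (List.mem_append_left _ hb)
    · have hDC : D ∪ C = W := by rw [union_comm]; exact hCDW
      have hsep' : ∀ u ∈ D, ∀ v ∈ C, s(u, v) ∉ F := fun u hu v hv => by
        rw [Sym2.eq_swap]
        exact hsep v hv u hu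
      refine main D C hC hCD.symm hDC hsep' (fun b hb => ?_) hL0
      rcases List.mem_cons.1 hb with rfl | hb
      · exact haD
      · exact walk_in hF hDC hsep' _ a haD h1 b (List.mem_append_left _ hb)

end H98M
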