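import Pool.Agent.Lib.H98M.M0

/-!
# H98M, chunk MD: Dirac's longest path argument

PROOF. Call `P : List V` a path if it is nodup, its vertices are in `W` and all edges of `we P` are in
`F`. Let `N` be the maximal length of a path (bounded by `Fintype.card V`). For a path `P = p 0, .., p k`
of length `N` all `F`-neighbours of `p 0` are on `P` (else a longer path). Let `j P` be the largest index
of a neighbour of `p 0`. Take `P` of length `N` with `j = j P` minimal. The vertex `p 0` has three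
neighbours, so there is one with index `i`, `2 <= i < j`. The rotated list
`p (i-1), .., p 0, p i, .., p k` (`A.reverse ++ rest`, edge `p 0 p i`) is again a path of length `N`, so
its first vertex `p (i-1)` has a neighbour with index `>= j` (positions `>= i` are unchanged), that is
`p l` with `l >= j`. Put `a0 = p 0`, `A = p 1, .., p (i-1)`, `b0 = p i`, `B = p (i+1), .., p (j-1)`,
`c0 = p j`, `C = p (j+1), .., p l`, and forget the rest of the path.
-/

set_option autoImplicit false
set_option linter.unusedSectionVars false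

namespace H98M

open Finset H98P H98Z

variable {V : Type*} [Fintype V] [DecidableEq V]

private theorem md_we {F : Finset (Sym2 V)} : ∀ l : List V,
    (∀ e ∈ we l, e ∈ F) ↔ l.IsChain (fun a b => s(a, b) ∈ F)
  | [] => by simp [we]
  | [_] => by simp [we]
  | a :: b :: l => by
    rw [we, List.forall_mem_cons, md_we (b :: l), List.isChain_cons_cons]

private theorem md_last {α : Type*} (p : α → Prop) (l : List α) (h : ∃ x ∈ l, p x) :
    ∃ (M : List α) (c : α) (R : List α), l = M ++ c :: R ∧ p c ∧ ∀ y ∈ R, ¬ p y := by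
  induction l with
  | nil => simp at h
  | cons a l ih =>
    by_cases h1 : ∃ x ∈ l, p x
    · obtain ⟨M, c, R, h2, h3, h4⟩ := ih h1
      exact ⟨a :: M, c, R, by rw [h2, List.cons_append], h3, h4⟩
    · obtain ⟨x, hx, hpx⟩ := h
      rw [List.mem_cons] at hx
      rcases hx with rfl | hx
      · exact ⟨[], x, l, rfl, hpx, fun y hy hp => h1 ⟨y, hy, hp⟩⟩
      · exact absurd ⟨x, hx, hpx⟩ h1

/-- A path. -/
private def MdP (W : Finset V) (F : Finset (Sym2 V)) (P : List V) : Prop :=
  P.Nodup ∧ P.IsChain (fun a b => s(a, b) ∈ F) ∧ ∀ x ∈ P, x ∈ W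

private theorem md_nbr {W : Finset V} {F : Finset (Sym2 V)} (hF : F ⊆ LW W) {x y : V}
    (h : s(x, y) ∈ F) : x ≠ y ∧ y ∈ W := by
  have h1 := hF h
  unfold LW at h1
  rw [Finset.mem_filter, Finset.mem_sym2_iff] at h1
  refine ⟨?_, h1.1 y (by simp)⟩
  intro hxy
  exact h1.2 (by rw [hxy]; exact Sym2.mk_isDiag_iff.2 rfl)

/-- In a longest path all neighbours of the first vertex are on the path. -/
private theorem md_max {W : Finset V} {F : Finset (Sym2 V)} (hF : F ⊆ LW W) {N : ℕ}
    (hN : ∀ P, MdP W F P → P.length ≤ N) {p : V} {L : List V} (hP : MdP W F (p :: L))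
    (hl : (p :: L).length = N) {y : V} (hy : s(p, y) ∈ F) : y ∈ L := by
  obtain ⟨h1, h2⟩ := md_nbr hF hy
  by_contra hc
  have h3 : MdP W F (y :: p :: L) := by
    refine ⟨?_, ?_, ?_⟩
    · rw [List.nodup_cons]
      refine ⟨?_, hP.1⟩
      rw [List.mem_cons, not_or]
      exact ⟨fun h => h1 h.symm, hc⟩
    · rw [List.isChain_cons_cons]
      refine ⟨?_, hP.2.1⟩
      rw [Sym2.eq_swap]; exact hy
    · intro x hx
      rw [List.mem_cons] at hx
      rcases hx with rfl | hx
      · exact h2
      · exact hP.2.2 x hx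
  have h4 := hN _ h3
  rw [List.length_cons, hl] at h4
  omega

theorem dirac {W : Finset V} {F : Finset (Sym2 V)} (hF : F ⊆ LW W) (hW : W.Nonempty)
    (hdeg : ∀ x ∈ W, ∃ a b c, a ≠ b ∧ b ≠ c ∧ a ≠ c ∧ s(x, a) ∈ F ∧ s(x, b) ∈ F ∧ s(x, c) ∈ F) :
    ∃ (a0 b0 c0 : V) (A B C : List V), A ≠ [] ∧
      (a0 :: (A ++ (b0 :: (B ++ (c0 :: C))))).Nodup ∧
      (∀ e ∈ we (a0 :: (A ++ (b0 :: (B ++ (c0 :: C))))), e ∈ F) ∧
      (∀ x ∈ a0 :: (A ++ (b0 :: (B ++ (c0 :: C)))), x ∈ W) ∧
      s(a0, b0) ∈ F ∧ s(a0, c0) ∈ F ∧ s(A.getLastD a0, C.getLastD c0) ∈ F := by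
  classical
  -- the maximal length
  obtain ⟨w, hw⟩ := hW
  have hne : ∃ n, ∃ P, MdP W F P ∧ Fintype.card V - P.length = n :=
    ⟨_, [w], ⟨by simp, by simp, by simpa using hw⟩, rfl⟩
  obtain ⟨P0, hP0, hP0n⟩ := Nat.find_spec hne
  have hle : ∀ P, MdP W F P → P.length ≤ P0.length := by
    intro P hP
    have h1 := Nat.find_min' hne ⟨P, hP, rfl⟩
    rw [← hP0n] at h1
    have h2 := hP.1.length_le_card
    have h3 := hP0.1.length_le_card
    omega
  set N := P0.length with hNdef
  have hN1 : 1 ≤ N := by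
    have := hle [w] ⟨by simp, by simp, by simpa using hw⟩
    simpa using this
  -- decompositions
  have hdec : ∀ (p : V) (L : List V), MdP W F (p :: L) → (p :: L).length = N →
      ∃ (M : List V) (c : V) (R : List V), L = M ++ c :: R ∧ s(p, c) ∈ F ∧
        ∀ y ∈ R, s(p, y) ∉ F := by
    intro p L hP hl
    obtain ⟨a, b, c, -, -, -, ha, -, -⟩ := hdeg p (hP.2.2 p (by simp))
    exact md_last (fun y => s(p, y) ∈ F) L ⟨a, md_max hF hle hP hl ha, ha⟩
  have hex : ∃ n, ∃ (p : V) (M : List V) (c : V) (R : List V), M.length = n ∧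
      MdP W F (p :: (M ++ c :: R)) ∧ (p :: (M ++ c :: R)).length = N ∧ s(p, c) ∈ F ∧
        ∀ y ∈ R, s(p, y) ∉ F := by
    obtain ⟨p, L, hpL⟩ : ∃ p L, P0 = p :: L := by
      cases hh : P0 with
      | nil => rw [hh] at hNdef; simp at hNdef; omega
      | cons p L => exact ⟨p, L, rfl⟩
    rw [hpL] at hP0 hNdef
    obtain ⟨M, c, R, h1, h2, h3⟩ := hdec p L hP0 hNdef.symm
    subst h1
    exact ⟨M.length, p, M, c, R, rfl, hP0, hNdef.symm, h2, h3⟩
  obtain ⟨p, M, c0, R, hMn, hP, hPl, hpc, hR⟩ := Nat.find_spec hex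
  have hmin : ∀ (p' : V) (M' : List V) (c' : V) (R' : List V),
      MdP W F (p' :: (M' ++ c' :: R')) → (p' :: (M' ++ c' :: R')).length = N → s(p', c') ∈ F →
        (∀ y ∈ R', s(p', y) ∉ F) → M.length ≤ M'.length := by
    intro p' M' c' R' h1 h2 h3 h4
    rw [hMn]
    exact Nat.find_min' hex ⟨p', M', c', R', rfl, h1, h2, h3, h4⟩
  -- a neighbour b0 in M which is not the head of M
  have hb : ∃ (A : List V) (b0 : V) (B : List V), A ≠ [] ∧ M = A ++ b0 :: B ∧ s(p, b0) ∈ F := by
    obtain ⟨x, y, z, hxy, hyz, hxz, hx, hy, hz⟩ := hdeg p (hP.2.2 p (by simp))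
    have key : ∀ v, s(p, v) ∈ F → v = c0 ∨ v ∈ M := by
      intro v hv
      have h1 := md_max hF hle hP hPl hv
      rw [List.mem_append, List.mem_cons] at h1
      rcases h1 with h1 | h1 | h1
      · exact Or.inr h1
      · exact Or.inl h1
      · exact absurd hv (hR v h1)
    have two : ∃ u v, u ≠ v ∧ u ∈ M ∧ v ∈ M ∧ s(p, u) ∈ F ∧ s(p, v) ∈ F := by
      rcases key x hx with h1 | h1
      · rcases key y hy with h2 | h2
        · exact absurd (h1.trans h2.symm) hxy
        · rcases key z hz with h3 | h3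
          · exact absurd (h1.trans h3.symm) hxz
          · exact ⟨y, z, hyz, h2, h3, hy, hz⟩
      · rcases key y hy with h2 | h2
        · rcases key z hz with h3 | h3
          · exact absurd (h2.trans h3.symm) hyz
          · exact ⟨x, z, hxz, h1, h3, hx, hz⟩
        · exact ⟨x, y, hxy, h1, h2, hx, hy⟩
    obtain ⟨u, v, huv, hu, hv, hu', hv'⟩ := two
    cases hM : M with
    | nil => rw [hM] at hu; simp at hu
    | cons m M1 =>
      rw [hM] at hu hv
      have : ∃ t ∈ M1, s(p, t) ∈ F := by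
        rw [List.mem_cons] at hu hv
        rcases hu with hu | hu
        · rcases hv with hv | hv
          · exact absurd (hu.trans hv.symm) huv
          · exact ⟨v, hv, hv'⟩
        · exact ⟨u, hu, hu'⟩
      obtain ⟨t, ht, ht'⟩ := this
      obtain ⟨s1, s2, hs⟩ := List.append_of_mem ht
      exact ⟨m :: s1, t, s2, by simp, by rw [hs, List.cons_append], ht'⟩
  obtain ⟨A, b0, B, hA, hM, hpb⟩ := hb
  obtain ⟨A', f, hAf⟩ : ∃ A' f, A = A' ++ [f] :=
    ⟨A.dropLast, A.getLast hA, (List.dropLast_append_getLast hA).symm⟩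
  -- the rotated path
  have hPnd := hP.1
  have hPch := hP.2.1
  rw [hM] at hPnd hPch
  have hrot : MdP W F (f :: (A'.reverse ++ (p :: b0 :: (B ++ c0 :: R)))) := by
    have hperm : (f :: (A'.reverse ++ (p :: b0 :: (B ++ c0 :: R)))).Perm
        (p :: (M ++ c0 :: R)) := by
      rw [hM, hAf]
      have e1 : f :: (A'.reverse ++ (p :: b0 :: (B ++ c0 :: R))) =
          (A' ++ [f]).reverse ++ (p :: b0 :: (B ++ c0 :: R)) := by
        rw [List.reverse_append, List.reverse_singleton]
        simp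
      rw [e1]
      refine (List.Perm.append_right _ (List.reverse_perm _)).trans ?_
      refine List.perm_middle.trans ?_
      simp
    refine ⟨hperm.nodup_iff.2 hP.1, ?_, fun x hx => hP.2.2 x (hperm.mem_iff.1 hx)⟩
    have e1 : f :: (A'.reverse ++ (p :: b0 :: (B ++ c0 :: R))) =
        (p :: A).reverse ++ (b0 :: (B ++ c0 :: R)) := by
      rw [hAf]; simp
    rw [e1, List.isChain_append]
    refine ⟨?_, ?_, ?_⟩
    · rw [List.isChain_reverse]
      have h1 : (p :: A).IsChain (fun a b => s(a, b) ∈ F) := by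
        have e2 : p :: (A ++ b0 :: B ++ c0 :: R) = (p :: A) ++ (b0 :: B ++ c0 :: R) := by simp
        rw [e2] at hPch
        exact hPch.left_of_append
      refine h1.imp ?_
      intro a b hab
      rw [Sym2.eq_swap]; exact hab
    · have e2 : p :: (A ++ b0 :: B ++ c0 :: R) = (p :: A) ++ (b0 :: (B ++ c0 :: R)) := by simp
      rw [e2] at hPch
      exact hPch.right_of_append
    · intro x hx y hy
      simp at hx hy
      subst hx; subst hy
      exact hpb
  have hrotl : (f :: (A'.reverse ++ (p :: b0 :: (B ++ c0 :: R)))).length = N := by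
    rw [← hPl, hM, hAf]
    simp
  obtain ⟨M', c', R', hL, hfc, hR'⟩ := hdec _ _ hrot hrotl
  have hlen := hmin f M' c' R' (by rw [← hL]; exact hrot) (by rw [← hL]; exact hrotl) hfc hR'
  have hUlen : (A'.reverse ++ (p :: b0 :: B)).length ≤ M'.length := by
    refine le_trans (le_of_eq ?_) hlen
    rw [hM, hAf]
    simp
  have hL2 : (A'.reverse ++ (p :: b0 :: B)) ++ (c0 :: R) = M' ++ (c' :: R') := by
    rw [← hL]; simp
  obtain ⟨U', hU1, hU2⟩ : ∃ U', M' = (A'.reverse ++ (p :: b0 :: B)) ++ U' ∧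
      c0 :: R = U' ++ (c' :: R') := by
    rw [List.append_eq_append_iff] at hL2
    rcases hL2 with ⟨U', h1, h2⟩ | ⟨U', h1, h2⟩
    · exact ⟨U', h1, h2⟩
    · have h3 : U' = [] := by
        have h4 : (A'.reverse ++ (p :: b0 :: B)).length = M'.length + U'.length := by
          rw [h1, List.length_append]
        exact List.length_eq_zero_iff.1 (by omega)
      subst h3
      refine ⟨[], ?_, ?_⟩
      · rw [List.append_nil]; rw [List.append_nil] at h1; exact h1.symm
      · rw [List.nil_append] at h2 ⊢; exact h2.symm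
  -- the final prefix
  obtain ⟨C, R2, hC1, hC2⟩ : ∃ C R2 : List V, R = C ++ R2 ∧ C.getLastD c0 = c' := by
    cases U' with
    | nil =>
      rw [List.nil_append] at hU2
      injection hU2 with h1 h2
      exact ⟨[], R, by simp, by simpa using h1⟩
    | cons u U2 =>
      rw [List.cons_append] at hU2
      injection hU2 with h1 h2
      refine ⟨U2 ++ [c'], R', by rw [h2]; simp, by simp⟩
  have hpre : p :: (A ++ (b0 :: (B ++ (c0 :: C)))) ++ R2 = p :: (M ++ c0 :: R) := by
    rw [hM, hC1]; simp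
  refine ⟨p, b0, c0, A, B, C, hA, ?_, ?_, ?_, hpb, hpc, ?_⟩
  · have h1 := hP.1
    rw [← hpre] at h1
    exact (List.nodup_append.1 h1).1
  · rw [md_we]
    have h1 := hP.2.1
    rw [← hpre] at h1
    exact h1.left_of_append
  · intro x hx
    refine hP.2.2 x ?_
    rw [← hpre]
    exact List.mem_append_left _ hx
  · have e1 : A.getLastD p = f := by rw [hAf]; simp
    rw [e1, hC2]
    exact hfc

end H98M
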