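import Pool.Agent.Lib.H98M.M0

/-!
# H98M, chunk MP: a vertex of degree two (pole theorem)

PROOF. `T0 := F.filter (b ∉ e)`, `S := Un cross (W.erase b) T0`,
`R := (W.erase b).image (s(b, ·))` filtered by 'crosses nothing of `T0`'.
(1) `Disc (W.erase b) T0`: remove `b` from its part; the part does not become empty since `u` (a neighbour of `b`)
is in the same part. So `Acy cross S` by `ih`.
(2) For `I ⊆ R`: `TI := T0 ∪ I` is plane, in `LW W`, and `Un cross W TI = Miss cross S I ∪ (R \ I)` (disjoint).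
(3) For `I ⊆ R` with at least three elements `Acy cross (Un cross W TI)`: `TI.card = T0.card + I.card >
T0.card + 2 = F.card`, so if `Disc W TI` use `ih2`, else `hC` with `b` (`TI.filter (b ∉ e) = T0`).
(4) `Acy cross (Miss cross S I)` for `I ⊆ R`, `3 ≤ I.card`: induction on `(R \ I).card`, `split_mp` (H98Z.S1)
with (2), (3): for `Y ⊆ R \ I` nonempty `Miss cross (Miss cross S I) Y = Miss cross S (I ∪ Y)` (`miss_miss`).
(5) `H24N.pole` with `h0 = (1)`, `h2` from `Geo.v2 W b` applied to `T0 ∪ P`, `h3 = (4)`: `Acy cross (Miss cross S I)`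
for all `I ⊆ R`.
(6) `F = T0 ∪ {s(b, u), s(b, v)}`; `split_mpr` with (2), (5) gives `Acy cross (Un cross W F)`.
`3 ≤ W.card` since `b, u, v ∈ W`.
-/

set_option autoImplicit false
set_option linter.unusedSectionVars false

namespace H98M

open Finset H98P H98Z

variable {V : Type*} [Fintype V] [DecidableEq V]

/-- the rays at `b` which cross nothing of `T` -/
private noncomputable def MPrays (cross : Sym2 V → Sym2 V → Prop) (W : Finset V) (b : V)
    (T : Finset (Sym2 V)) : Finset (Sym2 V) :=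
  Miss cross ((W.erase b).image fun x => s(b, x)) T

private theorem MPmem_rays {cross : Sym2 V → Sym2 V → Prop} {W : Finset V} {b : V}
    {T : Finset (Sym2 V)} {e : Sym2 V} : e ∈ MPrays cross W b T ↔
      (∃ x ∈ W, x ≠ b ∧ s(b, x) = e) ∧ ∀ f ∈ T, ¬ cross e f := by
  unfold MPrays
  rw [mem_miss, mem_image]
  constructor
  · rintro ⟨⟨x, hx, rfl⟩, h⟩
    exact ⟨⟨x, (mem_erase.1 hx).2, (mem_erase.1 hx).1, rfl⟩, h⟩
  · rintro ⟨⟨x, hx, hxb, rfl⟩, h⟩
    exact ⟨⟨x, mem_erase.2 ⟨hxb, hx⟩, rfl⟩, h⟩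

private theorem MPmem_LW_erase {W : Finset V} {b : V} {e : Sym2 V} :
    e ∈ LW (W.erase b) ↔ e ∈ LW W ∧ b ∉ e := by
  induction e with
  | _ x y =>
    rw [mem_LW, mem_LW, Sym2.mem_iff, not_or, mem_erase, mem_erase]
    constructor
    · rintro ⟨⟨h1, h2⟩, ⟨h3, h4⟩, h5⟩
      exact ⟨⟨h2, h4, h5⟩, Ne.symm h1, Ne.symm h3⟩
    · rintro ⟨⟨h2, h4, h5⟩, h1, h3⟩
      exact ⟨⟨Ne.symm h1, h2⟩, ⟨Ne.symm h3, h4⟩, h5⟩

private theorem MPdisc {W : Finset V} {F : Finset (Sym2 V)} (hF : F ⊆ LW W) (hD : Disc W F)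
    {b u : V} (hu : s(b, u) ∈ F) : Disc (W.erase b) (F.filter fun e => b ∉ e) := by
  obtain ⟨C, D, hC, hDn, hdis, hCD, hno⟩ := hD
  obtain ⟨hbW, huW, hbu⟩ := mem_LW.1 (hF hu)
  have hbCD : b ∈ C ∪ D := hCD ▸ hbW
  have huCD : u ∈ C ∪ D := hCD ▸ huW
  rcases mem_union.1 hbCD with hb | hb
  · have hbD : b ∉ D := disjoint_left.1 hdis hb
    have huC : u ∈ C := by
      rcases mem_union.1 huCD with h | h
      · exact h
      · exact absurd hu (hno b hb u h)
    refine ⟨C.erase b, D, ⟨u, mem_erase.2 ⟨Ne.symm hbu, huC⟩⟩, hDn,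
      disjoint_of_subset_left (erase_subset _ _) hdis, ?_, ?_⟩
    · rw [← hCD, erase_union_distrib, erase_eq_of_notMem hbD]
    · intro x hx y hy h
      exact hno x (mem_erase.1 hx).2 y hy (mem_filter.1 h).1
  · have hbC : b ∉ C := fun h => disjoint_left.1 hdis h hb
    have huD : u ∈ D := by
      rcases mem_union.1 huCD with h | h
      · exact absurd (by rw [Sym2.eq_swap]; exact hu) (hno u h b hb)
      · exact h
    refine ⟨C, D.erase b, hC, ⟨u, mem_erase.2 ⟨Ne.symm hbu, huD⟩⟩,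
      disjoint_of_subset_right (erase_subset _ _) hdis, ?_, ?_⟩
    · rw [← hCD, erase_union_distrib, erase_eq_of_notMem hbC]
    · intro x hx y hy h
      exact hno x hx y (mem_erase.1 hy).2 (mem_filter.1 h).1

/-- (2) the union -/
private theorem MPun {cross : Sym2 V → Sym2 V → Prop} (hadj : ∀ a b c, ¬ cross s(a, b) s(a, c))
    {W : Finset V} {b : V} (hb : b ∈ W) {T I : Finset (Sym2 V)} (hT : ∀ e ∈ T, b ∉ e)
    (hI : I ⊆ MPrays cross W b T) :
    Un cross W (T ∪ I) = Miss cross (Un cross (W.erase b) T) I ∪ (MPrays cross W b T \ I) := by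
  ext e
  have h0 : e ∈ Miss cross (Un cross (W.erase b) T) I ∪ (MPrays cross W b T \ I) ↔
      (((e ∈ LW W ∧ b ∉ e) ∧ (∀ f ∈ T, ¬ cross e f) ∧ e ∉ T) ∧ ∀ f ∈ I, ¬ cross e f) ∨
      ((∃ x ∈ W, x ≠ b ∧ s(b, x) = e) ∧ ∀ f ∈ T, ¬ cross e f) ∧ e ∉ I := by
    rw [mem_union, mem_miss, mem_un, mem_sdiff, MPmem_rays, MPmem_LW_erase]
  rw [mem_un, h0]
  by_cases hbe : b ∈ e
  · obtain ⟨x, rfl⟩ := hbe
    constructor
    · rintro ⟨h1, h2, h3⟩
      right
      rw [mem_LW] at h1
      exact ⟨⟨⟨x, h1.2.1, Ne.symm h1.2.2, rfl⟩, fun f hf => h2 f (mem_union_left _ hf)⟩,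
        fun h => h3 (mem_union_right _ h)⟩
    · rintro (⟨⟨⟨_, h⟩, _⟩, _⟩ | ⟨⟨⟨y, hy, hyb, hyx⟩, h2⟩, h3⟩)
      · exact absurd (Sym2.mem_mk_left b x) h
      · refine ⟨?_, ?_, ?_⟩
        · rw [← hyx, mem_LW]
          exact ⟨hb, hy, Ne.symm hyb⟩
        · intro f hf
          rcases mem_union.1 hf with h | h
          · exact h2 f h
          · obtain ⟨⟨z, _, _, rfl⟩, _⟩ := MPmem_rays.1 (hI h)
            exact hadj b x z
        · intro h
          rcases mem_union.1 h with h | h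
          · exact hT _ h (Sym2.mem_mk_left b x)
          · exact h3 h
  · constructor
    · rintro ⟨h1, h2, h3⟩
      left
      exact ⟨⟨⟨h1, hbe⟩, fun f hf => h2 f (mem_union_left _ hf), fun h => h3 (mem_union_left _ h)⟩,
        fun f hf => h2 f (mem_union_right _ hf)⟩
    · rintro (⟨⟨⟨h1, _⟩, h2, h3⟩, h4⟩ | ⟨⟨⟨y, _, _, rfl⟩, _⟩, _⟩)
      · refine ⟨h1, fun f hf => ?_, fun h => ?_⟩
        · rcases mem_union.1 hf with h | h
          · exact h2 f h
          · exact h4 f h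
        · rcases mem_union.1 h with h | h
          · exact h3 h
          · obtain ⟨⟨z, _, _, rfl⟩, _⟩ := MPmem_rays.1 (hI h)
            exact hbe (Sym2.mem_mk_left b z)
      · exact absurd (Sym2.mem_mk_left b y) hbe

private theorem MPdisj {cross : Sym2 V → Sym2 V → Prop} {W : Finset V} {b : V}
    {T I : Finset (Sym2 V)} :
    Disjoint (Miss cross (Un cross (W.erase b) T) I) (MPrays cross W b T \ I) := by
  rw [disjoint_left]
  intro e he he'
  obtain ⟨⟨x, _, _, rfl⟩, _⟩ := MPmem_rays.1 (mem_sdiff.1 he').1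
  exact (MPmem_LW_erase.1 (mem_un.1 (mem_miss.1 he).1).1).2 (Sym2.mem_mk_left b x)

private theorem MPplane {cross : Sym2 V → Sym2 V → Prop} (hG : Geo cross) {W : Finset V} {b : V}
    {T I : Finset (Sym2 V)} (hT : Plane cross T) (hI : I ⊆ MPrays cross W b T) :
    Plane cross (T ∪ I) := by
  refine plane_un hG.symm hT ?_ ?_
  · intro e he f hf
    obtain ⟨⟨x, _, _, rfl⟩, _⟩ := MPmem_rays.1 (hI he)
    obtain ⟨⟨y, _, _, rfl⟩, _⟩ := MPmem_rays.1 (hI hf)
    exact hG.adj b x y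
  · intro e he f hf h
    exact (MPmem_rays.1 (hI hf)).2 e he (hG.symm _ _ h)

theorem pole2 {cross : Sym2 V → Sym2 V → Prop} (hG : Geo cross) (hC : HC cross) {W : Finset V}
    {F : Finset (Sym2 V)} (hF : F ⊆ LW W) (hp : Plane cross F) (hD : Disc W F) {b u v : V}
    (huv : u ≠ v) (hu : s(b, u) ∈ F) (hv : s(b, v) ∈ F)
    (hdeg : ∀ z, s(b, z) ∈ F → z = u ∨ z = v) (ih : HD cross (W.erase b))
    (ih2 : ∀ F' : Finset (Sym2 V), F' ⊆ LW W → Plane cross F' → Disc W F' → F.card < F'.card →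
      Acy cross (Un cross W F')) : Acy cross (Un cross W F) := by
  obtain ⟨hbW, huW, hbu⟩ := mem_LW.1 (hF hu)
  obtain ⟨_, hvW, hbv⟩ := mem_LW.1 (hF hv)
  obtain ⟨T, hT⟩ : ∃ T, T = F.filter fun e => b ∉ e := ⟨_, rfl⟩
  have hTF : T ⊆ F := by
    rw [hT]
    exact filter_subset _ _
  have hTb : ∀ e ∈ T, b ∉ e := by
    intro e he
    rw [hT, mem_filter] at he
    exact he.2
  have hTp : Plane cross T := plane_sub hTF hp
  have hTd : Disc (W.erase b) T := by
    rw [hT]
    exact MPdisc hF hD hu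
  have hTL : T ⊆ LW (W.erase b) := fun e he => MPmem_LW_erase.2 ⟨hF (hTF he), hTb e he⟩
  have hray : ∀ x, s(b, x) ∈ F → s(b, x) ∈ MPrays cross W b T := by
    intro x hx
    obtain ⟨_, h1, h2⟩ := mem_LW.1 (hF hx)
    exact MPmem_rays.2 ⟨⟨x, h1, Ne.symm h2, rfl⟩, fun f hf => hp _ hx f (hTF hf)⟩
  have hW3 : 3 ≤ W.card := by
    have h1 : ({b, u, v} : Finset V) ⊆ W := by
      intro x hx
      simp only [mem_insert, mem_singleton] at hx
      rcases hx with rfl | rfl | rfl
      · exact hbW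
      · exact huW
      · exact hvW
    have h2 : ({b, u, v} : Finset V).card = 3 := card_eq_three.2 ⟨b, u, v, hbu, hbv, huv, rfl⟩
    have h3 := card_le_card h1
    omega
  -- `F = T ∪ I0`
  obtain ⟨I0, hI0⟩ : ∃ I0 : Finset (Sym2 V), I0 = {s(b, u), s(b, v)} := ⟨_, rfl⟩
  have hFT : F = T ∪ I0 := by
    ext e
    rw [mem_union, hT, mem_filter, hI0, mem_insert, mem_singleton]
    constructor
    · intro he
      by_cases hbe : b ∈ e
      · right
        obtain ⟨x, rfl⟩ := hbe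
        rcases hdeg x he with rfl | rfl
        · exact Or.inl rfl
        · exact Or.inr rfl
      · exact Or.inl ⟨he, hbe⟩
    · rintro (h | rfl | rfl)
      · exact h.1
      · exact hu
      · exact hv
  have hI0R : I0 ⊆ MPrays cross W b T := by
    intro e he
    rw [hI0, mem_insert, mem_singleton] at he
    rcases he with rfl | rfl
    · exact hray u hu
    · exact hray v hv
  have hI0c : I0.card = 2 := by
    rw [hI0]
    refine card_pair fun h => huv ?_
    exact Sym2.congr_right.1 h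
  have hTI : ∀ I ⊆ MPrays cross W b T, Disjoint T I := by
    intro I hI
    rw [disjoint_left]
    intro e he he'
    obtain ⟨⟨x, _, _, rfl⟩, _⟩ := MPmem_rays.1 (hI he')
    exact hTb _ he (Sym2.mem_mk_left b x)
  have hFc : F.card = T.card + 2 := by
    rw [hFT, card_union_of_disjoint (hTI I0 hI0R), hI0c]
  -- (3)
  have h3 : ∀ I ⊆ MPrays cross W b T, 3 ≤ I.card → Acy cross (Un cross W (T ∪ I)) := by
    intro I hI hc
    have h1 : T ∪ I ⊆ LW W := by
      refine union_subset (hTF.trans hF) fun e he => ?_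
      obtain ⟨⟨x, hx, hxb, rfl⟩, _⟩ := MPmem_rays.1 (hI he)
      exact mem_LW.2 ⟨hbW, hx, Ne.symm hxb⟩
    have h2 : Plane cross (T ∪ I) := MPplane hG hTp hI
    by_cases hd : Disc W (T ∪ I)
    · refine ih2 (T ∪ I) h1 h2 hd ?_
      rw [hFc, card_union_of_disjoint (hTI I hI)]
      omega
    · refine hC W (T ∪ I) b h1 h2 hbW hd ?_
      have h4 : ((T ∪ I).filter fun e => b ∉ e) = T := by
        ext e
        rw [mem_filter, mem_union]
        constructor
        · rintro ⟨h | h, hbe⟩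
          · exact h
          · obtain ⟨⟨x, _, _, rfl⟩, _⟩ := MPmem_rays.1 (hI h)
            exact absurd (Sym2.mem_mk_left b x) hbe
        · exact fun h => ⟨Or.inl h, hTb e h⟩
      rw [h4]
      exact hTd
  -- (4)
  have h4 : ∀ (k : ℕ), ∀ I ⊆ MPrays cross W b T, (MPrays cross W b T \ I).card = k →
      3 ≤ I.card → Acy cross (Miss cross (Un cross (W.erase b) T) I) := by
    intro k
    induction k using Nat.strong_induction_on with
    | _ k ihk =>
      intro I hI hk hc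
      refine split_mp hG.symm MPdisj (fun Y hY hYn _ => ?_) (by
        rw [← MPun hG.adj hbW hTb hI]
        exact h3 I hI hc)
      rw [miss_miss]
      have hIY : I ∪ Y ⊆ MPrays cross W b T := union_subset hI (hY.trans sdiff_subset)
      have hlt : (MPrays cross W b T \ (I ∪ Y)).card < k := by
        rw [← hk]
        refine card_lt_card ?_
        rw [ssubset_iff_of_subset (sdiff_subset_sdiff (Subset.refl _) subset_union_left)]
        obtain ⟨y, hy⟩ := hYn
        exact ⟨y, hY hy, fun h => (mem_sdiff.1 h).2 (mem_union_right _ hy)⟩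
      refine ihk _ hlt (I ∪ Y) hIY rfl ?_
      have h5 := card_le_card (subset_union_left : I ⊆ I ∪ Y)
      omega
  -- (5)
  have h5 : ∀ I ⊆ MPrays cross W b T, Acy cross (Miss cross (Un cross (W.erase b) T) I) := by
    refine H24N.pole (ih T hTL hTp hTd) ?_ fun I hI hc => h4 _ I hI rfl hc
    intro P hP hPp
    have h1 : T ∪ P ⊆ LW (W.erase b) :=
      union_subset hTL fun e he => (mem_un.1 (hP he)).1
    have h2 : Plane cross (T ∪ P) := plane_un hG.symm hTp hPp fun e he f hf h =>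
      (mem_un.1 (hP hf)).2.1 e he (hG.symm _ _ h)
    obtain ⟨z, hz, z', hz', hne, h6, h7⟩ := hG.v2 W hW3 b hbW (T ∪ P) h1 h2
    rw [mem_erase] at hz hz'
    refine ⟨s(b, z), MPmem_rays.2 ⟨⟨z, hz.2, hz.1, rfl⟩, fun f hf => h6 f (mem_union_left _ hf)⟩,
      s(b, z'), MPmem_rays.2 ⟨⟨z', hz'.2, hz'.1, rfl⟩, fun f hf => h7 f (mem_union_left _ hf)⟩,
      fun h => hne (Sym2.congr_right.1 h), fun p hp' h => ?_, fun p hp' h => ?_⟩
    · exact h6 p (mem_union_right _ hp') (hG.symm _ _ h)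
    · exact h7 p (mem_union_right _ hp') (hG.symm _ _ h)
  -- (6)
  rw [hFT, MPun hG.adj hbW hTb hI0R]
  refine split_mpr hG.symm MPdisj (fun Y hY _ _ => ?_) (h5 I0 hI0R)
  rw [miss_miss]
  exact h5 _ (union_subset hI0R (hY.trans sdiff_subset))

end H98M
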