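import Pool.Agent.Lib.H98M.MD
import Pool.Agent.Lib.H98M.MK
import Pool.Agent.Lib.H98M.MC
import Pool.Agent.Lib.H98M.MP
import Pool.Agent.Lib.H98Z.S4

/-!
# H98M, file MF: the disconnected case follows from the cut vertex case
-/

set_option autoImplicit false
set_option linter.unusedSectionVars false

namespace H98M

open Finset H98P H98Z

variable {V : Type*} [Fintype V] [DecidableEq V]

theorem we_chain {F : Finset (Sym2 V)} : ∀ l : List V,
    (∀ e ∈ we l, e ∈ F) ↔ l.IsChain (fun a b => s(a, b) ∈ F)
  | [] => by simp [we]
  | [_] => by simp [we]
  | a :: b :: l => by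
    rw [we, List.forall_mem_cons, we_chain (b :: l), List.isChain_cons_cons]

theorem getLast?_cons (a : V) (l : List V) : (a :: l).getLast? = some (l.getLastD a) := by
  rw [List.getLast?_cons, List.getLastD_eq_getLast?]

/-- The four cycles of a subdivided K4. -/
theorem four {F : Finset (Sym2 V)} {a0 b0 c0 : V} {A B C : List V}
    (hF : ∀ e ∈ we (a0 :: (A ++ (b0 :: (B ++ (c0 :: C))))), e ∈ F)
    (h1 : s(a0, b0) ∈ F) (h2 : s(a0, c0) ∈ F) (h3 : s(A.getLastD a0, C.getLastD c0) ∈ F) :
    (∀ e ∈ ce (a0 :: (A ++ [b0])), e ∈ F) ∧
    (∀ e ∈ ce (a0 :: (A ++ (c0 :: C).reverse)), e ∈ F) ∧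
    (∀ e ∈ ce (a0 :: b0 :: (B ++ [c0])), e ∈ F) ∧
    (∀ e ∈ ce (A.getLastD a0 :: b0 :: (B ++ (c0 :: C))), e ∈ F) := by
  have sw : ∀ {x y : V}, s(x, y) ∈ F → s(y, x) ∈ F := fun h => by
    rw [Sym2.eq_swap]
    exact h
  rw [we_chain, ← List.cons_append, List.isChain_append] at hF
  obtain ⟨hA, hBC, hab⟩ := hF
  have hab' : s(A.getLastD a0, b0) ∈ F := hab _ (by rw [getLast?_cons]; rfl) b0 rfl
  have hBC0 := hBC
  rw [← List.cons_append, List.isChain_append] at hBC
  obtain ⟨hB, hC, hbc⟩ := hBC
  have hbc' : s(B.getLastD b0, c0) ∈ F := hbc _ (by rw [getLast?_cons]; rfl) c0 rfl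
  refine ⟨?_, ?_, ?_, ?_⟩
  · rw [ce, we_chain]
    have e1 : a0 :: (A ++ [b0] ++ [a0]) = (a0 :: A) ++ [b0, a0] := by simp
    rw [e1, List.isChain_append]
    refine ⟨hA, ?_, ?_⟩
    · rw [List.isChain_cons_cons]
      exact ⟨sw h1, List.isChain_singleton _⟩
    · intro x hx y hy
      rw [getLast?_cons] at hx
      cases hx
      cases hy
      exact hab'
  · rw [ce, we_chain]
    have e1 : a0 :: (A ++ (c0 :: C).reverse ++ [a0]) = (a0 :: A) ++ ((c0 :: C).reverse ++ [a0]) := by
      simp
    rw [e1, List.isChain_append, List.isChain_append]
    refine ⟨hA, ⟨?_, List.isChain_singleton _, ?_⟩, ?_⟩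
    · rw [List.isChain_reverse]
      exact hC.imp fun _ _ h => sw h
    · intro x hx y hy
      rw [List.getLast?_reverse, List.head?_cons] at hx
      cases hx
      cases hy
      exact sw h2
    · intro x hx y hy
      rw [getLast?_cons] at hx
      cases hx
      rw [List.head?_append, List.head?_reverse, getLast?_cons] at hy
      cases hy
      exact h3
  · rw [ce, we_chain]
    have e1 : a0 :: (b0 :: (B ++ [c0]) ++ [a0]) = a0 :: ((b0 :: B) ++ [c0, a0]) := by simp
    rw [e1, List.cons_append, List.isChain_cons_cons, ← List.cons_append, List.isChain_append]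
    refine ⟨h1, hB, ?_, ?_⟩
    · rw [List.isChain_cons_cons]
      exact ⟨sw h2, List.isChain_singleton _⟩
    · intro x hx y hy
      rw [getLast?_cons] at hx
      cases hx
      cases hy
      exact hbc'
  · rw [ce, we_chain]
    have e1 : A.getLastD a0 :: (b0 :: (B ++ (c0 :: C)) ++ [A.getLastD a0]) =
        A.getLastD a0 :: ((b0 :: (B ++ (c0 :: C))) ++ [A.getLastD a0]) := by simp
    rw [e1, List.cons_append, List.isChain_cons_cons, ← List.cons_append, List.isChain_append]
    refine ⟨hab', hBC0, List.isChain_singleton _, ?_⟩
    intro x hx y hy
    have e2 : b0 :: (B ++ (c0 :: C)) = (b0 :: B) ++ (c0 :: C) := by simp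
    rw [e2, List.getLast?_append, getLast?_cons] at hx
    cases hx
    cases hy
    exact sw h3

theorem hd_of_hc {cross : Sym2 V → Sym2 V → Prop} (hG : Geo cross) (hC : HC cross) :
    ∀ W : Finset V, HD cross W := by
  have main : ∀ (n : ℕ) (W : Finset V), W.card = n → HD cross W := by
    intro n
    induction n using Nat.strong_induction_on with
    | _ n ihn =>
      intro W hWn
      have ih : ∀ W' : Finset V, W' ⊂ W → HD cross W' := fun W' h => by
        have h1 := card_lt_card h
        exact ihn W'.card (by omega) W' rfl
      have inner : ∀ (k : ℕ) (F : Finset (Sym2 V)), (LW W).card - F.card = k → F ⊆ LW W →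
          Plane cross F → Disc W F → Acy cross (Un cross W F) := by
        intro k
        induction k using Nat.strong_induction_on with
        | _ k ihk =>
          intro F hk hF hp hD
          have ih2 : ∀ F' : Finset (Sym2 V), F' ⊆ LW W → Plane cross F' → Disc W F' →
              F.card < F'.card → Acy cross (Un cross W F') := by
            intro F' h1 h2 h3 h4
            have h5 := card_le_card h1
            exact ihk _ (by omega) F' rfl h1 h2 h3
          rcases Nat.lt_or_ge W.card 3 with hW | hW
          · -- two vertices
            obtain ⟨C, D, ⟨a, ha⟩, ⟨b, hb⟩, hCD, hCDW, hs⟩ := hD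
            have haW : a ∈ W := by rw [← hCDW]; exact mem_union_left _ ha
            have hbW : b ∈ W := by rw [← hCDW]; exact mem_union_right _ hb
            have hab : a ≠ b := fun h => disjoint_left.1 hCD ha (h ▸ hb)
            have hWe : ∀ x ∈ W, x = a ∨ x = b := by
              intro x hx
              by_contra h
              push Not at h
              have h3 : ({x, a, b} : Finset V) ⊆ W := by
                intro y hy
                simp only [mem_insert, mem_singleton] at hy
                rcases hy with rfl | rfl | rfl
                · exact hx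
                · exact haW
                · exact hbW
              have h4 : ({x, a, b} : Finset V).card = 3 :=
                card_eq_three.2 ⟨x, a, b, h.1, h.2, hab, rfl⟩
              have h5 := card_le_card h3
              omega
            have hLe : ∀ e ∈ LW W, e = s(a, b) := by
              intro e he
              induction e with
              | _ x y =>
                obtain ⟨h4, h5, h6⟩ := mem_LW.1 he
                rcases hWe x h4 with rfl | rfl <;> rcases hWe y h5 with rfl | rfl
                · exact absurd rfl h6
                · rfl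
                · exact Sym2.eq_swap
                · exact absurd rfl h6
            have hFe : ∀ e, e ∉ F := fun e he => by
              have h3 := hLe e (hF he)
              rw [h3] at he
              exact hs a ha b hb he
            refine acy_simplex hG.symm (fun e he f hf => ?_) ⟨s(a, b), ?_⟩
            · rw [hLe e (mem_un.1 he).1, hLe f (mem_un.1 hf).1]
              exact hG.adj a b b
            · exact mem_un.2 ⟨mem_LW.2 ⟨haW, hbW, hab⟩, fun f hf => absurd hf (hFe f), hFe _⟩
          by_cases hd1 : ∃ x ∈ W, ∃ y, ∀ z, s(x, z) ∈ F → z = y
          · obtain ⟨x, hx, y, hy⟩ := hd1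
            exact acy_leaf hG.symm hG.adj hF hp hx (hG.v2 W hW x hx) hy
          push Not at hd1
          by_cases hd2 : ∃ x, ∃ u v, u ≠ v ∧ s(x, u) ∈ F ∧ s(x, v) ∈ F ∧
              ∀ z, s(x, z) ∈ F → z = u ∨ z = v
          · obtain ⟨x, u, v, huv, hu, hv, hz⟩ := hd2
            have hx : x ∈ W := (mem_LW.1 (hF hu)).1
            exact pole2 hG hC hF hp hD huv hu hv hz
              (ih _ (erase_ssubset hx)) ih2
          push Not at hd2
          have hdeg : ∀ x ∈ W, ∃ a b c, a ≠ b ∧ b ≠ c ∧ a ≠ c ∧ s(x, a) ∈ F ∧ s(x, b) ∈ F ∧
              s(x, c) ∈ F := by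
            intro x hx
            obtain ⟨a, ha, _⟩ := hd1 x hx x
            obtain ⟨b, hb, hba⟩ := hd1 x hx a
            obtain ⟨c, hc, hca, hcb⟩ := hd2 x a b (Ne.symm hba) ha hb
            exact ⟨a, b, c, Ne.symm hba, Ne.symm hcb, Ne.symm hca, ha, hb, hc⟩
          have hWn : W.Nonempty := card_pos.1 (by omega)
          obtain ⟨a0, b0, c0, A, B, C, hA, hnd, hwe, hmem, h1, h2, h3⟩ := dirac hF hWn hdeg
          -- a vertex off the path
          obtain ⟨z, hzW, hz⟩ : ∃ z ∈ W, z ∉ a0 :: (A ++ (b0 :: (B ++ (c0 :: C)))) := by
            obtain ⟨P, Q, hP, hQ, hPQ, hPQW, hs⟩ := hD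
            have ha0 := hmem a0 List.mem_cons_self
            rw [← hPQW, mem_union] at ha0
            rcases ha0 with ha0 | ha0
            · obtain ⟨z, hz⟩ := hQ
              refine ⟨z, by rw [← hPQW]; exact mem_union_right _ hz, fun h => ?_⟩
              rcases List.mem_cons.1 h with rfl | h
              · exact disjoint_left.1 hPQ ha0 hz
              · exact disjoint_left.1 hPQ (walk_in hF hPQW hs _ a0 ha0 hwe z h) hz
            · obtain ⟨z, hz⟩ := hP
              refine ⟨z, by rw [← hPQW]; exact mem_union_left _ hz, fun h => ?_⟩
              have hs' : ∀ u ∈ Q, ∀ v ∈ P, s(u, v) ∉ F := fun u hu v hv => by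
                rw [Sym2.eq_swap]
                exact hs v hv u hu
              rcases List.mem_cons.1 h with rfl | h
              · exact disjoint_left.1 hPQ hz ha0
              · exact disjoint_left.1 hPQ hz
                  (walk_in hF (by rw [union_comm]; exact hPQW) hs' _ a0 ha0 hwe z h)
          have hk := k4 hG hp hA hnd hwe h1 h2 h3 hz
          obtain ⟨f1, f2, f3, f4⟩ := four hwe h1 h2 h3
          have key : ∀ (q : V) (L : List V), (∀ e ∈ ce L, e ∈ F) →
              q ∈ a0 :: (A ++ (b0 :: (B ++ (c0 :: C)))) → q ∉ L →
              (∀ y ∈ L, y ∈ a0 :: (A ++ (b0 :: (B ++ (c0 :: C))))) →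
              cy (cr cross s(q, z)) L = 1 → Acy cross (Un cross W F) := by
            intro q L hL hq hqL hsub hs
            exact cyc hG hF hp hD hL (hmem q hq) hzW hqL (fun h => hz (hsub z h)) hs ih
          have hAl : A.getLastD a0 ∈ A := by
            rcases getLastD_mem a0 A with h | h
            · cases A with
              | nil => exact absurd rfl hA
              | cons x A =>
                rw [List.getLastD_cons] at h
                rcases getLastD_mem x A with h' | h'
                · rw [List.getLastD_cons, h']
                  exact List.mem_cons_self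
                · rw [List.getLastD_cons]
                  exact List.mem_cons_of_mem _ h'
            · exact h
          have hnd' := hnd
          simp only [List.nodup_cons, List.nodup_append, List.mem_append, List.mem_cons] at hnd'
          by_contra hcon
          have g1 : cy (cr cross s(c0, z)) (a0 :: (A ++ [b0])) = 0 := by
            rcases zmod2 (cy (cr cross s(c0, z)) (a0 :: (A ++ [b0]))) with h | h
            · exact h
            · refine absurd (key c0 _ f1 (by simp) ?_ ?_ h) hcon
              · intro hc
                simp only [List.mem_cons, List.mem_append, List.not_mem_nil, or_false] at hc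
                grind
              · intro y hy
                simp only [List.mem_cons, List.mem_append, List.not_mem_nil, or_false] at hy ⊢
                tauto
          have g2 : cy (cr cross s(b0, z)) (a0 :: (A ++ (c0 :: C).reverse)) = 0 := by
            rcases zmod2 (cy (cr cross s(b0, z)) (a0 :: (A ++ (c0 :: C).reverse))) with h | h
            · exact h
            · refine absurd (key b0 _ f2 (by simp) ?_ ?_ h) hcon
              · intro hc
                simp only [List.mem_cons, List.mem_append, List.mem_reverse] at hc
                grind
              · intro y hy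
                simp only [List.mem_cons, List.mem_append, List.mem_reverse] at hy ⊢
                tauto
          have g3 : cy (cr cross s(A.getLastD a0, z)) (a0 :: b0 :: (B ++ [c0])) = 0 := by
            rcases zmod2 (cy (cr cross s(A.getLastD a0, z)) (a0 :: b0 :: (B ++ [c0]))) with h | h
            · exact h
            · refine absurd (key _ _ f3 (List.mem_cons_of_mem _ (List.mem_append_left _ hAl)) ?_ ?_ h)
                hcon
              · intro hc
                simp only [List.mem_cons, List.mem_append, List.not_mem_nil, or_false] at hc
                grind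
              · intro y hy
                simp only [List.mem_cons, List.mem_append, List.not_mem_nil, or_false] at hy ⊢
                tauto
          have g4 : cy (cr cross s(a0, z)) (A.getLastD a0 :: b0 :: (B ++ (c0 :: C))) = 0 := by
            rcases zmod2 (cy (cr cross s(a0, z)) (A.getLastD a0 :: b0 :: (B ++ (c0 :: C)))) with h | h
            · exact h
            · refine absurd (key a0 _ f4 List.mem_cons_self ?_ ?_ h) hcon
              · intro hc
                simp only [List.mem_cons, List.mem_append] at hc
                grind
              · intro y hy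
                simp only [List.mem_cons, List.mem_append] at hy ⊢
                rcases hy with rfl | hy
                · exact Or.inr (Or.inl hAl)
                · tauto
          rw [g1, g2, g3, g4] at hk
          simp at hk
      exact fun F hF hp hD => inner _ F rfl hF hp hD
  exact fun W => main _ W rfl

end H98M
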